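import Pool.Agent.Helper91_DA.Laws3

/-!
There are no two nearly closed components seeing both ends, one seeing more units on the left and the
other one more units on the right.
-/

set_option autoImplicit false
set_option linter.unusedSectionVars false

namespace CLB.H91

open Finset Classical
open H3DA (Q neg nr)
open CLB.H95
open CLB.H3 (CExt Cat IsTwo Fits UPath he_of_unc cat_structure chn_side pos one_le_pos pos_le cat_adj_pos)

variable {V : Type*} {G H : SimpleGraph V} {R : V → Bool} [Fintype V] {k : ℕ} {x y : ℕ → V}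

/-- The situation of two components. -/
lemma pc_of (h : Chn H R k x y) {m : ℕ} {z c : ℕ → V} (hK : Cat H R m z c) (hm : 2 ≤ m)
    {m' : ℕ} {z' c' : ℕ → V} (hK' : Cat H R m' z' c') (hm' : 2 ≤ m') (hne : cSupp m z ≠ cSupp m' z')
    {a b : ℕ} (ha : 2 ≤ a) (hb : 2 ≤ b) (hak : a + 2 ≤ k) (hs : Sp k x y m c a 1)
    (hs' : Sp k x y m' c' 1 b) {q : ℕ} (hq : q ≤ m + 1) (hcq : c q = y k) :
    PC H R k x y m z c q m' z' c' a b where
  lc := by
    refine ⟨hK, hm, hq, hcq, fun j hj hjq hin => ?_⟩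
    rcases hs.all j hj hin with ⟨i, i1, i2, i3⟩ | ⟨i, i1, i2, i3⟩
    · rw [i3, idx_x h i1 (by omega)]; omega
    · exfalso
      have e : i = k := by omega
      subst e
      exact hjq (hs.inj _ _ hj hq hin (i3.trans hcq.symm))
  cat' := hK'
  hm' := hm'
  ne := hne
  sp := hs
  sp' := hs'
  a2 := ha
  b2 := hb
  ak := hak

lemma lm_exists {m q : ℕ} (hq : q ≤ m + 1) (h : ¬ (2 ≤ q ∧ q + 1 ≤ m)) : ∃ q', LM m q q' := by
  have : q = 0 ∨ q = 1 ∨ q = m ∨ q = m + 1 := by omega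
  rcases this with e | e | e | e
  · exact ⟨1, Or.inl ⟨e, rfl⟩⟩
  · exact ⟨0, Or.inr (Or.inl ⟨e, rfl⟩)⟩
  · exact ⟨m + 1, Or.inr (Or.inr (Or.inl ⟨e, rfl⟩))⟩
  · exact ⟨m, Or.inr (Or.inr (Or.inr ⟨e, rfl⟩))⟩

/-- The case of many units. -/
theorem pair_far (hR : Opt G R) (hG : ClassC G R) (hle : H ≤ G) (hc : Crit H R)
    (h : Chn H R k x y) (hk : 4 ≤ k) (hends : (∀ w, ¬ Lk H R (x 1) w) ∧ ∀ w, ¬ Lk H R (y k) w)
    (hloc : LocH H R k x y) {m : ℕ} {z c : ℕ → V} (hK : Cat H R m z c) (hm : 2 ≤ m)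
    {m' : ℕ} {z' c' : ℕ → V} (hK' : Cat H R m' z' c') (hm' : 2 ≤ m') (hne : cSupp m z ≠ cSupp m' z')
    {a b : ℕ} (ha : 2 ≤ a) (hb : 2 ≤ b) (hak : a + 3 ≤ k) (hs : Sp k x y m c a 1)
    (hs' : Sp k x y m' c' 1 b) (hN : NCp m (JC k x y c)) : False := by
  have hH := hG.mono hle
  obtain ⟨q, hq, hcq⟩ := hs.py k le_rfl (by omega)
  have hP := pc_of h hK hm hK' hm' hne ha hb (by omega) hs hs' hq hcq
  by_cases hin : 2 ≤ q ∧ q + 1 ≤ m
  · exact strat_inner hR hG hle hc h hk hends hloc hP hin.1 hin.2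
  obtain ⟨q', hq'⟩ := lm_exists hq hin
  have hfk := ncp_forks hN
  obtain ⟨o, o', hO, ho⟩ : ∃ o o', OF m q q' o o' ∧ InC k x y (c o) := by
    by_cases h1 : q ≤ 1
    · rcases hfk.2 with h2 | h2
      · exact ⟨m, m + 1, ⟨hq', Or.inr (Or.inr (Or.inl ⟨rfl, rfl⟩)), by omega, by
          unfold LM at hq'; omega⟩, h2⟩
      · exact ⟨m + 1, m, ⟨hq', Or.inr (Or.inr (Or.inr ⟨rfl, rfl⟩)), by omega, by
          unfold LM at hq'; omega⟩, h2⟩
    · rcases hfk.1 with h2 | h2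
      · exact ⟨0, 1, ⟨hq', Or.inl ⟨rfl, rfl⟩, by omega, by
          unfold LM at hq'; omega⟩, h2⟩
      · exact ⟨1, 0, ⟨hq', Or.inr (Or.inl ⟨rfl, rfl⟩), by omega, by
          unfold LM at hq'; omega⟩, h2⟩
  have hlow : ∀ j ≤ m + 1, j ≠ q → InC k x y (c j) → ∃ i, 1 ≤ i ∧ i ≤ a ∧ c j = x i := by
    intro j hj hjq hin
    rcases hs.all j hj hin with h1 | ⟨i, i1, i2, i3⟩
    · exact h1
    · exfalso
      have e : i = k := by omega
      subst e
      exact hjq (hs.inj _ _ hj hq hin (i3.trans hcq.symm))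
  have hom := hO.lo.le hm
  have hO' := hO.symm hm
  obtain ⟨u, u1, u2, hcu⟩ := hlow o hom.1 hO.n1 ho
  by_cases hin' : InC k x y (c o')
  · obtain ⟨v, v1, v2, hcv⟩ := hlow o' hom.2.1 hO'.n1 hin'
    have hpar := port_par h hK hom.1 hom.2.1 (u := u) (v := v) ⟨u1, by omega⟩ ⟨v1, by omega⟩
      (Or.inl hcu) (Or.inl hcv)
    rw [hO.lo.pos_eq hm] at hpar
    have huv : u ≠ v := by
      rintro rfl
      exact hom.2.2 (hs.inj _ _ hom.1 hom.2.1 ho (hcu.trans hcv.symm))
    rcases Nat.lt_or_gt_of_ne huv with hlt | hlt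
    · by_cases h1 : u = 1
      · subst h1
        exact strat_gamma hR hG hle hc h hk hends hloc hP hO' (u := v) (by omega) v2 hcv hcu hak
      · exact no_fork_xx hH h hK hm hO'.lo (u := v) (v := u) (by omega) hlt (by omega) hcv hcu
    · by_cases h1 : v = 1
      · subst h1
        exact strat_gamma hR hG hle hc h hk hends hloc hP hO (u := u) (by omega) u2 hcu hcv hak
      · exact no_fork_xx hH h hK hm hO.lo (u := u) (v := v) (by omega) hlt (by omega) hcu hcv
  · by_cases h1 : u = 1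
    · subst h1
      exact strat_alpha hR hG hle hc h hk hends hloc hP hO hcu hin' hak
    · exact strat_beta hR hG hle hc h hk hends hloc hP hO (u := u) (by omega) u2 hcu hin' hak

/-- Four units, two of them seen from the left. -/
theorem pair_four (hR : Opt G R) (hG : ClassC G R) (hle : H ≤ G) (hc : Crit H R)
    (h : Chn H R 4 x y) (hends : (∀ w, ¬ Lk H R (x 1) w) ∧ ∀ w, ¬ Lk H R (y 4) w)
    (hloc : LocH H R 4 x y) {m : ℕ} {z c : ℕ → V} (hK : Cat H R m z c) (hm : 2 ≤ m)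
    {m' : ℕ} {z' c' : ℕ → V} (hK' : Cat H R m' z' c') (hm' : 2 ≤ m') (hne : cSupp m z ≠ cSupp m' z')
    {b : ℕ} (hb : 2 ≤ b) (hs : Sp 4 x y m c 2 1)
    (hs' : Sp 4 x y m' c' 1 b) (hN : NCp m (JC 4 x y c)) : False := by
  rcases Nat.lt_or_ge m 3 with hm3 | hm3
  · have hm2 : m = 2 := by omega
    subst hm2
    obtain ⟨a1, ha1, hc1⟩ := hs.px 1 le_rfl (by omega)
    obtain ⟨a2, ha2, hc2⟩ := hs.px 2 (by omega) (by omega)
    obtain ⟨q, hq, hcq⟩ := hs.py 4 le_rfl (by omega)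
    have n12 : a1 ≠ a2 := by
      rintro rfl
      have := h.injx 1 2 (by omega) (by omega) (by omega) (by omega) (hc1.symm.trans hc2)
      omega
    have n1q : a1 ≠ q := by
      rintro rfl
      exact h.xy 1 4 (by omega) (by omega) (by omega) (by omega) (hc1.symm.trans hcq)
    have n2q : a2 ≠ q := by
      rintro rfl
      exact h.xy 2 4 (by omega) (by omega) (by omega) (by omega) (hc2.symm.trans hcq)
    have r12 := port_par h hK ha1 ha2 (u := 1) (v := 2) ⟨by omega, by omega⟩ ⟨by omega, by omega⟩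
      (Or.inl hc1) (Or.inl hc2)
    have r1q := port_par h hK ha1 hq (u := 1) (v := 4) ⟨by omega, by omega⟩ ⟨by omega, by omega⟩
      (Or.inl hc1) (Or.inr hcq)
    have hpos : ∀ j ≤ 3, (j ≤ 1 ∧ pos 2 j = 1) ∨ (2 ≤ j ∧ pos 2 j = 2) := by
      intro j hj
      unfold pos; split_ifs <;> omega
    have p1 := hpos a1 ha1
    have p2 := hpos a2 ha2
    have pq := hpos q hq
    have hlq : LM 2 q a2 := by unfold LM; omega
    obtain ⟨o', ho'⟩ := lm_exists (m := 2) (q := a1) ha1 (by omega)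
    have hom := ho'.le le_rfl
    have po := hpos o' hom.2.1
    have hO : OF 2 q a2 a1 o' := ⟨hlq, ho', n1q, n12⟩
    have hout : ¬ InC 4 x y (c o') := by
      intro hin
      rcases hs.all o' hom.2.1 hin with ⟨i, i1, i2, i3⟩ | ⟨i, i1, i2, i3⟩
      · have : i = 1 ∨ i = 2 := by omega
        rcases this with rfl | rfl
        · exact hom.2.2 (hs.inj _ _ hom.2.1 ha1 hin (i3.trans hc1.symm)).symm
        · have := hs.inj _ _ hom.2.1 ha2 hin (i3.trans hc2.symm)
          unfold LM at ho' hlq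
          omega
      · have : i = 4 := by omega
        subst this
        have := hs.inj _ _ hom.2.1 hq hin (i3.trans hcq.symm)
        unfold LM at ho' hlq
        omega
    refine strat_adj hR hG hle hc h le_rfl hends hloc
      (pc_of h hK hm hK' hm' hne le_rfl hb (by omega) hs hs' hq hcq) hO hc1 hout ha2 hc2 ?_
    unfold LM at ho' hlq
    omega
  · have := (sp_four h hK hm le_rfl hs hN hm3).2.1
    omega

/-- Five units, three of them seen from both sides. -/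
theorem pair_five (hR : Opt G R) (hG : ClassC G R) (hle : H ≤ G) (hc : Crit H R)
    (h : Chn H R 5 x y) (hends : (∀ w, ¬ Lk H R (x 1) w) ∧ ∀ w, ¬ Lk H R (y 5) w)
    (hloc : LocH H R 5 x y) {m : ℕ} {z c : ℕ → V} (hK : Cat H R m z c) (hm : 2 ≤ m)
    {m' : ℕ} {z' c' : ℕ → V} (hK' : Cat H R m' z' c') (hm' : 2 ≤ m') (hne : cSupp m z ≠ cSupp m' z')
    (hs : Sp 5 x y m c 3 1)
    (hs' : Sp 5 x y m' c' 1 3) (hN : NCp m (JC 5 x y c)) (hN' : NCp m' (JC 5 x y c')) : False := by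
  have hH := hG.mono hle
  obtain ⟨rfl, hc2, q, q', o, o', hO, hcq, hcase⟩ := sp_five h hK hm hs hN
  obtain ⟨rfl, hc2', p, p', r, r', hO', hcp, hcase'⟩ := sp_five h.rev hK' hm' hs'.rev
    (by rw [jc_rev]; exact hN')
  have hcp' : c' p = x 1 := hcp
  have hql := hO.lq.le hm
  have hpl := hO'.lq.le hm'
  have hol := hO.lo.le hm
  have hrl := hO'.lo.le hm'
  -- a fork with both ends
  have noK : c q' ≠ x 1 := by
    intro he
    have hcl := cl_mem hK.pos hql.1
    have a1 := cat_adj_pos hK hql.1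
    have a2 := cat_adj_pos hK hql.2.1
    rw [hcq] at a1
    rw [he, ← hO.lq.pos_eq hm] at a2
    exact no_end_fork hH hc h hK' hm' hs' hN' (w := z (cl 3 q)) (hK.unc _ hcl.1 hcl.2)
      (fun i i1 i2 hz => hne (cSupp_eq hK hK' (mem_cSupp hcl.1 hcl.2)
        (by rw [← hz]; exact mem_cSupp i1 i2))) a2 a1
  have noK' : c' p' ≠ y 5 := by
    intro he
    have hcl := cl_mem hK'.pos hpl.1
    have a1 := cat_adj_pos hK' hpl.1
    have a2 := cat_adj_pos hK' hpl.2.1
    rw [hcp'] at a1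
    rw [he, ← hO'.lq.pos_eq hm'] at a2
    exact no_end_fork hH hc h hK hm hs hN (w := z' (cl 3 p)) (hK'.unc _ hcl.1 hcl.2)
      (fun i i1 i2 hz => hne (cSupp_eq hK hK' (mem_cSupp i1 i2)
        (by rw [hz]; exact mem_cSupp hcl.1 hcl.2))) a1 a2
  have e2 : pos 3 2 = 2 := by decide
  rcases hcase with h1 | ⟨-, h2, h3⟩ | ⟨h1, -, -⟩
  · exact noK h1
  · refine strat_adj hR hG hle hc h (by omega) hends hloc
      (pc_of h hK hm hK' hm' hne (by omega) (by omega) (by omega) hs hs' hql.1 hcq) hO h2 h3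
      (j2 := 2) (by omega) hc2 ?_
    have : o' ≠ 2 := by have := hO.lo; unfold LM at this; omega
    have : pos 3 o' = 1 ∨ pos 3 o' = 3 := by unfold pos; split_ifs <;> omega
    omega
  · rcases hcase' with h1' | ⟨-, h2', h3'⟩ | ⟨-, h2', h3'⟩
    · exact noK' h1'
    · refine strat_adj hR hG hle hc h.rev (by omega) (ends_rev hends) (locH_rev (by omega) hloc)
        (pc_of h.rev hK' hm' hK hm hne.symm (by omega) (by omega) (by omega) hs'.rev hs.rev hpl.1 hcp)
        hO' h2' h3' (j2 := 2) (by omega) hc2' ?_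
      have : r' ≠ 2 := by have := hO'.lo; unfold LM at this; omega
      have : pos 3 r' = 1 ∨ pos 3 r' = 3 := by unfold pos; split_ifs <;> omega
      omega
    · exact no_a3b3 hH h hK hK' hne hO.lq hcq h1 hc2 hO'.lo h2' h3'

/-- The shorter side. -/
theorem pair_le (hR : Opt G R) (hG : ClassC G R) (hle : H ≤ G) (hc : Crit H R)
    (h : Chn H R k x y) (hk : 4 ≤ k) (hends : (∀ w, ¬ Lk H R (x 1) w) ∧ ∀ w, ¬ Lk H R (y k) w)
    (hloc : LocH H R k x y) {m : ℕ} {z c : ℕ → V} (hK : Cat H R m z c) (hm : 2 ≤ m)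
    {m' : ℕ} {z' c' : ℕ → V} (hK' : Cat H R m' z' c') (hm' : 2 ≤ m') (hne : cSupp m z ≠ cSupp m' z')
    {a b : ℕ} (ha : 2 ≤ a) (hab : a ≤ b) (hov : a + b ≤ k + 1) (hs : Sp k x y m c a 1)
    (hs' : Sp k x y m' c' 1 b) (hN : NCp m (JC k x y c)) (hN' : NCp m' (JC k x y c')) : False := by
  by_cases hak : a + 3 ≤ k
  · exact pair_far hR hG hle hc h hk hends hloc hK hm hK' hm' hne ha (by omega) hak hs hs' hN
  · have : (k = 4 ∧ a = 2) ∨ (k = 5 ∧ a = 3 ∧ b = 3) := by omega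
    rcases this with ⟨rfl, rfl⟩ | ⟨rfl, rfl, rfl⟩
    · exact pair_four hR hG hle hc h hends hloc hK hm hK' hm' hne hab hs hs' hN
    · exact pair_five hR hG hle hc h hends hloc hK hm hK' hm' hne hs hs' hN hN'

/-- **No two nearly closed components seeing both ends and more units.** -/
theorem pair_false (hR : Opt G R) (hG : ClassC G R) (hle : H ≤ G) (hc : Crit H R)
    (h : Chn H R k x y) (hk : 3 ≤ k) (hends : (∀ w, ¬ Lk H R (x 1) w) ∧ ∀ w, ¬ Lk H R (y k) w)
    (hloc : LocH H R k x y) {m : ℕ} {z c : ℕ → V} (hK : Cat H R m z c) (hm : 2 ≤ m)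
    {m' : ℕ} {z' c' : ℕ → V} (hK' : Cat H R m' z' c') (hm' : 2 ≤ m') (hne : cSupp m z ≠ cSupp m' z')
    {a b : ℕ} (ha : 2 ≤ a) (hb : 2 ≤ b) (hs : Sp k x y m c a 1)
    (hs' : Sp k x y m' c' 1 b) (hN : NCp m (JC k x y c)) (hN' : NCp m' (JC k x y c')) : False := by
  have hH := hG.mono hle
  rcases Nat.lt_or_ge k 4 with hk4 | hk4
  · have hab := hs'.ab
    have e : b = 2 := by omega
    subst e
    exact threeH hH hc h (by omega) m' z' c' hK' hm' hN' hs'
  · have hov := overlap hH hc h hk4 hK hm hK' hm' hne ha hb hs hN hs' hN'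
    rcases le_total a b with hab | hab
    · exact pair_le hR hG hle hc h hk4 hends hloc hK hm hK' hm' hne ha hab hov hs hs' hN hN'
    · exact pair_le hR hG hle hc h.rev hk4 (ends_rev hends) (locH_rev hk hloc) hK' hm' hK hm hne.symm hb
        hab (by omega) hs'.rev hs.rev (by rw [jc_rev]; exact hN') (by rw [jc_rev]; exact hN)

/-- The hypothesis on pairs. -/
theorem pairH (hR : Opt G R) (hG : ClassC G R) (hle : H ≤ G) (hc : Crit H R)
    (h : Chn H R k x y) (hk : 3 ≤ k) (hends : (∀ w, ¬ Lk H R (x 1) w) ∧ ∀ w, ¬ Lk H R (y k) w)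
    (hloc : LocH H R k x y) : PairH H R k x y :=
  fun _ _ _ _ _ _ hK hK' hne hm hm' hN hN' _ _ ha hb hs hs' =>
    (pair_false hR hG hle hc h hk hends hloc hK hm hK' hm' hne ha hb hs hs' hN hN').elim

end CLB.H91
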