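import Pool.Agent.Helper91_DA.K3b
import Pool.Agent.Helper95_CLB.Three
import Pool.Agent.Helper95_CLB.BadP

/-!
A component seeing the two ends only is the only nearly closed component.
-/

set_option autoImplicit false
set_option linter.unusedSectionVars false

namespace CLB.H91

open Finset Classical
open H3DA (Q neg nr)
open CLB.H95
open CLB.H3 (CExt Cat IsTwo Fits UPath he_of_unc cat_structure chn_side pos)

variable {V : Type*} {G H : SimpleGraph V} {R : V → Bool} [Fintype V] {k : ℕ} {x y : ℕ → V}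

lemma locH_rev (hk : 3 ≤ k) (h : LocH H R k x y) :
    LocH H R k (fun i => y (k + 1 - i)) (fun i => x (k + 1 - i)) := by
  intro m z c hK hm hN
  rw [jc_rev] at hN
  rcases h m z c hK hm hN with ⟨a, b, hs⟩ | ⟨rfl, hs⟩ | ⟨rfl, hs⟩
  · exact Or.inl ⟨b, a, hs.rev⟩
  · refine Or.inr (Or.inr ⟨rfl, ?_⟩)
    have e1 : k + 1 - k = 1 := by omega
    have e2 : k + 1 - (k - 1) = 2 := by omega
    simp only [e1, e2]
    exact hs.rev
  · refine Or.inr (Or.inl ⟨rfl, ?_⟩)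
    have e1 : k + 1 - 1 = k := by omega
    have e2 : k + 1 - 2 = k - 1 := by omega
    simp only [e1, e2]
    exact hs.rev

lemma ends_rev (hends : (∀ w, ¬ Lk H R (x 1) w) ∧ ∀ w, ¬ Lk H R (y k) w) :
    (∀ w, ¬ Lk H R ((fun i => y (k + 1 - i)) 1) w) ∧ ∀ w, ¬ Lk H R ((fun i => x (k + 1 - i)) k) w := by
  have e1 : k + 1 - 1 = k := by omega
  have e2 : k + 1 - k = 1 := by omega
  simp only [e1, e2]
  exact ⟨hends.2, hends.1⟩

/-- The component and a path of two vertices seeing the first two units. -/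
theorem k0_al (hR : Opt G R) (hG : ClassC G R) (hle : H ≤ G) (hc : Crit H R)
    (h : Chn H R k x y) (hk : 3 ≤ k) (hends : (∀ w, ¬ Lk H R (x 1) w) ∧ ∀ w, ¬ Lk H R (y k) w)
    (hloc : LocH H R k x y) {m0 : ℕ} {z0 c0 : ℕ → V} (hK0 : Cat H R m0 z0 c0)
    (h0 : m0 = 1 ∨ (2 ≤ m0 ∧ NCp m0 (JC k x y c0))) (hs0 : Sp k x y m0 c0 1 1)
    {zA cA : ℕ → V} (hA : Cat H R 2 zA cA) (hAL : AL k x y cA (x 1) (x 2))
    (hne : cSupp m0 z0 ≠ cSupp 2 zA) : False := by
  have hH := hG.mono hle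
  rcases Nat.lt_or_ge k 4 with hk4 | hk4
  · have hk3 : k = 3 := by omega
    subst hk3
    have e := m0_one h (by norm_num) hK0 h0 hs0
    subst e
    by_cases hex : ∃ zB cB, Cat H R 2 zB cB ∧ AL 3 x y cB (y 3) (y 2) ∧ cSupp 1 z0 ≠ cSupp 2 zB ∧
        cSupp 2 zA ≠ cSupp 2 zB
    · obtain ⟨zB, cB, h1, h2, h3, h4⟩ := hex
      exact al3_A hR hG hle hc h hends hloc (badH hH hc h le_rfl) (oneH hH h le_rfl) hK0 hs0 hA hAL hne
        h1 h2 h3 h4
    · exact al3_B hR hG hle hc h hends hloc (badH hH hc h le_rfl) (oneH hH h le_rfl) hK0 hs0 hA hAL hne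
        (fun zB cB h1 h2 h3 h4 => hex ⟨zB, cB, h1, h2, h3, h4⟩)
  · exact k0_al4 hR hG hle hc h hk4 hends hloc (badH hH hc h hk) (oneH hH h hk) hK0 h0 hs0 hA hAL hne

/-- The component and one owning `y (k-1)` and `y k`. -/
theorem k0_sp (hR : Opt G R) (hG : ClassC G R) (hle : H ≤ G) (hc : Crit H R)
    (h : Chn H R k x y) (hk : 3 ≤ k) (hends : (∀ w, ¬ Lk H R (x 1) w) ∧ ∀ w, ¬ Lk H R (y k) w)
    (hloc : LocH H R k x y) {m0 : ℕ} {z0 c0 : ℕ → V} (hK0 : Cat H R m0 z0 c0)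
    (h0 : m0 = 1 ∨ (2 ≤ m0 ∧ NCp m0 (JC k x y c0))) (hs0 : Sp k x y m0 c0 1 1)
    {m : ℕ} {z c : ℕ → V} (hK : Cat H R m z c) (hm : 2 ≤ m) (hN : NCp m (JC k x y c)) {a b : ℕ}
    (hs : Sp k x y m c a b) (hb : 2 ≤ b) : False := by
  have hH := hG.mono hle
  rcases Nat.lt_or_ge k 4 with hk4 | hk4
  · have hab := hs.ab
    have ha1 := hs.a1
    have e1 : a = 1 := by omega
    have e2 : b = 2 := by omega
    subst e1; subst e2
    exact threeH hH hc h (by omega) m z c hK hm hN hs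
  · exact k0_end hR hG hle hc h hk4 hends hloc (badH hH hc h hk) (oneH hH h hk) hK0 h0 hs0 hK hm hs hb

/-- **A component seeing the two ends only is the only nearly closed one.** -/
theorem k0_others (hR : Opt G R) (hG : ClassC G R) (hle : H ≤ G) (hc : Crit H R)
    (h : Chn H R k x y) (hk : 3 ≤ k) (hends : (∀ w, ¬ Lk H R (x 1) w) ∧ ∀ w, ¬ Lk H R (y k) w)
    (hloc : LocH H R k x y) {m0 : ℕ} {z0 c0 : ℕ → V} (hK0 : Cat H R m0 z0 c0)
    (h0 : m0 = 1 ∨ (2 ≤ m0 ∧ NCp m0 (JC k x y c0))) (hs0 : Sp k x y m0 c0 1 1)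
    {m : ℕ} {z c : ℕ → V} (hK : Cat H R m z c) (hne : cSupp m z ≠ cSupp m0 z0) :
    (m = 1 → ∀ i j, i ≤ 2 → j ≤ 2 → InC k x y (c i) → InC k x y (c j) → i = j) ∧
    (2 ≤ m → ¬ NCp m (JC k x y c)) := by
  have hH := hG.mono hle
  have hloc' := locH_rev hk hloc
  have h0' : m0 = 1 ∨ (2 ≤ m0 ∧ NCp m0 (JC k (fun i => y (k + 1 - i)) (fun i => x (k + 1 - i)) c0)) := by
    rw [jc_rev]; exact h0
  constructor
  · rintro rfl
    rcases oneH hH h hk _ _ hK with h5 | h5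
    · exfalso
      exact k0_k0 hR hG hle hc h hk hends hloc (badH hH hc h hk) (oneH hH h hk) hK0 h0 hs0 hK
        (Or.inl rfl) h5 hne.symm
    · exact h5
  · intro hm hN
    have hN' : NCp m (JC k (fun i => y (k + 1 - i)) (fun i => x (k + 1 - i)) c) := by
      rw [jc_rev]; exact hN
    rcases hloc _ _ _ hK hm hN with ⟨a, b, h5⟩ | ⟨rfl, h5⟩ | ⟨rfl, h5⟩
    · by_cases hb : 2 ≤ b
      · exact k0_sp hR hG hle hc h hk hends hloc hK0 h0 hs0 hK hm hN h5 hb
      · by_cases ha : 2 ≤ a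
        · exact k0_sp hR hG hle hc h.rev hk (ends_rev hends) hloc' hK0 h0' hs0.rev hK hm hN' h5.rev ha
        · have ha1 := h5.a1
          have hb1 := h5.b1
          have e1 : a = 1 := by omega
          have e2 : b = 1 := by omega
          subst e1; subst e2
          exact k0_k0 hR hG hle hc h hk hends hloc (badH hH hc h hk) (oneH hH h hk) hK0 h0 hs0 hK
            (Or.inr ⟨hm, hN⟩) h5 hne.symm
    · exact k0_al hR hG hle hc h hk hends hloc hK0 h0 hs0 hK h5 hne.symm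
    · refine k0_al hR hG hle hc h.rev hk (ends_rev hends) hloc' hK0 h0' hs0.rev hK ?_ hne.symm
      have e1 : k + 1 - 1 = k := by omega
      have e2 : k + 1 - 2 = k - 1 := by omega
      simp only [e1, e2]
      exact h5.rev

/-- The hypothesis on the components seeing the two ends only, from the case of a single such component. -/
theorem k0H_of (hR : Opt G R) (hG : ClassC G R) (hle : H ≤ G) (hc : Crit H R)
    (h : Chn H R k x y) (hk : 3 ≤ k) (hends : (∀ w, ¬ Lk H R (x 1) w) ∧ ∀ w, ¬ Lk H R (y k) w)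
    (hloc : LocH H R k x y)
    (halone : ∀ m0 z0 c0, Cat H R m0 z0 c0 → (m0 = 1 ∨ (2 ≤ m0 ∧ NCp m0 (JC k x y c0))) →
      Sp k x y m0 c0 1 1 → (∀ m z c, Cat H R m z c → cSupp m z ≠ cSupp m0 z0 →
        (m = 1 → ∀ i j, i ≤ 2 → j ≤ 2 → InC k x y (c i) → InC k x y (c j) → i = j) ∧
        (2 ≤ m → ¬ NCp m (JC k x y c))) → False) : K0H H R k x y :=
  fun m0 z0 c0 hK0 h0 hs0 => halone m0 z0 c0 hK0 h0 hs0 (fun _ _ _ hK hne =>
    k0_others hR hG hle hc h hk hends hloc hK0 h0 hs0 hK hne)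

end CLB.H91
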