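import Pool.Agent.Helper91_DA.ERel
import Pool.Agent.Helper95_CLB.OnlEnd
import Pool.Agent.Helper95_CLB.StatQG

/-!
The end-kill on the graph: a component owning a port edge at `y (k-1)` and one at `y k` is killed in the last
two units (`EKill` of helper95).
-/

set_option autoImplicit false
set_option linter.unusedSectionVars false

namespace CLB.H91

open Finset Classical
open H3DA (Q neg nr)
open CLB.H95
open CLB.H3 (CExt Cat IsTwo Fits UPath he_of_unc cat_structure chn_side)

/-! ### Label level: the exceptional case -/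

/-- Only conflicts. -/
def FCC (ok : Q → Q → Prop) : Prop :=
  ∃ c d : Q, ∀ w v, nr w v = true → ¬ ok w v → w = c ∨ v = d

theorem good_CC {ok ok' : Q → Q → Prop} (h : FCC ok) (h' : FCC ok') : Good 3 ok ok' := by
  obtain ⟨c, d, hok⟩ := h
  obtain ⟨c', d', hok'⟩ := h'
  intro t t' ht G E hG hE
  have hS : 2 ≤ ((ball t ∪ ball t') \ (insert c (insert c' G))).card := by
    have e1 := ball_union_card t t' ht
    have e2 := card_sdiff_ge (ball t ∪ ball t') (insert c (insert c' G))
    have e3 := Finset.card_insert_le c (insert c' G)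
    have e4 := Finset.card_insert_le c' G
    omega
  obtain ⟨u, hu, u', hu', hne⟩ := Finset.one_lt_card.1 (show 1 < _ by exact hS)
  have hV : 1 ≤ ((ball u ∪ ball u') \ (insert d (insert d' E))).card := by
    have e1 := ball_union_card u u' hne
    have e2 := card_sdiff_ge (ball u ∪ ball u') (insert d (insert d' E))
    have e3 := Finset.card_insert_le d (insert d' E)
    have e4 := Finset.card_insert_le d' E
    omega
  obtain ⟨v, hv⟩ := Finset.card_pos.1 (show 0 < _ by exact hV)
  rw [mem_sdiff, mem_union, mem_ball, mem_ball] at hv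
  simp only [mem_insert, not_or] at hv
  have key : ∀ a, a ∈ (ball t ∪ ball t') \ (insert c (insert c' G)) → nr a v = true →
      ∃ w v, w ∉ G ∧ v ∉ E ∧ nr w v = true ∧ ((nr t w = true ∧ ok w v) ∨ (nr t' w = true ∧ ok' w v)) := by
    intro a ha hav
    rw [mem_sdiff, mem_union, mem_ball, mem_ball] at ha
    simp only [mem_insert, not_or] at ha
    refine ⟨a, v, ha.2.2.2, hv.2.2.2, hav, ?_⟩
    rcases ha.1 with h1 | h1
    · left
      refine ⟨h1, ?_⟩
      by_contra hno
      rcases hok a v hav hno with h2 | h2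
      · exact ha.2.1 h2
      · exact hv.2.1 h2
    · right
      refine ⟨h1, ?_⟩
      by_contra hno
      rcases hok' a v hav hno with h2 | h2
      · exact ha.2.2.1 h2
      · exact hv.2.2.1 h2
  rcases hv.1 with h1 | h1
  · exact key u hu h1
  · exact key u' hu' h1

lemma cext_congr {m : ℕ} (hm : 1 ≤ m) {s s' : ℕ → Q} (h : ∀ j ≤ m + 1, s j = s' j) (hE : CExt m s) :
    CExt m s' := by
  obtain ⟨w, h1, h2, h3, h4⟩ := hE
  refine ⟨w, fun i i1 i2 => by rw [← h i (by omega)]; exact h1 i i1 i2, ?_, ?_, h4⟩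
  · rw [← h 0 (by omega)]; exact h2
  · rw [← h (m + 1) le_rfl]; exact h3

/-- The two ports are leaves of different forks. -/
def Lf (m p q : ℕ) : Prop := (p ≤ 1 ∧ m ≤ q ∧ q ≤ m + 1) ∨ (m ≤ p ∧ p ≤ m + 1 ∧ q ≤ 1)

/-- The relation for the extreme ports. -/
def RelC (m p q j₀ : ℕ) : Prop :=
  ∀ s : ℕ → Q, ∃ t : Q, ∀ s' : ℕ → Q, (∀ j ≤ m + 1, j ≠ p → j ≠ q → j ≠ j₀ → s' j = s j) →
    s' 0 ≠ neg (s' 1) → s' m ≠ neg (s' (m + 1)) → nr (s' p) (neg (s' q)) = true → s' j₀ ≠ t →
    CExt m s'

lemma relC_norm {m p q j₀ : ℕ} (hm : 1 ≤ m) (hm4 : m % 4 = 0)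
    (hpq : (p = 0 ∧ q = m + 1) ∨ (p = m + 1 ∧ q = 0)) (h1 : 1 ≤ j₀) (h2 : j₀ ≤ m) : RelC m p q j₀ := by
  intro s
  obtain ⟨t, ht⟩ := exists_rel hm4 h1 h2 s
  refine ⟨t, fun s' g1 g2 g3 g4 g5 => ?_⟩
  by_contra hno
  rcases notext hm hno with h | h | ⟨D, hD⟩
  · exact g2 h
  · exact g3 h
  · refine ht s' (fun j j1 j2 j3 => g1 j (by omega) (by omega) (by omega) j3) ?_ g5 D hD
    rcases hpq with ⟨rfl, rfl⟩ | ⟨rfl, rfl⟩
    · exact g4
    · rw [H3DA.nr_comm, ← nr_neg_neg, H3DA.neg_neg]; exact g4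

lemma relC_sw {m p q j₀ : ℕ} {w : ℕ → ℕ} (hww : ∀ j, w (w j) = j)
    (hwm : ∀ j ≤ m + 1, w j ≤ m + 1) (hext : ∀ s : ℕ → Q, CExt m (fun j => s (w j)) → CExt m s)
    (hF : ∀ s : ℕ → Q, s 0 ≠ neg (s 1) → s m ≠ neg (s (m + 1)) →
      s (w 0) ≠ neg (s (w 1)) ∧ s (w m) ≠ neg (s (w (m + 1))))
    (h : RelC m (w p) (w q) (w j₀)) : RelC m p q j₀ := by
  intro s
  obtain ⟨t, ht⟩ := h (fun j => s (w j))
  refine ⟨t, fun s' g1 g2 g3 g4 g5 => hext _ ?_⟩
  have hne : ∀ a b, a ≠ w b → w a ≠ b := fun a b h1 h2 => h1 (by rw [← h2, hww])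
  refine ht (fun j => s' (w j)) (fun j hj j1 j2 j3 => g1 (w j) (hwm j hj) (hne _ _ j1) (hne _ _ j2)
    (hne _ _ j3)) (hF s' g2 g3).1 (hF s' g2 g3).2 ?_ ?_
  · show nr (s' (w (w p))) (neg (s' (w (w q)))) = true
    rw [hww, hww]; exact g4
  · show s' (w (w j₀)) ≠ t
    rw [hww]; exact g5

/-- The relation for two leaves of different forks. -/
theorem relC {m p q j₀ : ℕ} (hm : 1 ≤ m) (hm4 : m % 4 = 0) (hpq : Lf m p q) (hj : j₀ ≤ m + 1)
    (hjp : j₀ ≠ p) (hjq : j₀ ≠ q) : RelC m p q j₀ := by
  have hm4' : 4 ≤ m := by omega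
  -- right side
  have key : ∀ p q j₀ : ℕ, Lf m p q → j₀ ≤ m + 1 → j₀ ≠ p → j₀ ≠ q → p ≠ 1 → q ≠ 1 →
      RelC m p q j₀ := by
    intro p q j₀ hpq hj hjp hjq hp1 hq1
    by_cases hpm : p = m ∨ q = m
    · refine relC_sw (swR_swR m) (fun j hj => by unfold swR; split_ifs <;> omega)
        (fun s => cext_of_swR (by omega)) (fun s s1 s2 => ?_) ?_
      · rw [swR_of (show 0 < m by omega), swR_of (show 1 < m by omega)]
        have em : swR m m = m + 1 := by unfold swR; simp
        have em1 : swR m (m + 1) = m := by unfold swR; simp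
        rw [em, em1]
        exact ⟨s1, H3DA.ne_neg_symm s2⟩
      · unfold Lf at hpq
        refine relC_norm hm hm4 ?_ ?_ ?_
        · unfold swR; split_ifs <;> omega
        · unfold swR; split_ifs <;> omega
        · unfold swR; split_ifs <;> omega
    · unfold Lf at hpq
      exact relC_norm hm hm4 (by omega) (by omega) (by omega)
  by_cases hpm : p = 1 ∨ q = 1
  · refine relC_sw swL_swL (fun j hj => by unfold swL; split_ifs <;> omega)
      (fun s => cext_of_swL (by omega)) (fun s s1 s2 => ?_) ?_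
    · rw [swL_of (show 2 ≤ m by omega), swL_of (show 2 ≤ m + 1 by omega)]
      exact ⟨H3DA.ne_neg_symm s1, s2⟩
    · unfold Lf at hpq
      refine key _ _ _ ?_ ?_ ?_ ?_ ?_ ?_
      · unfold Lf swL; split_ifs <;> omega
      · unfold swL; split_ifs <;> omega
      · unfold swL; split_ifs <;> omega
      · unfold swL; split_ifs <;> omega
      · unfold swL; split_ifs <;> omega
      · unfold swL; split_ifs <;> omega
  · exact key p q j₀ hpq hj hjp hjq (by omega) (by omega)

/-! ### The graph -/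

variable {V : Type*} {G : SimpleGraph V} {R : V → Bool} [Fintype V] {k : ℕ} {x y : ℕ → V}

/-- The partner in the fork. -/
def mte (m j : ℕ) : ℕ := if j = 0 then 1 else if j = 1 then 0 else if j = m then m + 1 else
  if j = m + 1 then m else j

/-- The port is a leaf port. -/
def lfp (m j : ℕ) : Prop := j ≤ 1 ∨ m ≤ j

lemma cl_eq {m j : ℕ} (hm : 1 ≤ m) (hj : j ≤ m + 1) : cl m j = max 1 (min j m) := by
  unfold cl; split_ifs <;> omega

lemma cat_side {m : ℕ} {z c : ℕ → V} (h : Cat G R m z c) : ∀ i, 1 ≤ i → i ≤ m →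
    (R (z i) = R (z 1) ↔ i % 2 = 1) := by
  intro i hi
  induction i, hi using Nat.le_induction with
  | base => intro _; simp
  | succ n hn ih =>
    intro hm
    have h1 := ih (by omega)
    have h2 := (he_of_unc (h.unc n hn (by omega)) (h.adjz n hn (by omega))).2
    have h3 : (R (z (n + 1)) = R (z 1)) ↔ ¬ (R (z n) = R (z 1)) := by
      revert h2
      cases R (z n) <;> cases R (z (n + 1)) <;> cases R (z 1) <;> simp
    rw [h3, h1]; omega

/-- Ports at `y (k-1)` and `y k` are at vertices of different parity. -/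
lemma ports_parity (hch : Chn G R k x y) (hk : 2 ≤ k) {m : ℕ} {z c : ℕ → V} (h : Cat G R m z c)
    {p q : ℕ} (hp : p ≤ m + 1) (hq : q ≤ m + 1) (hcp : c p = y (k - 1)) (hcq : c q = y k) :
    cl m p % 2 ≠ cl m q % 2 := by
  intro he
  have h1 := cl_mem h.pos hp
  have h2 := cl_mem h.pos hq
  have s1 := cat_side h _ h1.1 h1.2
  have s2 := cat_side h _ h2.1 h2.2
  have e1 := (he_of_unc (h.unc _ h1.1 h1.2) (cat_adj_cl h hp).symm).2
  have e2 := (he_of_unc (h.unc _ h2.1 h2.2) (cat_adj_cl h hq).symm).2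
  have e3 := (hch.me k hch.pos le_rfl).2
  have e4 := (hch.lk (k - 1) (by omega) (by omega)).1.2
  rw [show k - 1 + 1 = k by omega] at e4
  rw [hcp] at e1
  rw [hcq] at e2
  have s3 : (R (z (cl m p)) = R (z 1)) ↔ (R (z (cl m q)) = R (z 1)) := by
    rw [s1, s2]; omega
  revert e1 e2 e3 e4 s3
  cases R (z (cl m p)) <;> cases R (z (cl m q)) <;> cases R (z 1) <;> cases R (y (k - 1)) <;>
    cases R (y k) <;> cases R (x k) <;> simp

lemma innerPt_iff {m : ℕ} {z c : ℕ → V} (h : Cat G R m z c) {p : ℕ} (hp : p ≤ m + 1) :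
    InnerPt G R (z (cl m p)) ↔ 2 ≤ p ∧ p + 1 ≤ m := by
  have h1 := cl_mem h.pos hp
  constructor
  · intro hin
    have h2 := innerPt_pos h h1.1 h1.2 hin
    unfold cl at h2
    split_ifs at h2 <;> omega
  · rintro ⟨h2, h3⟩
    rw [cl_self (by omega) (by omega)]
    have a1 := h.adjz (p - 1) (by omega) (by omega)
    rw [show p - 1 + 1 = p by omega] at a1
    refine ⟨z (p - 1), z (p + 1), fun he => ?_, a1.symm, h.adjz p (by omega) (by omega),
      h.unc (p - 1) (by omega) (by omega), h.unc (p + 1) (by omega) (by omega)⟩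
    have := h.inj (p - 1) (p + 1) (by omega) (by omega) (by omega) (by omega) he
    omega

lemma mte_cl {m j : ℕ} (hm : 2 ≤ m) (hj : j ≤ m + 1) : cl m (mte m j) = cl m j := by
  unfold mte
  split_ifs with h1 h2 h3 h4
  · subst h1; unfold cl; split_ifs <;> omega
  · subst h2; unfold cl; split_ifs <;> omega
  · rw [h3, cl_last, cl_self (by omega) le_rfl]
  · rw [h4, cl_last, cl_self (by omega) le_rfl]
  · rfl

lemma mte_m {m : ℕ} (hm : 2 ≤ m) : mte m m = m + 1 := by
  unfold mte
  rw [if_neg (by omega), if_neg (by omega), if_pos rfl]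

lemma mte_m1 {m : ℕ} (hm : 2 ≤ m) : mte m (m + 1) = m := by
  unfold mte
  rw [if_neg (by omega), if_neg (by omega), if_neg (by omega), if_pos rfl]

lemma mte_le {m j : ℕ} (hm : 2 ≤ m) (hj : j ≤ m + 1) : mte m j ≤ m + 1 := by
  unfold mte; split_ifs <;> omega

lemma mte_lfp {m j : ℕ} (hm : 2 ≤ m) (hj : j ≤ m + 1) (hl : lfp m j) :
    mte m (mte m j) = j ∧ lfp m (mte m j) := by
  unfold lfp at hl
  have : j = 0 ∨ j = 1 ∨ j = m ∨ j = m + 1 := by omega
  rcases this with h | h | h | h
  · subst h; exact ⟨rfl, Or.inl le_rfl⟩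
  · subst h; exact ⟨rfl, Or.inl (Nat.zero_le 1)⟩
  · rw [h, mte_m hm, mte_m1 hm]; exact ⟨rfl, Or.inr (by omega)⟩
  · rw [h, mte_m1 hm, mte_m hm]; exact ⟨rfl, Or.inr le_rfl⟩

/-- The port `j` is charged with the conflict of its fork. -/
def chg (k : ℕ) (x y : ℕ → V) (m p q : ℕ) (c : ℕ → V) (j : ℕ) : Prop :=
  lfp m j ∧ j ≠ p ∧ j ≠ q ∧ mte m j ≠ p ∧ mte m j ≠ q ∧
    (InC k x y (c (mte m j)) → idx k x y (c (mte m j)) < idx k x y (c j))

/-- The exceptional case. -/
def exc (m p q : ℕ) : Prop := m % 4 = 0 ∧ Lf m p q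

/-- The labels of the other ports. -/
noncomputable def oth (k : ℕ) (x y : ℕ → V) (f : V → Q) (m p q j₀ : ℕ) (c : ℕ → V) (g : ℕ → Q)
    (j : ℕ) : Q :=
  if j ≤ m + 1 ∧ j ≠ p ∧ j ≠ q ∧ j ≠ j₀ then lbl k x y g f (c j) else (false, false, false)

/-- The label forbidden at the last port. -/
noncomputable def tlab (k : ℕ) (x y : ℕ → V) (f : V → Q) (m p q j₀ : ℕ) (c : ℕ → V) (g : ℕ → Q) : Q :=
  if h : ∃ t : Q, ∀ s' : ℕ → Q,
      (∀ j ≤ m + 1, j ≠ p → j ≠ q → j ≠ j₀ → s' j = oth k x y f m p q j₀ c g j) →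
      s' 0 ≠ neg (s' 1) → s' m ≠ neg (s' (m + 1)) → nr (s' p) (neg (s' q)) = true → s' j₀ ≠ t →
      CExt m s' then h.choose else (false, false, false)

/-- The forbidden set at a port. -/
noncomputable def gam (k : ℕ) (x y : ℕ → V) (f : V → Q) (m p q j₀ : ℕ) (c : ℕ → V) (j : ℕ)
    (g : ℕ → Q) : Finset Q :=
  if chg k x y m p q c j then {neg (lbl k x y g f (c (mte m j)))} else
    if exc m p q ∧ j = j₀ then {tlab k x y f m p q j₀ c g} else ∅

/-- The forbidden sets on the port edges. -/
noncomputable def phe (k : ℕ) (x y : ℕ → V) (f : V → Q) (m p q j₀ : ℕ) (z c : ℕ → V) (v w : V)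
    (g : ℕ → Q) : Finset Q :=
  if hh : ∃ j ≤ m + 1, c j = v ∧ z (cl m j) = w then gam k x y f m p q j₀ c hh.choose g else ∅

lemma gam_card (f : V → Q) (m p q j₀ : ℕ) (c : ℕ → V) (j : ℕ) (g : ℕ → Q) :
    (gam k x y f m p q j₀ c j g).card ≤ 1 := by
  unfold gam; split_ifs <;> simp

lemma phe_eq {f : V → Q} {m p q j₀ : ℕ} {z c : ℕ → V} (h : Cat G R m z c) {j : ℕ} (hj : j ≤ m + 1)
    (g : ℕ → Q) : phe k x y f m p q j₀ z c (c j) (z (cl m j)) g = gam k x y f m p q j₀ c j g := by
  have hh : ∃ j' ≤ m + 1, c j' = c j ∧ z (cl m j') = z (cl m j) := ⟨j, hj, rfl, rfl⟩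
  unfold phe
  rw [dif_pos hh]
  have hs := hh.choose_spec
  rw [port_unique h hs.1 hj hs.2.1 hs.2.2]

lemma phe_cases {f : V → Q} {m p q j₀ : ℕ} {z c : ℕ → V} (h : Cat G R m z c) (v w : V) :
    (∀ g, phe k x y f m p q j₀ z c v w g = ∅) ∨ ∃ j ≤ m + 1, c j = v ∧ z (cl m j) = w ∧
      ∀ g, phe k x y f m p q j₀ z c v w g = gam k x y f m p q j₀ c j g := by
  by_cases hh : ∃ j ≤ m + 1, c j = v ∧ z (cl m j) = w
  · right
    obtain ⟨j, hj, h1, h2⟩ := hh
    refine ⟨j, hj, h1, h2, fun g => ?_⟩
    rw [← h1, ← h2]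
    exact phe_eq h hj g
  · left
    intro g
    unfold phe
    rw [dif_neg hh]

lemma oth_congr (hch : Chn G R k x y) {f : V → Q} {m p q j₀ : ℕ} {c : ℕ → V} {g g' : ℕ → Q} {n : ℕ}
    (hs : Same n g g')
    (hn : ∀ j ≤ m + 1, j ≠ p → j ≠ q → j ≠ j₀ → InC k x y (c j) → idx k x y (c j) < n) :
    oth k x y f m p q j₀ c g = oth k x y f m p q j₀ c g' := by
  funext j
  unfold oth
  split_ifs with h1
  · by_cases hin : InC k x y (c j)
    · exact lbl_congr hch hin (hs _ (idx_spec hin).1 (hn j h1.1 h1.2.1 h1.2.2.1 h1.2.2.2 hin))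
    · rw [lbl_out hin, lbl_out hin]
  · rfl

lemma tlab_congr (hch : Chn G R k x y) {f : V → Q} {m p q j₀ : ℕ} {c : ℕ → V} {g g' : ℕ → Q} {n : ℕ}
    (hs : Same n g g')
    (hn : ∀ j ≤ m + 1, j ≠ p → j ≠ q → j ≠ j₀ → InC k x y (c j) → idx k x y (c j) < n) :
    tlab k x y f m p q j₀ c g = tlab k x y f m p q j₀ c g' := by
  unfold tlab
  rw [oth_congr hch hs hn]

lemma tlab_spec {f : V → Q} {m p q j₀ : ℕ} {c : ℕ → V} (g : ℕ → Q) (hR : RelC m p q j₀) {s' : ℕ → Q}
    (h1 : ∀ j ≤ m + 1, j ≠ p → j ≠ q → j ≠ j₀ → s' j = lbl k x y g f (c j))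
    (h2 : s' 0 ≠ neg (s' 1)) (h3 : s' m ≠ neg (s' (m + 1))) (h4 : nr (s' p) (neg (s' q)) = true)
    (h5 : s' j₀ ≠ tlab k x y f m p q j₀ c g) : CExt m s' := by
  have hex := hR (oth k x y f m p q j₀ c g)
  unfold tlab at h5
  rw [dif_pos hex] at h5
  refine hex.choose_spec s' (fun j j1 j2 j3 j4 => ?_) h2 h3 h4 h5
  unfold oth
  rw [if_pos ⟨j1, j2, j3, j4⟩]
  exact h1 j j1 j2 j3 j4

/-- Partners at one vertex of the path. -/
lemma adj_mte {m : ℕ} {z c : ℕ → V} (h : Cat G R m z c) (hm : 2 ≤ m) {j : ℕ} (hj : j ≤ m + 1) :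
    G.Adj (z (cl m j)) (c j) ∧ G.Adj (z (cl m j)) (c (mte m j)) := by
  refine ⟨(cat_adj_cl h hj).symm, ?_⟩
  have := (cat_adj_cl h (mte_le hm hj)).symm
  rwa [mte_cl hm hj] at this

/-- The conflict label depends on the past only. -/
lemma chg_congr (hch : Chn G R k x y) {f : V → Q} {m p q : ℕ} {z c : ℕ → V} (h : Cat G R m z c)
    (hm : 2 ≤ m) {j : ℕ} (hj : j ≤ m + 1) (hc : chg k x y m p q c j) (hin : InC k x y (c j))
    {g g' : ℕ → Q} (hs : Same (idx k x y (c j) - 1) g g') :
    lbl k x y g f (c (mte m j)) = lbl k x y g' f (c (mte m j)) := by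
  by_cases hin' : InC k x y (c (mte m j))
  · have h1 := hc.2.2.2.2.2 hin'
    obtain ⟨a1, a2⟩ := adj_mte h hm hj
    have h4 := cl_mem h.pos hj
    have hz := h.unc _ h4.1 h4.2
    have e1 := (he_of_unc hz a1).2
    have e2 := (he_of_unc hz a2).2
    have hpar : R (c j) = R (c (mte m j)) := by
      revert e1 e2
      cases R (z (cl m j)) <;> cases R (c j) <;> cases R (c (mte m j)) <;> simp
    have h5 := idx_parity hch hin hin' hpar
    exact lbl_congr hch hin' (hs _ (idx_spec hin').1 (by omega))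
  · rw [lbl_out hin', lbl_out hin']

/-- The forks without the ports `p`, `q` have no conflict after the charges. -/
lemma fork_fine (hG : ClassC G R) (hch : Chn G R k x y) {f : V → Q} (hf : OffC G R k x y f)
    {m p q j₀ : ℕ} {z c : ℕ → V} (h : Cat G R m z c) (hm : 2 ≤ m)
    (hoth : ∀ j ≤ m + 1, j ≠ p → j ≠ q → InC k x y (c j) → idx k x y (c j) + 2 ≤ k) {g : ℕ → Q}
    (hg : PAv G k x y f (cSupp m z) (phe k x y f m p q j₀ z c) (k - 2) g) {i : ℕ} (hi : i ≤ m + 1)
    (hlf : lfp m i) (hne : c i ≠ c (mte m i)) (h1 : i ≠ p) (h2 : i ≠ q) (h3 : mte m i ≠ p)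
    (h4 : mte m i ≠ q) : lbl k x y g f (c i) ≠ neg (lbl k x y g f (c (mte m i))) := by
  have hcl := cl_mem h.pos hi
  have hmi := mte_le hm hi
  obtain ⟨hmm, hlf'⟩ := mte_lfp hm hi hlf
  obtain ⟨a1, a2⟩ := adj_mte h hm hi
  -- the conflict from a charged port
  have key : ∀ j ≤ m + 1, j ≠ p → j ≠ q → chg k x y m p q c j → InC k x y (c j) →
      lbl k x y g f (c j) ≠ neg (lbl k x y g f (c (mte m j))) := by
    intro j hj j1 j2 hc hin he
    have b1 := cl_mem h.pos hj
    have := hg (z (cl m j)) (mem_cSupp b1.1 b1.2) (c j) (cat_adj_cl h hj) hin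
      (by have := hoth j hj j1 j2 hin; omega)
    rw [phe_eq h hj] at this
    unfold gam at this
    rw [if_pos hc, mem_singleton] at this
    exact this he
  by_cases hin : InC k x y (c i)
  · by_cases hin' : InC k x y (c (mte m i))
    · have hidx := idx_ne hG hch hin hin' hne a1 a2
      rcases Nat.lt_or_ge (idx k x y (c (mte m i))) (idx k x y (c i)) with h5 | h5
      · exact key i hi h1 h2 ⟨hlf, h1, h2, h3, h4, fun _ => h5⟩ hin
      · have := key (mte m i) hmi h3 h4 ⟨hlf', h3, h4, by rwa [hmm], by rwa [hmm], fun _ => by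
          rw [hmm]; omega⟩ hin'
        rw [hmm] at this
        exact H3DA.ne_neg_symm this
    · exact key i hi h1 h2 ⟨hlf, h1, h2, h3, h4, fun h' => absurd h' hin'⟩ hin
  · by_cases hin' : InC k x y (c (mte m i))
    · have := key (mte m i) hmi h3 h4 ⟨hlf', h3, h4, by rwa [hmm], by rwa [hmm], fun h' => by
        rw [hmm] at h'; exact absurd h' hin⟩ hin'
      rw [hmm] at this
      exact H3DA.ne_neg_symm this
    · rw [lbl_out hin, lbl_out hin']
      exact offC_fork hch hf h hi hmi (mte_cl hm hi).symm hin hin'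

/-- The sign of unit `k - 1`. -/
def tau (n : ℕ) (t : Q) : Q := neg (sg n t)

lemma tau_tau (n : ℕ) (t : Q) : tau n (tau n t) = t := by
  unfold tau sg
  split_ifs <;> simp [H3DA.neg_neg]

lemma nr_tau (n : ℕ) (s t : Q) : nr (tau n s) (tau n t) = nr s t := by
  unfold tau
  rw [nr_neg_neg, nr_sg]

lemma tau_inj {n : ℕ} {s t : Q} (h : tau n s = tau n t) : s = t := by
  have := congrArg (tau n) h
  rwa [tau_tau, tau_tau] at this

/-- The component is killed in the last two units; at most one label per port is charged before. The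
full list of properties. -/
theorem ekill_of_ports_full (hG : ClassC G R) (hch : Chn G R k x y) (hk : 3 ≤ k) {f : V → Q}
    (hf : OffC G R k x y f) {m : ℕ} {z c : ℕ → V} (h : Cat G R m z c) (hm : 2 ≤ m) {p q : ℕ}
    (hp : p ≤ m + 1) (hq : q ≤ m + 1) (hcp : c p = y (k - 1)) (hcq : c q = y k)
    (hoth : ∀ j ≤ m + 1, j ≠ p → j ≠ q → InC k x y (c j) → idx k x y (c j) + 2 ≤ k)
    (hex : m % 4 = 0 → ¬ InnerPt G R (z (cl m p)) → ¬ InnerPt G R (z (cl m q)) →
      (∃ j ≤ m + 1, j ≠ p ∧ j ≠ q ∧ InC k x y (c j)) ∧ ∀ i j, i ≤ m + 1 → j ≤ m + 1 →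
        InC k x y (c i) → InC k x y (c j) → idx k x y (c i) = idx k x y (c j) → i = j) :
    ∃ φ, EKill G R k x y f (cSupp m z) (if InnerPt G R (z (cl m p)) then 4 else 3) φ ∧
      ((m % 4 ≠ 0 ∨ InnerPt G R (z (cl m p)) ∨ InnerPt G R (z (cl m q)) ∨
        ∀ j ≤ m + 1, InC k x y (c j) → idx k x y (c j) ≠ 2) →
        ∀ w g g', φ (x 2) w g = φ (x 2) w g' ∧ φ (y 2) w g = φ (y 2) w g') ∧
      (∀ v w g, (φ v w g).card ≤ 1) ∧
      (∀ j ≤ m + 1, ¬ chg k x y m p q c j → m % 4 ≠ 0 → ∀ g, φ (c j) (z (cl m j)) g = ∅) ∧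
      (∀ i, 1 ≤ i → i ≤ k → (∃ j ≤ m + 1, j ≠ p ∧ j ≠ q ∧ InC k x y (c j) ∧ i < idx k x y (c j)) →
        ∀ w g g', Same (i - 1) g g' → φ (x i) w g = φ (x i) w g' ∧ φ (y i) w g = φ (y i) w g') ∧
      ∀ v w, (∀ j ≤ m + 1, c j = v → z (cl m j) ≠ w) → ∀ g, φ v w g = ∅ := by
  have hpar := ports_parity hch (by omega) h hp hq hcp hcq
  have hpq : p ≠ q := fun he => hpar (by rw [he])
  have hinp := innerPt_iff h hp
  have hinq := innerPt_iff h hq
  -- the exceptional case
  have hexc : exc m p q ↔ m % 4 = 0 ∧ ¬ InnerPt G R (z (cl m p)) ∧ ¬ InnerPt G R (z (cl m q)) := by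
    rw [hinp, hinq]
    unfold exc Lf
    rw [cl_eq (by omega) hp, cl_eq (by omega) hq] at hpar
    constructor
    · rintro ⟨h1, h2⟩
      exact ⟨h1, by omega, by omega⟩
    · rintro ⟨h1, h2, h3⟩
      refine ⟨h1, ?_⟩
      by_contra hcon
      apply hpar
      have h4 : (p ≤ 1 ∨ m ≤ p) ∧ (q ≤ 1 ∨ m ≤ q) := by omega
      have h5 : (p ≤ 1 ∧ q ≤ 1) ∨ (m ≤ p ∧ m ≤ q) := by omega
      rcases h5 with h5 | h5
      · rw [show max 1 (min p m) = 1 by omega, show max 1 (min q m) = 1 by omega]
      · rw [show max 1 (min p m) = m by omega, show max 1 (min q m) = m by omega]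
  -- the last of the other ports
  obtain ⟨j₀, hj₀⟩ : ∃ j₀, exc m p q → j₀ ≤ m + 1 ∧ j₀ ≠ p ∧ j₀ ≠ q ∧ InC k x y (c j₀) ∧
      ∀ j ≤ m + 1, j ≠ p → j ≠ q → j ≠ j₀ → InC k x y (c j) →
        idx k x y (c j) < idx k x y (c j₀) := by
    by_cases he : exc m p q
    · obtain ⟨e1, e2, e3⟩ := hexc.1 he
      obtain ⟨⟨j1, g1, g2, g3, g4⟩, hinj⟩ := hex e1 e2 e3
      have hne : ((Finset.range (m + 2)).filter (fun j => j ≠ p ∧ j ≠ q ∧ InC k x y (c j))).Nonempty :=
        ⟨j1, by rw [mem_filter, mem_range]; exact ⟨by omega, g2, g3, g4⟩⟩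
      obtain ⟨j₀, hj, hmax⟩ := Finset.exists_max_image _ (fun j => idx k x y (c j)) hne
      rw [mem_filter, mem_range] at hj
      refine ⟨j₀, fun _ => ⟨by omega, hj.2.1, hj.2.2.1, hj.2.2.2, fun j a1 a2 a3 a4 a5 => ?_⟩⟩
      have h1 := hmax j (by rw [mem_filter, mem_range]; exact ⟨by omega, a2, a3, a5⟩)
      rcases Nat.lt_or_ge (idx k x y (c j)) (idx k x y (c j₀)) with h2 | h2
      · exact h2
      · exact absurd (hinj j j₀ a1 (by omega) a5 hj.2.2.2 (le_antisymm h1 h2)) a4
    · exact ⟨0, fun h' => absurd h' he⟩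
  have hkm : idx k x y (c p) = k - 1 := by rw [hcp]; exact idx_y hch (by omega) (by omega)
  have hkk : idx k x y (c q) = k := by rw [hcq]; exact idx_y hch hch.pos le_rfl
  have hcon : ∀ j ≤ m + 1, k - 1 ≤ idx k x y (c j) → InC k x y (c j) → j = p ∨ j = q := by
    intro j hj h1 hin
    by_contra hcon
    push Not at hcon
    have := hoth j hj hcon.1 hcon.2 hin
    omega
  refine ⟨phe k x y f m p q j₀ z c, ⟨?_, ?_, ?_, ?_⟩, ?_, ?_, ?_, ?_, ?_⟩
  · -- two
    intro v w g g'
    rcases phe_cases (k := k) (x := x) (y := y) (f := f) (p := p) (q := q) (j₀ := j₀) h v w with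
      h1 | ⟨j, -, -, -, h1⟩
    · rw [h1, h1]; simp
    · rw [h1, h1]
      have e1 := gam_card (k := k) (x := x) (y := y) f m p q j₀ c j g
      have e2 := gam_card (k := k) (x := x) (y := y) f m p q j₀ c j g'
      exact (Finset.card_union_le _ _).trans (by omega)
  · -- dependence
    intro i h1 h2 w g g' hs
    have main : ∀ v, (v = x i ∨ v = y i) →
        phe k x y f m p q j₀ z c v w g = phe k x y f m p q j₀ z c v w g' := by
      intro v hv
      rcases phe_cases (k := k) (x := x) (y := y) (f := f) (p := p) (q := q) (j₀ := j₀) h v w with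
        h3 | ⟨j, hj, hcj, -, h3⟩
      · rw [h3, h3]
      · rw [h3, h3]
        have hidx : idx k x y (c j) = i := by
          rw [hcj]
          rcases hv with rfl | rfl
          · exact idx_x hch h1 h2
          · exact idx_y hch h1 h2
        have hin : InC k x y (c j) := by
          rw [hcj]
          rcases hv with rfl | rfl
          · exact InC.x h1 h2
          · exact InC.y h1 h2
        unfold gam
        split_ifs with h4 h5
        · rw [chg_congr hch h hm hj h4 hin (hs.mono (by omega))]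
        · obtain ⟨b1, b2, b3, b4, b5⟩ := hj₀ h5.1
          rw [tlab_congr hch hs (fun l l1 l2 l3 l4 l5 => by
            have := b5 l l1 l2 l3 l4 l5
            rw [h5.2] at hidx
            omega)]
        · rfl
    exact ⟨main _ (Or.inl rfl), main _ (Or.inr rfl)⟩
  · -- nothing in the last two units
    have main : ∀ v w g, InC k x y v → k - 1 ≤ idx k x y v → phe k x y f m p q j₀ z c v w g = ∅ := by
      intro v w g hin hi
      rcases phe_cases (k := k) (x := x) (y := y) (f := f) (p := p) (q := q) (j₀ := j₀) h v w with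
        h3 | ⟨j, hj, hcj, -, h3⟩
      · exact h3 g
      · rw [h3]
        rw [← hcj] at hin hi
        have h4 := hcon j hj hi hin
        unfold gam
        rw [if_neg, if_neg]
        · rintro ⟨h5, rfl⟩
          have := hj₀ h5
          rcases h4 with h4 | h4
          · exact this.2.1 h4
          · exact this.2.2.1 h4
        · intro h5
          rcases h4 with h4 | h4
          · exact h5.2.1 h4
          · exact h5.2.2.1 h4
    intro w g
    refine ⟨main _ _ _ (InC.x hch.pos le_rfl) ?_, main _ _ _ (InC.y hch.pos le_rfl) ?_,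
      main _ _ _ (InC.x (by omega) (by omega)) ?_, main _ _ _ (InC.y (by omega) (by omega)) ?_⟩
    · rw [idx_x hch hch.pos le_rfl]; omega
    · rw [idx_y hch hch.pos le_rfl]; omega
    · rw [idx_x hch (by omega) (by omega)]
    · rw [idx_y hch (by omega) (by omega)]
  · -- the kill
    intro g g' hg hg' hav hav' hne A B hA hB
    -- forks
    have hfk : ∀ g : ℕ → Q, PAv G k x y f (cSupp m z) (phe k x y f m p q j₀ z c) (k - 2) g →
        FNA m p q (fun j => lbl k x y g f (c j)) := by
      intro g hg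
      constructor
      · intro h1 h2 h3 h4
        have e : mte m 0 = 1 := rfl
        have := fork_fine hG hch hf h hm hoth hg (i := 0) (by omega) (Or.inl (by omega))
          (by rw [e]; exact h.ne0) h1.symm h3.symm (by rw [e]; exact h2.symm) (by rw [e]; exact h4.symm)
        rw [e] at this
        exact this
      · intro h1 h2 h3 h4
        have e : mte m m = m + 1 := mte_m hm
        have := fork_fine hG hch hf h hm hoth hg (i := m) (by omega) (Or.inr le_rfl)
          (by rw [e]; exact h.nem) h1.symm h3.symm (by rw [e]; exact h2.symm) (by rw [e]; exact h4.symm)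
        rw [e] at this
        exact this
    -- the label level
    have hlab : ∃ u w, u ∉ A.image (tau (k - 1)) ∧ w ∉ B.image (tau (k - 1)) ∧ nr u w = true ∧
        ((nr (tau (k - 1) (g (k - 2))) u = true ∧
            CExt m (fil (fun j => lbl k x y g f (c j)) p q u (neg w))) ∨
          (nr (tau (k - 1) (g' (k - 2))) u = true ∧
            CExt m (fil (fun j => lbl k x y g' f (c j)) p q u (neg w)))) := by
      have hA' : (A.image (tau (k - 1))).card ≤ 2 := Finset.card_image_le.trans hA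
      have hB' := (Finset.card_image_le (s := B) (f := tau (k - 1))).trans hB
      have hne' : tau (k - 1) (g (k - 2)) ≠ tau (k - 1) (g' (k - 2)) := fun he => hne (tau_inj he)
      by_cases he : exc m p q
      · obtain ⟨e1, e2, e3⟩ := hexc.1 he
        rw [if_neg e2] at hB'
        obtain ⟨b1, b2, b3, b4, b5⟩ := hj₀ he
        have hRel := relC (by omega) e1 he.2 b1 b2 b3
        have hcc : ∀ g : ℕ → Q, PAv G k x y f (cSupp m z) (phe k x y f m p q j₀ z c) (k - 2) g →
            FCC (fun u w => CExt m (fil (fun j => lbl k x y g f (c j)) p q u (neg w))) := by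
          intro g hg
          -- the partners
          have hj0 : lbl k x y g f (c j₀) ≠ tlab k x y f m p q j₀ c g := by
            have hcl := cl_mem h.pos b1
            have := hg (z (cl m j₀)) (mem_cSupp hcl.1 hcl.2) (c j₀) (cat_adj_cl h b1) b4
              (by have := hoth j₀ b1 b2 b3 b4; omega)
            rw [phe_eq h b1] at this
            unfold gam at this
            rw [if_neg, if_pos ⟨he, rfl⟩, mem_singleton] at this
            · exact this
            · rintro ⟨h5, h6, h7, h8, h9, -⟩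
              have hL := he.2
              unfold Lf at hL
              unfold lfp at h5
              unfold mte at h8 h9
              split_ifs at h8 h9 <;> omega
          refine ⟨neg (lbl k x y g f (c (mte m p))), lbl k x y g f (c (mte m q)), fun u w hn hno => ?_⟩
          by_contra hcon'
          push Not at hcon'
          apply hno
          have hL := he.2
          unfold Lf at hL
          have hmp : mte m p ≠ p ∧ mte m p ≠ q ∧ mte m q ≠ p ∧ mte m q ≠ q := by
            unfold mte; split_ifs <;> omega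
          have hs0 : fil (fun j => lbl k x y g f (c j)) p q u (neg w) p = u := fil_p _ _ _ _ _
          have hs1 : fil (fun j => lbl k x y g f (c j)) p q u (neg w) q = neg w := fil_q hpq.symm _ _
          have hsp : fil (fun j => lbl k x y g f (c j)) p q u (neg w) (mte m p) =
              lbl k x y g f (c (mte m p)) := fil_o hmp.1 hmp.2.1 _ _
          have hsq : fil (fun j => lbl k x y g f (c j)) p q u (neg w) (mte m q) =
              lbl k x y g f (c (mte m q)) := fil_o hmp.2.2.1 hmp.2.2.2 _ _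
          have hcp1 : fil (fun j => lbl k x y g f (c j)) p q u (neg w) p ≠
              neg (fil (fun j => lbl k x y g f (c j)) p q u (neg w) (mte m p)) := by
            rw [hs0, hsp]; exact hcon'.1
          have hcq1 : fil (fun j => lbl k x y g f (c j)) p q u (neg w) q ≠
              neg (fil (fun j => lbl k x y g f (c j)) p q u (neg w) (mte m q)) := by
            rw [hs1, hsq]; exact fun h' => hcon'.2 (H3DA.neg_inj h')
          have hfe : ∀ a, (a = p ∨ a = q) → fil (fun j => lbl k x y g f (c j)) p q u (neg w) a ≠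
              neg (fil (fun j => lbl k x y g f (c j)) p q u (neg w) (mte m a)) := by
            rintro a (rfl | rfl)
            · exact hcp1
            · exact hcq1
          have hf0 : fil (fun j => lbl k x y g f (c j)) p q u (neg w) 0 ≠
              neg (fil (fun j => lbl k x y g f (c j)) p q u (neg w) 1) := by
            have h01 : (0 = p ∨ 0 = q) ∨ (1 = p ∨ 1 = q) := by omega
            rcases h01 with h0 | h0
            · have := hfe 0 h0
              rwa [show mte m 0 = 1 from rfl] at this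
            · have := hfe 1 h0
              rw [show mte m 1 = 0 from rfl] at this
              exact H3DA.ne_neg_symm this
          have hfm : fil (fun j => lbl k x y g f (c j)) p q u (neg w) m ≠
              neg (fil (fun j => lbl k x y g f (c j)) p q u (neg w) (m + 1)) := by
            have e4 : mte m m = m + 1 := mte_m hm
            have e5 : mte m (m + 1) = m := mte_m1 hm
            have h01 : (m = p ∨ m = q) ∨ (m + 1 = p ∨ m + 1 = q) := by omega
            rcases h01 with h0 | h0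
            · have := hfe m h0
              rwa [e4] at this
            · have := hfe (m + 1) h0
              rw [e5] at this
              exact H3DA.ne_neg_symm this
          refine tlab_spec g hRel (fun j j1 j2 j3 j4 => fil_o j2 j3 _ _) hf0 hfm ?_ ?_
          · rw [hs0, hs1, H3DA.neg_neg]; exact hn
          · rw [fil_o b2 b3]; exact hj0
        obtain ⟨u, w, h1, h2, h3, h4⟩ := good_CC (hcc g hav) (hcc g' hav') _ _ hne' _ _ hA' hB'
        exact ⟨u, w, h1, h2, h3, h4⟩
      · have hmain := elab_main hm hp hq (by rwa [cl_eq (by omega) hp, cl_eq (by omega) hq] at hpar)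
          (fun h4 => by
            by_contra hcon'
            push Not at hcon'
            apply he
            rw [hexc, hinp, hinq]
            exact ⟨h4, fun h5 => absurd h5.2 (by have := hcon'.1 h5.1; omega),
              fun h5 => absurd h5.2 (by have := hcon'.2 h5.1; omega)⟩)
        have e : (if InnerPt G R (z (cl m p)) then 4 else 3) = (if 2 ≤ p ∧ p + 1 ≤ m then 4 else 3) := by
          simp only [hinp]
        rw [e] at hB'
        exact hmain _ _ (hfk g hav) (hfk g' hav') _ _ hne' _ _ hA' hB'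
    obtain ⟨u, w, h1, h2, h3, h4⟩ := hlab
    -- the final walk
    have fin : ∀ g : ℕ → Q, nr (tau (k - 1) (g (k - 2))) u = true →
        CExt m (fil (fun j => lbl k x y g f (c j)) p q u (neg w)) →
        ∃ mu : ℕ → Q, Same (k - 1) g mu ∧ nr (mu (k - 2)) (mu (k - 1)) = true ∧
          nr (mu (k - 1)) (mu k) = true ∧ mu (k - 1) ∉ A ∧ mu k ∉ B ∧
          ∃ w, Fits G R (lbl k x y mu f) w (cSupp m z) := by
      intro g hn hE
      refine ⟨fun i => if i = k then tau (k - 1) w else if i = k - 1 then tau (k - 1) u else g i,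
        fun j j1 j2 => ?_, ?_, ?_, ?_, ?_, ?_⟩
      · dsimp only
        rw [if_neg (by omega), if_neg (by omega)]
      · dsimp only
        rw [if_neg (by omega), if_neg (by omega), if_neg (by omega), if_pos rfl]
        rw [← nr_tau (k - 1), tau_tau]; exact hn
      · dsimp only
        rw [if_neg (by omega), if_pos rfl, if_pos rfl, nr_tau]; exact h3
      · dsimp only
        rw [if_neg (by omega), if_pos rfl]
        intro hin
        exact h1 (mem_image.2 ⟨_, hin, tau_tau _ _⟩)
      · dsimp only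
        rw [if_pos rfl]
        intro hin
        exact h2 (mem_image.2 ⟨_, hin, tau_tau _ _⟩)
      · rw [← cext_iff_fits h]
        refine cext_congr (by omega) (fun j hj => ?_) hE
        by_cases hjp : j = p
        · rw [hjp, fil_p, hcp, lbl_y hch (by omega) (by omega)]
          rw [if_neg (by omega), if_pos rfl]
          exact (tau_tau (k - 1) u).symm
        · by_cases hjq : j = q
          · rw [hjq, fil_q hpq.symm, hcq, lbl_y hch hch.pos le_rfl]
            rw [if_pos rfl]
            have e : sg k (tau (k - 1) w) = w := by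
              have := sg_succ (k - 1) (tau (k - 1) w)
              rw [show k - 1 + 1 = k by omega] at this
              rw [this]
              exact tau_tau (k - 1) w
            rw [e]
          · rw [fil_o hjp hjq]
            by_cases hin : InC k x y (c j)
            · refine lbl_congr hch hin ?_
              have := hoth j hj hjp hjq hin
              rw [if_neg (by omega), if_neg (by omega)]
            · rw [lbl_out hin, lbl_out hin]
    rcases h4 with ⟨h4, h5⟩ | ⟨h4, h5⟩
    · obtain ⟨mu, m1, m2, m3, m4, m5, m6⟩ := fin g h4 h5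
      exact ⟨mu, Or.inl m1, m2, m3, m4, m5, m6⟩
    · obtain ⟨mu, m1, m2, m3, m4, m5, m6⟩ := fin g' h4 h5
      exact ⟨mu, Or.inr m1, m2, m3, m4, m5, m6⟩
  · -- unit two
    intro hcase w g g'
    have main : ∀ v, (v = x 2 ∨ v = y 2) →
        phe k x y f m p q j₀ z c v w g = phe k x y f m p q j₀ z c v w g' := by
      intro v hv
      rcases phe_cases (k := k) (x := x) (y := y) (f := f) (p := p) (q := q) (j₀ := j₀) h v w with
        h3 | ⟨j, hj, hcj, -, h3⟩
      · rw [h3, h3]
      · rw [h3, h3]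
        have hidx : idx k x y (c j) = 2 := by
          rw [hcj]
          rcases hv with rfl | rfl
          · exact idx_x hch (by omega) (by omega)
          · exact idx_y hch (by omega) (by omega)
        have hin : InC k x y (c j) := by
          rw [hcj]
          rcases hv with rfl | rfl
          · exact InC.x (by omega) (by omega)
          · exact InC.y (by omega) (by omega)
        unfold gam
        split_ifs with h4 h5
        · rw [chg_congr hch h hm hj h4 hin (g := g) (g' := g')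
            (fun l l1 l2 => by rw [hidx] at l2; omega)]
        · exfalso
          obtain ⟨e1, e2, e3⟩ := hexc.1 h5.1
          rcases hcase with h6 | h6 | h6 | h6
          · exact h6 e1
          · exact e2 h6
          · exact e3 h6
          · exact h6 j hj hin hidx
        · rfl
    exact ⟨main _ (Or.inl rfl), main _ (Or.inr rfl)⟩
  · -- at most one label
    intro v w g
    rcases phe_cases (k := k) (x := x) (y := y) (f := f) (p := p) (q := q) (j₀ := j₀) h v w with
      h3 | ⟨j, hj, hcj, -, h3⟩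
    · rw [h3]; simp
    · rw [h3]; exact gam_card _ _ _ _ _ _ _ _
  · -- no charge
    intro j hj hn h4 g
    rw [phe_eq h hj]
    unfold gam
    rw [if_neg hn, if_neg (fun h' => h4 h'.1.1)]
  · -- dependence before the last of the other ports
    rintro i h1 h2 ⟨j1, hj1, n1, n2, hin1, hlt1⟩ w g g' hs
    have main : ∀ v, (v = x i ∨ v = y i) →
        phe k x y f m p q j₀ z c v w g = phe k x y f m p q j₀ z c v w g' := by
      intro v hv
      rcases phe_cases (k := k) (x := x) (y := y) (f := f) (p := p) (q := q) (j₀ := j₀) h v w with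
        h3 | ⟨j, hj, hcj, -, h3⟩
      · rw [h3, h3]
      · rw [h3, h3]
        have hidx : idx k x y (c j) = i := by
          rw [hcj]
          rcases hv with rfl | rfl
          · exact idx_x hch h1 h2
          · exact idx_y hch h1 h2
        have hin : InC k x y (c j) := by
          rw [hcj]
          rcases hv with rfl | rfl
          · exact InC.x h1 h2
          · exact InC.y h1 h2
        unfold gam
        split_ifs with h4 h5
        · rw [chg_congr hch h hm hj h4 hin (by rw [hidx]; exact hs)]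
        · exfalso
          obtain ⟨b1, b2, b3, b4, b5⟩ := hj₀ h5.1
          have e : j = j₀ := h5.2
          by_cases h6 : j1 = j₀
          · rw [h6, ← e, hidx] at hlt1
            omega
          · have := b5 j1 hj1 n1 n2 h6 hin1
            rw [← e, hidx] at this
            omega
        · rfl
    exact ⟨main _ (Or.inl rfl), main _ (Or.inr rfl)⟩
  · -- nothing off the ports
    intro v w hno g
    rcases phe_cases (k := k) (x := x) (y := y) (f := f) (p := p) (q := q) (j₀ := j₀) h v w with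
      h3 | ⟨j, hj, hcj, hw, -⟩
    · exact h3 g
    · exact absurd hw (hno j hj hcj)

/-- The component is killed in the last two units; at most one label per port is charged before. -/
theorem ekill_of_ports_card (hG : ClassC G R) (hch : Chn G R k x y) (hk : 3 ≤ k) {f : V → Q}
    (hf : OffC G R k x y f) {m : ℕ} {z c : ℕ → V} (h : Cat G R m z c) (hm : 2 ≤ m) {p q : ℕ}
    (hp : p ≤ m + 1) (hq : q ≤ m + 1) (hcp : c p = y (k - 1)) (hcq : c q = y k)
    (hoth : ∀ j ≤ m + 1, j ≠ p → j ≠ q → InC k x y (c j) → idx k x y (c j) + 2 ≤ k)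
    (hex : m % 4 = 0 → ¬ InnerPt G R (z (cl m p)) → ¬ InnerPt G R (z (cl m q)) →
      (∃ j ≤ m + 1, j ≠ p ∧ j ≠ q ∧ InC k x y (c j)) ∧ ∀ i j, i ≤ m + 1 → j ≤ m + 1 →
        InC k x y (c i) → InC k x y (c j) → idx k x y (c i) = idx k x y (c j) → i = j) :
    ∃ φ, EKill G R k x y f (cSupp m z) (if InnerPt G R (z (cl m p)) then 4 else 3) φ ∧
      ((m % 4 ≠ 0 ∨ InnerPt G R (z (cl m p)) ∨ InnerPt G R (z (cl m q)) ∨
        ∀ j ≤ m + 1, InC k x y (c j) → idx k x y (c j) ≠ 2) →
        ∀ w g g', φ (x 2) w g = φ (x 2) w g' ∧ φ (y 2) w g = φ (y 2) w g') ∧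
      ∀ v w g, (φ v w g).card ≤ 1 := by
  obtain ⟨φ, h1, h2, h3, -, -, -⟩ := ekill_of_ports_full hG hch hk hf h hm hp hq hcp hcq hoth hex
  exact ⟨φ, h1, h2, h3⟩

/-- The component is killed in the last two units. -/
theorem ekill_of_ports (hG : ClassC G R) (hch : Chn G R k x y) (hk : 3 ≤ k) {f : V → Q}
    (hf : OffC G R k x y f) {m : ℕ} {z c : ℕ → V} (h : Cat G R m z c) (hm : 2 ≤ m) {p q : ℕ}
    (hp : p ≤ m + 1) (hq : q ≤ m + 1) (hcp : c p = y (k - 1)) (hcq : c q = y k)
    (hoth : ∀ j ≤ m + 1, j ≠ p → j ≠ q → InC k x y (c j) → idx k x y (c j) + 2 ≤ k)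
    (hex : m % 4 = 0 → ¬ InnerPt G R (z (cl m p)) → ¬ InnerPt G R (z (cl m q)) →
      (∃ j ≤ m + 1, j ≠ p ∧ j ≠ q ∧ InC k x y (c j)) ∧ ∀ i j, i ≤ m + 1 → j ≤ m + 1 →
        InC k x y (c i) → InC k x y (c j) → idx k x y (c i) = idx k x y (c j) → i = j) :
    ∃ φ, EKill G R k x y f (cSupp m z) (if InnerPt G R (z (cl m p)) then 4 else 3) φ ∧
      ((m % 4 ≠ 0 ∨ InnerPt G R (z (cl m p)) ∨ InnerPt G R (z (cl m q)) ∨
        ∀ j ≤ m + 1, InC k x y (c j) → idx k x y (c j) ≠ 2) →
        ∀ w g g', φ (x 2) w g = φ (x 2) w g' ∧ φ (y 2) w g = φ (y 2) w g') := by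
  obtain ⟨φ, h1, h2, -⟩ := ekill_of_ports_card hG hch hk hf h hm hp hq hcp hcq hoth hex
  exact ⟨φ, h1, h2⟩

end CLB.H91
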