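import Pool.Agent.Helper91_DA.Laws2
import Pool.Agent.Helper95_CLB.WinK
import Pool.Agent.Helper3_DA.Beta

/-!
Components with five vertices: a full unit with leaves in both forks. The windows (statements).
-/

set_option autoImplicit false
set_option linter.unusedSectionVars false

namespace CLB.H91

open Finset Classical
open H3DA (Q neg nr)
open CLB.H95
open CLB.H3 (CExt Cat IsTwo Fits UPath he_of_unc cat_structure chn_side pos)

variable {V : Type*} {H : SimpleGraph V} {R : V → Bool} [Fintype V] {k : ℕ} {x y : ℕ → V}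

/-- The full unit `v`: `x v` is a leaf of the first fork `c 0, c 1`, `y v` one of the last fork
`c 5, c 6`. -/
structure K5 (H : SimpleGraph V) (R : V → Bool) (k : ℕ) (x y : ℕ → V) (z c : ℕ → V) (v : ℕ) : Prop where
  cat : Cat H R 5 z c
  v1 : 1 ≤ v
  vk : v ≤ k
  c1 : c 1 = x v
  c5 : c 5 = y v

/-- The port is not in the units `1, ..., n`. -/
def OutU (x y : ℕ → V) (n : ℕ) (v : V) : Prop := ∀ i, 1 ≤ i → i ≤ n → v ≠ x i ∧ v ≠ y i

/-- The hypotheses common to all windows. -/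
structure Base (H : SimpleGraph V) (R : V → Bool) (k : ℕ) (x y : ℕ → V) : Prop where
  hG : ClassC H R
  hc : Crit H R
  ch : Chn H R k x y
  e1 : ∀ w, ¬ Lk H R (x 1) w
  ek : ∀ w, ¬ Lk H R (y k) w

/-- `[x_1 * | * | * | x_4 | x_3 y_1]`, the full unit is unit 1. -/
def W1Stmt : Prop := ∀ (V : Type) [Fintype V] (H : SimpleGraph V) (R : V → Bool) (k : ℕ)
  (x y z c : ℕ → V), Base H R k x y → K5 H R k x y z c 1 → 6 ≤ k → c 6 = x 3 → c 4 = x 4 →
  OutU x y 4 (c 0) → OutU x y 4 (c 2) → OutU x y 4 (c 3) → False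

/-- `[x_1 *|*|*|y_2|* y_1]`, the full unit is unit 1. -/
def W4Stmt : Prop := ∀ (V : Type) [Fintype V] (H : SimpleGraph V) (R : V → Bool) (k : ℕ)
  (x y z c : ℕ → V), Base H R k x y → K5 H R k x y z c 1 → 3 ≤ k → c 4 = y 2 →
  OutU x y 2 (c 0) → OutU x y 2 (c 2) → OutU x y 2 (c 3) → OutU x y 2 (c 6) → False

/-- `[x_1 *|x_4|x_3|*|* y_1]`, the full unit is unit 1. -/
def W5Stmt : Prop := ∀ (V : Type) [Fintype V] (H : SimpleGraph V) (R : V → Bool) (k : ℕ)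
  (x y z c : ℕ → V), Base H R k x y → K5 H R k x y z c 1 → 6 ≤ k → c 2 = x 4 → c 3 = x 3 →
  OutU x y 4 (c 0) → OutU x y 4 (c 4) → OutU x y 4 (c 6) → False

/-- `[x_1 x_5|x_4|*|*|x_3 y_1]` or `[x_1 x_5|*|*|x_4|x_3 y_1]`, the full unit is unit 1. -/
def W8Stmt : Prop := ∀ (V : Type) [Fintype V] (H : SimpleGraph V) (R : V → Bool) (k : ℕ)
  (x y z c : ℕ → V), Base H R k x y → K5 H R k x y z c 1 → 5 ≤ k → c 0 = x 5 → c 6 = x 3 →
  (∃ p, (p = 2 ∨ p = 4) ∧ c p = x 4 ∧ ∀ j ≤ 6, j ≠ p → c j ≠ x 4 ∧ c j ≠ y 4) → False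

end CLB.H91
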