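import Pool.Agent.Helper91_DA.M5Defs

/-!
Components with five vertices: the windows for the other positions of the full unit (statements).
-/

set_option autoImplicit false
set_option linter.unusedSectionVars false

namespace CLB.H91

open Finset Classical
open H3DA (Q neg nr)
open CLB.H95
open CLB.H3 (CExt Cat IsTwo Fits UPath he_of_unc cat_structure chn_side pos)

/-- `x_1, x_2, x_3` are the three inner ports. -/
def W2Stmt : Prop := ∀ (V : Type) [Fintype V] (H : SimpleGraph V) (R : V → Bool) (k : ℕ)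
  (x y z c : ℕ → V) (v : ℕ), Base H R k x y → K5 H R k x y z c v → 4 ≤ v → (v < k ∨ 6 ≤ k) →
  ((c 4 = x 1 ∧ c 3 = x 2 ∧ c 2 = x 3) ∨ (c 2 = x 1 ∧ c 3 = x 2 ∧ c 4 = x 3)) →
  OutU x y 3 (c 0) → OutU x y 3 (c 6) → False

/-- `x_1` inner port next to the leaf `x_2` of the full unit 2. -/
def W3Stmt : Prop := ∀ (V : Type) [Fintype V] (H : SimpleGraph V) (R : V → Bool) (k : ℕ)
  (x y z c : ℕ → V), Base H R k x y → K5 H R k x y z c 2 → 3 ≤ k → c 2 = x 1 →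
  OutU x y 2 (c 0) → OutU x y 2 (c 3) → OutU x y 2 (c 4) → OutU x y 2 (c 6) → False

/-- `x_1` is a leaf, `x_2, x_3` are the next two inner ports. -/
def W6Stmt : Prop := ∀ (V : Type) [Fintype V] (H : SimpleGraph V) (R : V → Bool) (k : ℕ)
  (x y z c : ℕ → V) (v : ℕ), Base H R k x y → K5 H R k x y z c v → 4 ≤ v → (v < k ∨ 6 ≤ k) →
  ((c 6 = x 1 ∧ c 4 = x 2 ∧ c 3 = x 3 ∧ OutU x y 3 (c 0) ∧ OutU x y 3 (c 2)) ∨
    (c 0 = x 1 ∧ c 2 = x 2 ∧ c 3 = x 3 ∧ OutU x y 3 (c 4) ∧ OutU x y 3 (c 6))) → False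

/-- `x_2` is next to the leaf `x_3` of the full unit 3, `x_1` is the middle port. -/
def W7Stmt : Prop := ∀ (V : Type) [Fintype V] (H : SimpleGraph V) (R : V → Bool) (k : ℕ)
  (x y z c : ℕ → V), Base H R k x y → K5 H R k x y z c 3 → 4 ≤ k → c 2 = x 2 → c 3 = x 1 →
  OutU x y 3 (c 0) → OutU x y 3 (c 4) → OutU x y 3 (c 6) → False

/-- `[x_1 x_3|x_2|*|y_4|y_3 y_5]`, five units. -/
def E1Stmt : Prop := ∀ (V : Type) [Fintype V] (H : SimpleGraph V) (R : V → Bool)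
  (x y z c : ℕ → V), Base H R 5 x y → K5 H R 5 x y z c 3 → c 0 = x 1 → c 2 = x 2 →
  ¬ InC 5 x y (c 3) → c 4 = y 4 → c 6 = y 5 → False

/-- `[y_5 x_3|x_2|*|y_4|x_1 y_3]`, five units. -/
def E2Stmt : Prop := ∀ (V : Type) [Fintype V] (H : SimpleGraph V) (R : V → Bool)
  (x y z c : ℕ → V), Base H R 5 x y → K5 H R 5 x y z c 3 → c 0 = y 5 → c 2 = x 2 →
  ¬ InC 5 x y (c 3) → c 4 = y 4 → c 6 = x 1 → False

end CLB.H91
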