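import Pool.Agent.Helper95_CLB.Kext

/-!
The end-kill lemma of helper95, combinatorial part: from two different labels `t`, `t'` one step before the
last two units there is always a choice `w`, `v` of the last two labels with `w ∉ G`, `v ∉ E` which is not
bad, for the bad sets coming from one component with any two histories.
-/

set_option autoImplicit false

namespace CLB.H91

open Finset
open H3DA (Q neg nr)
open CLB.H95

/-- From two different labels the last two units can be filled. -/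
def Good (n : ℕ) (ok ok' : Q → Q → Prop) : Prop :=
  ∀ t t' : Q, t ≠ t' → ∀ G E : Finset Q, G.card ≤ 2 → E.card ≤ n →
    ∃ w v, w ∉ G ∧ v ∉ E ∧ nr w v = true ∧ ((nr t w = true ∧ ok w v) ∨ (nr t' w = true ∧ ok' w v))

/-- At most two bad pairs. -/
def FII (ok : Q → Q → Prop) : Prop :=
  ∃ P : Finset (Q × Q), P.card ≤ 2 ∧ ∀ w v, nr w v = true → ¬ ok w v → (w, v) ∈ P

/-- A bad first label and at most one bad pair. -/
def FLI (ok : Q → Q → Prop) : Prop :=
  ∃ c : Q, ∃ P : Finset (Q × Q), P.card ≤ 1 ∧ ∀ w v, nr w v = true → ¬ ok w v → w = c ∨ (w, v) ∈ P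

/-- A bad second label and at most one bad pair. -/
def FIL (ok : Q → Q → Prop) : Prop :=
  ∃ c : Q, ∃ P : Finset (Q × Q), P.card ≤ 1 ∧ ∀ w v, nr w v = true → ¬ ok w v → v = c ∨ (w, v) ∈ P

/-- The bad pairs of two leaves. -/
def LLbad (a b w v : Q) : Prop :=
  w = neg a ∨ v = neg b ∨ ∃ D : Ty, stp D a b = true ∧ frk D a w = true ∧ frk D b v = true

instance (a b w v : Q) : Decidable (LLbad a b w v) := by unfold LLbad; infer_instance

/-- The bad pairs of two leaves. -/
def FLL (ok : Q → Q → Prop) : Prop :=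
  ∃ a b : Q, ∀ w v, nr w v = true → ¬ ok w v → LLbad a b w v

lemma sum_le {A E : Finset Q} {P : Finset (Q × Q)} (h : ∀ w ∈ A, ∀ v ∈ ball w \ E, (w, v) ∈ P) :
    ∑ w ∈ A, (ball w \ E).card ≤ P.card := by
  rw [← Finset.card_sigma]
  refine Finset.card_le_card_of_injOn (fun x => (x.1, x.2)) ?_ ?_
  · rintro ⟨w, v⟩ hx
    rw [Finset.mem_coe, Finset.mem_sigma] at hx
    exact h w hx.1 v hx.2
  · rintro ⟨w, v⟩ _ ⟨w', v'⟩ _ hxy
    simp only [Prod.mk.injEq] at hxy
    obtain ⟨rfl, rfl⟩ := hxy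
    rfl

lemma sum_mono {A E E' : Finset Q} (h : E ⊆ E') :
    ∑ w ∈ A, (ball w \ E').card ≤ ∑ w ∈ A, (ball w \ E).card :=
  Finset.sum_le_sum fun _ _ => Finset.card_le_card (Finset.sdiff_subset_sdiff (Finset.Subset.refl _) h)

lemma ball_inter_le : ∀ x y : Q, x ≠ y → (ball x ∩ ball y).card ≤ 2 := by decide

/-- Where the second set must be when both starts are short of labels. -/
lemma split {t t' : Q} (ht : t ≠ t') {G : Finset Q} (hG : G.card ≤ 2) :
    3 ≤ (ball t \ G).card ∨ 3 ≤ (ball t' \ G).card ∨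
      (ball t \ G = ball t \ ball t' ∧ ball t' \ G = ball t' \ ball t) := by
  by_cases h1 : 3 ≤ (ball t \ G).card
  · exact Or.inl h1
  by_cases h2 : 3 ≤ (ball t' \ G).card
  · exact Or.inr (Or.inl h2)
  right; right
  have key : ∀ s : Q, ¬ 3 ≤ (ball s \ G).card → G ⊆ ball s ∧ G.card = 2 := by
    intro s hs
    have h3 := Finset.card_sdiff_add_card_inter (ball s) G
    rw [ball_card] at h3
    have h4 : (ball s ∩ G) ⊆ G := Finset.inter_subset_right
    have h5 := Finset.card_le_card h4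
    have h6 : ball s ∩ G = G := Finset.eq_of_subset_of_card_le h4 (by omega)
    exact ⟨fun x hx => (Finset.mem_inter.1 (h6.symm ▸ hx : x ∈ ball s ∩ G)).1, by omega⟩
  obtain ⟨g1, g2⟩ := key t h1
  obtain ⟨g3, -⟩ := key t' h2
  have g4 : G = ball t ∩ ball t' := by
    refine Finset.eq_of_subset_of_card_le (Finset.subset_inter g1 g3) ?_
    rw [g2]; exact ball_inter_le t t' ht
  constructor
  · rw [g4]; ext x; simp only [mem_sdiff, mem_inter]; tauto
  · rw [g4]; ext x; simp only [mem_sdiff, mem_inter]; tauto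

lemma exists_three {A : Finset Q} (h : 3 ≤ A.card) : ∃ a b c, a ∈ A ∧ b ∈ A ∧ c ∈ A ∧ a ≠ b ∧
    a ≠ c ∧ b ≠ c := by
  obtain ⟨a, ha, b, hb, c, hc, h1, h2, h3⟩ := Finset.two_lt_card.1 (show 2 < A.card by omega)
  exact ⟨a, b, c, ha, hb, hc, h1, h2, h3⟩

lemma three_sum_le {A : Finset Q} {a b c : Q} (ha : a ∈ A) (hb : b ∈ A) (hc : c ∈ A) (hab : a ≠ b)
    (hac : a ≠ c) (hbc : b ≠ c) (f : Q → ℕ) : f a + f b + f c ≤ ∑ w ∈ A, f w := by
  have h1 : ({a, b, c} : Finset Q) ⊆ A := by
    intro x hx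
    simp only [mem_insert, mem_singleton] at hx
    rcases hx with rfl | rfl | rfl <;> assumption
  calc f a + f b + f c = ∑ w ∈ ({a, b, c} : Finset Q), f w := by
        rw [Finset.sum_insert (by simp [hab, hac]), Finset.sum_insert (by simp [hbc]),
          Finset.sum_singleton]; ring
    _ ≤ ∑ w ∈ A, f w := Finset.sum_le_sum_of_subset h1

set_option maxRecDepth 100000 in
lemma key_IIa : ∀ E ∈ powersetCard 4 (univ : Finset Q), ∀ a b c : Q, a ≠ b → a ≠ c → b ≠ c →
    a ≠ neg b → a ≠ neg c → b ≠ neg c →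
    3 ≤ (ball a \ E).card + (ball b \ E).card + (ball c \ E).card := by
  decide +kernel

set_option maxRecDepth 100000 in
lemma key_IIb : ∀ E ∈ powersetCard 4 (univ : Finset Q), ∀ t t' : Q, t ≠ t' →
    t ≠ neg t' → 3 ≤ ∑ w ∈ ball t \ ball t', (ball w \ E).card ∨
      3 ≤ ∑ w ∈ ball t' \ ball t, (ball w \ E).card := by
  decide +kernel

set_option maxRecDepth 100000 in
lemma key_ILa : ∀ E ∈ powersetCard 5 (univ : Finset Q), ∀ a b c : Q, a ≠ b → a ≠ c → b ≠ c →
    a ≠ neg b → a ≠ neg c → b ≠ neg c →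
    2 ≤ (ball a \ E).card + (ball b \ E).card + (ball c \ E).card := by
  decide +kernel

/-- Two bad pairs are needed. -/
def Two (A E : Finset Q) : Prop := ∀ c : Q, 2 ≤ ∑ w ∈ A, (ball w \ insert c E).card

instance (A E : Finset Q) : Decidable (Two A E) := by unfold Two; infer_instance

set_option maxRecDepth 100000 in
lemma key_ILb : ∀ E ∈ powersetCard 4 (univ : Finset Q), ∀ t t' : Q, t ≠ t' →
    t ≠ neg t' → Two (ball t \ ball t') E ∨ Two (ball t' \ ball t) E := by
  decide +kernel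

/-- The labels reached at the last unit. -/
def VLL (A : Finset Q) (a b : Q) : Finset Q :=
  univ.filter (fun v => ∃ w ∈ A, nr w v = true ∧ ¬ LLbad a b w v)

lemma nr_add : ∀ c x y : Q, nr (add c x) (add c y) = nr x y := by decide
lemma frk_add : ∀ (D : Ty) (c x y : Q), frk D (add c x) (add c y) = frk D x y := by decide +kernel
lemma stp_add : ∀ (D : Ty) (c x y : Q), stp D (add c x) (add c y) = stp D x y := by decide +kernel
lemma neg_add : ∀ c x : Q, neg (add c x) = add c (neg x) := by decide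
lemma add_inj : ∀ c x y : Q, add c x = add c y → x = y := by decide
lemma add_self : ∀ c x : Q, add c (add c x) = x := by decide
lemma add_zero' : ∀ c : Q, add c c = (false, false, false) := by decide

lemma LLbad_add (c a b w v : Q) : LLbad (add c a) (add c b) (add c w) (add c v) ↔ LLbad a b w v := by
  unfold LLbad
  simp only [frk_add, stp_add, neg_add]
  constructor
  · rintro (h | h | h)
    · exact Or.inl (add_inj _ _ _ h)
    · exact Or.inr (Or.inl (add_inj _ _ _ h))
    · exact Or.inr (Or.inr h)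
  · rintro (h | h | h)
    · exact Or.inl (by rw [h])
    · exact Or.inr (Or.inl (by rw [h]))
    · exact Or.inr (Or.inr h)

lemma VLL_add (c : Q) (A : Finset Q) (a b : Q) :
    VLL (A.image (add c)) (add c a) (add c b) = (VLL A a b).image (add c) := by
  ext v
  unfold VLL
  simp only [mem_filter, mem_univ, true_and, mem_image]
  constructor
  · rintro ⟨w, ⟨w', hw', rfl⟩, h1, h2⟩
    refine ⟨add c v, ⟨w', hw', ?_, ?_⟩, add_self c v⟩
    · rw [← nr_add c, add_self]; exact h1
    · rw [← LLbad_add c, add_self]; exact h2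
  · rintro ⟨v', ⟨w, hw, h1, h2⟩, rfl⟩
    exact ⟨add c w, ⟨w, hw, rfl⟩, by rw [nr_add]; exact h1, by rw [LLbad_add]; exact h2⟩

lemma VLL_add_card (c : Q) (A : Finset Q) (a b : Q) :
    (VLL (A.image (add c)) (add c a) (add c b)).card = (VLL A a b).card := by
  rw [VLL_add, Finset.card_image_of_injective _ (fun x y h => add_inj c x y h)]

set_option maxRecDepth 100000 in
lemma key_LLa0 : ∀ t : Q, ∀ A ∈ powersetCard 3 (ball t), ∀ b : Q,
    4 ≤ (VLL A (false, false, false) b).card := by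
  decide +kernel

set_option maxRecDepth 100000 in
lemma key_LLb0 : ∀ x y : Q, x ≠ y → x ≠ neg y → ∀ b : Q,
    4 ≤ (VLL {x, y} (false, false, false) b).card ∨
    (3 ≤ (VLL {x, y} (false, false, false) b).card ∧
      (VLL {x, y} (false, false, false) b ⊆ ball x ∨ VLL {x, y} (false, false, false) b ⊆ ball y)) := by
  decide +kernel

lemma key_LLa (t : Q) (A : Finset Q) (hA : A ∈ powersetCard 3 (ball t)) (a b : Q) :
    4 ≤ (VLL A a b).card := by
  rw [← VLL_add_card a, add_zero']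
  refine key_LLa0 (add a t) _ ?_ _
  rw [mem_powersetCard] at hA ⊢
  refine ⟨fun x hx => ?_, ?_⟩
  · rw [mem_image] at hx
    obtain ⟨y, hy, rfl⟩ := hx
    rw [mem_ball, nr_add]
    exact mem_ball.1 (hA.1 hy)
  · rw [Finset.card_image_of_injective _ (fun x y h => add_inj a x y h)]; exact hA.2

lemma key_LLb (x y : Q) (hxy : x ≠ y) (hxy' : x ≠ neg y) (a b : Q) : 4 ≤ (VLL {x, y} a b).card ∨
    (3 ≤ (VLL {x, y} a b).card ∧ (VLL {x, y} a b ⊆ ball x ∨ VLL {x, y} a b ⊆ ball y)) := by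
  have h0 := key_LLb0 (add a x) (add a y) (fun h => hxy (add_inj _ _ _ h))
    (fun h => hxy' (add_inj a _ _ (by rw [h, neg_add]))) (add a b)
  have e : ({add a x, add a y} : Finset Q) = ({x, y} : Finset Q).image (add a) := by
    rw [Finset.image_insert, Finset.image_singleton]
  have e0 : (false, false, false) = add a a := (add_zero' a).symm
  rw [e, e0, VLL_add_card] at h0
  have hsub : ∀ u : Q, VLL (({x, y} : Finset Q).image (add a)) (add a a) (add a b) ⊆ ball (add a u) →
      VLL {x, y} a b ⊆ ball u := by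
    intro u hu v hv
    rw [VLL_add] at hu
    have := hu (Finset.mem_image_of_mem (add a) hv)
    rw [mem_ball, nr_add] at this
    exact mem_ball.2 this
  rcases h0 with h | ⟨h, h' | h'⟩
  · exact Or.inl h
  · exact Or.inr ⟨h, Or.inl (hsub x h')⟩
  · exact Or.inr ⟨h, Or.inr (hsub y h')⟩

/-- Elements of one ball are not antipodal. -/
lemma ball_ne_neg : ∀ t a b : Q, nr t a = true → nr t b = true → a ≠ neg b := by decide

lemma exists_sup {E : Finset Q} {n : ℕ} (h : E.card ≤ n) (hn : n ≤ 8) :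
    ∃ E' ∈ powersetCard n (univ : Finset Q), E ⊆ E' := by
  obtain ⟨E', h1, h2⟩ := Finset.exists_superset_card_eq h (by rw [← Finset.card_univ, card_univ_Q]; exact hn)
  exact ⟨E', Finset.mem_powersetCard.2 ⟨Finset.subset_univ _, h2⟩, h1⟩

/-- The general reduction: three labels after the first step, or the sets are differences of balls. -/
lemma good_of {n : ℕ} {ok ok' : Q → Q → Prop}
    (h3 : ∀ (A E : Finset Q) (t : Q), A ⊆ ball t → 3 ≤ A.card → E.card ≤ n →
      (∀ w ∈ A, ∀ v ∈ ball w \ E, ¬ ok w v) → False)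
    (h3' : ∀ (A E : Finset Q) (t : Q), A ⊆ ball t → 3 ≤ A.card → E.card ≤ n →
      (∀ w ∈ A, ∀ v ∈ ball w \ E, ¬ ok' w v) → False)
    (hd : ∀ (t t' : Q) (E : Finset Q), t ≠ t' → t ≠ neg t' → E.card ≤ n →
      (∀ w ∈ ball t \ ball t', ∀ v ∈ ball w \ E, ¬ ok w v) →
      (∀ w ∈ ball t' \ ball t, ∀ v ∈ ball w \ E, ¬ ok' w v) → False) : Good n ok ok' := by
  intro t t' ht G E hG hE
  by_contra hcon
  push Not at hcon
  have h1 : ∀ w ∈ ball t \ G, ∀ v ∈ ball w \ E, ¬ ok w v := by
    intro w hw v hv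
    rw [mem_sdiff, mem_ball] at hw hv
    exact (hcon w v hw.2 hv.2 hv.1).1 hw.1
  have h2 : ∀ w ∈ ball t' \ G, ∀ v ∈ ball w \ E, ¬ ok' w v := by
    intro w hw v hv
    rw [mem_sdiff, mem_ball] at hw hv
    exact (hcon w v hw.2 hv.2 hv.1).2 hw.1
  rcases split ht hG with h | h | ⟨e1, e2⟩
  · exact h3 _ E t Finset.sdiff_subset h hE h1
  · exact h3' _ E t' Finset.sdiff_subset h hE h2
  · rw [e1] at h1
    rw [e2] at h2
    by_cases hn : t = neg t'
    · have hb : ball t \ ball t' = ball t := by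
        rw [Finset.sdiff_eq_self_iff_disjoint, Finset.disjoint_iff_inter_eq_empty, hn, Finset.inter_comm]
        exact ball_inter_neg t'
      rw [hb] at h1
      exact h3 _ E t (Finset.Subset.refl _) (by rw [ball_card]; omega) hE h1
    · exact hd t t' E ht hn hE h1 h2

theorem good_II {ok ok' : Q → Q → Prop} (h : FII ok) (h' : FII ok') : Good 4 ok ok' := by
  have main : ∀ {ok : Q → Q → Prop}, FII ok → ∀ A E : Finset Q,
      (∀ w ∈ A, ∀ v ∈ ball w \ E, ¬ ok w v) → ∑ w ∈ A, (ball w \ E).card ≤ 2 := by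
    rintro ok ⟨P, hP, hok⟩ A E hA
    refine le_trans (sum_le (P := P) fun w hw v hv => hok w v ?_ (hA w hw v hv)) hP
    exact mem_ball.1 (Finset.mem_sdiff.1 hv).1
  have m3 : ∀ {ok : Q → Q → Prop}, FII ok → ∀ (A E : Finset Q) (t : Q), A ⊆ ball t → 3 ≤ A.card →
      E.card ≤ 4 → (∀ w ∈ A, ∀ v ∈ ball w \ E, ¬ ok w v) → False := by
    intro ok h A E t hAt hA hE hno
    obtain ⟨a, b, c, ha, hb, hc, hab, hac, hbc⟩ := exists_three hA
    obtain ⟨E', hE', hEE⟩ := exists_sup hE (by norm_num)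
    have g1 := main h A E hno
    have g2 := sum_mono (A := A) hEE
    have g3 := three_sum_le ha hb hc hab hac hbc (fun w => (ball w \ E').card)
    have n1 := mem_ball.1 (hAt ha)
    have n2 := mem_ball.1 (hAt hb)
    have n3 := mem_ball.1 (hAt hc)
    have g4 := key_IIa E' hE' a b c hab hac hbc (ball_ne_neg t a b n1 n2) (ball_ne_neg t a c n1 n3)
      (ball_ne_neg t b c n2 n3)
    omega
  refine good_of (m3 h) (m3 h') ?_
  intro t t' E ht hn hE h1 h2
  obtain ⟨E', hE', hEE⟩ := exists_sup hE (by norm_num)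
  have g1 := main h _ E h1
  have g2 := main h' _ E h2
  have g3 := sum_mono (A := ball t \ ball t') hEE
  have g4 := sum_mono (A := ball t' \ ball t) hEE
  rcases key_IIb E' hE' t t' ht hn with g5 | g5 <;> omega

theorem good_IL {ok ok' : Q → Q → Prop} (h : FIL ok) (h' : FIL ok') : Good 4 ok ok' := by
  have main : ∀ {ok : Q → Q → Prop}, FIL ok → ∃ c : Q, ∀ A E : Finset Q,
      (∀ w ∈ A, ∀ v ∈ ball w \ E, ¬ ok w v) → ∑ w ∈ A, (ball w \ insert c E).card ≤ 1 := by
    rintro ok ⟨c, P, hP, hok⟩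
    refine ⟨c, fun A E hA => le_trans (sum_le (P := P) fun w hw v hv => ?_) hP⟩
    rw [mem_sdiff, mem_ball, mem_insert, not_or] at hv
    refine (hok w v hv.1 (hA w hw v ?_)).resolve_left hv.2.1
    rw [mem_sdiff, mem_ball]
    exact ⟨hv.1, hv.2.2⟩
  have m3 : ∀ {ok : Q → Q → Prop}, FIL ok → ∀ (A E : Finset Q) (t : Q), A ⊆ ball t → 3 ≤ A.card →
      E.card ≤ 4 → (∀ w ∈ A, ∀ v ∈ ball w \ E, ¬ ok w v) → False := by
    intro ok h A E t hAt hA hE hno
    obtain ⟨a, b, c, ha, hb, hc, hab, hac, hbc⟩ := exists_three hA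
    obtain ⟨x, hx⟩ := main h
    have hE5 : (insert x E).card ≤ 5 := (Finset.card_insert_le _ _).trans (by omega)
    obtain ⟨E', hE', hEE⟩ := exists_sup hE5 (by norm_num)
    have g1 := hx A E hno
    have g2 := sum_mono (A := A) hEE
    have g3 := three_sum_le ha hb hc hab hac hbc (fun w => (ball w \ E').card)
    have n1 := mem_ball.1 (hAt ha)
    have n2 := mem_ball.1 (hAt hb)
    have n3 := mem_ball.1 (hAt hc)
    have g4 := key_ILa E' hE' a b c hab hac hbc (ball_ne_neg t a b n1 n2) (ball_ne_neg t a c n1 n3)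
      (ball_ne_neg t b c n2 n3)
    omega
  refine good_of (m3 h) (m3 h') ?_
  intro t t' E ht hn hE h1 h2
  obtain ⟨E', hE', hEE⟩ := exists_sup hE (by norm_num)
  obtain ⟨x, hx⟩ := main h
  obtain ⟨x', hx'⟩ := main h'
  have g1 := hx _ E h1
  have g2 := hx' _ E h2
  have g3 := sum_mono (A := ball t \ ball t') (Finset.insert_subset_insert x hEE)
  have g4 := sum_mono (A := ball t' \ ball t) (Finset.insert_subset_insert x' hEE)
  rcases key_ILb E' hE' t t' ht hn with g5 | g5
  · have := g5 x; omega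
  · have := g5 x'; omega

lemma diff_nonempty : ∀ t t' c : Q, t ≠ t' → ∃ w, nr t w = true ∧ nr t' w = false ∧ w ≠ c := by decide

theorem good_LI {ok ok' : Q → Q → Prop} (h : FLI ok) (h' : FLI ok') : Good 3 ok ok' := by
  have main : ∀ {ok : Q → Q → Prop}, FLI ok → ∃ c : Q, ∀ A E : Finset Q,
      (∀ w ∈ A, ∀ v ∈ ball w \ E, ¬ ok w v) → ∑ w ∈ A.erase c, (ball w \ E).card ≤ 1 := by
    rintro ok ⟨c, P, hP, hok⟩
    refine ⟨c, fun A E hA => le_trans (sum_le (P := P) fun w hw v hv => ?_) hP⟩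
    rw [mem_erase] at hw
    exact (hok w v (mem_ball.1 (Finset.mem_sdiff.1 hv).1) (hA w hw.2 v hv)).resolve_left hw.1
  have hr : ∀ (w : Q) (E : Finset Q), E.card ≤ 3 → 1 ≤ (ball w \ E).card := by
    intro w E hE
    have := card_sdiff_ge (ball w) E
    rw [ball_card] at this
    omega
  have m3 : ∀ {ok : Q → Q → Prop}, FLI ok → ∀ (A E : Finset Q) (t : Q), A ⊆ ball t → 3 ≤ A.card →
      E.card ≤ 3 → (∀ w ∈ A, ∀ v ∈ ball w \ E, ¬ ok w v) → False := by
    intro ok h A E t hAt hA hE hno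
    obtain ⟨x, hx⟩ := main h
    have g1 := hx A E hno
    have g2 : (A.erase x).card ≤ ∑ w ∈ A.erase x, (ball w \ E).card := by
      rw [Finset.card_eq_sum_ones]
      exact Finset.sum_le_sum fun w _ => hr w E hE
    have g3 := Finset.pred_card_le_card_erase (s := A) (a := x)
    omega
  refine good_of (m3 h) (m3 h') ?_
  intro t t' E ht hn hE h1 h2
  have key : ∀ {ok : Q → Q → Prop}, FLI ok → ∀ t t' : Q, t ≠ t' →
      (∀ w ∈ ball t \ ball t', ∀ v ∈ ball w \ E, ¬ ok w v) →
      ∃ w, nr t w = true ∧ nr t' w = false ∧ E ⊆ ball w ∧ E.card = 3 := by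
    intro ok h t t' ht hno
    obtain ⟨x, hx⟩ := main h
    obtain ⟨w, w1, w2, w3⟩ := diff_nonempty t t' x ht
    have hw : w ∈ (ball t \ ball t').erase x := by
      rw [mem_erase, mem_sdiff, mem_ball, mem_ball]
      exact ⟨w3, w1, by simp [w2]⟩
    have g1 := hx _ E hno
    have g2 := Finset.single_le_sum (f := fun w => (ball w \ E).card) (fun _ _ => Nat.zero_le _) hw
    have g3 := Finset.card_sdiff_add_card_inter (ball w) E
    rw [ball_card] at g3
    have g4 : ball w ∩ E ⊆ E := Finset.inter_subset_right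
    have g5 := Finset.card_le_card g4
    have g6 : ball w ∩ E = E := Finset.eq_of_subset_of_card_le g4 (by omega)
    refine ⟨w, w1, w2, fun y hy => ?_, by omega⟩
    rw [← g6] at hy
    exact (Finset.mem_inter.1 hy).1
  obtain ⟨w, w1, w2, w3, w4⟩ := key h t t' ht h1
  obtain ⟨w', u1, u2, u3, -⟩ := key h' t' t ht.symm h2
  have hww : w ≠ w' := fun e => by rw [e, u1] at w2; exact absurd w2 (by simp)
  have g1 := Finset.card_le_card (Finset.subset_inter w3 u3)
  have g2 := ball_inter_le w w' hww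
  omega

lemma diff_pair : ∀ t t' : Q, t ≠ t' → t ≠ neg t' → ∃ x y, x ≠ y ∧ x ≠ neg y ∧
    ball t \ ball t' = {x, y} := by decide

theorem good_LL {ok ok' : Q → Q → Prop} (h : FLL ok) (h' : FLL ok') : Good 3 ok ok' := by
  have main : ∀ {ok : Q → Q → Prop}, FLL ok → ∃ a b : Q, ∀ A E : Finset Q,
      (∀ w ∈ A, ∀ v ∈ ball w \ E, ¬ ok w v) → VLL A a b ⊆ E := by
    rintro ok ⟨a, b, hok⟩
    refine ⟨a, b, fun A E hA v hv => ?_⟩
    unfold VLL at hv
    rw [mem_filter] at hv
    obtain ⟨-, w, hw, h1, h2⟩ := hv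
    by_contra hvE
    exact h2 (hok w v h1 (hA w hw v (Finset.mem_sdiff.2 ⟨mem_ball.2 h1, hvE⟩)))
  have m3 : ∀ {ok : Q → Q → Prop}, FLL ok → ∀ (A E : Finset Q) (t : Q), A ⊆ ball t → 3 ≤ A.card →
      E.card ≤ 3 → (∀ w ∈ A, ∀ v ∈ ball w \ E, ¬ ok w v) → False := by
    intro ok h A E t hAt hA hE hno
    obtain ⟨a, b, hab⟩ := main h
    obtain ⟨A', hA', hAc⟩ := Finset.exists_subset_card_eq hA
    have g1 := hab A' E (fun w hw => hno w (hA' hw))
    have g2 := key_LLa t A' (Finset.mem_powersetCard.2 ⟨hA'.trans hAt, hAc⟩) a b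
    have g3 := Finset.card_le_card g1
    omega
  refine good_of (m3 h) (m3 h') ?_
  intro t t' E ht hn hE h1 h2
  have key : ∀ {ok : Q → Q → Prop}, FLL ok → ∀ t t' : Q, t ≠ t' → t ≠ neg t' →
      (∀ w ∈ ball t \ ball t', ∀ v ∈ ball w \ E, ¬ ok w v) →
      ∃ w, nr t w = true ∧ nr t' w = false ∧ E ⊆ ball w ∧ E.card = 3 := by
    intro ok h t t' ht hn hno
    obtain ⟨a, b, hab⟩ := main h
    obtain ⟨x, y, hxy, hxy', e⟩ := diff_pair t t' ht hn
    have g1 := hab _ E hno
    rw [e] at g1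
    have g2 := Finset.card_le_card g1
    rcases key_LLb x y hxy hxy' a b with g3 | ⟨g3, g4⟩
    · omega
    · have g5 : VLL {x, y} a b = E := Finset.eq_of_subset_of_card_le g1 (by omega)
      rw [g5] at g3 g4
      have hx : x ∈ ball t \ ball t' := by rw [e]; simp
      have hy : y ∈ ball t \ ball t' := by rw [e]; simp
      rw [mem_sdiff, mem_ball, mem_ball] at hx hy
      rcases g4 with g4 | g4
      · exact ⟨x, hx.1, by simpa using hx.2, g4, by omega⟩
      · exact ⟨y, hy.1, by simpa using hy.2, g4, by omega⟩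
  obtain ⟨w, w1, w2, w3, w4⟩ := key h t t' ht hn h1
  obtain ⟨w', u1, u2, u3, -⟩ := key h' t' t ht.symm (fun e => hn (H3DA.eq_neg_symm e)) h2
  have hww : w ≠ w' := fun e => by rw [e, u1] at w2; exact absurd w2 (by simp)
  have g1 := Finset.card_le_card (Finset.subset_inter w3 u3)
  have g2 := ball_inter_le w w' hww
  omega

end CLB.H91
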