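import Pool.Agent.Helper91_DA.EComb
import Pool.Agent.Helper95_CLB.Static

/-!
The end-kill lemma of helper95, structural part: the bad pairs at two ports of units `k - 1` and `k`, for all
other labels of the component fixed.
-/

set_option autoImplicit false

namespace CLB.H91

open Finset
open H3DA (Q neg nr)
open CLB.H95
open CLB.H3 (CExt)

/-- Fill two labels. -/
def fil (s : ℕ → Q) (p q : ℕ) (u v : Q) : ℕ → Q := fun j => if j = p then u else if j = q then v else s j

lemma fil_p (s : ℕ → Q) (p q : ℕ) (u v : Q) : fil s p q u v p = u := by unfold fil; simp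

lemma fil_q {s : ℕ → Q} {p q : ℕ} (h : q ≠ p) (u v : Q) : fil s p q u v q = v := by
  unfold fil; rw [if_neg h, if_pos rfl]

lemma fil_o {s : ℕ → Q} {p q j : ℕ} (h1 : j ≠ p) (h2 : j ≠ q) (u v : Q) : fil s p q u v j = s j := by
  unfold fil; rw [if_neg h1, if_neg h2]

/-- The forks without the two ports have no conflict. -/
def FNA (m p q : ℕ) (s : ℕ → Q) : Prop :=
  (p ≠ 0 → p ≠ 1 → q ≠ 0 → q ≠ 1 → s 0 ≠ neg (s 1)) ∧
  (p ≠ m → p ≠ m + 1 → q ≠ m → q ≠ m + 1 → s m ≠ neg (s (m + 1)))

/-- The end-kill at the label level. -/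
def ELab (m p q e : ℕ) : Prop :=
  ∀ s s' : ℕ → Q, FNA m p q s → FNA m p q s' → ∀ t t' : Q, t ≠ t' → ∀ A B : Finset Q, A.card ≤ 2 →
    B.card ≤ e → ∃ u w, u ∉ A ∧ w ∉ B ∧ nr u w = true ∧
      ((nr t u = true ∧ CExt m (fil s p q u (neg w))) ∨
        (nr t' u = true ∧ CExt m (fil s' p q u (neg w))))

/-- What fails. -/
lemma notext {m : ℕ} (hm : 1 ≤ m) {s : ℕ → Q} (h : ¬ CExt m s) :
    s 0 = neg (s 1) ∨ s m = neg (s (m + 1)) ∨ ∃ D, Tight D s m := by
  rw [cext_iff hm] at h
  by_contra hcon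
  push Not at hcon
  exact h ⟨hcon.1, hcon.2.1, hcon.2.2⟩

/-- The set of possible labels of an inner port, the type and the neighbouring labels being known. -/
def inn (D : Ty) (a b : Q) (j : ℕ) : Finset Q :=
  nxt (altT D (j - 1)) (neg a) ∩ nxt (altT D j) (neg b)

lemma inn_card (D : Ty) (a b : Q) {j : ℕ} (hj : 1 ≤ j) : (inn D a b j).card ≤ 1 := by
  unfold inn
  obtain ⟨i, rfl⟩ : ∃ i, j = i + 1 := ⟨j - 1, by omega⟩
  rw [Nat.add_sub_cancel, altT_succ]
  exact nxt2_card _ _ _

lemma mem_inn {D : Ty} {m : ℕ} {s : ℕ → Q} (h : Tight D s m) {j : ℕ} (h1 : 2 ≤ j) (h2 : j + 1 ≤ m) :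
    s j ∈ inn D (s (j - 1)) (s (j + 1)) j := by
  unfold inn
  rw [mem_inter, mem_nxt, mem_nxt]
  constructor
  · have := h.2.1 (j - 1) (by omega) (by omega)
    rwa [show j - 1 + 1 = j by omega] at this
  · have := h.2.1 j (by omega) (by omega)
    rw [stp_neg1, stp_symm] at this
    exact this

/-- Two adjacent inner ports: two possible pairs. -/
def adj2 (D : Ty) (a b : Q) : Finset (Q × Q) :=
  univ.filter (fun x => stp D (neg a) x.1 = true ∧ stp (co D) (neg x.1) x.2 = true ∧
    stp D (neg x.2) b = true)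

set_option maxRecDepth 100000 in
lemma adj2_card : ∀ (D : Ty) (a b : Q), (adj2 D a b).card ≤ 2 := by decide +kernel

lemma mem_adj2 {D : Ty} {m : ℕ} {s : ℕ → Q} (h : Tight D s m) {j : ℕ} (h1 : 2 ≤ j) (h2 : j + 2 ≤ m) :
    (s j, s (j + 1)) ∈ adj2 (altT D (j - 1)) (s (j - 1)) (s (j + 2)) := by
  unfold adj2
  rw [mem_filter]
  obtain ⟨i, rfl⟩ : ∃ i, j = i + 1 := ⟨j - 1, by omega⟩
  have g1 := h.2.1 i (by omega) (by omega)
  have g2 := h.2.1 (i + 1) (by omega) (by omega)
  have g3 := h.2.1 (i + 2) (by omega) (by omega)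
  rw [altT_succ] at g2
  rw [show i + 2 = i + 1 + 1 by rfl, altT_succ, altT_succ, co_co] at g3
  rw [Nat.add_sub_cancel]
  exact ⟨mem_univ _, g1, g2, g3⟩

/-- Bad pairs: the conflicts and the tight pairs. -/
lemma bad_of {m p q : ℕ} (hm : 1 ≤ m) {s : ℕ → Q} {u w : Q} (h : ¬ CExt m (fil s p q u (neg w))) :
    fil s p q u (neg w) 0 = neg (fil s p q u (neg w) 1) ∨
    fil s p q u (neg w) m = neg (fil s p q u (neg w) (m + 1)) ∨ ∃ D, Tight D (fil s p q u (neg w)) m :=
  notext hm h

lemma left_known {m p q : ℕ} {s : ℕ → Q} (hp0 : p ≠ 0) (hp1 : p ≠ 1) (hq0 : q ≠ 0) (hq1 : q ≠ 1)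
    {D D' : Ty} (hD : frk D (s 0) (s 1) = true) {u v : Q} (hT : Tight D' (fil s p q u v) m) : D' = D := by
  have h := hT.1
  rw [fil_o hp0.symm hq0.symm, fil_o hp1.symm hq1.symm] at h
  exact frk_unique _ _ _ _ h hD

lemma right_known {m p q : ℕ} {s : ℕ → Q} (hp0 : p ≠ m) (hp1 : p ≠ m + 1) (hq0 : q ≠ m)
    (hq1 : q ≠ m + 1) {D D' : Ty} (hD : frk (altT D (m + 1)) (s m) (s (m + 1)) = true) {u v : Q}
    (hT : Tight D' (fil s p q u v) m) : D' = D := by
  have h := hT.2.2
  rw [fil_o hp0.symm hq0.symm, fil_o hp1.symm hq1.symm] at h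
  exact altT_inj (frk_unique _ _ _ _ h hD)

/-- Both ports inner. -/
lemma fam_II {m p q : ℕ} (hm : 1 ≤ m) (hp : 2 ≤ p) (hpm : p + 1 ≤ m) (hq : 2 ≤ q) (hqm : q + 1 ≤ m)
    (hpq : p ≠ q) {s : ℕ → Q} (hs : FNA m p q s) : FII (fun u w => CExt m (fil s p q u (neg w))) := by
  have hL : s 0 ≠ neg (s 1) := hs.1 (by omega) (by omega) (by omega) (by omega)
  have hR : s m ≠ neg (s (m + 1)) := hs.2 (by omega) (by omega) (by omega) (by omega)
  have hbad : ∀ u w, ¬ CExt m (fil s p q u (neg w)) → ∃ D, Tight D (fil s p q u (neg w)) m := by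
    intro u w h
    rcases bad_of hm h with h1 | h1 | h1
    · rw [fil_o (by omega) (by omega), fil_o (by omega) (by omega)] at h1
      exact absurd h1 hL
    · rw [fil_o (by omega) (by omega), fil_o (by omega) (by omega)] at h1
      exact absurd h1 hR
    · exact h1
  by_cases hex : ∃ D, frk D (s 0) (s 1) = true
  swap
  · refine ⟨∅, by simp, fun u w _ h => ?_⟩
    obtain ⟨D, hD⟩ := hbad u w h
    have := hD.1
    rw [fil_o (by omega) (by omega), fil_o (by omega) (by omega)] at this
    exact absurd ⟨D, this⟩ hex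
  obtain ⟨D, hD⟩ := hex
  have hT : ∀ u w, ¬ CExt m (fil s p q u (neg w)) → Tight D (fil s p q u (neg w)) m := by
    intro u w h
    obtain ⟨D', hD'⟩ := hbad u w h
    rw [left_known (by omega) (by omega) (by omega) (by omega) hD hD'] at hD'
    exact hD'
  by_cases h1 : q = p + 1
  · subst h1
    refine ⟨(adj2 (altT D (p - 1)) (s (p - 1)) (s (p + 2))).image (fun x => (x.1, neg x.2)),
      le_trans Finset.card_image_le (adj2_card _ _ _), fun u w _ h => ?_⟩
    have := mem_adj2 (hT u w h) hp (by omega)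
    rw [fil_p, fil_q (by omega), fil_o (by omega) (by omega), fil_o (by omega) (by omega)] at this
    rw [mem_image]
    exact ⟨_, this, by simp [H3DA.neg_neg]⟩
  by_cases h2 : p = q + 1
  · subst h2
    refine ⟨(adj2 (altT D (q - 1)) (s (q - 1)) (s (q + 2))).image (fun x => (x.2, neg x.1)),
      le_trans Finset.card_image_le (adj2_card _ _ _), fun u w _ h => ?_⟩
    have := mem_adj2 (hT u w h) hq (by omega)
    rw [fil_p, fil_q (by omega), fil_o (by omega) (by omega), fil_o (by omega) (by omega)] at this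
    rw [mem_image]
    exact ⟨_, this, by simp [H3DA.neg_neg]⟩
  refine ⟨(inn D (s (p - 1)) (s (p + 1)) p) ×ˢ ((inn D (s (q - 1)) (s (q + 1)) q).image neg), ?_,
    fun u w _ h => ?_⟩
  · rw [Finset.card_product]
    have a1 := inn_card D (s (p - 1)) (s (p + 1)) (j := p) (by omega)
    have a2 := (Finset.card_image_le (s := inn D (s (q - 1)) (s (q + 1)) q) (f := neg)).trans
      (inn_card D (s (q - 1)) (s (q + 1)) (j := q) (by omega))
    calc _ ≤ 1 * 1 := Nat.mul_le_mul a1 a2
      _ ≤ 2 := by norm_num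
  · have g1 := mem_inn (hT u w h) hp hpm
    have g2 := mem_inn (hT u w h) hq hqm
    rw [fil_p, fil_o (by omega) (by omega), fil_o (by omega) (by omega)] at g1
    rw [fil_q (by omega), fil_o (by omega) (by omega), fil_o (by omega) (by omega)] at g2
    rw [mem_product, mem_image]
    exact ⟨g1, _, g2, H3DA.neg_neg w⟩

/-- A product of two small sets. -/
lemma prod_card {X Y : Finset Q} (hX : X.card ≤ 1) (hY : Y.card ≤ 1) : (X ×ˢ Y).card ≤ 1 := by
  rw [Finset.card_product]
  calc _ ≤ 1 * 1 := Nat.mul_le_mul hX hY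
    _ = 1 := by norm_num

/-- The left leaf and an inner port: description. -/
lemma left_inner {m j : ℕ} (hm : 1 ≤ m) (hj : 2 ≤ j) (hjm : j + 1 ≤ m) {s : ℕ → Q}
    (hR : s m ≠ neg (s (m + 1))) : ∃ X Y : Finset Q, X.card ≤ 1 ∧ Y.card ≤ 1 ∧
      ∀ f : ℕ → Q, (∀ i, i ≠ 0 → i ≠ j → f i = s i) → ¬ CExt m f →
        f 0 = neg (s 1) ∨ (f 0 ∈ X ∧ f j ∈ Y) := by
  by_cases hex : ∃ D, frk (altT D (m + 1)) (s m) (s (m + 1)) = true
  · obtain ⟨D, hD⟩ := hex
    refine ⟨{leafL D (s 1)}, inn D (s (j - 1)) (s (j + 1)) j, by simp, inn_card _ _ _ (by omega), ?_⟩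
    intro f hf h
    rcases notext hm h with h1 | h1 | ⟨D', h1⟩
    · left; rw [h1, hf 1 (by omega) (by omega)]
    · rw [hf m (by omega) (by omega), hf (m + 1) (by omega) (by omega)] at h1
      exact absurd h1 hR
    · right
      have e := h1.2.2
      rw [hf m (by omega) (by omega), hf (m + 1) (by omega) (by omega)] at e
      rw [altT_inj (frk_unique _ _ _ _ e hD)] at h1
      have g1 := frk_iff'.1 h1.1
      have g2 := mem_inn h1 hj hjm
      rw [hf 1 (by omega) (by omega)] at g1
      rw [hf (j - 1) (by omega) (by omega), hf (j + 1) (by omega) (by omega)] at g2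
      exact ⟨by rw [mem_singleton]; exact g1, g2⟩
  · refine ⟨∅, ∅, by simp, by simp, fun f hf h => ?_⟩
    rcases notext hm h with h1 | h1 | ⟨D', h1⟩
    · left; rw [h1, hf 1 (by omega) (by omega)]
    · rw [hf m (by omega) (by omega), hf (m + 1) (by omega) (by omega)] at h1
      exact absurd h1 hR
    · have e := h1.2.2
      rw [hf m (by omega) (by omega), hf (m + 1) (by omega) (by omega)] at e
      exact absurd ⟨D', e⟩ hex

/-- The right leaf and an inner port: description. -/
lemma right_inner {m j : ℕ} (hm : 1 ≤ m) (hj : 2 ≤ j) (hjm : j + 1 ≤ m) {s : ℕ → Q}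
    (hL : s 0 ≠ neg (s 1)) : ∃ X Y : Finset Q, X.card ≤ 1 ∧ Y.card ≤ 1 ∧
      ∀ f : ℕ → Q, (∀ i, i ≠ m + 1 → i ≠ j → f i = s i) → ¬ CExt m f →
        f (m + 1) = neg (s m) ∨ (f (m + 1) ∈ X ∧ f j ∈ Y) := by
  by_cases hex : ∃ D, frk D (s 0) (s 1) = true
  · obtain ⟨D, hD⟩ := hex
    refine ⟨{leafL (altT D (m + 1)) (s m)}, inn D (s (j - 1)) (s (j + 1)) j, by simp,
      inn_card _ _ _ (by omega), ?_⟩
    intro f hf h
    rcases notext hm h with h1 | h1 | ⟨D', h1⟩
    · rw [hf 0 (by omega) (by omega), hf 1 (by omega) (by omega)] at h1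
      exact absurd h1 hL
    · left; rw [hf m (by omega) (by omega)] at h1; exact H3DA.eq_neg_symm h1
    · right
      have e := h1.1
      rw [hf 0 (by omega) (by omega), hf 1 (by omega) (by omega)] at e
      rw [frk_unique _ _ _ _ e hD] at h1
      have g1 := frk_iff.1 h1.2.2
      have g2 := mem_inn h1 hj hjm
      rw [hf m (by omega) (by omega)] at g1
      rw [hf (j - 1) (by omega) (by omega), hf (j + 1) (by omega) (by omega)] at g2
      exact ⟨by rw [mem_singleton]; exact g1, g2⟩
  · refine ⟨∅, ∅, by simp, by simp, fun f hf h => ?_⟩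
    rcases notext hm h with h1 | h1 | ⟨D', h1⟩
    · rw [hf 0 (by omega) (by omega), hf 1 (by omega) (by omega)] at h1
      exact absurd h1 hL
    · left; rw [hf m (by omega) (by omega)] at h1; exact H3DA.eq_neg_symm h1
    · have e := h1.1
      rw [hf 0 (by omega) (by omega), hf 1 (by omega) (by omega)] at e
      exact absurd ⟨D', e⟩ hex

lemma neg_eq {x y : Q} (h : neg x = y) : x = neg y := by rw [← h, H3DA.neg_neg]

/-- The first port is a leaf, the second one is inner. -/
lemma fam_LI {m p q : ℕ} (hm : 2 ≤ m) (hp : p = 0 ∨ p = m + 1) (hq : 2 ≤ q) (hqm : q + 1 ≤ m)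
    {s : ℕ → Q} (hs : FNA m p q s) : FLI (fun u w => CExt m (fil s p q u (neg w))) := by
  rcases hp with rfl | rfl
  · obtain ⟨X, Y, hX, hY, h⟩ := left_inner (by omega) hq hqm (s := s)
      (hs.2 (by omega) (by omega) (by omega) (by omega))
    refine ⟨neg (s 1), X ×ˢ (Y.image neg), prod_card hX (Finset.card_image_le.trans hY),
      fun u w _ hno => ?_⟩
    have := h _ (fun i h1 h2 => fil_o h1 h2 _ _) hno
    rw [fil_p, fil_q (by omega)] at this
    rcases this with h1 | ⟨h1, h2⟩
    · exact Or.inl h1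
    · exact Or.inr (by rw [mem_product, mem_image]; exact ⟨h1, _, h2, H3DA.neg_neg w⟩)
  · obtain ⟨X, Y, hX, hY, h⟩ := right_inner (by omega) hq hqm (s := s)
      (hs.1 (by omega) (by omega) (by omega) (by omega))
    refine ⟨neg (s m), X ×ˢ (Y.image neg), prod_card hX (Finset.card_image_le.trans hY),
      fun u w _ hno => ?_⟩
    have := h _ (fun i h1 h2 => fil_o h1 h2 _ _) hno
    rw [fil_p, fil_q (by omega)] at this
    rcases this with h1 | ⟨h1, h2⟩
    · exact Or.inl h1
    · exact Or.inr (by rw [mem_product, mem_image]; exact ⟨h1, _, h2, H3DA.neg_neg w⟩)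

/-- The first port is inner, the second one is a leaf. -/
lemma fam_IL {m p q : ℕ} (hm : 2 ≤ m) (hq : q = 0 ∨ q = m + 1) (hp : 2 ≤ p) (hpm : p + 1 ≤ m)
    {s : ℕ → Q} (hs : FNA m p q s) : FIL (fun u w => CExt m (fil s p q u (neg w))) := by
  rcases hq with rfl | rfl
  · obtain ⟨X, Y, hX, hY, h⟩ := left_inner (by omega) hp hpm (s := s)
      (hs.2 (by omega) (by omega) (by omega) (by omega))
    refine ⟨s 1, Y ×ˢ (X.image neg), prod_card hY (Finset.card_image_le.trans hX),
      fun u w _ hno => ?_⟩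
    have := h _ (fun i h1 h2 => fil_o h2 h1 _ _) hno
    rw [fil_p, fil_q (by omega)] at this
    rcases this with h1 | ⟨h1, h2⟩
    · exact Or.inl (H3DA.neg_inj h1)
    · exact Or.inr (by rw [mem_product, mem_image]; exact ⟨h2, _, h1, H3DA.neg_neg w⟩)
  · obtain ⟨X, Y, hX, hY, h⟩ := right_inner (by omega) hp hpm (s := s)
      (hs.1 (by omega) (by omega) (by omega) (by omega))
    refine ⟨s m, Y ×ˢ (X.image neg), prod_card hY (Finset.card_image_le.trans hX),
      fun u w _ hno => ?_⟩
    have := h _ (fun i h1 h2 => fil_o h2 h1 _ _) hno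
    rw [fil_p, fil_q (by omega)] at this
    rcases this with h1 | ⟨h1, h2⟩
    · exact Or.inl (H3DA.neg_inj h1)
    · exact Or.inr (by rw [mem_product, mem_image]; exact ⟨h2, _, h1, H3DA.neg_neg w⟩)

/-! ### Both ports are leaves of different forks -/

/-- The difference of the two ends of an alternating walk: parities of the numbers of steps of type `D`
and of type `co D`. -/
def rl (D : Ty) (i j : Bool) (x y : Q) : Bool :=
  let a := if i then [uD D, vD D] else [(false, false, false), add (uD D) (vD D)]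
  let b := if j then [uD (co D), vD (co D)] else [(false, false, false), add (uD (co D)) (vD (co D))]
  a.any (fun c => b.any (fun d => y == add x (add c d)))

lemma rl_zero : ∀ (D : Ty) (x : Q), rl D false false x x = true := by decide +kernel

lemma rl_stepD : ∀ (D : Ty) (i j : Bool) (x y z : Q), rl D i j x y = true → stp D y z = true →
    rl D (!i) j x z = true := by decide +kernel

lemma rl_stepC : ∀ (D : Ty) (i j : Bool) (x y z : Q), rl D i j x y = true → stp (co D) y z = true →
    rl D i (!j) x z = true := by decide +kernel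

lemma rl_near : ∀ (D : Ty) (x y : Q), rl D true false x y = true → nr x y = true →
    stp D x y = true := by decide +kernel

lemma rl_near' : ∀ (D : Ty) (x y : Q), rl D false true x y = true → nr x y = true →
    stp (co D) x y = true := by decide +kernel

/-- The two ends of the walk of a tight labelling. -/
lemma tight_rl {D : Ty} {s : ℕ → Q} {m : ℕ} (hm : 2 ≤ m) (h : Tight D s m) : ∀ l, 4 * l + 2 ≤ m →
    rl D true false (s 1) (neg (s (4 * l + 2))) = true := by
  have st : ∀ i, 1 ≤ i → i < m → stp (altT D i) (s i) (neg (s (i + 1))) = true := by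
    intro i h1 h2
    rw [← stp_neg1]; exact h.2.1 i h1 h2
  have st' : ∀ i, 1 ≤ i → i < m → stp (altT D i) (neg (s i)) (s (i + 1)) = true := h.2.1
  have o : ∀ i, i % 2 = 1 → altT D i = D := fun i hi => by unfold altT; rw [if_pos hi]
  have e : ∀ i, i % 2 = 0 → altT D i = co D := fun i hi => by unfold altT; rw [if_neg (by omega)]
  intro l
  induction l with
  | zero =>
    intro _
    have h1 := st 1 le_rfl (by omega)
    rw [o 1 rfl] at h1
    exact rl_stepD D false false _ _ _ (rl_zero D _) h1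
  | succ l ih =>
    intro hl
    have h0 := ih (by omega)
    have h1 := st' (4 * l + 2) (by omega) (by omega)
    have h2 := st (4 * l + 2 + 1) (by omega) (by omega)
    have h3 := st' (4 * l + 2 + 1 + 1) (by omega) (by omega)
    have h4 := st (4 * l + 2 + 1 + 1 + 1) (by omega) (by omega)
    rw [e _ (by omega)] at h1 h3
    rw [o _ (by omega)] at h2 h4
    have g1 := rl_stepC D _ _ _ _ _ h0 h1
    have g2 := rl_stepD D _ _ _ _ _ g1 h2
    have g3 := rl_stepC D _ _ _ _ _ g2 h3
    have g4 := rl_stepD D _ _ _ _ _ g3 h4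
    rw [show 4 * (l + 1) + 2 = 4 * l + 2 + 1 + 1 + 1 + 1 by ring]
    exact g4

lemma LL_key : ∀ (D : Ty) (a b u w : Q), frk D a u = true → frk D b w = true → nr u w = true →
    nr a b = true := by
  decide +kernel

/-- Two leaves in different forks. -/
lemma fam_LL {m p q : ℕ} (hm4 : m % 4 = 2) (hpq : (p = 0 ∧ q = m + 1) ∨ (p = m + 1 ∧ q = 0))
    (s : ℕ → Q) : FLL (fun u w => CExt m (fil s p q u (neg w))) := by
  have hm : 2 ≤ m := by omega
  have o : ∀ D, altT D (m + 1) = D := fun D => by unfold altT; rw [if_pos (by omega)]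
  have hst : ∀ {D : Ty} {f : ℕ → Q}, Tight D f m → nr (f 1) (neg (f m)) = true →
      stp D (f 1) (neg (f m)) = true := by
    intro D f hT hn
    have h1 := tight_rl hm hT ((m - 2) / 4) (by omega)
    rw [show 4 * ((m - 2) / 4) + 2 = m by omega] at h1
    exact rl_near D _ _ h1 hn
  rcases hpq with ⟨rfl, rfl⟩ | ⟨rfl, rfl⟩
  · refine ⟨s 1, neg (s m), fun u w hn hno => ?_⟩
    rcases bad_of (by omega) hno with h1 | h1 | ⟨D, h1⟩
    · rw [fil_p, fil_o (by omega) (by omega)] at h1
      exact Or.inl h1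
    · rw [fil_q (by omega), fil_o (by omega) (by omega), H3DA.neg_neg] at h1
      right; left
      rw [H3DA.neg_neg]; exact h1.symm
    · right; right
      have g1 := h1.1
      have g2 := h1.2.2
      have g3 : nr (s 1) (neg (s m)) = true → stp D (s 1) (neg (s m)) = true := by
        have := hst h1
        rw [fil_o (show 1 ≠ 0 by omega) (show 1 ≠ m + 1 by omega),
          fil_o (show m ≠ 0 by omega) (show m ≠ m + 1 by omega)] at this
        exact this
      rw [fil_p, fil_o (by omega) (by omega), frk_symm] at g1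
      rw [o, fil_q (by omega), fil_o (by omega) (by omega), ← frk_neg, H3DA.neg_neg] at g2
      exact ⟨D, g3 (LL_key D _ _ _ _ g1 g2 hn), g1, g2⟩
  · refine ⟨s m, neg (s 1), fun u w hn hno => ?_⟩
    rcases bad_of (by omega) hno with h1 | h1 | ⟨D, h1⟩
    · rw [fil_q (by omega), fil_o (by omega) (by omega)] at h1
      right; left
      exact neg_eq h1 |>.trans (by rw [])
    · rw [fil_p, fil_o (by omega) (by omega)] at h1
      left
      exact H3DA.eq_neg_symm h1
    · right; right
      have g1 := h1.1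
      have g2 := h1.2.2
      have g3 : nr (s 1) (neg (s m)) = true → stp D (s 1) (neg (s m)) = true := by
        have := hst h1
        rw [fil_o (show 1 ≠ m + 1 by omega) (show 1 ≠ 0 by omega),
          fil_o (show m ≠ m + 1 by omega) (show m ≠ 0 by omega)] at this
        exact this
      rw [fil_q (by omega), fil_o (by omega) (by omega), frk_symm, ← frk_neg, H3DA.neg_neg] at g1
      rw [o, fil_p, fil_o (by omega) (by omega)] at g2
      have hn' := LL_key D _ _ _ _ g2 g1 hn
      refine ⟨D, ?_, g2, g1⟩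
      have h5 := g3 (by rw [H3DA.nr_comm, ← nr_neg_neg, H3DA.neg_neg]; exact hn')
      rw [stp_symm, stp_neg1] at h5
      exact h5

/-! ### Normalisation -/

lemma swL_lt {j : ℕ} : swL j = 0 ∨ swL j = 1 ↔ j = 0 ∨ j = 1 := by
  unfold swL; split_ifs <;> omega

lemma cext_of_swL {m : ℕ} (hm : 2 ≤ m) {s : ℕ → Q} (h : CExt m (fun j => s (swL j))) : CExt m s := by
  have := cext_swL hm h
  simp only [swL_swL] at this
  exact this

lemma cext_of_swR {m : ℕ} (hm : 2 ≤ m) {s : ℕ → Q} (h : CExt m (fun j => s (swR m j))) : CExt m s := by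
  have := cext_swR hm h
  simp only [swR_swR] at this
  exact this

lemma elab_sw {m p q e : ℕ} {w : ℕ → ℕ} (hww : ∀ j, w (w j) = j)
    (hext : ∀ s : ℕ → Q, CExt m (fun j => s (w j)) → CExt m s)
    (hF : ∀ s, FNA m p q s → FNA m (w p) (w q) (fun j => s (w j)))
    (h : ELab m (w p) (w q) e) : ELab m p q e := by
  intro s s' hs hs' t t' ht A B hA hB
  obtain ⟨u, v, h1, h2, h3, h4⟩ := h _ _ (hF s hs) (hF s' hs') t t' ht A B hA hB
  have key : ∀ s : ℕ → Q, CExt m (fil (fun j => s (w j)) (w p) (w q) u (neg v)) →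
      CExt m (fil s p q u (neg v)) := by
    intro s hE
    apply hext
    convert hE using 1
    funext j
    unfold fil
    have e1 : (w j = p) = (j = w p) := by
      apply propext
      constructor
      · intro h; rw [← h, hww]
      · intro h; rw [h, hww]
    have e2 : (w j = q) = (j = w q) := by
      apply propext
      constructor
      · intro h; rw [← h, hww]
      · intro h; rw [h, hww]
    simp only [e1, e2]
  refine ⟨u, v, h1, h2, h3, ?_⟩
  rcases h4 with ⟨h4, h5⟩ | ⟨h4, h5⟩
  · exact Or.inl ⟨h4, key s h5⟩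
  · exact Or.inr ⟨h4, key s' h5⟩

lemma elab_swL {m p q e : ℕ} (hm : 2 ≤ m) (h : ELab m (swL p) (swL q) e) : ELab m p q e := by
  refine elab_sw swL_swL (fun s => cext_of_swL hm) (fun s hs => ?_) h
  have em : swL m = m := swL_of hm
  have em1 : swL (m + 1) = m + 1 := swL_of (by omega)
  have hne : ∀ a b, swL a ≠ b → a ≠ swL b := fun a b h1 h2 => h1 (by rw [h2, swL_swL])
  constructor
  · intro h1 h2 h3 h4
    have := hs.1 (hne _ _ h2) (hne _ _ h1) (hne _ _ h4) (hne _ _ h3)
    show s (swL 0) ≠ neg (s (swL 1))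
    exact H3DA.ne_neg_symm this
  · intro h1 h2 h3 h4
    have h1' := hne _ _ h1
    have h2' := hne _ _ h2
    have h3' := hne _ _ h3
    have h4' := hne _ _ h4
    rw [em] at h1' h3'
    rw [em1] at h2' h4'
    show s (swL m) ≠ neg (s (swL (m + 1)))
    rw [em, em1]
    exact hs.2 h1' h2' h3' h4'

lemma elab_swR {m p q e : ℕ} (hm : 2 ≤ m) (h : ELab m (swR m p) (swR m q) e) : ELab m p q e := by
  refine elab_sw (swR_swR m) (fun s => cext_of_swR hm) (fun s hs => ?_) h
  have e0 : swR m 0 = 0 := swR_of (by omega)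
  have e1 : swR m 1 = 1 := swR_of (by omega)
  have em : swR m m = m + 1 := by unfold swR; simp
  have em1 : swR m (m + 1) = m := by unfold swR; simp
  have hne : ∀ a b, swR m a ≠ b → a ≠ swR m b := fun a b h1 h2 => h1 (by rw [h2, swR_swR])
  constructor
  · intro h1 h2 h3 h4
    have h1' := hne _ _ h1
    have h2' := hne _ _ h2
    have h3' := hne _ _ h3
    have h4' := hne _ _ h4
    rw [e0] at h1' h3'
    rw [e1] at h2' h4'
    show s (swR m 0) ≠ neg (s (swR m 1))
    rw [e0, e1]
    exact hs.1 h1' h2' h3' h4'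
  · intro h1 h2 h3 h4
    have h1' := hne _ _ h1
    have h2' := hne _ _ h2
    have h3' := hne _ _ h3
    have h4' := hne _ _ h4
    rw [em] at h1' h3'
    rw [em1] at h2' h4'
    show s (swR m m) ≠ neg (s (swR m (m + 1)))
    rw [em, em1]
    exact H3DA.ne_neg_symm (hs.2 h2' h1' h4' h3')

/-- Normalised indices. -/
lemma elab_norm {m p q : ℕ} (hm : 2 ≤ m) (hp : p = 0 ∨ p = m + 1 ∨ (2 ≤ p ∧ p + 1 ≤ m))
    (hq : q = 0 ∨ q = m + 1 ∨ (2 ≤ q ∧ q + 1 ≤ m)) (hpq : p ≠ q)
    (hx : ¬ (2 ≤ p ∧ p + 1 ≤ m) → ¬ (2 ≤ q ∧ q + 1 ≤ m) → m % 4 = 2) :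
    ELab m p q (if 2 ≤ p ∧ p + 1 ≤ m then 4 else 3) := by
  intro s s' hs hs' t t' ht A B hA hB
  by_cases h1 : 2 ≤ p ∧ p + 1 ≤ m
  · rw [if_pos h1] at hB
    by_cases h2 : 2 ≤ q ∧ q + 1 ≤ m
    · exact good_II (fam_II (by omega) h1.1 h1.2 h2.1 h2.2 hpq hs)
        (fam_II (by omega) h1.1 h1.2 h2.1 h2.2 hpq hs') t t' ht A B hA hB
    · have hq' : q = 0 ∨ q = m + 1 := by tauto
      exact good_IL (fam_IL hm hq' h1.1 h1.2 hs) (fam_IL hm hq' h1.1 h1.2 hs') t t' ht A B hA hB
  · rw [if_neg h1] at hB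
    have hp' : p = 0 ∨ p = m + 1 := by tauto
    by_cases h2 : 2 ≤ q ∧ q + 1 ≤ m
    · exact good_LI (fam_LI hm hp' h2.1 h2.2 hs) (fam_LI hm hp' h2.1 h2.2 hs') t t' ht A B hA hB
    · have hq' : q = 0 ∨ q = m + 1 := by tauto
      have hpq' : (p = 0 ∧ q = m + 1) ∨ (p = m + 1 ∧ q = 0) := by omega
      exact good_LL (fam_LL (hx h1 h2) hpq' s) (fam_LL (hx h1 h2) hpq' s') t t' ht A B hA hB

/-- The end-kill lemma. Ports `p` (unit `k - 1`) and `q` (unit `k`) at vertices of different parity, not
two leaves in different forks of a path with `m` divisible by `4`. -/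
theorem elab_main {m p q : ℕ} (hm : 2 ≤ m) (hp : p ≤ m + 1) (hq : q ≤ m + 1)
    (hpar : max 1 (min p m) % 2 ≠ max 1 (min q m) % 2)
    (hx : m % 4 = 0 → (2 ≤ p ∧ p + 1 ≤ m) ∨ (2 ≤ q ∧ q + 1 ≤ m)) :
    ELab m p q (if 2 ≤ p ∧ p + 1 ≤ m then 4 else 3) := by
  -- first the right side
  have key : ∀ p q : ℕ, p ≤ m + 1 → q ≤ m + 1 → p ≠ 1 → q ≠ 1 →
      max 1 (min p m) % 2 ≠ max 1 (min q m) % 2 →
      (m % 4 = 0 → (2 ≤ p ∧ p + 1 ≤ m) ∨ (2 ≤ q ∧ q + 1 ≤ m)) →
      ELab m p q (if 2 ≤ p ∧ p + 1 ≤ m then 4 else 3) := by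
    intro p q hp hq hp1 hq1 hpar hx
    by_cases hpm : p = m ∨ q = m
    · have hne : ¬ (p = m + 1) ∧ ¬ (q = m + 1) := by
        constructor
        · rintro rfl
          rcases hpm with h | h
          · omega
          · subst h
            apply hpar
            rw [show min (q + 1) q = q by omega, show min q q = q by omega]
        · rintro rfl
          rcases hpm with h | h
          · subst h
            apply hpar
            rw [show min (p + 1) p = p by omega, show min p p = p by omega]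
          · omega
      have hpq : p ≠ q := fun h => hpar (by rw [h])
      refine elab_swR hm ?_
      have e : (if 2 ≤ p ∧ p + 1 ≤ m then 4 else 3) =
          (if 2 ≤ swR m p ∧ swR m p + 1 ≤ m then 4 else 3) := by
        unfold swR
        split_ifs <;> omega
      rw [e]
      refine elab_norm hm ?_ ?_ ?_ ?_
      · unfold swR; split_ifs <;> omega
      · unfold swR; split_ifs <;> omega
      · intro h
        apply hpq
        rw [← swR_swR m p, h, swR_swR]
      · intro h1 h2
        by_contra h3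
        rcases Nat.lt_or_ge m 4 with h4 | h4
        · have : m = 3 := by omega
          subst this
          unfold swR at h1 h2
          split_ifs at h1 h2 <;> omega
        · unfold swR at h1 h2
          split_ifs at h1 h2 <;> omega
    · refine elab_norm hm (by omega) (by omega) (fun h => hpar (by rw [h])) ?_
      intro h1 h2
      by_contra h3
      have : p = 0 ∨ p = m + 1 := by omega
      have : q = 0 ∨ q = m + 1 := by omega
      omega
  by_cases hpm : p = 1 ∨ q = 1
  · have hne : ¬ (p = 0) ∧ ¬ (q = 0) := by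
      constructor
      · rintro rfl
        rcases hpm with h | h
        · omega
        · subst h
          apply hpar
          rw [show min 0 m = 0 by omega, show min 1 m = 1 by omega]; rfl
      · rintro rfl
        rcases hpm with h | h
        · subst h
          apply hpar
          rw [show min 0 m = 0 by omega, show min 1 m = 1 by omega]; rfl
        · omega
    refine elab_swL hm ?_
    have e : (if 2 ≤ p ∧ p + 1 ≤ m then 4 else 3) =
        (if 2 ≤ swL p ∧ swL p + 1 ≤ m then 4 else 3) := by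
      unfold swL
      split_ifs <;> omega
    rw [e]
    refine key _ _ ?_ ?_ ?_ ?_ ?_ ?_
    · unfold swL; split_ifs <;> omega
    · unfold swL; split_ifs <;> omega
    · unfold swL; split_ifs <;> omega
    · unfold swL; split_ifs <;> omega
    · unfold swL; split_ifs <;> omega
    · unfold swL; split_ifs <;> omega
  · exact key p q hp hq (by omega) (by omega) hpar hx

end CLB.H91
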