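import Pool.Agent.Helper91_DA.EKill

/-!
The exception of the end-kill lemma: two leaves of different forks of a path with `m` divisible by `4`. If
the labelling is tight and the two leaves are near then the labels of all other ports have sum zero, hence
the last of them has at most one label.
-/

set_option autoImplicit false

namespace CLB.H91

open Finset
open H3DA (Q neg nr)
open CLB.H95
open CLB.H3 (CExt)

/-- Membership in the sum of `i` steps of type `D` (parity). -/
def prt1 (D : Ty) (i : Bool) (x : Q) : Bool :=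
  if i then x == uD D || x == vD D else x == (false, false, false) || x == add (uD D) (vD D)

/-- `X` is the part of type `D` of the difference of `x` and `y`. -/
def rx (D : Ty) (i j : Bool) (x y X : Q) : Bool :=
  prt1 D i X && prt1 (co D) j (add (add x y) X)

lemma prt1_step : ∀ (D : Ty) (i : Bool) (X y z : Q), prt1 D i X = true → stp D y z = true →
    prt1 D (!i) (add X (add y z)) = true := by decide +kernel

lemma add_cancel1 : ∀ x y z : Q, add (add x y) (add y z) = add x z := by decide

lemma add_assoc' : ∀ x y z : Q, add (add x y) z = add x (add y z) := by decide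

lemma add_swap : ∀ x y z : Q, add (add x y) z = add (add x z) y := by decide

lemma rx_stepD {D : Ty} {i j : Bool} {x y z X : Q} (h : rx D i j x y X = true) (h' : stp D y z = true) :
    rx D (!i) j x z (add X (add y z)) = true := by
  unfold rx at h ⊢
  rw [Bool.and_eq_true] at h ⊢
  refine ⟨prt1_step D i X y z h.1 h', ?_⟩
  have e : ∀ x y z X : Q, add (add x z) (add X (add y z)) = add (add x y) X := by decide +kernel
  rw [e]; exact h.2

lemma rx_stepC {D : Ty} {i j : Bool} {x y z X : Q} (h : rx D i j x y X = true)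
    (h' : stp (co D) y z = true) : rx D i (!j) x z X = true := by
  unfold rx at h ⊢
  rw [Bool.and_eq_true] at h ⊢
  refine ⟨h.1, ?_⟩
  have := prt1_step (co D) j _ y z h.2 h'
  have e : ∀ x y z X : Q, add (add (add x y) X) (add y z) = add (add x z) X := by decide +kernel
  rwa [e] at this

lemma rx_zero : ∀ (D : Ty) (x : Q), rx D false false x x (false, false, false) = true := by decide +kernel

lemma rx_near : ∀ (D : Ty) (x y X : Q), rx D false true x y X = true → nr x y = true →
    X = (false, false, false) := by decide +kernel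

/-- The sum of the first `n` labels, with signs. -/
def usum (s : ℕ → Q) : ℕ → Q
  | 0 => (false, false, false)
  | n + 1 => add (usum s n) (sg n (s (n + 1)))

lemma usum_succ (s : ℕ → Q) (n : ℕ) : usum s (n + 1) = add (usum s n) (sg n (s (n + 1))) := rfl

lemma tight_rx {D : Ty} {s : ℕ → Q} {m : ℕ} (h : Tight D s m) : ∀ l, 4 * l + 4 ≤ m →
    rx D false true (s 1) (neg (s (4 * l + 4))) (usum s (4 * l + 4)) = true := by
  have st : ∀ i, 1 ≤ i → i < m → stp (altT D i) (s i) (neg (s (i + 1))) = true := by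
    intro i h1 h2
    rw [← stp_neg1]; exact h.2.1 i h1 h2
  have st' : ∀ i, 1 ≤ i → i < m → stp (altT D i) (neg (s i)) (s (i + 1)) = true := h.2.1
  have o : ∀ i, i % 2 = 1 → altT D i = D := fun i hi => by unfold altT; rw [if_pos hi]
  have e : ∀ i, i % 2 = 0 → altT D i = co D := fun i hi => by unfold altT; rw [if_neg (by omega)]
  have four : ∀ n, n % 4 = 0 → usum s (n + 4) =
      add (add (usum s n) (add (s (n + 1)) (neg (s (n + 2))))) (add (s (n + 3)) (neg (s (n + 4)))) := by
    intro n hn
    rw [usum_succ, usum_succ, usum_succ, usum_succ, sg_even (show n % 2 = 0 by omega),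
      sg_odd (show (n + 1) % 2 = 1 by omega), sg_even (show (n + 2) % 2 = 0 by omega),
      sg_odd (show (n + 3) % 2 = 1 by omega)]
    simp only [add_assoc']
  intro l
  induction l with
  | zero =>
    intro hl
    have h1 := st 1 (by omega) (by omega)
    have h2 := st' 2 (by omega) (by omega)
    have h3 := st 3 (by omega) (by omega)
    rw [o _ (by omega)] at h1 h3
    rw [e _ (by omega)] at h2
    have g1 := rx_stepD (rx_zero D (s 1)) h1
    have g2 := rx_stepC g1 h2
    have g3 := rx_stepD g2 h3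
    rw [show 4 * 0 + 4 = 0 + 4 by rfl, four 0 rfl]
    exact g3
  | succ l ih =>
    intro hl
    have h0 := ih (by omega)
    have h1 := st' (4 * l + 4) (by omega) (by omega)
    have h2 := st (4 * l + 4 + 1) (by omega) (by omega)
    have h3 := st' (4 * l + 4 + 2) (by omega) (by omega)
    have h4 := st (4 * l + 4 + 3) (by omega) (by omega)
    rw [e _ (by omega)] at h1 h3
    rw [o _ (by omega)] at h2 h4
    have g1 := rx_stepC h0 h1
    have g2 := rx_stepD g1 h2
    have g3 := rx_stepC g2 h3
    have g4 := rx_stepD g3 h4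
    rw [show 4 * (l + 1) + 4 = 4 * l + 4 + 4 by ring, four _ (by omega)]
    exact g4

/-- The relation. -/
theorem tight_rel {D : Ty} {s : ℕ → Q} {m : ℕ} (hm : 1 ≤ m) (hm4 : m % 4 = 0) (h : Tight D s m)
    (hn : nr (s 0) (neg (s (m + 1))) = true) : usum s m = (false, false, false) := by
  have h1 := tight_rx h ((m - 4) / 4) (by omega)
  rw [show 4 * ((m - 4) / 4) + 4 = m by omega] at h1
  have g1 := h.1
  have g2 := h.2.2
  have o : altT D (m + 1) = D := by unfold altT; rw [if_pos (by omega)]
  rw [frk_symm] at g1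
  rw [o, ← frk_neg] at g2
  exact rx_near D _ _ _ h1 (LL_key D _ _ _ _ g1 g2 hn)

lemma usum_congr {s s' : ℕ → Q} : ∀ n, (∀ j, 1 ≤ j → j ≤ n → s j = s' j) → usum s n = usum s' n := by
  intro n
  induction n with
  | zero => intro _; rfl
  | succ n ih =>
    intro h
    rw [usum_succ, usum_succ, ih (fun j h1 h2 => h j h1 (by omega)), h (n + 1) (by omega) le_rfl]

lemma usum_diff {s s' : ℕ → Q} {j₀ : ℕ} (h1 : 1 ≤ j₀) : ∀ n, j₀ ≤ n →
    (∀ j, 1 ≤ j → j ≤ n → j ≠ j₀ → s j = s' j) →
    add (usum s n) (usum s' n) = add (sg (j₀ - 1) (s j₀)) (sg (j₀ - 1) (s' j₀)) := by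
  have e1 : ∀ a b c : Q, add (add a c) (add b c) = add a b := by decide
  have e2 : ∀ a b c : Q, add (add c a) (add c b) = add a b := by decide
  intro n
  induction n with
  | zero => intro h2; omega
  | succ n ih =>
    intro h2 h3
    rw [usum_succ, usum_succ]
    by_cases hj : j₀ = n + 1
    · subst hj
      rw [usum_congr n (fun j h4 h5 => h3 j h4 (by omega) (by omega)), e2, Nat.add_sub_cancel]
    · rw [h3 (n + 1) (by omega) le_rfl (Ne.symm hj), e1]
      exact ih (by omega) (fun j h4 h5 => h3 j h4 (by omega))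

/-- The last label is unique. -/
theorem rel_unique {m j₀ : ℕ} (hm : m % 4 = 0) (h1 : 1 ≤ j₀) (h2 : j₀ ≤ m) {s s' : ℕ → Q}
    (hs : ∀ j, 1 ≤ j → j ≤ m → j ≠ j₀ → s j = s' j) {D D' : Ty} (hT : Tight D s m)
    (hn : nr (s 0) (neg (s (m + 1))) = true) (hT' : Tight D' s' m)
    (hn' : nr (s' 0) (neg (s' (m + 1))) = true) : s j₀ = s' j₀ := by
  have e := usum_diff h1 m h2 hs
  rw [tight_rel (by omega) hm hT hn, tight_rel (by omega) hm hT' hn'] at e
  have key : ∀ (a b : Q), add (false, false, false) (false, false, false) = add a b → a = b := by decide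
  have := key _ _ e
  have h3 := congrArg (sg (j₀ - 1)) this
  rwa [sg_sg, sg_sg] at h3

/-- For given other labels there is one label to forbid. -/
theorem exists_rel {m j₀ : ℕ} (hm : m % 4 = 0) (h1 : 1 ≤ j₀) (h2 : j₀ ≤ m) (s : ℕ → Q) :
    ∃ t : Q, ∀ s' : ℕ → Q, (∀ j, 1 ≤ j → j ≤ m → j ≠ j₀ → s' j = s j) →
      nr (s' 0) (neg (s' (m + 1))) = true → s' j₀ ≠ t → ∀ D, ¬ Tight D s' m := by
  by_cases hex : ∃ s₀ : ℕ → Q, (∀ j, 1 ≤ j → j ≤ m → j ≠ j₀ → s₀ j = s j) ∧
      nr (s₀ 0) (neg (s₀ (m + 1))) = true ∧ ∃ D, Tight D s₀ m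
  · obtain ⟨s₀, g1, g2, D₀, g3⟩ := hex
    refine ⟨s₀ j₀, fun s' h3 h4 h5 D hD => h5 ?_⟩
    exact rel_unique hm h1 h2 (fun j a b c => (h3 j a b c).trans (g1 j a b c).symm) hD h4 g3 g2
  · refine ⟨(false, false, false), fun s' h3 h4 _ D hD => hex ⟨s', h3, h4, D, hD⟩⟩

end CLB.H91
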