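import Pool.Agent.Helper91_DA.EGraph
import Pool.Agent.Helper95_CLB.OnlStart

/-!
The end of an online labelling with a component killed in the last two units and one further component
that forbids a set of at most two labels at `y k`.
-/

set_option autoImplicit false
set_option linter.unusedSectionVars false

namespace CLB.H91

open Finset Classical
open H3DA (Q neg nr)
open CLB.H95
open CLB.H3 (CExt Cat IsTwo Fits UPath he_of_unc cat_structure chn_side)

variable {V : Type*} {G H : SimpleGraph V} {R : V → Bool} [Fintype V] {k : ℕ} {x y : ℕ → V}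

/-- Forbidden sets replaced on one component. -/
noncomputable def ovr (S : Set V) (φ Φ : V → V → (ℕ → Q) → Finset Q) : V → V → (ℕ → Q) → Finset Q :=
  fun v z g => if z ∈ S then φ v z g else Φ v z g

lemma ovr_in {S : Set V} {φ Φ : V → V → (ℕ → Q) → Finset Q} {v z : V} {g : ℕ → Q} (h : z ∈ S) :
    ovr S φ Φ v z g = φ v z g := by unfold ovr; rw [if_pos h]

lemma ovr_out {S : Set V} {φ Φ : V → V → (ℕ → Q) → Finset Q} {v z : V} {g : ℕ → Q} (h : z ∉ S) :
    ovr S φ Φ v z g = Φ v z g := by unfold ovr; rw [if_neg h]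

/-- **The last two units.** -/
theorem end_walk (hR : Opt G R) (hG : ClassC G R) (hle : H ≤ G) (hc : Crit H R)
    (h : Chn H R k x y) (hk : 3 ≤ k)
    {mE : ℕ} {zE cE : ℕ → V} (hE : Cat H R mE zE cE) {zy zk : V} (hzy : zy ∈ prt H R (y (k - 1)))
    (hzyE : zy ∈ cSupp mE zE) (hzk : zk ∈ prt H R (y k)) (hzkE : zk ∈ cSupp mE zE)
    {f : V → Q} {φ : V → V → (ℕ → Q) → Finset Q}
    (hφ : EKill H R k x y f (cSupp mE zE) (if InnerPt H R zy then 4 else 3) φ)
    {z₀ : V} (hz₀ : (prt H R (x k)).card = 0 ∨ z₀ ∈ prt H R (x k))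
    {Φ : V → V → (ℕ → Q) → Finset Q} (hΦ : OSet H R k x y (x k) z₀ Φ) {D : Finset Q}
    (hD : D = ∅ ∨ (D.card ≤ 2 ∧ ∃ z1 ∈ prt H R (y k), z1 ∉ cSupp mE zE ∧ ∀ g, Φ (y k) z1 g = ∅))
    {g g' : ℕ → Q} (hg : PW H R x y (ovr (cSupp mE zE) φ Φ) (k - 2) g)
    (hg' : PW H R x y (ovr (cSupp mE zE) φ Φ) (k - 2) g') (hne : g (k - 2) ≠ g' (k - 2)) :
    ∃ mu, PW H R x y (ovr (cSupp mE zE) φ Φ) k mu ∧ (Same (k - 1) g mu ∨ Same (k - 1) g' mu) ∧
      mu k ∉ D ∧ ∃ w, Fits H R (lbl k x y mu f) w (cSupp mE zE) := by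
  have hH := hG.mono hle
  set Φ' : V → V → (ℕ → Q) → Finset Q := ovr (cSupp mE zE) φ Φ with hΦ'
  have h2 : ∀ v z g g', (Φ' v z g ∪ Φ' v z g').card ≤ 2 := by
    intro v z g g'
    simp only [hΦ', ovr]
    split_ifs
    · exact hφ.two v z g g'
    · exact hΦ.two v z g g'
  have hd : Dep k x y Φ' := by
    intro i h1 h2 z g g' hs
    simp only [hΦ', ovr]
    split_ifs
    · exact hφ.dep i h1 h2 z g g' hs
    · exact hΦ.dep i h1 h2 z g g' (hs.mono (by omega))
  have hdk : ∀ z g g', Same (k - 1) g g' → Φ' (x k) z g = Φ' (x k) z g' ∧ Φ' (y k) z g = Φ' (y k) z g' := by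
    intro z g g' hs
    simp only [hΦ', ovr]
    split_ifs
    · exact ⟨by rw [(hφ.last z g).1, (hφ.last z g').1], by rw [(hφ.last z g).2.1, (hφ.last z g').2.1]⟩
    · exact hΦ.depk h.pos z g g' hs
  set Ψ := uni Φ' g g' with hΨ
  have hΨ2 : ∀ v z, (Ψ v z).card ≤ 2 := fun v z => h2 v z g g'
  have hlk : Lk H R (y (k - 1)) (x k) := by
    have := h.lk (k - 1) (by omega) (by omega)
    rwa [show k - 1 + 1 = k by omega] at this
  have hlk' : Lk H R (y (k - 2)) (x (k - 1)) := by
    have := h.lk (k - 2) (by omega) (by omega)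
    rwa [show k - 2 + 1 = k - 1 by omega] at this
  -- size of the forbidden sets
  have hA : ((lst H R x y Ψ (k - 1))ᶜ).card ≤ 2 := by
    apply card_compl_lst
    have b := lst_card (G := H) (R := R) (x := x) (y := y) Ψ (k - 1)
    have e1 := cst_le hΨ2 (prt_card_lk hH hlk'.symm)
    have e2 := cst_le_zero hΨ2 (n := 0) (prt_card_lk hH hlk) hzy (by
      simp only [hΨ, uni, hΦ', ovr]
      rw [if_pos hzyE, if_pos hzyE, (hφ.last zy g).2.2.2, (hφ.last zy g').2.2.2]; simp)
    omega
  have pyk := prt_card hH (h.cov (InC.y (x := x) h.pos le_rfl))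
  have pxk := prt_card_lk hH hlk.symm
  have hB : ((lst H R x y Ψ k)ᶜ ∪ D).card ≤ (if InnerPt H R zy then 4 else 3) := by
    have hzk0 : Ψ (y k) zk = ∅ := by
      simp only [hΨ, uni, hΦ', ovr]
      rw [if_pos hzkE, if_pos hzkE, (hφ.last zk g).2.1, (hφ.last zk g').2.1]; simp
    have hyk : cst H R Ψ (y k) ≤ 2 * ((prt H R (y k)).card - 1) :=
      cst_le_zero hΨ2 (by omega) hzk hzk0
    have b := lst_card (G := H) (R := R) (x := x) (y := y) Ψ k
    have e1 := cst_le hΨ2 pxk
    -- the cost of `y k` together with `D`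
    obtain ⟨n, hn, hn2, hn0⟩ : ∃ n, cst H R Ψ (y k) + D.card ≤ n ∧ n ≤ 2 ∧
        ((prt H R (y k)).card ≤ 1 → n = 0) := by
      rcases hD with rfl | ⟨hD2, z1, hz1, hz1E, hz10⟩
      · refine ⟨cst H R Ψ (y k), by simp, by omega, fun h1 => by omega⟩
      · have hne1 : zk ≠ z1 := by rintro rfl; exact hz1E hzkE
        have hpair : ({zk, z1} : Finset V) = prt H R (y k) := by
          apply Finset.eq_of_subset_of_card_le
          · intro t ht
            simp only [mem_insert, mem_singleton] at ht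
            rcases ht with rfl | rfl
            · exact hzk
            · exact hz1
          · rw [Finset.card_pair hne1]; exact pyk
        have h0 : cst H R Ψ (y k) = 0 := by
          unfold cst
          rw [← hpair, Finset.sum_pair hne1, hzk0]
          simp only [hΨ, uni, hΦ', ovr]
          rw [if_neg hz1E, if_neg hz1E, hz10 g, hz10 g']; simp
        refine ⟨D.card, by omega, hD2, fun h1 => ?_⟩
        rw [← hpair, Finset.card_pair hne1] at h1
        omega
    have hcard : ((lst H R x y Ψ k)ᶜ ∪ D).card ≤ cst H R Ψ (x k) + n := by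
      have h3 : ((lst H R x y Ψ k)ᶜ).card ≤ cst H R Ψ (x k) + cst H R Ψ (y k) :=
        card_compl_lst (by omega)
      have := Finset.card_union_le ((lst H R x y Ψ k)ᶜ) D
      omega
    refine hcard.trans ?_
    split_ifs with hin
    · omega
    · by_cases h3 : (prt H R (y k)).card ≤ 1
      · have := hn0 h3
        omega
      · rcases hz₀ with hz₀ | hz₀
        · have := cst_le hΨ2 (le_of_eq hz₀)
          omega
        · have hpm := pm_sub hR hG hle hc hlk.1.symm (h.me k h.pos le_rfl)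
            (h.me (k - 1) (by omega) (by omega)).symm hz₀ hzy
          rw [if_neg h3] at hpm
          have hle1 : (if (prt H R (x (k - 1))).card ≤ 1 then 1 else 0) ≤ 1 := by split_ifs <;> omega
          have h4 : hcv H R zy (y (k - 1)) ≠ 0 := fun h0 => hin
            (innerPt_of_hcv hH hc hzy (h.cov (InC.y (by omega) (by omega))) h0)
          have h5 := innerPt_of_hcv hH hc hz₀ (h.cov (InC.x h.pos le_rfl)) (by omega)
          have e2 := cst_le_light hΨ2 (n := 0) pxk hz₀ (by
            simp only [hΨ, uni, hΦ', ovr]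
            by_cases h6 : z₀ ∈ cSupp mE zE
            · rw [if_pos h6, if_pos h6, (hφ.last z₀ g).1, (hφ.last z₀ g').1]; simp
            · rw [if_neg h6, if_neg h6]
              exact hΦ.one hz₀ h5 g g')
          omega
  -- the last two labels
  have hpav : ∀ w, PW H R x y Φ' (k - 2) w → PAv H k x y f (cSupp mE zE) φ (k - 2) w := by
    intro w hw z hz v hv hin hi
    obtain ⟨i, h1, h2', hvi⟩ := hin
    have hidx : idx k x y v = i := by
      rcases hvi with rfl | rfl
      · exact idx_x h h1 h2'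
      · exact idx_y h h1 h2'
    rw [hidx] at hi
    have hm := hw.mem i h1 hi
    unfold olst at hm
    rw [mem_lst] at hm
    have hzc : ¬ Cov H R z := by
      obtain ⟨j, j1, j2, rfl⟩ := hz
      exact hE.unc j j1 j2
    rcases hvi with rfl | rfl
    · rw [lbl_x h h1 h2']
      have := hm.1 z (mem_prt.2 ⟨hv, hzc⟩)
      simp only [hΦ', ovr] at this
      rwa [if_pos hz] at this
    · rw [lbl_y h h1 h2']
      have := hm.2 z (mem_prt.2 ⟨hv, hzc⟩)
      simp only [hΦ', ovr] at this
      rwa [if_pos hz] at this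
  obtain ⟨mu, hs, hn1, hn2, hmA, hmB, w, hw⟩ := hφ.fin g g' hg.nwk hg'.nwk (hpav g hg) (hpav g' hg') hne
    _ _ hA hB
  rw [mem_compl, not_not] at hmA
  rw [mem_union, not_or, mem_compl, not_not] at hmB
  obtain ⟨hmB, hmD⟩ := hmB
  have key : ∀ q, PW H R x y Φ' (k - 2) q → Same (k - 1) q mu →
      lst H R x y Ψ (k - 1) ⊆ olst H R x y Φ' q (k - 1) → lst H R x y Ψ k ⊆ olst H R x y Φ' q k →
      PW H R x y Φ' k mu := by
    intro q hq hqs s1 s2
    refine ⟨fun i i1 i2 => ?_, fun i i1 i2 => ?_⟩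
    · by_cases h3 : i + 1 ≤ k - 2
      · rw [← hqs i i1 (by omega), ← hqs (i + 1) (by omega) (by omega)]
        exact hq.nwk i i1 (by omega)
      · have : i = k - 2 ∨ i = k - 1 := by omega
        rcases this with rfl | rfl
        · rw [show k - 2 + 1 = k - 1 by omega]; exact hn1
        · rw [show k - 1 + 1 = k by omega]; exact hn2
    · by_cases h3 : i ≤ k - 2
      · rw [← olst_congr hd i1 (by omega) (hqs.mono (by omega)), ← hqs i i1 (by omega)]
        exact hq.mem i i1 h3
      · have : i = k - 1 ∨ i = k := by omega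
        rcases this with rfl | rfl
        · rw [← olst_congr hd i1 (by omega) hqs]
          exact s1 hmA
        · have : olst H R x y Φ' q i = olst H R x y Φ' mu i := lst_congr' (fun z => hdk z q mu hqs)
          rw [← this]
          exact s2 hmB
  refine ⟨mu, ?_, hs, hmD, w, hw⟩
  rcases hs with hs | hs
  · exact key g hg hs (uni_left _ _ _ _) (uni_left _ _ _ _)
  · exact key g' hg' hs (uni_right _ _ _ _) (uni_right _ _ _ _)

/-- The contradiction from the final walk. -/
theorem end_contra (hH : ClassC H R) (hc : Crit H R)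
    (h : Chn H R k x y) (hends : (∀ w, ¬ Lk H R (x 1) w) ∧ ∀ w, ¬ Lk H R (y k) w)
    {f : V → Q} (hf : OffC H R k x y f) {z₀ v₀ : V} {E : Set V}
    {Φ Φ' : V → V → (ℕ → Q) → Finset Q} (hΦ : OForb H R k x y f E v₀ z₀ Φ)
    (hET : ∀ v ∈ E, ∀ a b, ¬ IsTwo H R v a b) (hsub : ∀ v z g, z ∉ E → Φ' v z g = Φ v z g)
    {mu : ℕ → Q} (hmu' : PW H R x y Φ' k mu)
    (hrest : ∀ m z c, Cat H R m z c → (∃ j ≤ m + 1, InC k x y (c j)) →
      (∃ φ, OKill H R k x y f (cSupp m z) v₀ z₀ φ) ∧ (∀ i, 1 ≤ i → i ≤ m → z i ∉ E) ∨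
        CExt m (fun j => lbl k x y mu f (c j))) : False := by
  have hmu : PW H R x y Φ k mu := by
    refine ⟨hmu'.nwk, fun i i1 i2 => ?_⟩
    refine lst_anti (fun v z => ?_) i (hmu'.mem i i1 i2)
    by_cases h3 : z ∈ E
    · rw [hΦ.triv v z mu h3]; exact Finset.empty_subset _
    · rw [hsub v z mu h3]
  refine chain_contra hH hc h (Or.inr hends) hf (mu := mu) ?_
  refine fit_of_walk h hΦ hmu (hends.2 _) ?_ hrest
  intro v a b hT ha hv
  exact absurd hT (hET v hv a b)

end CLB.H91
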