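import Pool.Agent.Helper95_CLB.AlphaLab

/-!
Small facts on labels.
-/

set_option autoImplicit false

namespace CLB.H91

open Finset
open H3DA (Q neg nr)
open CLB.H95

lemma star_lab0 : ∀ a b c : Q, (a == neg b || a == neg c || b == neg c ||
    allQ.any (fun p => nr p a && nr p b && nr p c)) = true := by decide +kernel

lemma star_lab (a b c : Q) (h1 : a ≠ neg b) (h2 : a ≠ neg c) (h3 : b ≠ neg c) :
    ∃ p, nr p a = true ∧ nr p b = true ∧ nr p c = true := by
  have h := star_lab0 a b c
  simp only [Bool.or_eq_true, beq_iff_eq, List.any_eq_true, Bool.and_eq_true] at h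
  rcases h with ((h | h) | h) | ⟨p, -, h⟩
  · exact absurd h h1
  · exact absurd h h2
  · exact absurd h h3
  · exact ⟨p, h.1.1, h.1.2, h.2⟩

lemma beta_lab1 : ∀ a c d : Q, (a == neg (false, false, false) || d == neg c ||
    (!(a == (false, false, false)) && d == add a c) || ext2 a (false, false, false) c d) = true := by
  decide +kernel

lemma beta_lab0 (a c d : Q) (h1 : a ≠ neg (false, false, false)) (h2 : d ≠ neg c)
    (h3 : a = (false, false, false) ∨ d ≠ add a c) : ext2 a (false, false, false) c d = true := by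
  have h := beta_lab1 a c d
  simp only [Bool.or_eq_true, beq_iff_eq, Bool.and_eq_true, Bool.not_eq_true', beq_eq_false_iff_ne] at h
  rcases h with ((h | h) | h) | h
  · exact absurd h h1
  · exact absurd h h2
  · rcases h3 with h3 | h3
    · exact absurd h3 h.1
    · exact absurd h.2 h3
  · exact h

lemma add_self0 : ∀ q : Q, add q q = (false, false, false) := by decide

lemma add_four : ∀ a b c : Q, add b (add a (add b c)) = add (add b a) (add b c) := by decide +kernel

lemma beta_lab (a b c d : Q) (h1 : a ≠ neg b) (h2 : d ≠ neg c) (h3 : a = b ∨ d ≠ add a (add b c)) :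
    ext2 a b c d = true := by
  have e := ext2_add b a b c d
  rw [add_self0] at e
  rw [← e]
  refine beta_lab0 _ _ _ ?_ ?_ ?_
  · intro h
    apply h1
    apply add_inj b
    rw [h, add_neg_right, add_self0]
  · intro h
    apply h2
    apply add_inj b
    rw [h, add_neg_right]
  · rcases h3 with h3 | h3
    · left; rw [h3, add_self0]
    · right
      intro h
      apply h3
      apply add_inj b
      rw [h, add_four]

lemma nr_or_neg : ∀ a t : Q, nr a t = true ∨ nr (neg a) t = true := by decide

lemma neg_ne_self : ∀ a : Q, neg a ≠ a := by decide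

/-- A set of five labels contains two antipodal labels. -/
lemma exists_anti {L : Finset Q} (h : 5 ≤ L.card) : ∃ b ∈ L, neg b ∈ L := by
  by_contra hcon
  push Not at hcon
  have h1 : Disjoint L (L.image neg) := by
    rw [Finset.disjoint_left]
    intro t ht ht'
    rw [mem_image] at ht'
    obtain ⟨s, hs, rfl⟩ := ht'
    exact hcon s hs ht
  have h2 := Finset.card_union_of_disjoint h1
  rw [Finset.card_image_of_injective _ (fun a b hab => H3DA.neg_inj hab)] at h2
  have h3 := Finset.card_le_univ (L ∪ L.image neg)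
  have h4 : Fintype.card Q = 8 := by decide
  omega

/-- A set of four labels not meeting `{p, neg p}` contains two antipodal labels. -/
lemma exists_anti4 {L : Finset Q} {p : Q} (h : 4 ≤ L.card) (hp : p ∉ L) (hp' : neg p ∉ L) :
    ∃ b ∈ L, neg b ∈ L := by
  obtain ⟨b, hb, hb'⟩ := exists_anti (L := insert p L) (by rw [Finset.card_insert_of_notMem hp]; omega)
  have e : neg (neg b) = b := H3DA.neg_neg b
  rw [mem_insert] at hb hb'
  rcases hb with hb | hb
  · exfalso
    subst hb
    rcases hb' with hb' | hb'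
    · exact neg_ne_self _ hb'
    · exact hp' hb'
  · rcases hb' with hb' | hb'
    · exfalso
      apply hp'
      rw [← hb', e]
      exact hb
    · exact ⟨b, hb, hb'⟩

/-- Three labels: two of them are near one of two antipodal labels. -/
lemma split_anti {L : Finset Q} (h : 3 ≤ L.card) (a : Q) :
    ∃ b ∈ L, ∃ b' ∈ L, b ≠ b' ∧ ((nr a b = true ∧ nr a b' = true) ∨
      (nr (neg a) b = true ∧ nr (neg a) b' = true)) := by
  have h1 : L.card ≤ (L.filter (fun t => nr a t = true)).card +
      (L.filter (fun t => nr (neg a) t = true)).card := by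
    refine le_trans (Finset.card_le_card ?_) (Finset.card_union_le _ _)
    intro t ht
    rw [mem_union, mem_filter, mem_filter]
    rcases nr_or_neg a t with h2 | h2
    · exact Or.inl ⟨ht, h2⟩
    · exact Or.inr ⟨ht, h2⟩
  have h2 : 1 < (L.filter (fun t => nr a t = true)).card ∨
      1 < (L.filter (fun t => nr (neg a) t = true)).card := by omega
  rcases h2 with h2 | h2
  · obtain ⟨b, hb, b', hb', hne⟩ := Finset.one_lt_card.1 h2
    rw [mem_filter] at hb hb'
    exact ⟨b, hb.1, b', hb'.1, hne, Or.inl ⟨hb.2, hb'.2⟩⟩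
  · obtain ⟨b, hb, b', hb', hne⟩ := Finset.one_lt_card.1 h2
    rw [mem_filter] at hb hb'
    exact ⟨b, hb.1, b', hb'.1, hne, Or.inr ⟨hb.2, hb'.2⟩⟩

/-- Two missing pairs: a set of four labels without antipodal labels contains the antipodes of two missing
labels. -/
lemma exists_anti_two {L : Finset Q} {p q : Q} (h : 4 ≤ L.card) (hp : p ∉ L) (hq : q ∉ L) :
    (∃ b ∈ L, neg b ∈ L) ∨ (neg p ∈ L ∧ neg q ∈ L) := by
  by_cases h1 : neg p ∈ L
  · by_cases h2 : neg q ∈ L
    · exact Or.inr ⟨h1, h2⟩
    · exact Or.inl (exists_anti4 h hq h2)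
  · exact Or.inl (exists_anti4 h hp h1)

lemma ok2_of {g g2 a t : Q} (h1 : nr a t = true) (h2 : a ≠ g) (h3 : t ≠ neg g2)
    (h4 : a = neg g ∨ t ≠ add (neg a) (add g g2)) : ok2 g g2 a t = true := by
  unfold ok2
  rw [Bool.and_eq_true]
  refine ⟨h1, beta_lab _ _ _ _ (fun h => h2 (H3DA.neg_inj h)) h3 ?_⟩
  rcases h4 with h4 | h4
  · left; rw [h4, H3DA.neg_neg]
  · exact Or.inr h4

lemma ball_two : ∀ a b : Q, (a == b || a == neg b || decide (2 ≤ (ball a ∩ ball b).card)) = true := by
  decide +kernel

lemma ball_inter_two {a b : Q} (h1 : a ≠ b) (h2 : a ≠ neg b) : 2 ≤ (ball a ∩ ball b).card := by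
  have h := ball_two a b
  simp only [Bool.or_eq_true, beq_iff_eq, decide_eq_true_eq] at h
  rcases h with (h | h) | h
  · exact absurd h h1
  · exact absurd h h2
  · exact h

lemma nr_neg_false : ∀ a t : Q, nr a t = true → nr (neg a) t = false := by decide

/-- Two continuations from safe starts. -/
lemma al_pair {A B : Finset Q} {p g g2 : Q} (hA : 4 ≤ A.card) (hp : p ∉ A) (hg : g ∉ A)
    (hB : 5 ≤ B.card) (hg2 : neg g2 ∉ B) :
    ∃ a b t t' u, a ∈ A ∧ b ∈ A ∧ t ∈ B ∧ t' ∈ B ∧ t ≠ t' ∧ ok2 g g2 a t = true ∧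
      ok2 g g2 b t' = true ∧ (a = u ∨ a = neg p) ∧ (b = u ∨ b = neg p) := by
  have hsum : ∀ a : Q, B.card ≤ (B.filter (fun t => nr a t = true)).card +
      (B.filter (fun t => nr (neg a) t = true)).card := by
    intro a
    refine le_trans (Finset.card_le_card ?_) (Finset.card_union_le _ _)
    intro t ht
    rw [mem_union, mem_filter, mem_filter]
    rcases nr_or_neg a t with h2 | h2
    · exact Or.inl ⟨ht, h2⟩
    · exact Or.inr ⟨ht, h2⟩
  have hne2 : ∀ t ∈ B, t ≠ neg g2 := fun t ht he => hg2 (he ▸ ht)
  -- three labels of `B` near one start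
  have key : ∀ a ∈ A, 3 ≤ (B.filter (fun t => nr a t = true)).card → ∃ a b t t' u, a ∈ A ∧ b ∈ A ∧
      t ∈ B ∧ t' ∈ B ∧ t ≠ t' ∧ ok2 g g2 a t = true ∧ ok2 g g2 b t' = true ∧ (a = u ∨ a = neg p) ∧
      (b = u ∨ b = neg p) := by
    intro a ha h3
    have e := Finset.pred_card_le_card_erase (s := B.filter (fun t => nr a t = true))
      (a := add (neg a) (add g g2))
    obtain ⟨t, ht, t', ht', hne⟩ := Finset.one_lt_card.1
      (show 1 < ((B.filter (fun t => nr a t = true)).erase (add (neg a) (add g g2))).card by omega)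
    rw [mem_erase, mem_filter] at ht ht'
    have hag : a ≠ g := fun he => hg (he ▸ ha)
    exact ⟨a, a, t, t', a, ha, ha, ht.2.1, ht'.2.1, hne, ok2_of ht.2.2 hag (hne2 _ ht.2.1) (Or.inr ht.1),
      ok2_of ht'.2.2 hag (hne2 _ ht'.2.1) (Or.inr ht'.1), Or.inl rfl, Or.inl rfl⟩
  by_cases hanti : ∃ b ∈ A, neg b ∈ A
  · obtain ⟨b, hb, hb'⟩ := hanti
    have h1 := hsum b
    have h2 : 3 ≤ (B.filter (fun t => nr b t = true)).card ∨
        3 ≤ (B.filter (fun t => nr (neg b) t = true)).card := by omega
    rcases h2 with h2 | h2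
    · exact key b hb h2
    · exact key _ hb' h2
  · have hnp : neg p ∈ A := by
      by_contra hcon
      exact hanti (exists_anti4 hA hp hcon)
    have hng : neg g ∈ A := by
      by_contra hcon
      exact hanti (exists_anti4 hA hg hcon)
    have hgn : neg g ≠ g := neg_ne_self g
    by_cases h2 : 1 < (B.filter (fun t => nr (neg g) t = true)).card
    · obtain ⟨t, ht, t', ht', hne⟩ := Finset.one_lt_card.1 h2
      rw [mem_filter] at ht ht'
      exact ⟨neg g, neg g, t, t', neg g, hng, hng, ht.1, ht'.1, hne,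
        ok2_of ht.2 hgn (hne2 _ ht.1) (Or.inl rfl), ok2_of ht'.2 hgn (hne2 _ ht'.1) (Or.inl rfl),
        Or.inl rfl, Or.inl rfl⟩
    · have h1 := hsum g
      -- all labels near `g` are in `B`
      have h3 : B.filter (fun t => nr g t = true) = ball g := by
        apply Finset.eq_of_subset_of_card_le
        · intro t ht
          rw [mem_filter] at ht
          rw [mem_ball]
          exact ht.2
        · rw [ball_card]; omega
      have h4 : 0 < (B.filter (fun t => nr (neg g) t = true)).card := by
        have := ball_card g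
        rw [h3] at h1
        omega
      obtain ⟨u, hu⟩ := Finset.card_pos.1 h4
      rw [mem_filter] at hu
      have fin : ∀ b ∈ A, b ≠ neg g → (b = neg p ∨ neg g = neg p) → ∃ a b t t' u, a ∈ A ∧ b ∈ A ∧
          t ∈ B ∧ t' ∈ B ∧ t ≠ t' ∧ ok2 g g2 a t = true ∧ ok2 g g2 b t' = true ∧ (a = u ∨ a = neg p) ∧
          (b = u ∨ b = neg p) := by
        intro b hb hbn hcase
        have hbg : b ≠ g := fun he => hg (he ▸ hb)
        have h5 := ball_inter_two hbg hbn
        obtain ⟨t, ht⟩ := Finset.card_pos.1
          (show 0 < ((ball b ∩ ball g).erase (add (neg b) (add g g2))).card by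
            have := Finset.pred_card_le_card_erase (s := ball b ∩ ball g) (a := add (neg b) (add g g2))
            omega)
        rw [mem_erase, mem_inter, mem_ball] at ht
        have htB : t ∈ B := by
          have := ht.2.2
          rw [← h3, mem_filter] at this
          exact this.1
        have htg : nr g t = true := by have := ht.2.2; rwa [mem_ball] at this
        have hut : u ≠ t := by
          rintro rfl
          have := nr_neg_false g u htg
          rw [hu.2] at this
          exact absurd this (by simp)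
        rcases hcase with hc | hc
        · exact ⟨neg g, b, u, t, neg g, hng, hb, hu.1, htB, hut, ok2_of hu.2 hgn (hne2 _ hu.1) (Or.inl rfl),
            ok2_of ht.2.1 hbg (hne2 _ htB) (Or.inr ht.1), Or.inl rfl, Or.inr hc⟩
        · exact ⟨neg g, b, u, t, b, hng, hb, hu.1, htB, hut, ok2_of hu.2 hgn (hne2 _ hu.1) (Or.inl rfl),
            ok2_of ht.2.1 hbg (hne2 _ htB) (Or.inr ht.1), Or.inr hc, Or.inl rfl⟩
      by_cases hpg : neg p = neg g
      · obtain ⟨b, hb, hbn⟩ := Finset.exists_mem_ne (show 1 < A.card by omega) (neg g)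
        exact fin b hb hbn (Or.inr hpg.symm)
      · exact fin _ hnp hpg (Or.inl rfl)

end CLB.H91
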