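import Pool.Agent.Helper95_CLB.OpenAsm
import Pool.Agent.Helper91_DA.KLab
import Pool.Agent.Helper91_DA.EndW

/-!
Components seeing the two ends of an open chain only: the labels forbidden at the two ends.
-/

set_option autoImplicit false
set_option linter.unusedSectionVars false

namespace CLB.H91

open Finset Classical
open H3DA (Q neg nr)
open CLB.H95
open CLB.H3 (CExt Cat IsTwo Fits UPath he_of_unc cat_structure chn_side)

variable {V : Type*} {G H : SimpleGraph V} {R : V → Bool} [Fintype V] {k : ℕ} {x y : ℕ → V}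

/-- Labels forbidden at the two ends. -/
structure K0K (H : SimpleGraph V) (R : V → Bool) (k : ℕ) (x y : ℕ → V) (f : V → Q) (S : Set V)
    (p p' : Q) (κ : Q → Q) : Prop where
  ok : ∀ mu : ℕ → Q, mu 1 ≠ p → mu k ≠ p' → (mu 1 = neg p ∨ mu k ≠ κ (mu 1)) →
    ∃ w, Fits H R (lbl k x y mu f) w S

lemma lbl_yt (h : Chn H R k x y) {f : V → Q} {mu : ℕ → Q} {i : ℕ} (h1 : 1 ≤ i) (h2 : i ≤ k) :
    lbl k x y mu f (y i) = tau i (mu i) := lbl_y h h1 h2

lemma tau_ne {n : ℕ} {s t : Q} (h : s ≠ tau n t) : tau n s ≠ t := by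
  intro h'
  apply h
  rw [← h', tau_tau]

/-- The ports of a component seeing the two ends. -/
lemma sp11 (h : Chn H R k x y) {m : ℕ} {c : ℕ → V} (hs : Sp k x y m c 1 1) :
    ∃ a b, a ≤ m + 1 ∧ b ≤ m + 1 ∧ a ≠ b ∧ c a = x 1 ∧ c b = y k ∧
      ∀ j ≤ m + 1, (InC k x y (c j) ↔ j = a ∨ j = b) := by
  obtain ⟨a, ha, hca⟩ := hs.px 1 le_rfl le_rfl
  obtain ⟨b, hb, hcb⟩ := hs.py k le_rfl le_rfl
  have hkp := h.pos
  refine ⟨a, b, ha, hb, ?_, hca, hcb, fun j hj => ⟨fun hin => ?_, ?_⟩⟩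
  · rintro rfl
    exact h.xy 1 k le_rfl hkp hkp le_rfl (hca.symm.trans hcb)
  · rcases hs.all j hj hin with ⟨i, i1, i2, i3⟩ | ⟨i, i1, i2, i3⟩
    · have : i = 1 := by omega
      subst this
      exact Or.inl (hs.inj j a hj ha hin (i3.trans hca.symm))
    · have : i = k := by omega
      subst this
      exact Or.inr (hs.inj j b hj hb hin (i3.trans hcb.symm))
  · rintro (rfl | rfl)
    · rw [hca]; exact InC.x le_rfl hkp
    · rw [hcb]; exact InC.y hkp le_rfl

/-- Stars. -/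
theorem k0_star (h : Chn H R k x y) {f : V → Q} {z c : ℕ → V} (hK : Cat H R 1 z c)
    (hs : Sp k x y 1 c 1 1) : ∃ p, K0K H R k x y f (cSupp 1 z) p (tau k (neg p)) (tau k) := by
  obtain ⟨a, b, ha, hb, hab, hca, hcb, hin⟩ := sp11 h hs
  obtain ⟨j, hj, hja, hjb⟩ : ∃ j ≤ 1 + 1, j ≠ a ∧ j ≠ b := by
    have : (0 ≠ a ∧ 0 ≠ b) ∨ (1 ≠ a ∧ 1 ≠ b) ∨ (2 ≠ a ∧ 2 ≠ b) := by omega
    rcases this with h1 | h1 | h1
    · exact ⟨0, by omega, h1⟩
    · exact ⟨1, by omega, h1⟩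
    · exact ⟨2, by omega, h1⟩
  have hjo : ¬ InC k x y (c j) := by
    rw [hin j hj]; rintro (h1 | h1)
    · exact hja h1
    · exact hjb h1
  refine ⟨f (c j), ⟨fun mu h1 h2 h3 => ?_⟩⟩
  rw [← cext_iff_fits hK]
  have hkp := h.pos
  have ea : lbl k x y mu f (c a) = neg (mu 1) := by
    rw [hca, lbl_x h le_rfl hkp, sg_odd (by omega)]
  have eb : lbl k x y mu f (c b) = tau k (mu k) := by rw [hcb, lbl_yt h hkp le_rfl]
  have ej : lbl k x y mu f (c j) = f (c j) := lbl_out hjo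
  have negi : ∀ p q : Q, neg p = neg q → p = q := by decide
  obtain ⟨p, p1, p2, p3⟩ := star_lab (neg (mu 1)) (tau k (mu k)) (f (c j))
    (fun he => by
      have e1 : mu 1 = tau k (mu k) := negi _ _ he
      rcases h3 with h3 | h3
      · apply h2
        rw [← h3, e1, tau_tau]
      · apply h3
        rw [e1, tau_tau])
    (fun he => h1 (negi _ _ he))
    (fun he => h2 (by rw [← he, tau_tau]))
  have key : ∀ i ≤ 1 + 1, nr p (lbl k x y mu f (c i)) = true := by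
    intro i hi
    have : i = a ∨ i = b ∨ i = j := by omega
    rcases this with rfl | rfl | rfl
    · rw [ea]; exact p1
    · rw [eb]; exact p2
    · rw [ej]; exact p3
  refine ⟨fun _ => p, fun i i1 i2 => key i (by omega), key 0 (by omega), key (1 + 1) le_rfl,
    fun i i1 i2 => by omega⟩

/-- The other type. -/
theorem k0_beta (h : Chn H R k x y) {f : V → Q} {m : ℕ} {z c : ℕ → V} (hK : Cat H R m z c)
    (hm : 2 ≤ m) (hN : NCp m (JC k x y c)) (hs : Sp k x y m c 1 1) :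
    m = 2 ∧ ∃ p p' κ, K0K H R k x y f (cSupp m z) p p' κ := by
  obtain ⟨a, b, ha, hb, hab, hca, hcb, hin⟩ := sp11 h hs
  have hin' : ∀ j ≤ m + 1, (JC k x y c j ↔ j = a ∨ j = b) := hin
  have hcase : m = 2 ∧ ((a ≤ 1 ∧ 2 ≤ b ∧ b ≤ 3) ∨ (2 ≤ a ∧ a ≤ 3 ∧ b ≤ 1)) := by
    unfold NCp at hN
    have j0 := hin' 0 (by omega)
    have j1 := hin' 1 (by omega)
    have jm := hin' m (by omega)
    have jm1 := hin' (m + 1) (by omega)
    rw [j0, j1, jm, jm1] at hN
    rcases hN with h1 | h1 | h1 | h1 | h1 | h1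
    · refine ⟨h1.1, ?_⟩
      obtain ⟨e, h2, h3⟩ := h1
      subst e
      omega
    · exfalso; omega
    · exfalso; omega
    · exfalso; omega
    · exfalso; omega
    · exfalso; omega
  obtain ⟨rfl, hab2⟩ := hcase
  refine ⟨rfl, ?_⟩
  have hma : H95.mt a ≤ 3 ∧ H95.mt a ≠ a ∧ H95.mt a ≠ b := by unfold H95.mt; split_ifs <;> omega
  have hmb : H95.mt b ≤ 3 ∧ H95.mt b ≠ a ∧ H95.mt b ≠ b := by unfold H95.mt; split_ifs <;> omega
  have oa : ¬ InC k x y (c (H95.mt a)) := by rw [hin _ (by omega)]; omega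
  have ob : ¬ InC k x y (c (H95.mt b)) := by rw [hin _ (by omega)]; omega
  have hkp := h.pos
  refine ⟨f (c (H95.mt a)), tau k (neg (f (c (H95.mt b)))),
    fun t => tau k (add (neg t) (add (f (c (H95.mt a))) (f (c (H95.mt b))))), ⟨fun mu h1 h2 h3 => ?_⟩⟩
  rw [← cext_iff_fits hK]
  refine cext2_of_ok hab2 ?_
  show ext2 (lbl k x y mu f (c a)) (lbl k x y mu f (c (H95.mt a))) (lbl k x y mu f (c (H95.mt b)))
    (lbl k x y mu f (c b)) = true
  rw [lbl_out oa, lbl_out ob, hca, hcb, lbl_x h le_rfl hkp, sg_odd (by omega), lbl_yt h hkp le_rfl]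
  have negi : ∀ p q : Q, neg p = neg q → p = q := by decide
  refine beta_lab _ _ _ _ (fun he => h1 (negi _ _ he)) (fun he => h2 (by rw [← he, tau_tau])) ?_
  rcases h3 with h3 | h3
  · left; rw [h3, H3DA.neg_neg]
  · right
    intro he
    apply h3
    rw [← he, tau_tau]

end CLB.H91
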