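import Pool.Agent.Helper91_DA.Lab3b

/-!
Three units: the choice of the labels.
-/

set_option autoImplicit false

namespace CLB.H91

open Finset
open H3DA (Q neg nr)
open CLB.H95

lemma add_add_cancel : ∀ q a : Q, add q (add q a) = a := by decide

lemma allQ_nd : allQ.Nodup := by decide

lemma add_q0 : ∀ q : Q, add q q0 = q := by decide

/-- The choice. -/
theorem pick {F : Q} {s t : Q → Q → Bool} {n : ℕ}
    (h : good (fun a b => s (add F a) (add F b)) (fun a b => t (add F a) (add F b)) n = true)
    {U : Finset Q} (hU : U.card ≤ 2) {W : Q → Finset Q} (hW : ∀ a, (W a).card + 1 ≤ n) :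
    ∃ a b c, a ∉ U ∧ a ≠ F ∧ s a b = true ∧ t b c = true ∧ c ≠ neg F ∧ c ≠ a ∧ c ∉ W a := by
  unfold good at h
  have h3 := Nat.le_of_ble_eq_true h
  set l := allQ.filter (fun a => !(a == q0) && Nat.ble n (rch (fun a b => s (add F a) (add F b))
    (fun a b => t (add F a) (add F b)) a).length) with hl
  have hnd : l.Nodup := allQ_nd.filter _
  have h4 : 3 ≤ l.toFinset.card := by rw [List.toFinset_card_of_nodup hnd]; exact h3
  have hinj : Function.Injective (add F) := fun a b hab => add_inj F a b hab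
  obtain ⟨a, ha, haU⟩ : ∃ a ∈ l.toFinset, add F a ∉ U := by
    by_contra hcon
    push Not at hcon
    have h5 : l.toFinset.image (add F) ⊆ U := by
      intro u hu
      rw [mem_image] at hu
      obtain ⟨a, ha, rfl⟩ := hu
      exact hcon a ha
    have h6 := Finset.card_le_card h5
    rw [Finset.card_image_of_injective _ hinj] at h6
    omega
  rw [List.mem_toFinset, hl, List.mem_filter] at ha
  have ha2 := ha.2
  simp only [Bool.and_eq_true, Bool.not_eq_true', beq_eq_false_iff_ne] at ha2
  obtain ⟨ha0, han⟩ := ha2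
  have han := Nat.le_of_ble_eq_true han
  set r := rch (fun a b => s (add F a) (add F b)) (fun a b => t (add F a) (add F b)) a with hr
  have hrd : r.Nodup := allQ_nd.filter _
  obtain ⟨c, hc, hcW⟩ : ∃ c ∈ r.toFinset, add F c ∉ W (add F a) := by
    by_contra hcon
    push Not at hcon
    have h5 : r.toFinset.image (add F) ⊆ W (add F a) := by
      intro u hu
      rw [mem_image] at hu
      obtain ⟨a, ha, rfl⟩ := hu
      exact hcon a ha
    have h6 := Finset.card_le_card h5
    rw [Finset.card_image_of_injective _ hinj, List.toFinset_card_of_nodup hrd] at h6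
    have := hW (add F a)
    omega
  rw [List.mem_toFinset, hr] at hc
  unfold rch at hc
  rw [List.mem_filter] at hc
  have hc2 := hc.2
  simp only [Bool.and_eq_true, Bool.not_eq_true', beq_eq_false_iff_ne, List.any_eq_true] at hc2
  obtain ⟨⟨hca, hc0⟩, b, -, hb1, hb2⟩ := hc2
  refine ⟨add F a, add F b, add F c, haU, ?_, hb1, hb2, ?_, fun h' => hca (hinj h'), hcW⟩
  · intro h'
    apply ha0
    apply hinj
    rw [h', add_q0]
  · intro h'
    apply hc0
    apply hinj
    rw [h', add_neg_right, add_q0]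

/-- Both ends carry a path of two vertices. -/
theorem pickA (F g g2 g3 g4 : Q) {U : Finset Q} (hU : U.card ≤ 2) {W : Q → Finset Q}
    (hW : ∀ a, (W a).card ≤ 2) :
    ∃ a b c, a ∉ U ∧ a ≠ F ∧ ok2 g g2 a b = true ∧ ok2 g4 g3 b c = true ∧ c ≠ neg F ∧ c ≠ a ∧
      c ∉ W a := by
  refine pick (n := 3) ?_ hU (fun a => by have := hW a; omega)
  have key : ∀ g g2 : Q, (fun a b => ok2 g g2 (add F a) (add F b)) = ok2 (add F g) (add F g2) := by
    intro g g2
    funext a b
    rw [← ok2_add F g g2, add_add_cancel, add_add_cancel]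
  rw [key, key]
  exact goodA _ _ _ _

lemma two_sub {U : Finset Q} (h : U.card ≤ 2) : ∃ r s : Q, U ⊆ {r, s} := by
  rcases Nat.lt_or_ge U.card 2 with h1 | h1
  · rcases Nat.lt_or_ge U.card 1 with h2 | h2
    · have : U = ∅ := Finset.card_eq_zero.1 (by omega)
      exact ⟨q0, q0, by rw [this]; exact Finset.empty_subset _⟩
    · obtain ⟨a, ha⟩ := Finset.card_eq_one.1 (show U.card = 1 by omega)
      exact ⟨a, a, by rw [ha]; simp⟩
  · obtain ⟨a, b, -, hab⟩ := Finset.card_eq_two.1 (show U.card = 2 by omega)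
    exact ⟨a, b, by rw [hab]⟩

/-- One path of two vertices, the port of `x 3` is light. -/
theorem pickB1 (F g g2 : Q) {U U2 : Finset Q} (hU : U.card ≤ 2) (hU2 : U2.card ≤ 2)
    {W : Q → Finset Q} (hW : ∀ a, (W a).card ≤ 3) :
    ∃ a b c, a ∉ U ∧ a ≠ F ∧ ok2 g g2 a b = true ∧ b ∉ U2 ∧ nr b c = true ∧ c ≠ neg F ∧ c ≠ a ∧
      c ∉ W a := by
  obtain ⟨r1, r2, hr⟩ := two_sub hU2
  have key : (fun a b => !(add F b == r1) && !(add F b == r2) && ok2 g g2 (add F a) (add F b)) =
      fun a b => !(b == add F r1) && !(b == add F r2) && ok2 (add F g) (add F g2) a b := by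
    funext a b
    have e1 : ∀ r : Q, (add F b == r) = (b == add F r) := by
      intro r
      rw [Bool.eq_iff_iff, beq_iff_eq, beq_iff_eq]
      constructor
      · rintro rfl; rw [add_add_cancel]
      · rintro rfl; rw [add_add_cancel]
    rw [e1, e1, ← ok2_add F g g2, add_add_cancel, add_add_cancel]
  have key2 : (fun a b : Q => nr (add F a) (add F b)) = nr := by
    funext a b; exact nr_add F a b
  have h := pick (F := F) (s := fun a b => !(b == r1) && !(b == r2) && ok2 g g2 a b) (t := nr) (n := 4)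
    (by rw [key2]; show good (fun a b => !(add F b == r1) && !(add F b == r2) &&
          ok2 g g2 (add F a) (add F b)) nr 4 = true
        rw [key]; exact goodB1 _ _ _ _) hU (W := W) (fun a => by have := hW a; omega)
  obtain ⟨a, b, c, h1, h2, h3, h4, h5, h6, h7⟩ := h
  simp only [Bool.and_eq_true, Bool.not_eq_true', beq_eq_false_iff_ne] at h3
  refine ⟨a, b, c, h1, h2, h3.2, fun hb => ?_, h4, h5, h6, h7⟩
  have := hr hb
  simp only [mem_insert, mem_singleton] at this
  rcases this with h8 | h8
  · exact h3.1.1 h8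
  · exact h3.1.2 h8

lemma one_sub {U : Finset Q} (h : U.card ≤ 1) : ∃ r : Q, U ⊆ {r} := by
  rcases Nat.lt_or_ge U.card 1 with h2 | h2
  · have : U = ∅ := Finset.card_eq_zero.1 (by omega)
    exact ⟨q0, by rw [this]; exact Finset.empty_subset _⟩
  · obtain ⟨a, ha⟩ := Finset.card_eq_one.1 (show U.card = 1 by omega)
    exact ⟨a, by rw [ha]⟩

/-- One path of two vertices, the port of `y 2` is light. -/
theorem pickB2 (F g g2 : Q) {U U2 : Finset Q} (hU : U.card ≤ 2) (hU2 : U2.card ≤ 1)
    {W : Q → Finset Q} (hW : ∀ a, (W a).card ≤ 4) :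
    ∃ a b c, a ∉ U ∧ a ≠ F ∧ ok2 g g2 a b = true ∧ b ∉ U2 ∧ nr b c = true ∧ c ≠ neg F ∧ c ≠ a ∧
      c ∉ W a := by
  obtain ⟨r1, hr⟩ := one_sub hU2
  have key : (fun a b => !(add F b == r1) && ok2 g g2 (add F a) (add F b)) =
      fun a b => !(b == add F r1) && ok2 (add F g) (add F g2) a b := by
    funext a b
    have e1 : ∀ r : Q, (add F b == r) = (b == add F r) := by
      intro r
      rw [Bool.eq_iff_iff, beq_iff_eq, beq_iff_eq]
      constructor
      · rintro rfl; rw [add_add_cancel]
      · rintro rfl; rw [add_add_cancel]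
    rw [e1, ← ok2_add F g g2, add_add_cancel, add_add_cancel]
  have key2 : (fun a b : Q => nr (add F a) (add F b)) = nr := by
    funext a b; exact nr_add F a b
  have h := pick (F := F) (s := fun a b => !(b == r1) && ok2 g g2 a b) (t := nr) (n := 5)
    (by rw [key2]; show good (fun a b => !(add F b == r1) &&
          ok2 g g2 (add F a) (add F b)) nr 5 = true
        rw [key]; exact goodB2 _ _ _) hU (W := W) (fun a => by have := hW a; omega)
  obtain ⟨a, b, c, h1, h2, h3, h4, h5, h6, h7⟩ := h
  simp only [Bool.and_eq_true, Bool.not_eq_true', beq_eq_false_iff_ne] at h3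
  refine ⟨a, b, c, h1, h2, h3.2, fun hb => ?_, h4, h5, h6, h7⟩
  have := hr hb
  simp only [mem_singleton] at this
  exact h3.1 this

end CLB.H91
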