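import Pool.Agent.Helper91_DA.KAlpha
import Pool.Agent.Helper91_DA.Pick3

/-!
Three units: a component seeing the two ends only, together with the path of two vertices seeing the first
two units.
-/

set_option autoImplicit false
set_option linter.unusedSectionVars false

namespace CLB.H91

open Finset Classical
open H3DA (Q neg nr)
open CLB.H95
open CLB.H3 (CExt Cat IsTwo Fits UPath he_of_unc cat_structure chn_side pos)

variable {V : Type*} {G H : SimpleGraph V} {R : V → Bool} [Fintype V] {k : ℕ} {x y : ℕ → V}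

/-- For odd `k` a component seeing the two ends only is a star. -/
lemma m0_one (h : Chn H R k x y) (hk : k % 2 = 1) {m : ℕ} {z c : ℕ → V} (hK : Cat H R m z c)
    (h0 : m = 1 ∨ (2 ≤ m ∧ NCp m (JC k x y c))) (hs : Sp k x y m c 1 1) : m = 1 := by
  rcases h0 with h0 | ⟨hm, hN⟩
  · exact h0
  · exfalso
    obtain ⟨a, b, ha, hb, hab, hca, hcb, hin⟩ := sp11 h hs
    have hin' : ∀ j ≤ m + 1, (JC k x y c j ↔ j = a ∨ j = b) := hin
    have hkp := h.pos
    have hpar := port_par h hK ha hb (u := 1) (v := k) ⟨le_rfl, hkp⟩ ⟨hkp, le_rfl⟩ (Or.inl hca)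
      (Or.inr hcb)
    have hcase : m = 2 ∧ ((a ≤ 1 ∧ 2 ≤ b ∧ b ≤ 3) ∨ (2 ≤ a ∧ a ≤ 3 ∧ b ≤ 1)) := by
      unfold NCp at hN
      have j0 := hin' 0 (by omega)
      have j1 := hin' 1 (by omega)
      have jm := hin' m (by omega)
      have jm1 := hin' (m + 1) (by omega)
      rw [j0, j1, jm, jm1] at hN
      rcases hN with h1 | h1 | h1 | h1 | h1 | h1
      · refine ⟨h1.1, ?_⟩
        obtain ⟨e, h2, h3⟩ := h1
        subst e
        omega
      · exfalso; omega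
      · exfalso; omega
      · exfalso; omega
      · exfalso; omega
      · exfalso; omega
    obtain ⟨rfl, hab2⟩ := hcase
    unfold pos at hpar
    rcases hab2 with h1 | h1
    · have e1 : a = 0 ∨ a = 1 := by omega
      have e2 : b = 2 ∨ b = 3 := by omega
      rcases e1 with rfl | rfl <;> rcases e2 with rfl | rfl <;> simp at hpar <;> omega
    · have e1 : b = 0 ∨ b = 1 := by omega
      have e2 : a = 2 ∨ a = 3 := by omega
      rcases e1 with rfl | rfl <;> rcases e2 with rfl | rfl <;> simp at hpar <;> omega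

/-- The slack at the last link, with a free port at the end. -/
theorem light_end (hR : Opt G R) (hG : ClassC G R) (hle : H ≤ G) (hc : Crit H R)
    (h : Chn H R k x y) (hk : 3 ≤ k) {w0 : V} (hw0 : w0 ∈ prt H R (y k)) :
    ∃ v₀ z₀, (v₀ = x k ∨ v₀ = y (k - 1)) ∧ ∀ Φ : V → V → Finset Q, (∀ v z, (Φ v z).card ≤ 2) →
      (z₀ ∈ prt H R v₀ → InnerPt H R z₀ → (Φ v₀ z₀).card ≤ 1) → Φ (y k) w0 = ∅ →
      cst H R Φ (x k) + cst H R Φ (y k) ≤ 3 ∨ cst H R Φ (y (k - 1)) ≤ 1 := by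
  have hH := hG.mono hle
  have hkp := h.pos
  have hlk : Lk H R (y (k - 1)) (x k) := by
    have := h.lk (k - 1) (by omega) (by omega)
    rwa [show k - 1 + 1 = k by omega] at this
  have pyk := prt_card hH (h.cov (InC.y (x := x) h.pos le_rfl))
  have pxk := prt_card_lk hH hlk.symm
  have py1 := prt_card_lk hH hlk
  by_cases hy : (prt H R (y k)).card ≤ 1
  · refine ⟨x k, x k, Or.inl rfl, fun Φ h2 _ h0 => Or.inl ?_⟩
    have e1 := cst_le h2 pxk
    have e2 := cst_le_zero h2 (n := 0) hy hw0 h0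
    omega
  by_cases hx : (prt H R (x k)).card = 0
  · refine ⟨x k, x k, Or.inl rfl, fun Φ h2 _ h0 => Or.inl ?_⟩
    have e1 := cst_le h2 (le_of_eq hx)
    have e2 := cst_le_zero h2 (n := 1) pyk hw0 h0
    omega
  by_cases hy1 : (prt H R (y (k - 1))).card = 0
  · refine ⟨x k, x k, Or.inl rfl, fun Φ h2 _ h0 => Or.inr ?_⟩
    have e1 := cst_le h2 (le_of_eq hy1)
    omega
  obtain ⟨u, hu⟩ := Finset.card_pos.1 (Nat.pos_of_ne_zero hx)
  obtain ⟨v, hv⟩ := Finset.card_pos.1 (Nat.pos_of_ne_zero hy1)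
  have hpm := pm_sub hR hG hle hc hlk.1.symm (h.me k h.pos le_rfl)
    (h.me (k - 1) (by omega) (by omega)).symm hu hv
  rw [if_neg hy] at hpm
  have hle1 : (if (prt H R (x (k - 1))).card ≤ 1 then 1 else 0) ≤ 1 := by split_ifs <;> omega
  by_cases h0 : hcv H R u (x k) = 0
  · refine ⟨x k, u, Or.inl rfl, fun Φ h2 h3 h4 => Or.inl ?_⟩
    have e1 := cst_le_light h2 (n := 0) pxk hu
      (h3 hu (innerPt_of_hcv hH hc hu (h.cov (InC.x hkp le_rfl)) h0))
    have e2 := cst_le_zero h2 (n := 1) pyk hw0 h4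
    omega
  · refine ⟨y (k - 1), v, Or.inr rfl, fun Φ h2 h3 _ => Or.inr ?_⟩
    have e1 := cst_le_light h2 (n := 0) py1 hv
      (h3 hv (innerPt_of_hcv hH hc hv (h.cov (InC.y (by omega) (by omega))) (by omega)))
    omega

/-- A walk through three units. -/
lemma walk3 {Φ : V → V → (ℕ → Q) → Finset Q} (hk : 3 ≤ k)
    (hdep : ∀ i, 1 ≤ i → i ≤ k → ∀ z g g', Same (i - 1) g g' →
      Φ (x i) z g = Φ (x i) z g' ∧ Φ (y i) z g = Φ (y i) z g') {g0 : ℕ → Q} {a b c : Q}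
    (ha : a ∈ lst H R x y (fun v z => Φ v z g0) 1) (hb : b ∈ lst H R x y (fun v z => Φ v z g0) 2)
    (hc : c ∈ lst H R x y (fun v z => Φ v z (fun _ => a)) 3) (hab : nr a b = true)
    (hbc : nr b c = true) : ∃ mu, PW H R x y Φ 3 mu ∧ mu 1 = a ∧ mu 2 = b ∧ mu 3 = c := by
  set mu : ℕ → Q := fun i => if i = 1 then a else if i = 2 then b else c with hmu
  have e1 : mu 1 = a := by simp [hmu]
  have e2 : mu 2 = b := by simp [hmu]
  have e3 : mu 3 = c := by simp [hmu]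
  refine ⟨mu, ⟨fun i i1 i2 => ?_, fun i i1 i2 => ?_⟩, e1, e2, e3⟩
  · have : i = 1 ∨ i = 2 := by omega
    rcases this with rfl | rfl
    · rw [e1, e2]; exact hab
    · rw [e2, e3]; exact hbc
  · have : i = 1 ∨ i = 2 ∨ i = 3 := by omega
    unfold olst
    rcases this with rfl | rfl | rfl
    · rw [e1, lst_congr' (Φ := fun v z => Φ v z mu) (Φ' := fun v z => Φ v z g0)
        (fun z => hdep 1 le_rfl (by omega) z mu g0 (fun j j1 j2 => by omega))]
      exact ha
    · rw [e2, lst_congr' (Φ := fun v z => Φ v z mu) (Φ' := fun v z => Φ v z g0)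
        (fun z => hdep 2 (by omega) (by omega) z mu g0 (fun j j1 j2 => by omega))]
      exact hb
    · rw [e3, lst_congr' (Φ := fun v z => Φ v z mu) (Φ' := fun v z => Φ v z (fun _ => a))
        (fun z => hdep 3 (by omega) hk z mu (fun _ => a) (fun j j1 j2 => by
          have : j = 1 := by omega
          rw [this, e1]))]
      exact hc

/-- The path of two vertices at the end, three units. -/
lemma alpha_reachR (h : Chn H R 3 x y) {c : ℕ → V} {a b : ℕ}
    (hab : (a ≤ 1 ∧ 2 ≤ b ∧ b ≤ 3) ∨ (2 ≤ a ∧ a ≤ 3 ∧ b ≤ 1)) (ha : c a = y 3) (hb : c b = y 2)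
    (hout : ∀ j ≤ 3, j ≠ a → j ≠ b → ¬ InC 3 x y (c j)) {f : V → Q} {g : ℕ → Q}
    (hok : ok2 (f (c (H95.mt b))) (f (c (H95.mt a))) (g 2) (g 3) = true) :
    CExt 2 (fun j => lbl 3 x y g f (c j)) := by
  unfold ok2 at hok
  rw [Bool.and_eq_true] at hok
  refine cext2_of_ok (a := b) (b := a) (by omega) ?_
  show ext2 (lbl 3 x y g f (c b)) (lbl 3 x y g f (c (H95.mt b))) (lbl 3 x y g f (c (H95.mt a)))
    (lbl 3 x y g f (c a)) = true
  have e1 : ¬ InC 3 x y (c (H95.mt a)) := hout _ (by unfold H95.mt; split_ifs <;> omega)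
    (by unfold H95.mt; split_ifs <;> omega) (by unfold H95.mt; split_ifs <;> omega)
  have e2 : ¬ InC 3 x y (c (H95.mt b)) := hout _ (by unfold H95.mt; split_ifs <;> omega)
    (by unfold H95.mt; split_ifs <;> omega) (by unfold H95.mt; split_ifs <;> omega)
  have t3 : lbl 3 x y g f (y 3) = g 3 := by
    rw [lbl_y h (by omega) le_rfl, sg_odd (by omega), H3DA.neg_neg]
  have t2 : lbl 3 x y g f (y 2) = neg (g 2) := by
    rw [lbl_y h (by omega) (by omega), sg_even (by omega)]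
  rw [lbl_out e1, lbl_out e2, ha, hb, t2, t3]
  exact hok.2

/-- The first two lists. -/
lemma al3_lists (hH : ClassC H R) (h : Chn H R k x y) (hk : 3 ≤ k)
    {m0 : ℕ} {z0 c0 : ℕ → V} (hK0 : Cat H R m0 z0 c0) (hs0 : Sp k x y m0 c0 1 1)
    {zA cA : ℕ → V} (hA : Cat H R 2 zA cA) (hAL : AL k x y cA (x 1) (x 2))
    (hne : cSupp m0 z0 ≠ cSupp 2 zA) {Φ : V → V → Finset Q} (h2 : ∀ v z, (Φ v z).card ≤ 2)
    (hz0 : ∀ v w, w ∈ cSupp m0 z0 → Φ v w = ∅) (hzA : ∀ v w, w ∈ cSupp 2 zA → Φ v w = ∅) :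
    ((lst H R x y Φ 1)ᶜ).card ≤ 2 ∧ ((lst H R x y Φ 2)ᶜ).card ≤ cst H R Φ (y 2) := by
  have hkp := h.pos
  obtain ⟨a0, b0, ha0, hb0, -, hca0, hcb0, -⟩ := sp11 h hs0
  obtain ⟨a, b, hab, ha, hb, hout⟩ := hAL
  obtain ⟨u0, u0'⟩ := prt_of hK0 ha0 hca0
  obtain ⟨ua, ua'⟩ := prt_of hA (show a ≤ 2 + 1 by omega) ha
  obtain ⟨ub, ub'⟩ := prt_of hA (show b ≤ 2 + 1 by omega) hb
  have l1 := lst_card (G := H) (R := R) (x := x) (y := y) Φ 1
  have l2 := lst_card (G := H) (R := R) (x := x) (y := y) Φ 2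
  have e1 := cst_pair hH (h.cov (InC.x le_rfl hkp)) u0 ua
    (fun he => hne (cSupp_eq hK0 hA u0' (by rw [he]; exact ua'))) Φ
  have e1' : (Φ (x 1) (z0 (cl m0 a0))).card = 0 := by rw [hz0 _ _ u0']; simp
  have e1'' : (Φ (x 1) (zA (cl 2 a))).card = 0 := by rw [hzA _ _ ua']; simp
  have e2 := cst_le h2 (prt_card_lk hH (h.lk 1 le_rfl (by omega)))
  have hlk2 : Lk H R (x 2) (y 1) := (h.lk 1 le_rfl (by omega)).symm
  have e3 := cst_le_zero h2 (n := 0) (prt_card_lk hH hlk2) ub (hzA _ _ ub')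
  exact ⟨card_compl_lst (by omega), card_compl_lst (by omega)⟩

end CLB.H91
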