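import Pool.Agent.Helper91_DA.K3

/-!
Three units: a component seeing the two ends only, together with the path of two vertices seeing the first
two units.
-/

set_option autoImplicit false
set_option linter.unusedSectionVars false

namespace CLB.H91

open Finset Classical
open H3DA (Q neg nr)
open CLB.H95
open CLB.H3 (CExt Cat IsTwo Fits UPath he_of_unc cat_structure chn_side pos)

variable {V : Type*} {G H : SimpleGraph V} {R : V → Bool} [Fintype V] {x y : ℕ → V}

/-- The labels of the star. -/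
lemma star3 (h : Chn H R 3 x y) {f : V → Q} {z0 c0 : ℕ → V} (hK0 : Cat H R 1 z0 c0)
    (hs0 : Sp 3 x y 1 c0 1 1) : ∃ F : Q, ∀ mu : ℕ → Q, mu 1 ≠ F → mu 3 ≠ neg F → mu 3 ≠ mu 1 →
      ∃ w, Fits H R (lbl 3 x y mu f) w (cSupp 1 z0) := by
  obtain ⟨F, hF⟩ := k0_star h (f := f) hK0 hs0
  have t3 : ∀ t : Q, tau 3 t = t := by
    intro t
    unfold tau
    rw [sg_odd (by omega), H3DA.neg_neg]
  refine ⟨F, fun mu h1 h2 h3 => hF.ok mu h1 ?_ (Or.inr ?_)⟩
  · rw [t3]; exact h2
  · rw [t3]; exact h3

/-- With the path of two vertices at the other end. -/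
theorem al3_A (_hR : Opt G R) (hG : ClassC G R) (hle : H ≤ G) (hc : Crit H R)
    (h : Chn H R 3 x y) (hends : (∀ w, ¬ Lk H R (x 1) w) ∧ ∀ w, ¬ Lk H R (y 3) w)
    (hloc : LocH H R 3 x y) (hbad : BadH H R 3 x y) (hone : OneH H R 3 x y)
    {z0 c0 : ℕ → V} (hK0 : Cat H R 1 z0 c0) (hs0 : Sp 3 x y 1 c0 1 1)
    {zA cA : ℕ → V} (hA : Cat H R 2 zA cA) (hAL : AL 3 x y cA (x 1) (x 2))
    (hne : cSupp 1 z0 ≠ cSupp 2 zA)
    {zB cB : ℕ → V} (hB : Cat H R 2 zB cB) (hBL : AL 3 x y cB (y 3) (y 2))
    (hneB : cSupp 1 z0 ≠ cSupp 2 zB) (_hneAB : cSupp 2 zA ≠ cSupp 2 zB) : False := by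
  have hH := hG.mono hle
  have hkp := h.pos
  obtain ⟨a0, b0, ha0, hb0, -, hca0, hcb0, -⟩ := sp11 h hs0
  obtain ⟨w0, w0'⟩ := prt_of hK0 hb0 hcb0
  obtain ⟨f, hf⟩ := exists_off h hc
  obtain ⟨F, hF⟩ := star3 h (f := f) hK0 hs0
  obtain ⟨Φ, hΦ⟩ := exists_oforb hH h (f := f) (cSupp 1 z0 ∪ (cSupp 2 zA ∪ cSupp 2 zB)) (x 3) (x 3)
  have g0 : ℕ → Q := fun _ => (false, false, false)
  have h2 : ∀ g v z, (Φ v z g).card ≤ 2 := by
    intro g v z
    have := hΦ.two v z g g
    rwa [Finset.union_self] at this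
  have z0' : ∀ v w g, w ∈ cSupp 1 z0 → Φ v w g = ∅ := fun v w g hw => hΦ.triv v w g (Or.inl hw)
  have zA' : ∀ v w g, w ∈ cSupp 2 zA → Φ v w g = ∅ := fun v w g hw =>
    hΦ.triv v w g (Or.inr (Or.inl hw))
  have zB' : ∀ v w g, w ∈ cSupp 2 zB → Φ v w g = ∅ := fun v w g hw =>
    hΦ.triv v w g (Or.inr (Or.inr hw))
  obtain ⟨L1, L2⟩ := al3_lists hH h le_rfl hK0 hs0 hA hAL hne (Φ := fun v z => Φ v z g0) (h2 g0)
    (fun v w => z0' v w g0) (fun v w => zA' v w g0)
  obtain ⟨aB, bB, habB, haB, hbB, houtB⟩ := hBL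
  obtain ⟨uB, uB'⟩ := prt_of hB (show aB ≤ 2 + 1 by omega) haB
  obtain ⟨vB, vB'⟩ := prt_of hB (show bB ≤ 2 + 1 by omega) hbB
  have L2' : ((lst H R x y (fun v z => Φ v z g0) 2)ᶜ).card ≤ 0 := by
    have e := cst_le_zero (Φ := fun v z => Φ v z g0) (h2 g0) (n := 0)
      (prt_card_lk hH (h.lk 2 (by omega) (by omega))) vB (zB' _ _ _ vB')
    omega
  have hlk3 : Lk H R (x 3) (y 2) := (h.lk 2 (by omega) (by omega)).symm
  have L3 : ∀ a : Q, ((lst H R x y (fun v z => Φ v z (fun _ => a)) 3)ᶜ).card ≤ 2 := by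
    intro a
    have l3 := lst_card (G := H) (R := R) (x := x) (y := y) (fun v z => Φ v z (fun _ => a)) 3
    have e1 := cst_le (Φ := fun v z => Φ v z (fun _ => a)) (h2 _) (prt_card_lk hH hlk3)
    have e2 := cst_pair hH (h.cov (InC.y (x := x) hkp le_rfl)) w0 uB
      (fun he => hneB (cSupp_eq hK0 hB w0' (by rw [he]; exact uB'))) (fun v z => Φ v z (fun _ => a))
    have e3 : (Φ (y 3) (z0 (cl 1 b0)) (fun _ => a)).card = 0 := by rw [z0' _ _ _ w0']; simp
    have e4 : (Φ (y 3) (zB (cl 2 aB)) (fun _ => a)).card = 0 := by rw [zB' _ _ _ uB']; simp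
    exact card_compl_lst (by omega)
  obtain ⟨aA, bA, habA, haA, hbA, houtA⟩ := id hAL
  obtain ⟨a, b, c, q1, q2, q3, q4, q5, q6, q7⟩ := pickA F (f (cA (H95.mt aA))) (f (cA (H95.mt bA)))
    (f (cB (H95.mt aB))) (f (cB (H95.mt bB))) L1 (W := fun a =>
      (lst H R x y (fun v z => Φ v z (fun _ => a)) 3)ᶜ) L3
  rw [mem_compl, not_not] at q1 q7
  have hbL : b ∈ lst H R x y (fun v z => Φ v z g0) 2 := by
    by_contra hcon
    have : b ∈ (lst H R x y (fun v z => Φ v z g0) 2)ᶜ := mem_compl.2 hcon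
    have := Finset.card_pos.2 ⟨b, this⟩
    omega
  have nab : nr a b = true := by
    unfold ok2 at q3; rw [Bool.and_eq_true] at q3; exact q3.1
  have nbc : nr b c = true := by
    unfold ok2 at q4; rw [Bool.and_eq_true] at q4; exact q4.1
  obtain ⟨mu, hmu, m1, m2, m3⟩ := walk3 (k := 3) le_rfl (fun i i1 i2 z g g' hs => hΦ.dep i i1 i2 z g g' hs)
    q1 hbL q7 nab nbc
  have fit0 := hF mu (by rw [m1]; exact q2) (by rw [m3]; exact q5) (by rw [m3, m1]; exact q6)
  have fitA : CExt 2 (fun j => lbl 3 x y mu f (cA j)) :=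
    alpha_reach h (by omega) habA haA hbA houtA (by rw [m1, m2]; exact q3)
  have fitB : CExt 2 (fun j => lbl 3 x y mu f (cB j)) :=
    alpha_reachR h habB haB hbB houtB (by rw [m2, m3]; exact q4)
  refine end_contra hH hc h hends hf hΦ ?_ (fun _ _ _ _ => rfl) hmu ?_
  · rintro v (⟨j, j1, j2, rfl⟩ | ⟨j, j1, j2, rfl⟩ | ⟨j, j1, j2, rfl⟩) a b hT
    · exact isTwo_not_cat hK0 j1 j2 hT
    · exact isTwo_not_cat hA j1 j2 hT
    · exact isTwo_not_cat hB j1 j2 hT
  · intro m1 z1 c1 hc1 hex
    by_cases hS0 : cSupp m1 z1 = cSupp 1 z0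
    · right
      rw [cext_iff_fits hc1, hS0]
      exact fit0
    · by_cases hSA : cSupp m1 z1 = cSupp 2 zA
      · right
        rw [cext_iff_fits hc1, hSA, ← cext_iff_fits hA]
        exact fitA
      · by_cases hSB : cSupp m1 z1 = cSupp 2 zB
        · right
          rw [cext_iff_fits hc1, hSB, ← cext_iff_fits hB]
          exact fitB
        · left
          obtain ⟨o1, o2⟩ := al_others hH h hloc hone hK0 hs0 hA hAL hne hc1 hS0 hSA
          refine ⟨okill_of_not_nc hH h hf hc1 hex o1 ?_ ?_, fun i i1 i2 hi => ?_⟩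
          · intro hm1 hN1
            obtain ⟨e, h6⟩ := o2 hm1 hN1
            subst e
            obtain ⟨a1, b1, h7, h8, h9, -⟩ := h6
            exact hSB (own_unique hH h le_rfl hc1 hB (p := b1) (p' := bB) (by omega) (by omega) h9 hbB)
          · intro p' _ _ h5 _ h6
            exact (hbad m1 z1 c1 hc1 p' h6).1 h5
          · rcases hi with hi | hi | hi
            · exact hS0 (cSupp_eq hc1 hK0 (mem_cSupp i1 i2) hi)
            · exact hSA (cSupp_eq hc1 hA (mem_cSupp i1 i2) hi)
            · exact hSB (cSupp_eq hc1 hB (mem_cSupp i1 i2) hi)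

/-- Without it. -/
theorem al3_B (hR : Opt G R) (hG : ClassC G R) (hle : H ≤ G) (hc : Crit H R)
    (h : Chn H R 3 x y) (hends : (∀ w, ¬ Lk H R (x 1) w) ∧ ∀ w, ¬ Lk H R (y 3) w)
    (hloc : LocH H R 3 x y) (hbad : BadH H R 3 x y) (hone : OneH H R 3 x y)
    {z0 c0 : ℕ → V} (hK0 : Cat H R 1 z0 c0) (hs0 : Sp 3 x y 1 c0 1 1)
    {zA cA : ℕ → V} (hA : Cat H R 2 zA cA) (hAL : AL 3 x y cA (x 1) (x 2))
    (hne : cSupp 1 z0 ≠ cSupp 2 zA)
    (hnoB : ∀ zB cB, Cat H R 2 zB cB → AL 3 x y cB (y 3) (y 2) → cSupp 1 z0 ≠ cSupp 2 zB →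
      cSupp 2 zA ≠ cSupp 2 zB → False) : False := by
  have hH := hG.mono hle
  have hkp := h.pos
  obtain ⟨a0, b0, ha0, hb0, -, hca0, hcb0, -⟩ := sp11 h hs0
  obtain ⟨w0, w0'⟩ := prt_of hK0 hb0 hcb0
  obtain ⟨f, hf⟩ := exists_off h hc
  obtain ⟨F, hF⟩ := star3 h (f := f) hK0 hs0
  obtain ⟨v₀, z₀, hv₀, hlight⟩ := light_end hR hG hle hc h le_rfl w0
  obtain ⟨Φ, hΦ⟩ := exists_oforb hH h (f := f) (cSupp 1 z0 ∪ cSupp 2 zA) v₀ z₀
  have g0 : ℕ → Q := fun _ => (false, false, false)
  have h2 : ∀ g v z, (Φ v z g).card ≤ 2 := by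
    intro g v z
    have := hΦ.two v z g g
    rwa [Finset.union_self] at this
  have z0' : ∀ v w g, w ∈ cSupp 1 z0 → Φ v w g = ∅ := fun v w g hw => hΦ.triv v w g (Or.inl hw)
  have zA' : ∀ v w g, w ∈ cSupp 2 zA → Φ v w g = ∅ := fun v w g hw => hΦ.triv v w g (Or.inr hw)
  obtain ⟨L1, L2⟩ := al3_lists hH h le_rfl hK0 hs0 hA hAL hne (Φ := fun v z => Φ v z g0) (h2 g0)
    (fun v w => z0' v w g0) (fun v w => zA' v w g0)
  have hlk3 : Lk H R (x 3) (y 2) := (h.lk 2 (by omega) (by omega)).symm
  have py2 := prt_card_lk hH (h.lk 2 (by omega) (by omega))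
  have cy2 := cst_le (Φ := fun v z => Φ v z g0) (h2 g0) py2
  have hlt : ∀ g : ℕ → Q, cst H R (fun v z => Φ v z g) (x 3) + cst H R (fun v z => Φ v z g) (y 3) ≤ 3 ∨
      cst H R (fun v z => Φ v z g) (y 2) ≤ 1 := fun g =>
    hlight (fun v z => Φ v z g) (h2 g) (fun e1 e2 => by
      have := hΦ.one e1 e2 g g
      rwa [Finset.union_self] at this) (z0' _ _ _ w0')
  have cy2e : ∀ g : ℕ → Q, cst H R (fun v z => Φ v z g) (y 2) = cst H R (fun v z => Φ v z g0) (y 2) := by
    intro g
    unfold cst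
    refine Finset.sum_congr rfl (fun z _ => ?_)
    show (Φ (y 2) z g).card = (Φ (y 2) z g0).card
    rw [(hΦ.dep 2 (by omega) (by omega) z g g0 (fun j j1 j2 => by omega)).2]
  have l3 : ∀ a : Q, 8 ≤ (lst H R x y (fun v z => Φ v z (fun _ => a)) 3).card +
      (cst H R (fun v z => Φ v z (fun _ => a)) (x 3) + cst H R (fun v z => Φ v z (fun _ => a)) (y 3)) := by
    intro a
    have := lst_card (G := H) (R := R) (x := x) (y := y) (fun v z => Φ v z (fun _ => a)) 3
    omega
  have c4 : ∀ a : Q, cst H R (fun v z => Φ v z (fun _ => a)) (x 3) +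
      cst H R (fun v z => Φ v z (fun _ => a)) (y 3) ≤ 4 := by
    intro a
    have e1 := cst_le (Φ := fun v z => Φ v z (fun _ => a)) (h2 _) (prt_card_lk hH hlk3)
    have e2 := cst_le_zero (Φ := fun v z => Φ v z (fun _ => a)) (h2 _) (n := 1)
      (prt_card hH (h.cov (InC.y (x := x) hkp le_rfl))) w0 (z0' _ _ _ w0')
    omega
  obtain ⟨aA, bA, habA, haA, hbA, houtA⟩ := id hAL
  obtain ⟨a, b, c, q1, q2, q3, qb, q4, q5, q6, q7⟩ : ∃ a b c,
      a ∉ (lst H R x y (fun v z => Φ v z g0) 1)ᶜ ∧ a ≠ F ∧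
      ok2 (f (cA (H95.mt aA))) (f (cA (H95.mt bA))) a b = true ∧
      b ∉ (lst H R x y (fun v z => Φ v z g0) 2)ᶜ ∧ nr b c = true ∧ c ≠ neg F ∧ c ≠ a ∧
      c ∉ (lst H R x y (fun v z => Φ v z (fun _ => a)) 3)ᶜ := by
    by_cases hcase : cst H R (fun v z => Φ v z g0) (y 2) ≤ 1
    · exact pickB2 F _ _ L1 (le_trans L2 hcase) (W := fun a =>
        (lst H R x y (fun v z => Φ v z (fun _ => a)) 3)ᶜ) (fun a => card_compl_lst (by
          have := l3 a
          have := c4 a
          omega))
    · exact pickB1 F _ _ L1 (by omega) (W := fun a =>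
        (lst H R x y (fun v z => Φ v z (fun _ => a)) 3)ᶜ) (fun a => card_compl_lst (by
          have := l3 a
          have := hlt (fun _ => a)
          have := cy2e (fun _ => a)
          omega))
  rw [mem_compl, not_not] at q1 q7 qb
  have nab : nr a b = true := by
    unfold ok2 at q3; rw [Bool.and_eq_true] at q3; exact q3.1
  obtain ⟨mu, hmu, m1, m2, m3⟩ := walk3 (k := 3) le_rfl (fun i i1 i2 z g g' hs => hΦ.dep i i1 i2 z g g' hs)
    q1 qb q7 nab q4
  have fit0 := hF mu (by rw [m1]; exact q2) (by rw [m3]; exact q5) (by rw [m3, m1]; exact q6)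
  have fitA : CExt 2 (fun j => lbl 3 x y mu f (cA j)) :=
    alpha_reach h (by omega) habA haA hbA houtA (by rw [m1, m2]; exact q3)
  refine end_contra hH hc h hends hf hΦ ?_ (fun _ _ _ _ => rfl) hmu ?_
  · rintro v (⟨j, j1, j2, rfl⟩ | ⟨j, j1, j2, rfl⟩) a b hT
    · exact isTwo_not_cat hK0 j1 j2 hT
    · exact isTwo_not_cat hA j1 j2 hT
  · intro m1 z1 c1 hc1 hex
    by_cases hS0 : cSupp m1 z1 = cSupp 1 z0
    · right
      rw [cext_iff_fits hc1, hS0]
      exact fit0
    · by_cases hSA : cSupp m1 z1 = cSupp 2 zA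
      · right
        rw [cext_iff_fits hc1, hSA, ← cext_iff_fits hA]
        exact fitA
      · left
        obtain ⟨o1, o2⟩ := al_others hH h hloc hone hK0 hs0 hA hAL hne hc1 hS0 hSA
        refine ⟨okill_of_not_nc hH h hf hc1 hex o1 ?_ ?_, fun i i1 i2 hi => ?_⟩
        · intro hm1 hN1
          obtain ⟨e, h6⟩ := o2 hm1 hN1
          subst e
          exact hnoB _ _ hc1 h6 (Ne.symm hS0) (Ne.symm hSA)
        · intro p' p1 p2 h5 _ h6
          have h7 := hbad m1 z1 c1 hc1 p' h6
          rcases hv₀ with hv | hv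
          · exact h7.1 (h5.trans hv)
          · rcases h7.2 (h5.trans hv) with ⟨q, hq, hcq, hoth⟩ | ⟨-, ⟨i, j, hi, hj, hij, hci, hcj⟩, -⟩
            · -- two further ports, both at `y 1`
              have hx1 : ∀ j ≤ m1 + 1, c1 j ≠ x 1 := fun j hj he =>
                no_three hH hc1 hK0 hA hS0 hSA hne hj ha0 (show aA ≤ 2 + 1 by omega) he hca0 haA
              have hy1 : ∀ j ≤ m1 + 1, j ≠ p' → j ≠ q → InC 3 x y (c1 j) → c1 j = y 1 := by
                intro j hj j1 j2 hin
                have h8 := hoth j hj j1 j2 hin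
                obtain ⟨i, i1, i2, i3⟩ := hin
                rcases i3 with i3 | i3
                · rw [i3, idx_x h i1 i2] at h8
                  have : i = 1 := by omega
                  subst this
                  exact absurd i3 (hx1 j hj)
                · rw [i3, idx_y h i1 i2] at h8
                  have : i = 1 := by omega
                  subst this
                  exact i3
              have huniq : ∀ i j, i ≤ m1 + 1 → j ≤ m1 + 1 → i ≠ p' → i ≠ q → j ≠ p' → j ≠ q →
                  InC 3 x y (c1 i) → InC 3 x y (c1 j) → i = j := by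
                intro i j hi hj i1 i2 j1 j2 hin hin'
                have e1 := hy1 i hi i1 i2 hin
                have e2 := hy1 j hj j1 j2 hin'
                exact port_one hH hc1 hi hj (w := x 2) (by rw [e1]; exact h.lk 1 le_rfl (by omega))
                  (e1.trans e2.symm)
              have key : ∀ i j, i ≤ m1 + 1 → j ≤ m1 + 1 → i ≠ j → InC 3 x y (c1 i) →
                  InC 3 x y (c1 j) → i = p' ∨ i = q ∨ j = p' ∨ j = q := by
                intro i j hi hj hij hin hin'
                by_contra hcon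
                push Not at hcon
                exact hij (huniq i j hi hj hcon.1 hcon.2.1 hcon.2.2.1 hcon.2.2.2 hin hin')
              unfold BadP at h6
              rcases h6 with ⟨e, -, b0, b1, b2, -, b4, -⟩ | ⟨e, -, b4, b5, b3, -, b0, -⟩ |
                ⟨e, -, b0, b1, b2, -, -, b5, b6⟩ | ⟨e, -, b0, b1, b4, -, -, b5, b6⟩
              · subst e
                obtain ⟨l, l1, l2, l3⟩ : ∃ l, 4 ≤ l ∧ l ≤ 5 ∧ InC 3 x y (c1 l) := by
                  rcases b4 with b4 | b4
                  · exact ⟨4, by omega, by omega, b4⟩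
                  · exact ⟨5, by omega, by omega, b4⟩
                have k1 := key 0 1 (by omega) (by omega) (by omega) b0 b1
                have k2 := key 0 2 (by omega) (by omega) (by omega) b0 b2
                have k3 := key 1 2 (by omega) (by omega) (by omega) b1 b2
                have k4 := key 0 l (by omega) (by omega) (by omega) b0 l3
                have k5 := key 1 l (by omega) (by omega) (by omega) b1 l3
                have k6 := key 2 l (by omega) (by omega) (by omega) b2 l3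
                omega
              · subst e
                obtain ⟨l, l2, l3⟩ : ∃ l, l ≤ 1 ∧ InC 3 x y (c1 l) := by
                  rcases b0 with b0 | b0
                  · exact ⟨0, by omega, b0⟩
                  · exact ⟨1, by omega, b0⟩
                have k1 := key 3 4 (by omega) (by omega) (by omega) b3 b4
                have k2 := key 3 5 (by omega) (by omega) (by omega) b3 b5
                have k3 := key 4 5 (by omega) (by omega) (by omega) b4 b5
                have k4 := key l 3 (by omega) (by omega) (by omega) l3 b3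
                have k5 := key l 4 (by omega) (by omega) (by omega) l3 b4
                have k6 := key l 5 (by omega) (by omega) (by omega) l3 b5
                omega
              · subst e
                have k1 := key 0 1 (by omega) (by omega) (by omega) b0 b1
                have k2 := key 0 2 (by omega) (by omega) (by omega) b0 b2
                have k3 := key 1 2 (by omega) (by omega) (by omega) b1 b2
                have k4 := key 0 5 (by omega) (by omega) (by omega) b0 b5
                have k5 := key 1 5 (by omega) (by omega) (by omega) b1 b5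
                have k6 := key 2 5 (by omega) (by omega) (by omega) b2 b5
                omega
              · subst e
                have k1 := key 0 1 (by omega) (by omega) (by omega) b0 b1
                have k2 := key 0 4 (by omega) (by omega) (by omega) b0 b4
                have k3 := key 1 4 (by omega) (by omega) (by omega) b1 b4
                have k4 := key 0 5 (by omega) (by omega) (by omega) b0 b5
                have k5 := key 1 5 (by omega) (by omega) (by omega) b1 b5
                have k6 := key 4 5 (by omega) (by omega) (by omega) b4 b5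
                omega
            · exact hS0 (own_double hH hc1 hK0 hi hj hij hb0 hci hcj hcb0)
        · rcases hi with hi | hi
          · exact hS0 (cSupp_eq hc1 hK0 (mem_cSupp i1 i2) hi)
          · exact hSA (cSupp_eq hc1 hA (mem_cSupp i1 i2) hi)

end CLB.H91
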