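import Pool.Agent.Helper91_DA.KK

/-!
A component seeing the two ends of an open chain only, together with the path of two vertices seeing the
first two units.
-/

set_option autoImplicit false
set_option linter.unusedSectionVars false

namespace CLB.H91

open Finset Classical
open H3DA (Q neg nr)
open CLB.H95
open CLB.H3 (CExt Cat IsTwo Fits UPath he_of_unc cat_structure chn_side)

variable {V : Type*} {G H : SimpleGraph V} {R : V → Bool} [Fintype V] {k : ℕ} {x y : ℕ → V}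

/-- The start: two walks through the first two units, safe for the first component. -/
theorem al_safe (hH : ClassC H R) (h : Chn H R k x y) (hk : 3 ≤ k)
    {m0 : ℕ} {z0 c0 : ℕ → V} (hK0 : Cat H R m0 z0 c0) (hs0 : Sp k x y m0 c0 1 1)
    {zA cA : ℕ → V} (hA : Cat H R 2 zA cA) (hAL : AL k x y cA (x 1) (x 2))
    (hne : cSupp m0 z0 ≠ cSupp 2 zA) {f : V → Q} (p : Q)
    {Φ : V → V → (ℕ → Q) → Finset Q} (h2 : ∀ v z g g', (Φ v z g ∪ Φ v z g').card ≤ 2)
    (hd : Dep k x y Φ) (hd2 : ∀ z g g', Φ (x 2) z g = Φ (x 2) z g' ∧ Φ (y 2) z g = Φ (y 2) z g')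
    (hz0 : ∀ v w g, w ∈ cSupp m0 z0 → Φ v w g = ∅) (hzA : ∀ v w g, w ∈ cSupp 2 zA → Φ v w g = ∅) :
    ∃ u g g', PW H R x y Φ 2 g ∧ PW H R x y Φ 2 g' ∧ g 2 ≠ g' 2 ∧
      ((g 1 ≠ p ∧ (g 1 = u ∨ g 1 = neg p)) ∧ CExt 2 (fun j => lbl k x y g f (cA j))) ∧
      ((g' 1 ≠ p ∧ (g' 1 = u ∨ g' 1 = neg p)) ∧ CExt 2 (fun j => lbl k x y g' f (cA j))) := by
  have hkp := h.pos
  obtain ⟨a0, b0, ha0, hb0, -, hca0, hcb0, -⟩ := sp11 h hs0
  obtain ⟨a, b, hab, ha, hb, hout⟩ := hAL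
  obtain ⟨u0, u0'⟩ := prt_of hK0 ha0 hca0
  obtain ⟨ua, ua'⟩ := prt_of hA (show a ≤ 2 + 1 by omega) ha
  obtain ⟨ub, ub'⟩ := prt_of hA (show b ≤ 2 + 1 by omega) hb
  have g0 : ℕ → Q := fun _ => (false, false, false)
  have h2' : ∀ v z, (Φ v z g0).card ≤ 2 := by
    intro v z
    have := h2 v z g0 g0
    rwa [Finset.union_self] at this
  have l1 := lst_card (G := H) (R := R) (x := x) (y := y) (fun v z => Φ v z g0) 1
  have l2 := lst_card (G := H) (R := R) (x := x) (y := y) (fun v z => Φ v z g0) 2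
  have e1 := cst_pair hH (h.cov (InC.x le_rfl hkp)) u0 ua
    (fun he => hne (cSupp_eq hK0 hA u0' (by rw [he]; exact ua'))) (fun v z => Φ v z g0)
  have e1' : (Φ (x 1) (z0 (cl m0 a0)) g0).card = 0 := by rw [hz0 _ _ _ u0']; simp
  have e1'' : (Φ (x 1) (zA (cl 2 a)) g0).card = 0 := by rw [hzA _ _ _ ua']; simp
  have e2 := cst_le h2' (prt_card_lk hH (h.lk 1 le_rfl (by omega)))
  have hlk2 : Lk H R (x 2) (y 1) := (h.lk 1 le_rfl (by omega)).symm
  have e3 := cst_le_zero h2' (n := 0) (prt_card_lk hH hlk2) ub (hzA _ _ _ ub')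
  have e4 := cst_le h2' (prt_card_lk hH (h.lk 2 (by omega) (by omega)))
  set q := f (cA (H95.mt a)) with hq
  set q2 := f (cA (H95.mt b)) with hq2
  set A := ((lst H R x y (fun v z => Φ v z g0) 1).erase p).erase q with hAdef
  set B := (lst H R x y (fun v z => Φ v z g0) 2).erase (neg q2) with hBdef
  have hA4 : 4 ≤ A.card := by
    have f1 := Finset.pred_card_le_card_erase (s := lst H R x y (fun v z => Φ v z g0) 1) (a := p)
    have f2 := Finset.pred_card_le_card_erase (s := (lst H R x y (fun v z => Φ v z g0) 1).erase p)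
      (a := q)
    rw [← hAdef] at f2
    omega
  have hB5 : 5 ≤ B.card := by
    have f1 := Finset.pred_card_le_card_erase (s := lst H R x y (fun v z => Φ v z g0) 2)
      (a := neg q2)
    rw [← hBdef] at f1
    omega
  obtain ⟨s, s', t, t', u, hs, hs', ht, ht', htt, hok, hok', hu, hu'⟩ := al_pair hA4
    (p := p) (g := q) (g2 := q2) (fun h' => by rw [hAdef, mem_erase, mem_erase] at h'; exact h'.2.1 rfl)
    (Finset.notMem_erase _ _) hB5 (Finset.notMem_erase _ _)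
  have key : ∀ s t : Q, s ∈ A → t ∈ B → ok2 q q2 s t = true → ∃ g, PW H R x y Φ 2 g ∧ g 2 = t ∧
      g 1 = s ∧ CExt 2 (fun j => lbl k x y g f (cA j)) := by
    intro s t hs ht hok
    rw [hAdef, mem_erase, mem_erase] at hs
    rw [hBdef, mem_erase] at ht
    have p1 := pw_one hd hkp (g0 := g0) (a := s) hs.2.2
    have hna : nr s t = true := by
      unfold ok2 at hok
      rw [Bool.and_eq_true] at hok
      exact hok.1
    have p2 := p1.snoc hd (n := 0 + 1) (a := t) (by omega) (by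
      have e6 : olst H R x y Φ (fun i => if i ≤ 0 then g0 i else s) (0 + 1 + 1) =
          lst H R x y (fun v z => Φ v z g0) 2 := lst_congr' (fun z => hd2 z _ _)
      rw [e6]; exact ht.2) (fun _ => by simpa using hna)
    refine ⟨_, p2, by simp, by simp, alpha_reach h (by omega) hab ha hb hout ?_⟩
    simpa using hok
  obtain ⟨g, w1, w2, w3, w4⟩ := key s t hs ht hok
  obtain ⟨g', w1', w2', w3', w4'⟩ := key s' t' hs' ht' hok'
  rw [hAdef, mem_erase, mem_erase] at hs hs'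
  exact ⟨u, g, g', w1, w1', by rw [w2, w2']; exact htt, ⟨⟨by rw [w3]; exact hs.2.1, by rw [w3]; exact hu⟩,
    w4⟩, ⟨⟨by rw [w3']; exact hs'.2.1, by rw [w3']; exact hu'⟩, w4'⟩⟩

/-- The property of the start is inherited. -/
lemma al_inh (h : Chn H R k x y) (hk : 2 ≤ k) {cA : ℕ → V} (hAL : AL k x y cA (x 1) (x 2)) {f : V → Q}
    {p u : Q} (g w : ℕ → Q) (hs : Same 3 g w)
    (hP : (g 1 ≠ p ∧ (g 1 = u ∨ g 1 = neg p)) ∧ CExt 2 (fun j => lbl k x y g f (cA j))) :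
    (w 1 ≠ p ∧ (w 1 = u ∨ w 1 = neg p)) ∧ CExt 2 (fun j => lbl k x y w f (cA j)) := by
  refine ⟨?_, alpha_inv h hk hAL g w hs hP.2⟩
  rw [← hs 1 le_rfl (by omega)]
  exact hP.1

/-- The other components. -/
lemma al_others (hH : ClassC H R) (h : Chn H R k x y)
    (hloc : LocH H R k x y) (hone : OneH H R k x y)
    {m0 : ℕ} {z0 c0 : ℕ → V} (hK0 : Cat H R m0 z0 c0) (hs0 : Sp k x y m0 c0 1 1)
    {zA cA : ℕ → V} (hA : Cat H R 2 zA cA) (hAL : AL k x y cA (x 1) (x 2))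
    (hne : cSupp m0 z0 ≠ cSupp 2 zA) {m1 : ℕ} {z1 c1 : ℕ → V} (hc1 : Cat H R m1 z1 c1)
    (n0 : cSupp m1 z1 ≠ cSupp m0 z0) (nA : cSupp m1 z1 ≠ cSupp 2 zA) :
    (m1 = 1 → ∀ i j, i ≤ 2 → j ≤ 2 → InC k x y (c1 i) → InC k x y (c1 j) → i = j) ∧
    (2 ≤ m1 → NCp m1 (JC k x y c1) → m1 = 2 ∧ AL k x y c1 (y k) (y (k - 1))) := by
  obtain ⟨a0, b0, ha0, hb0, -, hca0, hcb0, -⟩ := sp11 h hs0
  obtain ⟨a, b, hab, ha, hb, hout⟩ := hAL
  have hx : ∀ j ≤ m1 + 1, c1 j ≠ x 1 := fun j hj he =>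
    no_three hH hc1 hK0 hA n0 nA hne hj ha0 (show a ≤ 2 + 1 by omega) he hca0 ha
  constructor
  · rintro rfl
    rcases hone _ _ hc1 with h5 | h5
    · exfalso
      obtain ⟨j, hj, hcj⟩ := h5.px 1 le_rfl le_rfl
      exact hx j hj hcj
    · exact h5
  · intro hm1 hN1
    rcases hloc _ _ _ hc1 hm1 hN1 with ⟨a1, b1, h5⟩ | ⟨h5, h6⟩ | ⟨h5, h6⟩
    · exfalso
      obtain ⟨j, hj, hcj⟩ := h5.px 1 le_rfl h5.a1
      exact hx j hj hcj
    · exfalso
      obtain ⟨a1, b1, h7, h8, -⟩ := h6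
      exact hx a1 (by omega) h8
    · exact ⟨h5, h6⟩

/-- With a third component killed in the last two units. -/
theorem k0_al_end (hR : Opt G R) (hG : ClassC G R) (hle : H ≤ G) (hc : Crit H R)
    (h : Chn H R k x y) (hk : 4 ≤ k) (hends : (∀ w, ¬ Lk H R (x 1) w) ∧ ∀ w, ¬ Lk H R (y k) w)
    (hloc : LocH H R k x y) (hbad : BadH H R k x y) (hone : OneH H R k x y)
    {m0 : ℕ} {z0 c0 : ℕ → V} (hK0 : Cat H R m0 z0 c0)
    (h0 : m0 = 1 ∨ (2 ≤ m0 ∧ NCp m0 (JC k x y c0))) (hs0 : Sp k x y m0 c0 1 1)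
    {zA cA : ℕ → V} (hA : Cat H R 2 zA cA) (hAL : AL k x y cA (x 1) (x 2))
    (hne : cSupp m0 z0 ≠ cSupp 2 zA)
    {m : ℕ} {z c : ℕ → V} (hK : Cat H R m z c) {p q : ℕ} (hE : ER H R k x y m z c p q)
    (hE2 : m % 4 ≠ 0 ∨ InnerPt H R (z (cl m p)))
    (nK0 : cSupp m z ≠ cSupp m0 z0) (nKA : cSupp m z ≠ cSupp 2 zA) : False := by
  have hH := hG.mono hle
  have hkp := h.pos
  obtain ⟨a0, b0, ha0, hb0, -, hca0, hcb0, hin0⟩ := sp11 h hs0
  obtain ⟨hm, hp, hq, hcp, hcq, h3, h4⟩ := hE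
  obtain ⟨w0, w0'⟩ := prt_of hK0 hb0 hcb0
  obtain ⟨b1, b1'⟩ := prt_of hK hp hcp
  obtain ⟨b2, b2'⟩ := prt_of hK hq hcq
  obtain ⟨f, hf⟩ := exists_off h hc
  obtain ⟨φ, hφ, hφ2, -⟩ := ekill_of_ports_card hH h (by omega) hf hK hm hp hq hcp hcq h3 h4
  have hφ2' := hφ2 (by
    rcases hE2 with h5 | h5
    · exact Or.inl h5
    · exact Or.inr (Or.inl h5))
  obtain ⟨pp, pp', κ, hk0⟩ : ∃ p p' κ, K0K H R k x y f (cSupp m0 z0) p p' κ := by
    rcases h0 with rfl | ⟨h01, h02⟩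
    · obtain ⟨p, hp⟩ := k0_star h (f := f) hK0 hs0
      exact ⟨p, _, _, hp⟩
    · exact (k0_beta h hK0 h01 h02 hs0).2
  -- the designated port
  obtain ⟨z₀, hz₀⟩ : ∃ z₀, (prt H R (x k)).card = 0 ∨ z₀ ∈ prt H R (x k) := by
    by_cases h0 : (prt H R (x k)).card = 0
    · exact ⟨x k, Or.inl h0⟩
    · obtain ⟨v, hv⟩ := Finset.card_pos.1 (Nat.pos_of_ne_zero h0)
      exact ⟨v, Or.inr hv⟩
  obtain ⟨Φ, hΦ⟩ := exists_oforb hH h (f := f) (cSupp m z ∪ (cSupp m0 z0 ∪ cSupp 2 zA)) (x k) z₀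
  have hd0 : ∀ w, w ∈ cSupp m0 z0 → w ∉ cSupp m z := fun w h1 h2 => nK0 (cSupp_eq hK hK0 h2 h1)
  have hdA : ∀ w, w ∈ cSupp 2 zA → w ∉ cSupp m z := fun w h1 h2 => nKA (cSupp_eq hK hA h2 h1)
  set Φ' : V → V → (ℕ → Q) → Finset Q := ovr (cSupp m z) φ Φ with hΦ'
  have h2 : ∀ v z g g', (Φ' v z g ∪ Φ' v z g').card ≤ 2 := by
    intro v z g g'
    simp only [hΦ', ovr]
    split_ifs
    · exact hφ.two v z g g'
    · exact hΦ.two v z g g'
  have hd : Dep k x y Φ' := by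
    intro i h1 h2 z g g' hs
    simp only [hΦ', ovr]
    split_ifs
    · exact hφ.dep i h1 h2 z g g' hs
    · exact hΦ.dep i h1 h2 z g g' (hs.mono (by omega))
  obtain ⟨u, g1, g1', hg1, hg1', hne1, hP1, hP1'⟩ := al_safe hH h (by omega) hK0 hs0 hA hAL hne
    (f := f) pp h2 hd (fun z g g' => by
      simp only [hΦ', ovr]
      split_ifs
      · exact hφ2' z g g'
      · exact hΦ.dep 2 (by omega) (by omega) z g g' (fun j j1 j2 => by omega))
    (fun v w g hw => by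
      rw [hΦ', ovr_out (hd0 w hw)]
      exact hΦ.triv v w g (Or.inr (Or.inl hw)))
    (fun v w g hw => by
      rw [hΦ', ovr_out (hdA w hw)]
      exact hΦ.triv v w g (Or.inr (Or.inr hw)))
  obtain ⟨g, g', hg, hg', hgne, hPg, hPg'⟩ := walks_from hH h h2 hd (n0 := 2) (by omega)
    (al_inh h (by omega) hAL (f := f) (p := pp) (u := u)) hg1 hg1' hne1 hP1 hP1' (n := k - 2)
    (by omega) (by omega)
  obtain ⟨mu, hmu, hsame, hmD, hfit⟩ := end_walk hR hG hle hc h (by omega) hK b1 b1' b2 b2' hφ hz₀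
    hΦ.toOSet (D := {pp', κ u}) (Or.inr ⟨Finset.card_le_two, _, w0, hd0 _ w0', fun g =>
      hΦ.triv _ _ _ (Or.inr (Or.inl w0'))⟩) hg hg' hgne
  have hPmu : (mu 1 ≠ pp ∧ (mu 1 = u ∨ mu 1 = neg pp)) ∧ CExt 2 (fun j => lbl k x y mu f (cA j)) := by
    rcases hsame with hsame | hsame
    · exact al_inh h (by omega) hAL g mu (hsame.mono (by omega)) hPg
    · exact al_inh h (by omega) hAL g' mu (hsame.mono (by omega)) hPg'
  simp only [mem_insert, mem_singleton, not_or] at hmD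
  have hfit0 := hk0.ok mu hPmu.1.1 hmD.1 (by
    rcases hPmu.1.2 with h5 | h5
    · right; rw [h5]; exact hmD.2
    · left; exact h5)
  refine end_contra hH hc h hends hf hΦ ?_ ?_ hmu ?_
  · rintro v (⟨j, j1, j2, rfl⟩ | ⟨j, j1, j2, rfl⟩ | ⟨j, j1, j2, rfl⟩) a b hT
    · exact isTwo_not_cat hK j1 j2 hT
    · exact isTwo_not_cat hK0 j1 j2 hT
    · exact isTwo_not_cat hA j1 j2 hT
  · intro v w g hw
    exact ovr_out (fun hw' => hw (Or.inl hw'))
  · intro m1 z1 c1 hc1 hex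
    by_cases hS : cSupp m1 z1 = cSupp m z
    · right
      rw [cext_iff_fits hc1, hS]
      exact hfit
    · by_cases hS0 : cSupp m1 z1 = cSupp m0 z0
      · right
        rw [cext_iff_fits hc1, hS0]
        exact hfit0
      · by_cases hSA : cSupp m1 z1 = cSupp 2 zA
        · right
          rw [cext_iff_fits hc1, hSA, ← cext_iff_fits hA]
          exact hPmu.2
        · left
          obtain ⟨o1, o2⟩ := al_others hH h hloc hone hK0 hs0 hA hAL hne hc1 hS0 hSA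
          refine ⟨okill_of_not_nc hH h hf hc1 hex o1 ?_ ?_, fun i i1 i2 hi => ?_⟩
          · intro hm1 hN1
            obtain ⟨e, h6⟩ := o2 hm1 hN1
            subst e
            obtain ⟨a1, b1, h7, h8, h9, -⟩ := h6
            have hlk : Lk H R (y (k - 1)) (x (k - 1 + 1)) := h.lk (k - 1) (by omega) (by omega)
            exact hS (own_unique hH h (by omega) hc1 hK (p := b1) (by omega) hp h9 hcp)
          · intro p' _ _ h5 _ h6
            exact (hbad m1 z1 c1 hc1 p' h6).1 h5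
          · rcases hi with hi | hi | hi
            · exact hS (cSupp_eq hc1 hK (mem_cSupp i1 i2) hi)
            · exact hS0 (cSupp_eq hc1 hK0 (mem_cSupp i1 i2) hi)
            · exact hSA (cSupp_eq hc1 hA (mem_cSupp i1 i2) hi)

/-- **A component seeing the two ends only and the path of two vertices at the start**, `4 ≤ k`. -/
theorem k0_al4 (hR : Opt G R) (hG : ClassC G R) (hle : H ≤ G) (hc : Crit H R)
    (h : Chn H R k x y) (hk : 4 ≤ k) (hends : (∀ w, ¬ Lk H R (x 1) w) ∧ ∀ w, ¬ Lk H R (y k) w)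
    (hloc : LocH H R k x y) (hbad : BadH H R k x y) (hone : OneH H R k x y)
    {m0 : ℕ} {z0 c0 : ℕ → V} (hK0 : Cat H R m0 z0 c0)
    (h0 : m0 = 1 ∨ (2 ≤ m0 ∧ NCp m0 (JC k x y c0))) (hs0 : Sp k x y m0 c0 1 1)
    {zA cA : ℕ → V} (hA : Cat H R 2 zA cA) (hAL : AL k x y cA (x 1) (x 2))
    (hne : cSupp m0 z0 ≠ cSupp 2 zA) : False := by
  have hH := hG.mono hle
  have hkp := h.pos
  by_cases hexE : ∃ m z c p q, Cat H R m z c ∧ ER H R k x y m z c p q ∧
      (m % 4 ≠ 0 ∨ InnerPt H R (z (cl m p))) ∧ cSupp m z ≠ cSupp m0 z0 ∧ cSupp m z ≠ cSupp 2 zA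
  · obtain ⟨m, z, c, p, q, hK, hE, hE2, n1, n2⟩ := hexE
    exact k0_al_end hR hG hle hc h hk hends hloc hbad hone hK0 h0 hs0 hA hAL hne hK hE hE2 n1 n2
  · have hnoE : ∀ m z c p q, Cat H R m z c → ER H R k x y m z c p q →
        (m % 4 ≠ 0 ∨ InnerPt H R (z (cl m p))) → cSupp m z ≠ cSupp m0 z0 → cSupp m z ≠ cSupp 2 zA →
        False := fun m z c p q h1 h2 h3 h4 h5 => hexE ⟨m, z, c, p, q, h1, h2, h3, h4, h5⟩
    obtain ⟨a0, b0, ha0, hb0, -, hca0, hcb0, hin0⟩ := sp11 h hs0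
    obtain ⟨w0, w0'⟩ := prt_of hK0 hb0 hcb0
    obtain ⟨f, hf⟩ := exists_off h hc
    obtain ⟨pp, pp', κ, hk0⟩ : ∃ p p' κ, K0K H R k x y f (cSupp m0 z0) p p' κ := by
      rcases h0 with rfl | ⟨h01, h02⟩
      · obtain ⟨p, hp⟩ := k0_star h (f := f) hK0 hs0
        exact ⟨p, _, _, hp⟩
      · exact (k0_beta h hK0 h01 h02 hs0).2
    obtain ⟨v₀, z₀, hv₀, hlight⟩ := light_right hR hG hle hc h (by omega)
    obtain ⟨Φ, hΦ⟩ := exists_oforb hH h (f := f) (cSupp m0 z0 ∪ cSupp 2 zA) v₀ z₀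
    obtain ⟨u, g1, g1', hg1, hg1', hne1, hP1, hP1'⟩ := al_safe hH h (by omega) hK0 hs0 hA hAL hne
      (f := f) pp hΦ.two (fun i h1 h2 z g g' hs => hΦ.dep i h1 h2 z g g' (hs.mono (by omega)))
      (fun z g g' => hΦ.dep 2 (by omega) (by omega) z g g' (fun j j1 j2 => by omega))
      (fun v w g hw => hΦ.triv v w g (Or.inl hw)) (fun v w g hw => hΦ.triv v w g (Or.inr hw))
    have hyx : ∀ i, 1 ≤ i → i ≤ k → x i ≠ y k := fun i i1 i2 => h.xy i k i1 i2 hkp le_rfl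
    have hyy : ∀ i, 1 ≤ i → i < k → y i ≠ y k := fun i i1 i2 he => by
      have := h.injy i k i1 (by omega) hkp le_rfl he
      omega
    set D : Finset Q := {pp', κ u} with hD
    set Φ' := ovk k y (cSupp m0 z0) (D.image (tau k)) Φ with hΦ'
    have hDc : (D.image (tau k)).card ≤ 2 := Finset.card_image_le.trans Finset.card_le_two
    have h2 : ∀ v z g g', (Φ' v z g ∪ Φ' v z g').card ≤ 2 := ovk_two hDc hΦ.two
    have hdep : ∀ i, 1 ≤ i → i ≤ k → ∀ z g g', Same (i - 1) g g' →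
        Φ' (x i) z g = Φ' (x i) z g' ∧ Φ' (y i) z g = Φ' (y i) z g' := by
      intro i i1 i2 z g g' hs
      have := hΦ.dep i i1 i2 z g g' hs
      exact ⟨ovk_same this.1, ovk_same this.2⟩
    have hd : Dep k x y Φ' := fun i i1 i2 z g g' hs => hdep i i1 i2 z g g' (hs.mono (by omega))
    have hlow : ∀ i, 1 ≤ i → i < k → ∀ z g, Φ (x i) z g = Φ' (x i) z g ∧ Φ (y i) z g = Φ' (y i) z g := by
      intro i i1 i2 z g
      rw [hΦ', ovk_ne (hyx i i1 (by omega)), ovk_ne (hyy i i1 i2)]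
      exact ⟨rfl, rfl⟩
    obtain ⟨g, g', hg, hg', hgne, hPg, hPg'⟩ := walks_from hH h h2 hd (n0 := 2) (by omega)
      (al_inh h (by omega) hAL (f := f) (p := pp) (u := u))
      (PW.congr' (fun i i1 i2 z => hlow i i1 (by omega) z g1) hg1)
      (PW.congr' (fun i i1 i2 z => hlow i i1 (by omega) z g1') hg1') hne1 hP1 hP1' (n := k - 2)
      (by omega) (by omega)
    have hv₀y : v₀ ≠ y k := by
      rcases hv₀ with rfl | rfl
      · exact hyx k hkp le_rfl
      · exact hyy (k - 1) (by omega) (by omega)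
    have hl := hlight (uni Φ' g g') (fun v z => h2 v z g g') (fun e1 e2 => by
      show (Φ' v₀ z₀ g ∪ Φ' v₀ z₀ g').card ≤ 1
      rw [hΦ', ovk_ne hv₀y, ovk_ne hv₀y]
      exact hΦ.one e1 e2 g g')
    obtain ⟨mu, hmu, hsame⟩ := finish_walk hH h (by omega) h2 hd (hdep k hkp le_rfl) hg hg' hgne hl
    have hPmu : (mu 1 ≠ pp ∧ (mu 1 = u ∨ mu 1 = neg pp)) ∧
        CExt 2 (fun j => lbl k x y mu f (cA j)) := by
      rcases hsame with hsame | hsame
      · exact al_inh h (by omega) hAL g mu (hsame.mono (by omega)) hPg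
      · exact al_inh h (by omega) hAL g' mu (hsame.mono (by omega)) hPg'
    have hmD : mu k ∉ D := ovk_avoid w0 w0' (hmu.mem k hkp le_rfl)
    simp only [hD, mem_insert, mem_singleton, not_or] at hmD
    have hfit0 := hk0.ok mu hPmu.1.1 hmD.1 (by
      rcases hPmu.1.2 with h5 | h5
      · right; rw [h5]; exact hmD.2
      · left; exact h5)
    refine end_contra hH hc h hends hf hΦ ?_ ?_ hmu ?_
    · rintro v (⟨j, j1, j2, rfl⟩ | ⟨j, j1, j2, rfl⟩) a b hT
      · exact isTwo_not_cat hK0 j1 j2 hT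
      · exact isTwo_not_cat hA j1 j2 hT
    · intro v w g hw
      rw [hΦ', ovk_out (fun hw' => hw (Or.inl hw'))]
    · intro m1 z1 c1 hc1 hex
      by_cases hS0 : cSupp m1 z1 = cSupp m0 z0
      · right
        rw [cext_iff_fits hc1, hS0]
        exact hfit0
      · by_cases hSA : cSupp m1 z1 = cSupp 2 zA
        · right
          rw [cext_iff_fits hc1, hSA, ← cext_iff_fits hA]
          exact hPmu.2
        · left
          obtain ⟨o1, o2⟩ := al_others hH h hloc hone hK0 hs0 hA hAL hne hc1 hS0 hSA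
          refine ⟨okill_of_not_nc hH h hf hc1 hex o1 ?_ ?_, fun i i1 i2 hi => ?_⟩
          · intro hm1 hN1
            obtain ⟨e, h6⟩ := o2 hm1 hN1
            subst e
            obtain ⟨p, q, hE⟩ := er_of_al (H := H) (R := R) (z := z1) h6
            exact hnoE _ _ _ _ _ hc1 hE (Or.inl (by omega)) hS0 hSA
          · intro p' p1 p2 h5 _ h6
            have h7 := hbad m1 z1 c1 hc1 p' h6
            rcases hv₀ with hv | hv
            · exact h7.1 (h5.trans hv)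
            · rcases h7.2 (h5.trans hv) with ⟨q, hq, hcq, hoth'⟩ | ⟨hk3, -⟩
              · have hin : InnerPt H R (z1 (cl m1 p')) :=
                  (innerPt_iff hc1 (by omega)).2 ⟨p1, p2⟩
                exact hnoE _ _ _ _ _ hc1 ⟨by omega, by omega, hq, h5.trans hv, hcq, hoth',
                  fun _ h8 _ => absurd hin h8⟩ (Or.inr hin) hS0 hSA
              · omega
          · rcases hi with hi | hi
            · exact hS0 (cSupp_eq hc1 hK0 (mem_cSupp i1 i2) hi)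
            · exact hSA (cSupp_eq hc1 hA (mem_cSupp i1 i2) hi)

end CLB.H91
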