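import Pool.Agent.Helper91_DA.KPair
import Pool.Agent.Helper95_CLB.Bad

/-!
Two components seeing the two ends of an open chain only.
-/

set_option autoImplicit false
set_option linter.unusedSectionVars false

namespace CLB.H91

open Finset Classical
open H3DA (Q neg nr)
open CLB.H95
open CLB.H3 (CExt Cat IsTwo Fits UPath he_of_unc cat_structure chn_side)

variable {V : Type*} {G H : SimpleGraph V} {R : V → Bool} [Fintype V] {k : ℕ} {x y : ℕ → V}

/-- Forbidden labels of `y k` replaced on one component. -/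
noncomputable def ovk (k : ℕ) (y : ℕ → V) (S : Set V) (D : Finset Q) (Φ : V → V → (ℕ → Q) → Finset Q) :
    V → V → (ℕ → Q) → Finset Q :=
  fun v z g => if v = y k ∧ z ∈ S then D else Φ v z g

lemma ovk_ne {S : Set V} {D : Finset Q} {Φ : V → V → (ℕ → Q) → Finset Q} {v z : V} {g : ℕ → Q}
    (h : v ≠ y k) : ovk k y S D Φ v z g = Φ v z g := by
  unfold ovk; rw [if_neg (fun h' => h h'.1)]

lemma ovk_out {S : Set V} {D : Finset Q} {Φ : V → V → (ℕ → Q) → Finset Q} {v z : V} {g : ℕ → Q}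
    (h : z ∉ S) : ovk k y S D Φ v z g = Φ v z g := by
  unfold ovk; rw [if_neg (fun h' => h h'.2)]

lemma ovk_two {S : Set V} {D : Finset Q} {Φ : V → V → (ℕ → Q) → Finset Q} (hD : D.card ≤ 2)
    (h2 : ∀ v z g g', (Φ v z g ∪ Φ v z g').card ≤ 2) :
    ∀ v z g g', (ovk k y S D Φ v z g ∪ ovk k y S D Φ v z g').card ≤ 2 := by
  intro v z g g'
  unfold ovk
  split_ifs
  · rwa [Finset.union_self]
  · exact h2 v z g g'

lemma ovk_same {S : Set V} {D : Finset Q} {Φ : V → V → (ℕ → Q) → Finset Q} {v z : V} {g g' : ℕ → Q}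
    (h : Φ v z g = Φ v z g') : ovk k y S D Φ v z g = ovk k y S D Φ v z g' := by
  unfold ovk
  split_ifs
  · rfl
  · exact h

/-- The final label of a walk avoids the labels put on a port of `y k`. -/
lemma ovk_avoid {S : Set V} {D : Finset Q} {Φ : V → V → (ℕ → Q) → Finset Q}
    {mu : ℕ → Q} {w : V} (hw : w ∈ prt H R (y k)) (hwS : w ∈ S)
    (hm : mu k ∈ olst H R x y (ovk k y S (D.image (tau k)) Φ) mu k) : mu k ∉ D := by
  intro hD
  unfold olst at hm
  rw [mem_lst] at hm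
  apply hm.2 w hw
  show neg (sg k (mu k)) ∈ ovk k y S (D.image (tau k)) Φ (y k) w mu
  unfold ovk
  rw [if_pos ⟨rfl, hwS⟩, mem_image]
  exact ⟨mu k, hD, rfl⟩

/-- Two components seeing the ends only, given two walks to the unit `k - 2`. -/
theorem kk_fin (hR : Opt G R) (hG : ClassC G R) (hle : H ≤ G) (hc : Crit H R)
    (h : Chn H R k x y) (hk : 3 ≤ k) (hends : (∀ w, ¬ Lk H R (x 1) w) ∧ ∀ w, ¬ Lk H R (y k) w)
    (hloc : LocH H R k x y) (hbad : BadH H R k x y) (hone : OneH H R k x y)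
    {m1 : ℕ} {z1 c1 : ℕ → V} (hK1 : Cat H R m1 z1 c1) (hs1 : Sp k x y m1 c1 1 1)
    {m2 : ℕ} {z2 c2 : ℕ → V} (hK2 : Cat H R m2 z2 c2) (hs2 : Sp k x y m2 c2 1 1)
    (hne : cSupp m1 z1 ≠ cSupp m2 z2) {f : V → Q} (hf : OffC H R k x y f)
    {p1 p1' p2 p2' : Q} {κ1 κ2 : Q → Q} (hk1 : K0K H R k x y f (cSupp m1 z1) p1 p1' κ1)
    (hk2 : K0K H R k x y f (cSupp m2 z2) p2 p2' κ2) {v₀ z₀ : V} (hv₀ : v₀ = x k ∨ v₀ = y (k - 1))
    (hlight : ∀ Φ : V → V → Finset Q, (∀ v z, (Φ v z).card ≤ 2) →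
      (z₀ ∈ prt H R v₀ → InnerPt H R z₀ → (Φ v₀ z₀).card ≤ 1) →
      3 ≤ (lst H R x y Φ k).card ∨ 5 ≤ (lst H R x y Φ (k - 1)).card)
    {Φ : V → V → (ℕ → Q) → Finset Q} (hΦ : OForb H R k x y f (cSupp m1 z1 ∪ cSupp m2 z2) v₀ z₀ Φ)
    {D1 D2 : Finset Q} (hD1 : D1.card ≤ 2) (hD2 : D2.card ≤ 2) (hp1 : p1' ∈ D1 ∪ D2)
    (hp2 : p2' ∈ D1 ∪ D2) {P : (ℕ → Q) → Prop} (hP : ∀ g w, Same 2 g w → P g → P w)
    (hPD : ∀ g, P g → (g 1 ≠ p1 ∧ g 1 ≠ p2) ∧ (g 1 = neg p1 ∨ κ1 (g 1) ∈ D1 ∪ D2) ∧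
      (g 1 = neg p2 ∨ κ2 (g 1) ∈ D1 ∪ D2)) {n0 : ℕ} (hn0 : 1 ≤ n0) (hn0' : n0 ≤ k - 2)
    {g0 g0' : ℕ → Q} (hg0 : PW H R x y Φ n0 g0) (hg0' : PW H R x y Φ n0 g0') (hne0 : g0 n0 ≠ g0' n0)
    (hP0 : P g0) (hP0' : P g0') : False := by
  have hH := hG.mono hle
  have hkp := h.pos
  obtain ⟨a1, b1, ha1, hb1, -, hca1, hcb1, -⟩ := sp11 h hs1
  obtain ⟨a2, b2, ha2, hb2, -, hca2, hcb2, -⟩ := sp11 h hs2
  obtain ⟨w1, w1'⟩ := prt_of hK1 hb1 hcb1
  obtain ⟨w2, w2'⟩ := prt_of hK2 hb2 hcb2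
  have hyx : ∀ i, 1 ≤ i → i ≤ k → x i ≠ y k := fun i i1 i2 => h.xy i k i1 i2 hkp le_rfl
  have hyy : ∀ i, 1 ≤ i → i < k → y i ≠ y k := fun i i1 i2 he => by
    have := h.injy i k i1 (by omega) hkp le_rfl he
    omega
  set Φ1 := ovk k y (cSupp m1 z1) (D1.image (tau k)) Φ with hΦ1
  set Φ' := ovk k y (cSupp m2 z2) (D2.image (tau k)) Φ1 with hΦ'
  have i1 : (D1.image (tau k)).card ≤ 2 := Finset.card_image_le.trans hD1
  have i2 : (D2.image (tau k)).card ≤ 2 := Finset.card_image_le.trans hD2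
  have h2 : ∀ v z g g', (Φ' v z g ∪ Φ' v z g').card ≤ 2 := ovk_two i2 (ovk_two i1 hΦ.two)
  have hdep : ∀ i, 1 ≤ i → i ≤ k → ∀ z g g', Same (i - 1) g g' →
      Φ' (x i) z g = Φ' (x i) z g' ∧ Φ' (y i) z g = Φ' (y i) z g' := by
    intro i i1 i2 z g g' hs
    have := hΦ.dep i i1 i2 z g g' hs
    exact ⟨ovk_same (ovk_same this.1), ovk_same (ovk_same this.2)⟩
  have hd : Dep k x y Φ' := fun i i1 i2 z g g' hs => hdep i i1 i2 z g g' (hs.mono (by omega))
  have hlow : ∀ i, 1 ≤ i → i < k → ∀ z g, Φ (x i) z g = Φ' (x i) z g ∧ Φ (y i) z g = Φ' (y i) z g := by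
    intro i i1 i2 z g
    rw [hΦ', hΦ1, ovk_ne (hyx i i1 (by omega)), ovk_ne (hyx i i1 (by omega)), ovk_ne (hyy i i1 i2),
      ovk_ne (hyy i i1 i2)]
    exact ⟨rfl, rfl⟩
  have hg1 : PW H R x y Φ' n0 g0 := PW.congr' (fun i i1 i2 z => hlow i i1 (by omega) z g0) hg0
  have hg1' : PW H R x y Φ' n0 g0' := PW.congr' (fun i i1 i2 z => hlow i i1 (by omega) z g0') hg0'
  obtain ⟨g, g', hg, hg', hgne, hPg, hPg'⟩ := walks_from hH h h2 hd hn0
    (P := P) (fun g w hs hPg => hP g w (hs.mono (by omega)) hPg) hg1 hg1' hne0 hP0 hP0' hn0' (by omega)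
  have hv₀y : v₀ ≠ y k := by
    rcases hv₀ with rfl | rfl
    · exact hyx k hkp le_rfl
    · exact hyy (k - 1) (by omega) (by omega)
  have hl := hlight (uni Φ' g g') (fun v z => h2 v z g g') (fun e1 e2 => by
    show (Φ' v₀ z₀ g ∪ Φ' v₀ z₀ g').card ≤ 1
    rw [hΦ', hΦ1, ovk_ne hv₀y, ovk_ne hv₀y, ovk_ne hv₀y, ovk_ne hv₀y]
    exact hΦ.one e1 e2 g g')
  obtain ⟨mu, hmu, hsame⟩ := finish_walk hH h hk h2 hd (hdep k hkp le_rfl) hg hg' hgne hl
  have hPmu : P mu := by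
    rcases hsame with hsame | hsame
    · exact hP g mu (fun j j1 j2 => hsame j j1 (by omega)) hPg
    · exact hP g' mu (fun j j1 j2 => hsame j j1 (by omega)) hPg'
  have hmem := hmu.mem k hkp le_rfl
  have hm2 : mu k ∉ D2 := ovk_avoid w2 w2' hmem
  have hm1 : mu k ∉ D1 := by
    intro hD
    unfold olst at hmem
    rw [mem_lst] at hmem
    apply hmem.2 _ w1
    show neg (sg k (mu k)) ∈ Φ' (y k) (z1 (cl m1 b1)) mu
    rw [hΦ', ovk_out (fun hw => hne (cSupp_eq hK1 hK2 w1' hw)), hΦ1]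
    unfold ovk
    rw [if_pos ⟨rfl, w1'⟩, mem_image]
    exact ⟨mu k, hD, rfl⟩
  have hmD : mu k ∉ D1 ∪ D2 := by rw [mem_union, not_or]; exact ⟨hm1, hm2⟩
  obtain ⟨q0, q1, q2⟩ := hPD mu hPmu
  have hfit1 := hk1.ok mu q0.1 (fun he => hmD (he ▸ hp1)) (by
    rcases q1 with q1 | q1
    · exact Or.inl q1
    · exact Or.inr (fun he => hmD (he ▸ q1)))
  have hfit2 := hk2.ok mu q0.2 (fun he => hmD (he ▸ hp2)) (by
    rcases q2 with q2 | q2
    · exact Or.inl q2
    · exact Or.inr (fun he => hmD (he ▸ q2)))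
  refine end_contra hH hc h hends hf hΦ ?_ ?_ hmu ?_
  · rintro v (⟨j, j1, j2, rfl⟩ | ⟨j, j1, j2, rfl⟩) a b hT
    · exact isTwo_not_cat hK1 j1 j2 hT
    · exact isTwo_not_cat hK2 j1 j2 hT
  · intro v w g hw
    rw [hΦ', ovk_out (fun hw' => hw (Or.inr hw')), hΦ1, ovk_out (fun hw' => hw (Or.inl hw'))]
  · intro m z c hc1 hex
    by_cases hS1 : cSupp m z = cSupp m1 z1
    · right
      rw [cext_iff_fits hc1, hS1]
      exact hfit1
    · by_cases hS2 : cSupp m z = cSupp m2 z2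
      · right
        rw [cext_iff_fits hc1, hS2]
        exact hfit2
      · left
        have hx : ∀ j ≤ m + 1, c j ≠ x 1 := fun j hj he =>
          no_three hH hc1 hK1 hK2 hS1 hS2 hne hj ha1 ha2 he hca1 hca2
        have hy : ∀ j ≤ m + 1, c j ≠ y k := fun j hj he =>
          no_three hH hc1 hK1 hK2 hS1 hS2 hne hj hb1 hb2 he hcb1 hcb2
        refine ⟨okill_of_not_nc hH h hf hc1 hex ?_ ?_ ?_, fun i i1 i2 hi => ?_⟩
        · rintro rfl
          rcases hone _ _ hc1 with h5 | h5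
          · exfalso
            obtain ⟨j, hj, hcj⟩ := h5.px 1 le_rfl le_rfl
            exact hx j hj hcj
          · exact h5
        · intro hm1 hN1
          rcases hloc _ _ _ hc1 hm1 hN1 with ⟨a1, b1, h5⟩ | ⟨h5, h6⟩ | ⟨h5, h6⟩
          · obtain ⟨j, hj, hcj⟩ := h5.px 1 le_rfl h5.a1
            exact hx j hj hcj
          · obtain ⟨a1, b1, h7, h8, -⟩ := h6
            exact hx a1 (by omega) h8
          · obtain ⟨a1, b1, h7, h8, -⟩ := h6
            exact hy a1 (by omega) h8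
        · intro p' _ _ h5 _ h6
          have h7 := hbad m z c hc1 p' h6
          rcases hv₀ with hv | hv
          · exact h7.1 (h5.trans hv)
          · rcases h7.2 (h5.trans hv) with ⟨q, hq, hcq, -⟩ | ⟨-, ⟨q, -, hq, -, -, hcq, -⟩, -⟩
            · exact hy q hq hcq
            · exact hy q hq hcq
        · rcases hi with hi | hi
          · exact hS1 (cSupp_eq hc1 hK1 (mem_cSupp i1 i2) hi)
          · exact hS2 (cSupp_eq hc1 hK2 (mem_cSupp i1 i2) hi)

/-- **Two components seeing the two ends only.** -/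
theorem k0_k0 (hR : Opt G R) (hG : ClassC G R) (hle : H ≤ G) (hc : Crit H R)
    (h : Chn H R k x y) (hk : 3 ≤ k) (hends : (∀ w, ¬ Lk H R (x 1) w) ∧ ∀ w, ¬ Lk H R (y k) w)
    (hloc : LocH H R k x y) (hbad : BadH H R k x y) (hone : OneH H R k x y)
    {m1 : ℕ} {z1 c1 : ℕ → V} (hK1 : Cat H R m1 z1 c1)
    (h01 : m1 = 1 ∨ (2 ≤ m1 ∧ NCp m1 (JC k x y c1))) (hs1 : Sp k x y m1 c1 1 1)
    {m2 : ℕ} {z2 c2 : ℕ → V} (hK2 : Cat H R m2 z2 c2)
    (h02 : m2 = 1 ∨ (2 ≤ m2 ∧ NCp m2 (JC k x y c2))) (hs2 : Sp k x y m2 c2 1 1)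
    (hne : cSupp m1 z1 ≠ cSupp m2 z2) : False := by
  have hH := hG.mono hle
  have hkp := h.pos
  obtain ⟨a1, b1, ha1, hb1, hab1, hca1, hcb1, hin1⟩ := sp11 h hs1
  obtain ⟨a2, b2, ha2, hb2, hab2, hca2, hcb2, hin2⟩ := sp11 h hs2
  obtain ⟨u1, u1'⟩ := prt_of hK1 ha1 hca1
  obtain ⟨u2, u2'⟩ := prt_of hK2 ha2 hca2
  obtain ⟨f, hf⟩ := exists_off h hc
  have hex : ∀ {m : ℕ} {z c : ℕ → V}, Cat H R m z c → (m = 1 ∨ (2 ≤ m ∧ NCp m (JC k x y c))) →
      Sp k x y m c 1 1 → ∃ p p' κ, K0K H R k x y f (cSupp m z) p p' κ ∧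
        (k = 3 → p' = tau k (neg p) ∧ κ = tau k) := by
    intro m z c hK h0 hs
    rcases h0 with rfl | ⟨h3, h4⟩
    · obtain ⟨p, hp⟩ := k0_star h (f := f) hK hs
      exact ⟨p, _, _, hp, fun _ => ⟨rfl, rfl⟩⟩
    · obtain ⟨hm2, p, p', κ, hp⟩ := k0_beta h (f := f) hK h3 h4 hs
      refine ⟨p, p', κ, hp, fun hk3 => ?_⟩
      exfalso
      subst hm2
      obtain ⟨a, b, ha, hb, hab, hca, hcb, hin⟩ := sp11 h hs
      have hpar := port_par h hK ha hb (u := 1) (v := k) ⟨le_rfl, hkp⟩ ⟨hkp, le_rfl⟩ (Or.inl hca)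
        (Or.inr hcb)
      have hin' : ∀ j ≤ 2 + 1, (JC k x y c j ↔ j = a ∨ j = b) := hin
      unfold NCp at h4
      have j0 := hin' 0 (by omega)
      have j1 := hin' 1 (by omega)
      have jm := hin' 2 (by omega)
      have jm1 := hin' (2 + 1) (by omega)
      rw [j0, j1, jm, jm1] at h4
      unfold CLB.H3.pos at hpar
      have hcase : (a ≤ 1 ∧ 2 ≤ b) ∨ (2 ≤ a ∧ b ≤ 1) := by
        rcases h4 with h1 | h1 | h1 | h1 | h1 | h1
        · obtain ⟨-, h2, h3⟩ := h1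
          omega
        · exfalso; omega
        · exfalso; omega
        · exfalso; omega
        · exfalso; omega
        · exfalso; omega
      split_ifs at hpar <;> omega
  obtain ⟨p1, p1', κ1, hk1, e1⟩ := hex hK1 h01 hs1
  obtain ⟨p2, p2', κ2, hk2, e2⟩ := hex hK2 h02 hs2
  obtain ⟨v₀, z₀, hv₀, hlight⟩ := light_right hR hG hle hc h hk
  obtain ⟨Φ, hΦ⟩ := exists_oforb hH h (f := f) (cSupp m1 z1 ∪ cSupp m2 z2) v₀ z₀
  have hd : Dep k x y Φ := fun i h1 h2 z g g' hs => hΦ.dep i h1 h2 z g g' (hs.mono (by omega))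
  have g0 : ℕ → Q := fun _ => (false, false, false)
  have L0 : 6 ≤ (olst H R x y Φ g0 1).card := by
    have l := lst_card (G := H) (R := R) (x := x) (y := y) (fun v z => Φ v z g0) 1
    have h2' : ∀ v z, (Φ v z g0).card ≤ 2 := by
      intro v z
      have := hΦ.two v z g0 g0
      rwa [Finset.union_self] at this
    have e1 := cst_pair hH (h.cov (InC.x le_rfl hkp)) u1 u2
      (fun he => hne (cSupp_eq hK1 hK2 u1' (by rw [he]; exact u2'))) (fun v z => Φ v z g0)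
    have e2 := cst_le h2' (prt_card_lk hH (h.lk 1 le_rfl (by omega)))
    have e3 : (Φ (x 1) (z1 (cl m1 a1)) g0).card = 0 := by
      rw [hΦ.triv _ _ _ (Or.inl u1')]; simp
    have e4 : (Φ (x 1) (z2 (cl m2 a2)) g0).card = 0 := by
      rw [hΦ.triv _ _ _ (Or.inr u2')]; simp
    have e6 : olst H R x y Φ g0 1 = lst H R x y (fun v z => Φ v z g0) 1 := rfl
    rw [e6]
    omega
  have L1 : 4 ≤ (((olst H R x y Φ g0 1).erase p1).erase p2).card := by
    have e5 := Finset.pred_card_le_card_erase (s := olst H R x y Φ g0 1) (a := p1)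
    have e6 := Finset.pred_card_le_card_erase (s := (olst H R x y Φ g0 1).erase p1) (a := p2)
    omega
  by_cases hk3 : k = 3
  · -- three units
    obtain ⟨e11, e12⟩ := e1 hk3
    obtain ⟨e21, e22⟩ := e2 hk3
    obtain ⟨a, ha, b, hb, hab⟩ := Finset.one_lt_card.1
      (show 1 < (((olst H R x y Φ g0 1).erase p1).erase p2).card by omega)
    rw [mem_erase, mem_erase] at ha hb
    refine kk_fin hR hG hle hc h hk hends hloc hbad hone hK1 hs1 hK2 hs2 hne hf hk1 hk2 hv₀ hlight hΦ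
      (D1 := {p1', tau k a}) (D2 := {p2', tau k b}) Finset.card_le_two Finset.card_le_two
      (by simp) (by simp) (P := fun g => g 1 = a ∨ g 1 = b)
      (fun g w hs hP => by rw [← hs 1 le_rfl (by omega)]; exact hP) ?_ (n0 := 1) le_rfl (by omega)
      (pw_one hd hkp ha.2.2) (pw_one hd hkp hb.2.2) (by simpa using hab) (Or.inl (by simp))
      (Or.inr (by simp))
    intro g hg
    rw [e12, e22]
    rcases hg with hg | hg
    · rw [hg]
      refine ⟨⟨ha.2.1, ha.1⟩, Or.inr (by simp), Or.inr (by simp)⟩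
    · rw [hg]
      refine ⟨⟨hb.2.1, hb.1⟩, Or.inr (by simp), Or.inr (by simp)⟩
  · -- at least four units
    have hcase : (∃ b ∈ ((olst H R x y Φ g0 1).erase p1).erase p2,
        neg b ∈ ((olst H R x y Φ g0 1).erase p1).erase p2) ∨
        (neg p1 ≠ neg p2 ∧ neg p1 ∈ ((olst H R x y Φ g0 1).erase p1).erase p2 ∧
          neg p2 ∈ ((olst H R x y Φ g0 1).erase p1).erase p2) := by
      by_cases hpp : p1 = p2
      · left
        subst hpp
        rw [Finset.erase_eq_of_notMem (a := p1) (s := (olst H R x y Φ g0 1).erase p1)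
          (Finset.notMem_erase _ _)]
        exact exists_anti (by
          have := Finset.pred_card_le_card_erase (s := olst H R x y Φ g0 1) (a := p1)
          omega)
      · rcases exists_anti_two L1 (p := p1) (q := p2) (fun h' => by
          rw [mem_erase, mem_erase] at h'; exact h'.2.1 rfl) (Finset.notMem_erase _ _) with h1 | h1
        · exact Or.inl h1
        · exact Or.inr ⟨fun he => hpp (H3DA.neg_inj he), h1⟩
    rcases hcase with ⟨b, hb, hb'⟩ | ⟨hnn, hb, hb'⟩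
    · rw [mem_erase, mem_erase] at hb hb'
      obtain ⟨w, w', q1, q2, q3, q4, q5⟩ := anti_split hd (n := 1) le_rfl (by omega)
        (pw_one hd hkp hb.2.2) (pw_one hd hkp hb'.2.2) (by simp) (by
          have := lst_inner hH h (i := 1 + 1) (fun v z => hΦ.two v z (fun i => if i ≤ 0 then g0 i else b)
            (fun i => if i ≤ 0 then g0 i else neg b)) (by omega) (by omega)
          exact le_trans (by omega) this)
      have f1 : w' 1 = w 1 := (q4 1 le_rfl (by omega)).symm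
      have f2 : w 1 ≠ p1 ∧ w 1 ≠ p2 := by
        rcases q5 with q5 | q5
        · rw [← q5 1 le_rfl (by omega)]; simpa using ⟨hb.2.1, hb.1⟩
        · rw [← q5 1 le_rfl (by omega)]; simpa using ⟨hb'.2.1, hb'.1⟩
      refine kk_fin hR hG hle hc h hk hends hloc hbad hone hK1 hs1 hK2 hs2 hne hf hk1 hk2 hv₀ hlight hΦ
        (D1 := {p1', κ1 (w 1)}) (D2 := {p2', κ2 (w 1)}) Finset.card_le_two Finset.card_le_two
        (by simp) (by simp) (P := fun g => g 1 = w 1)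
        (fun g w hs hP => by rw [← hs 1 le_rfl (by omega)]; exact hP) ?_ (n0 := 2) (by omega) (by omega)
        q1 q2 q3 rfl f1
      intro g hg
      rw [hg]
      exact ⟨f2, Or.inr (by simp), Or.inr (by simp)⟩
    · rw [mem_erase, mem_erase] at hb hb'
      refine kk_fin hR hG hle hc h hk hends hloc hbad hone hK1 hs1 hK2 hs2 hne hf hk1 hk2 hv₀ hlight hΦ
        (D1 := {p1', κ1 (neg p2)}) (D2 := {p2', κ2 (neg p1)}) Finset.card_le_two Finset.card_le_two
        (by simp) (by simp) (P := fun g => g 1 = neg p1 ∨ g 1 = neg p2)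
        (fun g w hs hP => by rw [← hs 1 le_rfl (by omega)]; exact hP) ?_ (n0 := 1) le_rfl (by omega)
        (pw_one hd hkp hb.2.2) (pw_one hd hkp hb'.2.2) (by simpa using hnn) (Or.inl (by simp))
        (Or.inr (by simp))
      intro g hg
      rcases hg with hg | hg
      · rw [hg]
        exact ⟨⟨hb.2.1, hb.1⟩, Or.inl rfl, Or.inr (by simp)⟩
      · rw [hg]
        exact ⟨⟨hb'.2.1, hb'.1⟩, Or.inr (by simp), Or.inl rfl⟩

end CLB.H91
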