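import Pool.Agent.Helper91_DA.K0Lab

/-!
A component seeing the two ends of an open chain only, together with a second component seeing both ends.
-/

set_option autoImplicit false
set_option linter.unusedSectionVars false

namespace CLB.H91

open Finset Classical
open H3DA (Q neg nr)
open CLB.H95
open CLB.H3 (CExt Cat IsTwo Fits UPath he_of_unc cat_structure chn_side)

variable {V : Type*} {G H : SimpleGraph V} {R : V → Bool} [Fintype V] {k : ℕ} {x y : ℕ → V}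

lemma prt_of {m : ℕ} {z c : ℕ → V} (hK : Cat H R m z c) {j : ℕ} (hj : j ≤ m + 1) {v : V}
    (e : c j = v) : z (cl m j) ∈ prt H R v ∧ z (cl m j) ∈ cSupp m z := by
  have a1 := cl_mem hK.pos hj
  refine ⟨?_, mem_cSupp a1.1 a1.2⟩
  rw [mem_prt, ← e]
  exact ⟨cat_adj_cl hK hj, hK.unc _ a1.1 a1.2⟩

/-- A covered neighbour of the path is a port. -/
lemma port_of {m : ℕ} {z c : ℕ → V} (hK : Cat H R m z c) {v w : V} (hw : w ∈ cSupp m z)
    (hv : Cov H R v) (ha : H.Adj v w) : ∃ j ≤ m + 1, c j = v := by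
  obtain ⟨i, i1, i2, rfl⟩ := hw
  rcases hK.nbr i i1 i2 v ha.symm with h1 | h1 | h1 | h1 | h1
  · exact ⟨i, by omega, h1.symm⟩
  · exact ⟨0, by omega, h1.2.symm⟩
  · exact ⟨m + 1, le_rfl, h1.2.symm⟩
  · exact absurd (h1.2 ▸ hv) (hK.unc (i - 1) (by omega) (by omega))
  · exact absurd (h1.2 ▸ hv) (hK.unc (i + 1) (by omega) (by omega))

/-- Two components with the same support have the same ports. -/
lemma port_same {m : ℕ} {z c : ℕ → V} (hK : Cat H R m z c) {m' : ℕ} {z' c' : ℕ → V}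
    (hK' : Cat H R m' z' c') (he : cSupp m z = cSupp m' z') {j : ℕ} (hj : j ≤ m + 1) :
    ∃ j' ≤ m' + 1, c' j' = c j := by
  obtain ⟨h1, h2⟩ := prt_of hK hj rfl
  rw [mem_prt] at h1
  rw [he] at h2
  exact port_of hK' h2 (hK.cov j hj) h1.1

/-- No three components have a port at the same vertex. -/
lemma no_three (hH : ClassC H R) {v : V} {m1 m2 m3 : ℕ} {z1 c1 z2 c2 z3 c3 : ℕ → V}
    (h1 : Cat H R m1 z1 c1) (h2 : Cat H R m2 z2 c2) (h3 : Cat H R m3 z3 c3)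
    (n12 : cSupp m1 z1 ≠ cSupp m2 z2) (n13 : cSupp m1 z1 ≠ cSupp m3 z3)
    (n23 : cSupp m2 z2 ≠ cSupp m3 z3) {j1 j2 j3 : ℕ} (l1 : j1 ≤ m1 + 1) (l2 : j2 ≤ m2 + 1)
    (l3 : j3 ≤ m3 + 1) (e1 : c1 j1 = v) (e2 : c2 j2 = v) (e3 : c3 j3 = v) : False := by
  obtain ⟨a1, b1⟩ := prt_of h1 l1 e1
  obtain ⟨a2, b2⟩ := prt_of h2 l2 e2
  obtain ⟨a3, b3⟩ := prt_of h3 l3 e3
  have hv : Cov H R v := by rw [← e1]; exact h1.cov j1 l1
  have hc := prt_card hH hv
  have ne12 : z1 (cl m1 j1) ≠ z2 (cl m2 j2) := fun he => n12 (cSupp_eq h1 h2 b1 (by rw [he]; exact b2))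
  have ne13 : z1 (cl m1 j1) ≠ z3 (cl m3 j3) := fun he => n13 (cSupp_eq h1 h3 b1 (by rw [he]; exact b3))
  have ne23 : z2 (cl m2 j2) ≠ z3 (cl m3 j3) := fun he => n23 (cSupp_eq h2 h3 b2 (by rw [he]; exact b3))
  have h4 : ({z1 (cl m1 j1), z2 (cl m2 j2), z3 (cl m3 j3)} : Finset V) ⊆ prt H R v := by
    intro t ht
    simp only [mem_insert, mem_singleton] at ht
    rcases ht with rfl | rfl | rfl
    · exact a1
    · exact a2
    · exact a3
  have h5 := Finset.card_le_card h4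
  rw [Finset.card_insert_of_notMem (by
    simp only [mem_insert, mem_singleton, not_or]; exact ⟨ne12, ne13⟩), Finset.card_pair ne23] at h5
  omega

/-- The cost of a vertex with two given ports. -/
lemma cst_pair (hH : ClassC H R) {v u w : V} (hv : Cov H R v) (hu : u ∈ prt H R v)
    (hw : w ∈ prt H R v) (hne : u ≠ w) (Φ : V → V → Finset Q) :
    cst H R Φ v = (Φ v u).card + (Φ v w).card := by
  have hpair : ({u, w} : Finset V) = prt H R v := by
    apply Finset.eq_of_subset_of_card_le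
    · intro t ht
      simp only [mem_insert, mem_singleton] at ht
      rcases ht with rfl | rfl
      · exact hu
      · exact hw
    · rw [Finset.card_pair hne]; exact prt_card hH hv
  unfold cst
  rw [← hpair, Finset.sum_pair hne]

/-- Partial walks with forbidden sets agreeing on the first units. -/
lemma PW.congr' {Φ Φ' : V → V → (ℕ → Q) → Finset Q} {n : ℕ} {g : ℕ → Q}
    (he : ∀ i, 1 ≤ i → i ≤ n → ∀ z, Φ (x i) z g = Φ' (x i) z g ∧ Φ (y i) z g = Φ' (y i) z g)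
    (hp : PW H R x y Φ n g) : PW H R x y Φ' n g := by
  refine ⟨hp.nwk, fun i h1 h2 => ?_⟩
  have := hp.mem i h1 h2
  unfold olst at this ⊢
  rwa [lst_congr' (Φ := fun v z => Φ v z g) (Φ' := fun v z => Φ' v z g) (he i h1 h2)] at this

/-- A single label is a partial walk. -/
lemma pw_one {Φ : V → V → (ℕ → Q) → Finset Q} (hd : Dep k x y Φ) (hk : 1 ≤ k) {g0 : ℕ → Q} {a : Q}
    (ha : a ∈ olst H R x y Φ g0 1) : PW H R x y Φ 1 (fun i => if i ≤ 0 then g0 i else a) := by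
  have hp : PW H R x y Φ 0 g0 := ⟨fun i h1 h2 => by omega, fun i h1 h2 => by omega⟩
  exact hp.snoc hd (n := 0) (by omega) ha (fun h' => by omega)

/-- Two different labels of the common list near the last label: two walks with the same history. -/
lemma same_ext {Φ : V → V → (ℕ → Q) → Finset Q} (hd : Dep k x y Φ) {n : ℕ} (hn : n + 1 ≤ k)
    {g : ℕ → Q} (hg : PW H R x y Φ n g) {b b' : Q} (hb : b ∈ olst H R x y Φ g (n + 1))
    (hb' : b' ∈ olst H R x y Φ g (n + 1)) (h1 : 1 ≤ n → nr (g n) b = true)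
    (h2 : 1 ≤ n → nr (g n) b' = true) (hne : b ≠ b') :
    ∃ w w', PW H R x y Φ (n + 1) w ∧ PW H R x y Φ (n + 1) w' ∧ w (n + 1) ≠ w' (n + 1) ∧
      Same (n + 1) g w ∧ Same (n + 1) g w' ∧ w (n + 1) = b ∧ w' (n + 1) = b' := by
  have hs : ∀ a : Q, Same (n + 1) g (fun i => if i ≤ n then g i else a) := by
    intro a j j1 j2
    have : j ≤ n := by omega
    simp only [this, if_true]
  exact ⟨_, _, hg.snoc hd hn hb h1, hg.snoc hd hn hb' h2, by simpa using hne, hs _, hs _,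
    by simp, by simp⟩

/-- Two walks with antipodal last labels: one of them has two continuations. -/
lemma anti_split {Φ : V → V → (ℕ → Q) → Finset Q} (hd : Dep k x y Φ) {n : ℕ} (h1 : 1 ≤ n)
    (hn : n + 1 ≤ k) {g g' : ℕ → Q} (hg : PW H R x y Φ n g) (hg' : PW H R x y Φ n g')
    (ha : g' n = neg (g n)) (hl : 3 ≤ (lst H R x y (uni Φ g g') (n + 1)).card) :
    ∃ w w', PW H R x y Φ (n + 1) w ∧ PW H R x y Φ (n + 1) w' ∧ w (n + 1) ≠ w' (n + 1) ∧
      Same (n + 1) w w' ∧ (Same (n + 1) g w ∨ Same (n + 1) g' w) := by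
  obtain ⟨b, hb, b', hb', hne, hcase⟩ := split_anti hl (g n)
  rcases hcase with ⟨c1, c2⟩ | ⟨c1, c2⟩
  · obtain ⟨w, w', p1, p2, p3, p4, p5, -, -⟩ := same_ext hd hn hg (uni_left _ _ _ _ hb)
      (uni_left _ _ _ _ hb') (fun _ => c1) (fun _ => c2) hne
    exact ⟨w, w', p1, p2, p3, p4.symm.trans p5, Or.inl p4⟩
  · rw [← ha] at c1 c2
    obtain ⟨w, w', p1, p2, p3, p4, p5, -, -⟩ := same_ext hd hn hg' (uni_right _ _ _ _ hb)
      (uni_right _ _ _ _ hb') (fun _ => c1) (fun _ => c2) hne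
    exact ⟨w, w', p1, p2, p3, p4.symm.trans p5, Or.inr p4⟩

/-- Two walks with antipodal last labels and a list of five labels: again two such walks. -/
lemma anti_step {Φ : V → V → (ℕ → Q) → Finset Q} (hd : Dep k x y Φ) {n : ℕ} (h1 : 1 ≤ n)
    (hn : n + 1 ≤ k) {g g' : ℕ → Q} (hg : PW H R x y Φ n g) (hg' : PW H R x y Φ n g')
    (ha : g' n = neg (g n)) (hl : 5 ≤ (lst H R x y (uni Φ g g') (n + 1)).card) :
    ∃ w w', PW H R x y Φ (n + 1) w ∧ PW H R x y Φ (n + 1) w' ∧ w' (n + 1) = neg (w (n + 1)) ∧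
      (Same (n + 1) g w ∨ Same (n + 1) g' w) ∧ (Same (n + 1) g w' ∨ Same (n + 1) g' w') := by
  obtain ⟨b, hb, hb'⟩ := exists_anti hl
  have key : ∀ b ∈ lst H R x y (uni Φ g g') (n + 1), ∃ w, PW H R x y Φ (n + 1) w ∧ w (n + 1) = b ∧
      (Same (n + 1) g w ∨ Same (n + 1) g' w) := by
    intro b hb
    have hs : ∀ g : ℕ → Q, Same (n + 1) g (fun i => if i ≤ n then g i else b) := by
      intro g j j1 j2
      have : j ≤ n := by omega
      simp only [this, if_true]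
    rcases nr_or_neg (g n) b with c1 | c1
    · exact ⟨_, hg.snoc hd hn (uni_left _ _ _ _ hb) (fun _ => c1), by simp, Or.inl (hs g)⟩
    · rw [← ha] at c1
      exact ⟨_, hg'.snoc hd hn (uni_right _ _ _ _ hb) (fun _ => c1), by simp, Or.inr (hs g')⟩
  obtain ⟨w, p1, p2, p3⟩ := key b hb
  obtain ⟨w', q1, q2, q3⟩ := key _ hb'
  exact ⟨w, w', p1, q1, by rw [q2, p2], p3, q3⟩

/-- **A component seeing the two ends only, and one owning `x 1`, `y (k-1)` and `y k`.** -/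
theorem k0_end_er (hR : Opt G R) (hG : ClassC G R) (hle : H ≤ G) (hc : Crit H R)
    (h : Chn H R k x y) (hk : 4 ≤ k) (hends : (∀ w, ¬ Lk H R (x 1) w) ∧ ∀ w, ¬ Lk H R (y k) w)
    (hbad : BadH H R k x y) (hone : OneH H R k x y)
    {m0 : ℕ} {z0 c0 : ℕ → V} (hK0 : Cat H R m0 z0 c0)
    (h0 : m0 = 1 ∨ (2 ≤ m0 ∧ NCp m0 (JC k x y c0))) (hs0 : Sp k x y m0 c0 1 1)
    {m : ℕ} {z c : ℕ → V} (hK : Cat H R m z c) {jx p q : ℕ} (hjx : jx ≤ m + 1) (hcjx : c jx = x 1)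
    (hE : ER H R k x y m z c p q)
    (hoth : ∀ m1 z1 c1, Cat H R m1 z1 c1 → cSupp m1 z1 ≠ cSupp m z → cSupp m1 z1 ≠ cSupp m0 z0 →
      2 ≤ m1 → ¬ NCp m1 (JC k x y c1)) : False := by
  have hH := hG.mono hle
  have hkp := h.pos
  obtain ⟨a0, b0, ha0, hb0, -, hca0, hcb0, hin0⟩ := sp11 h hs0
  obtain ⟨hm, hp, hq, hcp, hcq, h3, h4⟩ := hE
  -- different supports
  have hne : cSupp m z ≠ cSupp m0 z0 := by
    intro he
    obtain ⟨j', hj', hcj'⟩ := port_same hK hK0 he hp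
    rw [hcp] at hcj'
    have h1 : InC k x y (c0 j') := by rw [hcj']; exact InC.y (by omega) (by omega)
    rcases (hin0 j' hj').1 h1 with rfl | rfl
    · exact h.xy 1 (k - 1) le_rfl hkp (by omega) (by omega) (hca0.symm.trans hcj')
    · have := h.injy k (k - 1) hkp le_rfl (by omega) (by omega) (hcb0.symm.trans hcj')
      omega
  obtain ⟨ux, ux'⟩ := prt_of hK hjx hcjx
  obtain ⟨u0, u0'⟩ := prt_of hK0 ha0 hca0
  obtain ⟨w0, w0'⟩ := prt_of hK0 hb0 hcb0
  obtain ⟨b1, b1'⟩ := prt_of hK hp hcp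
  obtain ⟨b2, b2'⟩ := prt_of hK hq hcq
  obtain ⟨f, hf⟩ := exists_off h hc
  obtain ⟨φ, hφ, -, hφ1⟩ := ekill_of_ports_card hH h (by omega) hf hK hm hp hq hcp hcq h3 h4
  obtain ⟨pp, pp', κ, hk0⟩ : ∃ p p' κ, K0K H R k x y f (cSupp m0 z0) p p' κ := by
    rcases h0 with rfl | ⟨h01, h02⟩
    · obtain ⟨p, hp⟩ := k0_star h (f := f) hK0 hs0
      exact ⟨p, _, _, hp⟩
    · exact (k0_beta h hK0 h01 h02 hs0).2
  -- the designated port
  obtain ⟨z₀, hz₀⟩ : ∃ z₀, (prt H R (x k)).card = 0 ∨ z₀ ∈ prt H R (x k) := by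
    by_cases h0 : (prt H R (x k)).card = 0
    · exact ⟨x k, Or.inl h0⟩
    · obtain ⟨v, hv⟩ := Finset.card_pos.1 (Nat.pos_of_ne_zero h0)
      exact ⟨v, Or.inr hv⟩
  obtain ⟨Φ, hΦ⟩ := exists_oforb hH h (f := f) (cSupp m z ∪ cSupp m0 z0) (x k) z₀
  have hdisj : ∀ w, w ∈ cSupp m0 z0 → w ∉ cSupp m z := fun w h1 h2 => hne (cSupp_eq hK hK0 h2 h1)
  set Φ' : V → V → (ℕ → Q) → Finset Q := ovr (cSupp m z) φ Φ with hΦ'
  have h2 : ∀ v z g g', (Φ' v z g ∪ Φ' v z g').card ≤ 2 := by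
    intro v z g g'
    simp only [hΦ', ovr]
    split_ifs
    · exact hφ.two v z g g'
    · exact hΦ.two v z g g'
  have hd : Dep k x y Φ' := by
    intro i h1 h2 z g g' hs
    simp only [hΦ', ovr]
    split_ifs
    · exact hφ.dep i h1 h2 z g g' hs
    · exact hΦ.dep i h1 h2 z g g' (hs.mono (by omega))
  -- the first list
  have g0 : ℕ → Q := fun _ => (false, false, false)
  have L1 : 4 ≤ ((olst H R x y Φ' g0 1).erase pp).card := by
    have l := lst_card (G := H) (R := R) (x := x) (y := y) (fun v z => Φ' v z g0) 1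
    have h2' : ∀ v z, (Φ' v z g0).card ≤ 2 := by
      intro v z
      have := h2 v z g0 g0
      rwa [Finset.union_self] at this
    have e1 := cst_pair hH (h.cov (InC.x le_rfl hkp)) ux u0 (fun he => hdisj _ u0' (he ▸ ux'))
      (fun v z => Φ' v z g0)
    have e2 := cst_le h2' (prt_card_lk hH (h.lk 1 le_rfl (by omega)))
    have e3 : (Φ' (x 1) (z (cl m jx)) g0).card ≤ 1 := by
      rw [hΦ', ovr_in ux']; exact hφ1 _ _ _
    have e4 : (Φ' (x 1) (z0 (cl m0 a0)) g0).card = 0 := by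
      rw [hΦ', ovr_out (hdisj _ u0'), hΦ.triv _ _ _ (Or.inr u0')]; simp
    have e5 := Finset.pred_card_le_card_erase (s := olst H R x y Φ' g0 1) (a := pp)
    have e6 : olst H R x y Φ' g0 1 = lst H R x y (fun v z => Φ' v z g0) 1 := rfl
    rw [e6] at e5 ⊢
    omega
  -- the safe start
  have hstart : ∃ (u : Q) (n0 : ℕ) (g g' : ℕ → Q), 1 ≤ n0 ∧ n0 ≤ 2 ∧ PW H R x y Φ' n0 g ∧
      PW H R x y Φ' n0 g' ∧ g n0 ≠ g' n0 ∧ (g 1 ≠ pp ∧ (g 1 = u ∨ g 1 = neg pp)) ∧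
      (g' 1 ≠ pp ∧ (g' 1 = u ∨ g' 1 = neg pp)) := by
    by_cases hnp : neg pp ∈ (olst H R x y Φ' g0 1).erase pp
    · obtain ⟨b, hb, hbn⟩ := Finset.exists_mem_ne (show 1 < ((olst H R x y Φ' g0 1).erase pp).card by
        omega) (neg pp)
      rw [mem_erase] at hnp hb
      refine ⟨b, 1, _, _, le_rfl, by omega, pw_one hd hkp hnp.2, pw_one hd hkp hb.2, ?_, ?_, ?_⟩
      · simpa using hbn.symm
      · simpa using hnp.1
      · simpa using hb.1
    · obtain ⟨b, hb, hb'⟩ := exists_anti4 L1 (Finset.notMem_erase _ _) hnp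
      rw [mem_erase] at hb hb'
      obtain ⟨w, w', p1, p2, p3, p4, p5⟩ := anti_split hd (n := 1) le_rfl (by omega)
        (pw_one hd hkp hb.2) (pw_one hd hkp hb'.2) (by simp) (by
          have := lst_inner hH h (i := 1 + 1) (fun v z => h2 v z (fun i => if i ≤ 0 then g0 i else b)
            (fun i => if i ≤ 0 then g0 i else neg b)) (by omega) (by omega)
          exact le_trans (by omega) this)
      have e1 : w' 1 = w 1 := (p4 1 le_rfl (by omega)).symm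
      have e2 : w 1 ≠ pp := by
        rcases p5 with p5 | p5
        · rw [← p5 1 le_rfl (by omega)]; simpa using hb.1
        · rw [← p5 1 le_rfl (by omega)]; simpa using hb'.1
      exact ⟨w 1, 2, w, w', by omega, le_rfl, p1, p2, p3, ⟨e2, Or.inl rfl⟩,
        ⟨by rw [e1]; exact e2, Or.inl e1⟩⟩
  obtain ⟨u, n0, g1, g1', n1, n2, hg1, hg1', hne1, hP1, hP1'⟩ := hstart
  have hkn : n0 ≤ k - 2 := by omega
  obtain ⟨g, g', hg, hg', hgne, hPg, hPg'⟩ := walks_from hH h h2 hd n1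
    (P := fun g => g 1 ≠ pp ∧ (g 1 = u ∨ g 1 = neg pp))
    (fun g w hs hP => by rw [← hs 1 le_rfl (by omega)]; exact hP) hg1 hg1' hne1 hP1 hP1' hkn (by omega)
  obtain ⟨mu, hmu, hsame, hmD, hfit⟩ := end_walk hR hG hle hc h (by omega) hK b1 b1' b2 b2' hφ hz₀
    hΦ.toOSet (D := {pp', κ u}) (Or.inr ⟨Finset.card_le_two, _, w0, hdisj _ w0', fun g =>
      hΦ.triv _ _ _ (Or.inr w0')⟩) hg hg' hgne
  have hPmu : mu 1 ≠ pp ∧ (mu 1 = u ∨ mu 1 = neg pp) := by
    rcases hsame with hsame | hsame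
    · rw [← hsame 1 le_rfl (by omega)]; exact hPg
    · rw [← hsame 1 le_rfl (by omega)]; exact hPg'
  simp only [mem_insert, mem_singleton, not_or] at hmD
  have hfit0 := hk0.ok mu hPmu.1 hmD.1 (by
    rcases hPmu.2 with h5 | h5
    · right; rw [h5]; exact hmD.2
    · left; exact h5)
  refine end_contra hH hc h hends hf hΦ ?_ ?_ hmu ?_
  · rintro v (⟨j, j1, j2, rfl⟩ | ⟨j, j1, j2, rfl⟩) a b hT
    · exact isTwo_not_cat hK j1 j2 hT
    · exact isTwo_not_cat hK0 j1 j2 hT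
  · intro v w g hw
    exact ovr_out (fun hw' => hw (Or.inl hw'))
  · intro m1 z1 c1 hc1 hex
    by_cases hS : cSupp m1 z1 = cSupp m z
    · right
      rw [cext_iff_fits hc1, hS]
      exact hfit
    · by_cases hS0 : cSupp m1 z1 = cSupp m0 z0
      · right
        rw [cext_iff_fits hc1, hS0]
        exact hfit0
      · left
        refine ⟨okill_of_not_nc hH h hf hc1 hex ?_ ?_ ?_, fun i i1 i2 hi => ?_⟩
        · rintro rfl
          rcases hone _ _ hc1 with h5 | h5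
          · exfalso
            obtain ⟨j, hj, hcj⟩ := h5.px 1 le_rfl le_rfl
            exact no_three hH hc1 hK hK0 hS hS0 hne hj hjx ha0 hcj hcjx hca0
          · exact h5
        · exact fun hm1 hN1 => hoth _ _ _ hc1 hS hS0 hm1 hN1
        · intro p' _ _ h5 _ h6
          exact (hbad m1 z1 c1 hc1 p' h6).1 h5
        · rcases hi with hi | hi
          · exact hS (cSupp_eq hc1 hK (mem_cSupp i1 i2) hi)
          · exact hS0 (cSupp_eq hc1 hK0 (mem_cSupp i1 i2) hi)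

/-- **A component seeing the two ends only, and one owning `x 1`, `y (k-1)` and `y k`.** -/
theorem k0_end (hR : Opt G R) (hG : ClassC G R) (hle : H ≤ G) (hc : Crit H R)
    (h : Chn H R k x y) (hk : 4 ≤ k) (hends : (∀ w, ¬ Lk H R (x 1) w) ∧ ∀ w, ¬ Lk H R (y k) w)
    (hloc : LocH H R k x y) (hbad : BadH H R k x y) (hone : OneH H R k x y)
    {m0 : ℕ} {z0 c0 : ℕ → V} (hK0 : Cat H R m0 z0 c0)
    (h0 : m0 = 1 ∨ (2 ≤ m0 ∧ NCp m0 (JC k x y c0))) (hs0 : Sp k x y m0 c0 1 1)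
    {m : ℕ} {z c : ℕ → V} (hK : Cat H R m z c) (hm : 2 ≤ m) {a b : ℕ} (hs : Sp k x y m c a b)
    (hb : 2 ≤ b) : False := by
  have hH := hG.mono hle
  have hkp := h.pos
  obtain ⟨a0, b0, ha0, hb0, -, hca0, hcb0, hin0⟩ := sp11 h hs0
  obtain ⟨jx, hjx, hcjx⟩ := hs.px 1 le_rfl hs.a1
  obtain ⟨p, q, hE⟩ := er_of_sp (H := H) (R := R) (z := z) h (by omega) hm hs hb
  have hE' := hE
  obtain ⟨-, hp, hq, hcp, hcq, h3, h4⟩ := hE'
  have hne : cSupp m z ≠ cSupp m0 z0 := by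
    intro he
    obtain ⟨j', hj', hcj'⟩ := port_same hK hK0 he hp
    rw [hcp] at hcj'
    have h1 : InC k x y (c0 j') := by rw [hcj']; exact InC.y (by omega) (by omega)
    rcases (hin0 j' hj').1 h1 with rfl | rfl
    · exact h.xy 1 (k - 1) le_rfl hkp (by omega) (by omega) (hca0.symm.trans hcj')
    · have := h.injy k (k - 1) hkp le_rfl (by omega) (by omega) (hcb0.symm.trans hcj')
      omega
  refine k0_end_er hR hG hle hc h hk hends hbad hone hK0 h0 hs0 hK hjx hcjx hE ?_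
  intro m1 z1 c1 hc1 hS hS0 hm1 hN1
  rcases hloc _ _ _ hc1 hm1 hN1 with ⟨a1, b1, h5⟩ | ⟨h5, h6⟩ | ⟨h5, h6⟩
  · obtain ⟨j, hj, hcj⟩ := h5.px 1 le_rfl h5.a1
    exact no_three hH hc1 hK hK0 hS hS0 hne hj hjx ha0 hcj hcjx hca0
  · obtain ⟨a1, b1, h7, h8, -⟩ := h6
    exact no_three hH hc1 hK hK0 hS hS0 hne (j1 := a1) (by omega) hjx ha0 h8 hcjx hca0
  · obtain ⟨a1, b1, h7, h8, -⟩ := h6
    exact no_three hH hc1 hK hK0 hS hS0 hne (j1 := a1) (by omega) hq hb0 h8 hcq hcb0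

end CLB.H91
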