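import Pool.Agent.Helper91_DA.KLab

/-!
Three units: labels, with sets of labels as bit masks.
-/

set_option autoImplicit false

namespace CLB.H91

open Finset
open H3DA (Q neg nr)
open CLB.H95

/-- The zero label. -/
def q0 : Q := (false, false, false)

/-- The number of a label. -/
def en (q : Q) : ℕ := Nat.add (cond q.1 1 0) (Nat.add (cond q.2.1 2 0) (cond q.2.2 4 0))

/-- A bit. -/
def tb (m i : ℕ) : Bool := Nat.beq (Nat.land (Nat.shiftRight m i) 1) 1

lemma tb_eq (m i : ℕ) : tb m i = m.testBit i := by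
  have e : tb m i = Nat.beq ((m >>> i) &&& 1) 1 := rfl
  rw [e, Nat.testBit_eq_decide_div_mod_eq, Nat.and_one_is_mod, Nat.shiftRight_eq_div_pow,
    Bool.eq_iff_iff, Nat.beq_eq, decide_eq_true_eq]

/-- A row. -/
def row (M i : ℕ) : ℕ := Nat.land (Nat.shiftRight M (Nat.mul 8 i)) 255

/-- The table of `ok2`. -/
def tabT : ℕ := 0xd4b2708e4c2a1600d4b0718c4d291500d0b2718a492b1300d0b0708645231700c4a2618e4d2b0700c492518c4c0b170094a2318a0d2a17005432610e492917e800b2708e4c2a16e800b0718c4d2915e000b0708a492b13e000b27186452317c800a2618c4c2b07c80092518e4d0b17a8009231860d2b16680032510e452b15e8d400708e4c2a16e0d000708c4d2915e8d000718a492b13e0d4007186452317a8c400618a4d2a07c8940051864d0b16a89400318e0d2b17685400310e4d2313e0d0b0008e4c2a16e8d4b0008c4d2915e8d0b2008a492b13e0d4b2008645231768c4a2008e492907c85492008e450b15a89432008e0d2313685432000e4d2b17e8d4b270004c2a16c8c4b071004c2915a8d0a27100492a13e094927100452316e8c4a261004d2b07c8d49251004d0b17a894b231000d2b1768543271000d0b07c8c4b2708c002a16e8d4b0718c00291568d0b2618a002913e054b25186002315e8c4a2618e002b07c8d492518e000b17a894b2310e000b07685432710e002b17a8d4a2708a4c001668d4b0618c490015e8d0b2718a490013e0d4323186450013e8c4a2618e4d0007c8d492510e0d0007a894b2318e0d0017685432710e4d0017e8949270864c2a00e854b0518c452900e8d032318a492300e0d4b27186452300e8c4a2610e0d0b00c8d492518e4d0b00a894b2318e0d2b00685432710e4d2b00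

/-- The table of `nr`. -/
def tabN : ℕ := 0xe8d4b2718e4d2b17

/-- The union of the rows in a mask. -/
def orr (B M : ℕ) : ℕ :=
  Nat.lor (cond (tb B 0) (row M 0) 0) (Nat.lor (cond (tb B 1) (row M 1) 0)
  (Nat.lor (cond (tb B 2) (row M 2) 0) (Nat.lor (cond (tb B 3) (row M 3) 0)
  (Nat.lor (cond (tb B 4) (row M 4) 0) (Nat.lor (cond (tb B 5) (row M 5) 0)
  (Nat.lor (cond (tb B 6) (row M 6) 0) (cond (tb B 7) (row M 7) 0)))))))

/-- Remove the lowest bit. -/
def clr (m : ℕ) : ℕ := Nat.land m (Nat.sub m 1)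

/-- At least three, four, five bits. -/
def p3 (m : ℕ) : ℕ := cond (Nat.beq (clr (clr m)) 0) 0 1
def p4 (m : ℕ) : ℕ := cond (Nat.beq (clr (clr (clr m))) 0) 0 1
def p5 (m : ℕ) : ℕ := cond (Nat.beq (clr (clr (clr (clr m)))) 0) 0 1

/-- One start. -/
def one1 (p : ℕ → ℕ) (M1 e2 M2 a e : ℕ) : ℕ := p (Nat.land (orr (Nat.land (row M1 a) e2) M2) e)

/-- The check. -/
def gm (p : ℕ → ℕ) (M1 e2 M2 : ℕ) : Bool :=
  Nat.ble 3 (Nat.add (one1 p M1 e2 M2 1 0x7d) (Nat.add (one1 p M1 e2 M2 2 0x7b)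
    (Nat.add (one1 p M1 e2 M2 3 0x77) (Nat.add (one1 p M1 e2 M2 4 0x6f) (Nat.add (one1 p M1 e2 M2 5 0x5f)
    (Nat.add (one1 p M1 e2 M2 6 0x3f) (one1 p M1 e2 M2 7 0x7f)))))))

lemma gmA : ∀ g g2 g3 g4 : Q, gm p3 (Nat.shiftRight tabT (Nat.add (Nat.mul 512 (en g)) (Nat.mul 64 (en g2))))
    255 (Nat.shiftRight tabT (Nat.add (Nat.mul 512 (en g4)) (Nat.mul 64 (en g3)))) = true := by
  decide +kernel

lemma gmB1 : ∀ g g2 r1 r2 : Q, gm p4
    (Nat.shiftRight tabT (Nat.add (Nat.mul 512 (en g)) (Nat.mul 64 (en g2))))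
    (Nat.land (Nat.xor 255 (Nat.pow 2 (en r1))) (Nat.xor 255 (Nat.pow 2 (en r2)))) tabN = true := by
  decide +kernel

lemma gmB2 : ∀ g g2 r1 : Q, gm p5
    (Nat.shiftRight tabT (Nat.add (Nat.mul 512 (en g)) (Nat.mul 64 (en g2))))
    (Nat.xor 255 (Nat.pow 2 (en r1))) tabN = true := by
  decide +kernel

lemma tabT_ok : ∀ g g2 a t : Q,
    tb tabT (Nat.add (Nat.add (Nat.mul 512 (en g)) (Nat.mul 64 (en g2))) (Nat.add (Nat.mul 8 (en a)) (en t))) =
      ok2 g g2 a t := by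
  decide +kernel

lemma tabN_ok : ∀ a t : Q, tb tabN (Nat.add (Nat.mul 8 (en a)) (en t)) = nr a t := by
  decide +kernel

end CLB.H91
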