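import Pool.Agent.Helper91_DA.Lab3

/-!
Three units: labels, from bit masks to sets of labels.
-/

set_option autoImplicit false

namespace CLB.H91

open Finset
open H3DA (Q neg nr)
open CLB.H95

/-- The labels reached. -/
def rch (s t : Q → Q → Bool) (a : Q) : List Q :=
  allQ.filter (fun c => !(c == a) && !(c == neg q0) && allQ.any (fun b => s a b && t b c))

/-- At least three starts reach at least `n` labels. -/
def good (s t : Q → Q → Bool) (n : ℕ) : Bool :=
  Nat.ble 3 (allQ.filter (fun a => !(a == q0) && Nat.ble n (rch s t a).length)).length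

lemma tb_land (a b i : ℕ) : tb (Nat.land a b) i = (tb a i && tb b i) := by
  rw [tb_eq, tb_eq, tb_eq]; exact Nat.testBit_and a b i

lemma tb_lor (a b i : ℕ) : tb (Nat.lor a b) i = (tb a i || tb b i) := by
  rw [tb_eq, tb_eq, tb_eq]; exact Nat.testBit_or a b i

lemma tb_xor (a b i : ℕ) : tb (Nat.xor a b) i = (tb a i ^^ tb b i) := by
  rw [tb_eq, tb_eq, tb_eq]; exact Nat.testBit_xor a b i

lemma tb_zero (i : ℕ) : tb 0 i = false := by rw [tb_eq]; exact Nat.zero_testBit i

lemma tb_cond (b : Bool) (m i : ℕ) : tb (cond b m 0) i = (b && tb m i) := by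
  cases b
  · simp [tb_zero]
  · simp

lemma tb_shift (m s i : ℕ) : tb (Nat.shiftRight m s) i = tb m (Nat.add s i) := by
  rw [tb_eq, tb_eq]; exact Nat.testBit_shiftRight m

lemma tb_255 {i : ℕ} (hi : i < 8) : tb 255 i = true := by
  rw [tb_eq]
  have e : (255 : ℕ) = 2 ^ 8 - 1 := by norm_num
  rw [e, Nat.testBit_two_pow_sub_one, decide_eq_true_eq]
  exact hi

lemma tb_row (M i : ℕ) {j : ℕ} (hj : j < 8) : tb (row M i) j = tb M (Nat.add (Nat.mul 8 i) j) := by
  unfold row
  rw [tb_land, tb_255 hj, Bool.and_true, tb_shift]

lemma tb_orr (B M : ℕ) {j : ℕ} (hj : j < 8) :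
    tb (orr B M) j = allQ.any (fun b => tb B (en b) && tb M (Nat.add (Nat.mul 8 (en b)) j)) := by
  unfold orr allQ
  simp only [tb_lor, tb_cond, tb_row _ _ hj, List.any_cons, List.any_nil, Bool.or_false]
  rfl

lemma en_lt : ∀ q : Q, en q < 8 := by decide

lemma land_lt (m : ℕ) {e : ℕ} (he : e < 256) : Nat.land m e < 256 := by
  have : Nat.land m e = m &&& e := rfl
  rw [this]
  exact lt_of_le_of_lt Nat.and_le_right he

lemma p3_ok : ∀ m < 256, p3 m ≤ 1 ∧ (p3 m = 1 → 3 ≤ (allQ.filter (fun c => tb m (en c))).length) := by
  decide +kernel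

lemma p4_ok : ∀ m < 256, p4 m ≤ 1 ∧ (p4 m = 1 → 4 ≤ (allQ.filter (fun c => tb m (en c))).length) := by
  decide +kernel

lemma p5_ok : ∀ m < 256, p5 m ≤ 1 ∧ (p5 m = 1 → 5 ≤ (allQ.filter (fun c => tb m (en c))).length) := by
  decide +kernel

/-- The mask of the labels different from `a` and from the antipode of zero. -/
def exm (a : Q) : ℕ := Nat.land (Nat.xor 255 (Nat.pow 2 (en a))) 127

lemma exm_ok : ∀ a c : Q, tb (exm a) (en c) = (!(c == a) && !(c == neg q0)) := by decide +kernel

/-- From masks to labels. -/
theorem good_of_gm {p : ℕ → ℕ} {n : ℕ}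
    (hp : ∀ m < 256, p m ≤ 1 ∧ (p m = 1 → n ≤ (allQ.filter (fun c => tb m (en c))).length))
    {M1 e2 M2 : ℕ} {s t : Q → Q → Bool}
    (hs : ∀ a b, s a b = (tb M1 (Nat.add (Nat.mul 8 (en a)) (en b)) && tb e2 (en b)))
    (ht : ∀ b c, t b c = tb M2 (Nat.add (Nat.mul 8 (en b)) (en c)))
    (h : gm p M1 e2 M2 = true) : good s t n = true := by
  have hrch : ∀ a, rch s t a = allQ.filter (fun c =>
      tb (Nat.land (orr (Nat.land (row M1 (en a)) e2) M2) (exm a)) (en c)) := by
    intro a
    unfold rch
    apply List.filter_congr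
    intro c _
    rw [tb_land, exm_ok, tb_orr _ _ (en_lt c), Bool.and_comm]
    congr 2
    funext b
    rw [hs, ht, tb_land, tb_row _ _ (en_lt b)]
  have hone : ∀ a, one1 p M1 e2 M2 (en a) (exm a) ≤ if Nat.ble n (rch s t a).length = true then 1 else 0 := by
    intro a
    have hlt : Nat.land (orr (Nat.land (row M1 (en a)) e2) M2) (exm a) < 256 := by
      apply land_lt
      have : ∀ a : Q, exm a < 256 := by decide +kernel
      exact this a
    obtain ⟨h1, h2⟩ := hp _ hlt
    unfold one1
    split_ifs with h3
    · exact h1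
    · rcases Nat.lt_or_ge (p (Nat.land (orr (Nat.land (row M1 (en a)) e2) M2) (exm a))) 1 with h4 | h4
      · omega
      · exfalso
        apply h3
        rw [hrch]
        exact Nat.ble_eq_true_of_le (h2 (by omega))
  unfold good
  apply Nat.ble_eq_true_of_le
  have hg : 3 ≤ one1 p M1 e2 M2 1 0x7d + (one1 p M1 e2 M2 2 0x7b + (one1 p M1 e2 M2 3 0x77 +
      (one1 p M1 e2 M2 4 0x6f + (one1 p M1 e2 M2 5 0x5f + (one1 p M1 e2 M2 6 0x3f +
        one1 p M1 e2 M2 7 0x7f))))) := Nat.le_of_ble_eq_true h
  have h1 := hone (true, false, false)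
  have h2 := hone (false, true, false)
  have h3 := hone (true, true, false)
  have h4 := hone (false, false, true)
  have h5 := hone (true, false, true)
  have h6 := hone (false, true, true)
  have h7 := hone (true, true, true)
  have e1 : en (true, false, false) = 1 := rfl
  have e2' : en (false, true, false) = 2 := rfl
  have e3 : en (true, true, false) = 3 := rfl
  have e4 : en (false, false, true) = 4 := rfl
  have e5 : en (true, false, true) = 5 := rfl
  have e6 : en (false, true, true) = 6 := rfl
  have e7 : en (true, true, true) = 7 := rfl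
  have x1 : exm (true, false, false) = 0x7d := by decide +kernel
  have x2 : exm (false, true, false) = 0x7b := by decide +kernel
  have x3 : exm (true, true, false) = 0x77 := by decide +kernel
  have x4 : exm (false, false, true) = 0x6f := by decide +kernel
  have x5 : exm (true, false, true) = 0x5f := by decide +kernel
  have x6 : exm (false, true, true) = 0x3f := by decide +kernel
  have x7 : exm (true, true, true) = 0x7f := by decide +kernel
  rw [e1, x1] at h1
  rw [e2', x2] at h2
  rw [e3, x3] at h3
  rw [e4, x4] at h4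
  rw [e5, x5] at h5
  rw [e6, x6] at h6
  rw [e7, x7] at h7
  rw [← List.countP_eq_length_filter]
  have hc : allQ.countP (fun a => !(a == q0) && Nat.ble n (rch s t a).length) =
      (if Nat.ble n (rch s t (true, true, true)).length = true then 1 else 0) +
      (if Nat.ble n (rch s t (false, true, true)).length = true then 1 else 0) +
      (if Nat.ble n (rch s t (true, false, true)).length = true then 1 else 0) +
      (if Nat.ble n (rch s t (false, false, true)).length = true then 1 else 0) +
      (if Nat.ble n (rch s t (true, true, false)).length = true then 1 else 0) +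
      (if Nat.ble n (rch s t (false, true, false)).length = true then 1 else 0) +
      (if Nat.ble n (rch s t (true, false, false)).length = true then 1 else 0) := by
    have f0 : ((false, false, false) == q0) = true := by decide
    have f1 : ((true, false, false) == q0) = false := by decide
    have f2 : ((false, true, false) == q0) = false := by decide
    have f3 : ((true, true, false) == q0) = false := by decide
    have f4 : ((false, false, true) == q0) = false := by decide
    have f5 : ((true, false, true) == q0) = false := by decide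
    have f6 : ((false, true, true) == q0) = false := by decide
    have f7 : ((true, true, true) == q0) = false := by decide
    unfold allQ
    simp only [List.countP_cons, List.countP_nil, f0, f1, f2, f3, f4, f5, f6, f7, Bool.not_true,
      Bool.not_false, Bool.false_and, Bool.true_and, Bool.false_eq_true, if_false, Nat.zero_add,
      Nat.add_zero]
  rw [hc]
  omega

lemma goodA (g g2 g3 g4 : Q) : good (ok2 g g2) (ok2 g4 g3) 3 = true := by
  refine good_of_gm p3_ok (fun a b => ?_) (fun b c => ?_) (gmA g g2 g3 g4)
  · rw [tb_255 (en_lt b), Bool.and_true, tb_shift, ← tabT_ok]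
  · rw [tb_shift, ← tabT_ok]

lemma mask_ok : ∀ r b : Q, tb (Nat.xor 255 (Nat.pow 2 (en r))) (en b) = !(b == r) := by decide +kernel

lemma goodB1 (g g2 r1 r2 : Q) :
    good (fun a b => !(b == r1) && !(b == r2) && ok2 g g2 a b) nr 4 = true := by
  refine good_of_gm p4_ok (fun a b => ?_) (fun b c => ?_) (gmB1 g g2 r1 r2)
  · rw [tb_land, mask_ok, mask_ok, tb_shift, ← tabT_ok, Bool.and_comm]
  · rw [← tabN_ok]

lemma goodB2 (g g2 r : Q) : good (fun a b => !(b == r) && ok2 g g2 a b) nr 5 = true := by
  refine good_of_gm p5_ok (fun a b => ?_) (fun b c => ?_) (gmB2 g g2 r)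
  · rw [mask_ok, tb_shift, ← tabT_ok, Bool.and_comm]
  · rw [← tabN_ok]

end CLB.H91
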