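import Pool.Agent.Helper91_DA.LateLab
import Pool.Agent.Helper91_DA.K0All

/-!
Two nearly closed components, one seeing `y (k-1)` and `y k`, the other one seeing `y k` and the first
units.
-/

set_option autoImplicit false
set_option linter.unusedSectionVars false

namespace CLB.H91

open Finset Classical
open H3DA (Q neg nr)
open CLB.H95
open CLB.H3 (CExt Cat IsTwo Fits UPath he_of_unc cat_structure chn_side pos)

variable {V : Type*} {G H : SimpleGraph V} {R : V → Bool} [Fintype V] {k : ℕ} {x y : ℕ → V}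

/-- A component with one port in the last two units, at `y k`. -/
structure LC (H : SimpleGraph V) (R : V → Bool) (k : ℕ) (x y : ℕ → V) (m : ℕ) (z c : ℕ → V)
    (q : ℕ) : Prop where
  cat : Cat H R m z c
  hm : 2 ≤ m
  hq : q ≤ m + 1
  cq : c q = y k
  low : ∀ j ≤ m + 1, j ≠ q → InC k x y (c j) → idx k x y (c j) + 2 ≤ k

/-- The charges: conflicts of the forks without the late port. -/
noncomputable def phK (k : ℕ) (x y : ℕ → V) (f : V → Q) (m q : ℕ) (z c : ℕ → V) :
    V → V → (ℕ → Q) → Finset Q := phe k x y f m q q 0 z c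

lemma exc_false {m q : ℕ} (hm : 2 ≤ m) : ¬ exc m q q := by
  rintro ⟨-, h⟩
  unfold Lf at h
  omega

lemma phK_card {m q : ℕ} {z c : ℕ → V} (hK : Cat H R m z c) (f : V → Q) (v w : V) (g : ℕ → Q) :
    (phK k x y f m q z c v w g).card ≤ 1 := by
  rcases phe_cases (k := k) (x := x) (y := y) (f := f) (p := q) (q := q) (j₀ := 0) hK v w with
    h3 | ⟨j, hj, hcj, -, h3⟩
  · show (phe k x y f m q q 0 z c v w g).card ≤ 1
    rw [h3]; simp
  · show (phe k x y f m q q 0 z c v w g).card ≤ 1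
    rw [h3]; exact gam_card _ _ _ _ _ _ _ _

lemma phK_no {m q : ℕ} {z c : ℕ → V} (hK : Cat H R m z c) (hm : 2 ≤ m) {f : V → Q} {j : ℕ}
    (hj : j ≤ m + 1) (hn : ¬ chg k x y m q q c j) (g : ℕ → Q) :
    phK k x y f m q z c (c j) (z (cl m j)) g = ∅ := by
  show phe k x y f m q q 0 z c (c j) (z (cl m j)) g = ∅
  rw [phe_eq hK hj]
  unfold gam
  rw [if_neg hn, if_neg (fun h => exc_false hm h.1)]

lemma phK_yes {m q : ℕ} {z c : ℕ → V} (hK : Cat H R m z c) {f : V → Q} {j : ℕ}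
    (hj : j ≤ m + 1) (hn : chg k x y m q q c j) (g : ℕ → Q) :
    phK k x y f m q z c (c j) (z (cl m j)) g = {neg (lbl k x y g f (c (mte m j)))} := by
  show phe k x y f m q q 0 z c (c j) (z (cl m j)) g = _
  rw [phe_eq hK hj]
  unfold gam
  rw [if_pos hn]

lemma phK_dep (h : Chn H R k x y) {m q : ℕ} {z c : ℕ → V} (hK : Cat H R m z c) (hm : 2 ≤ m)
    {f : V → Q} {i : ℕ} (h1 : 1 ≤ i) (h2 : i ≤ k) (w : V) {g g' : ℕ → Q} (hs : Same (i - 1) g g') :
    phK k x y f m q z c (x i) w g = phK k x y f m q z c (x i) w g' ∧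
      phK k x y f m q z c (y i) w g = phK k x y f m q z c (y i) w g' := by
  have main : ∀ v, (v = x i ∨ v = y i) →
      phe k x y f m q q 0 z c v w g = phe k x y f m q q 0 z c v w g' := by
    intro v hv
    rcases phe_cases (k := k) (x := x) (y := y) (f := f) (p := q) (q := q) (j₀ := 0) hK v w with
      h3 | ⟨j, hj, hcj, -, h3⟩
    · rw [h3, h3]
    · rw [h3, h3]
      have hidx : idx k x y (c j) = i := by
        rw [hcj]
        rcases hv with rfl | rfl
        · exact idx_x h h1 h2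
        · exact idx_y h h1 h2
      have hin : InC k x y (c j) := by
        rw [hcj]
        rcases hv with rfl | rfl
        · exact InC.x h1 h2
        · exact InC.y h1 h2
      unfold gam
      split_ifs with h4 h5
      · rw [chg_congr h hK hm hj h4 hin (by rw [hidx]; exact hs)]
      · exact absurd h5.1 (exc_false hm)
      · rfl
  exact ⟨main _ (Or.inl rfl), main _ (Or.inr rfl)⟩

/-- With these charges we still have an online strategy. -/
lemma oset_phK (h : Chn H R k x y) {m q : ℕ} {z c : ℕ → V} (hK : LC H R k x y m z c q) {f : V → Q}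
    {z₀ : V} {Φ : V → V → (ℕ → Q) → Finset Q} (hΦ : OSet H R k x y (x k) z₀ Φ) :
    OSet H R k x y (x k) z₀ (ovr (cSupp m z) (phK k x y f m q z c) Φ) where
  two v w g g' := by
    by_cases hw : w ∈ cSupp m z
    · rw [ovr_in hw, ovr_in hw]
      have e1 := phK_card (k := k) (x := x) (y := y) (q := q) hK.cat f v w g
      have e2 := phK_card (k := k) (x := x) (y := y) (q := q) hK.cat f v w g'
      exact (Finset.card_union_le _ _).trans (by omega)
    · rw [ovr_out hw, ovr_out hw]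
      exact hΦ.two v w g g'
  one h1 h2 g g' := by
    by_cases hw : z₀ ∈ cSupp m z
    · rw [ovr_in hw, ovr_in hw]
      have : ∀ g, phK k x y f m q z c (x k) z₀ g = ∅ := by
        intro g
        rcases phe_cases (k := k) (x := x) (y := y) (f := f) (p := q) (q := q) (j₀ := 0) hK.cat (x k)
          z₀ with h3 | ⟨j, hj, hcj, -, -⟩
        · exact h3 g
        · exfalso
          by_cases hjq : j = q
          · rw [hjq, hK.cq] at hcj
            exact h.xy k k h.pos le_rfl h.pos le_rfl hcj.symm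
          · have := hK.low j hj hjq (by rw [hcj]; exact InC.x h.pos le_rfl)
            rw [hcj, idx_x h h.pos le_rfl] at this
            omega
      rw [this, this]
      simp
    · rw [ovr_out hw, ovr_out hw]
      exact hΦ.one h1 h2 g g'
  dep i i1 i2 w g g' hs := by
    by_cases hw : w ∈ cSupp m z
    · rw [ovr_in hw, ovr_in hw, ovr_in hw, ovr_in hw]
      exact phK_dep h hK.cat hK.hm i1 i2 w hs
    · rw [ovr_out hw, ovr_out hw, ovr_out hw, ovr_out hw]
      exact hΦ.dep i i1 i2 w g g' hs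

/-- Partial walks avoid the charges. -/
lemma pav_of (h : Chn H R k x y) {m : ℕ} {z c : ℕ → V} (hK : Cat H R m z c) {f : V → Q}
    {φ Φ' : V → V → (ℕ → Q) → Finset Q} (he : ∀ v w g, w ∈ cSupp m z → Φ' v w g = φ v w g) {n : ℕ}
    {g : ℕ → Q} (hg : PW H R x y Φ' n g) : PAv H k x y f (cSupp m z) φ n g := by
  intro w hw v hv hin hi
  obtain ⟨i, h1, h2, hvi⟩ := hin
  have hidx : idx k x y v = i := by
    rcases hvi with rfl | rfl
    · exact idx_x h h1 h2
    · exact idx_y h h1 h2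
  rw [hidx] at hi
  have hm := hg.mem i h1 hi
  unfold olst at hm
  rw [mem_lst] at hm
  have hwc : ¬ Cov H R w := by
    obtain ⟨j, j1, j2, rfl⟩ := hw
    exact hK.unc j j1 j2
  rcases hvi with rfl | rfl
  · rw [lbl_x h h1 h2]
    have := hm.1 w (mem_prt.2 ⟨hv, hwc⟩)
    rwa [he _ _ _ hw] at this
  · rw [lbl_y h h1 h2]
    have := hm.2 w (mem_prt.2 ⟨hv, hwc⟩)
    rwa [he _ _ _ hw] at this

/-- The forks without the late port have no conflict. -/
lemma fna_late (hH : ClassC H R) (h : Chn H R k x y) {f : V → Q} (hf : OffC H R k x y f) {m q : ℕ}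
    {z c : ℕ → V} (hK : LC H R k x y m z c q) {g : ℕ → Q}
    (hg : PAv H k x y f (cSupp m z) (phK k x y f m q z c) (k - 2) g) :
    (q ≠ 0 → q ≠ 1 → lbl k x y g f (c 0) ≠ neg (lbl k x y g f (c 1))) ∧
    (q ≠ m → q ≠ m + 1 → lbl k x y g f (c m) ≠ neg (lbl k x y g f (c (m + 1)))) := by
  have hm := hK.hm
  have hoth : ∀ j ≤ m + 1, j ≠ q → j ≠ q → InC k x y (c j) → idx k x y (c j) + 2 ≤ k :=
    fun j hj h1 _ h2 => hK.low j hj h1 h2
  constructor
  · intro h1 h2
    have e : mte m 0 = 1 := rfl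
    have := fork_fine hH h hf hK.cat hK.hm hoth hg (i := 0) (by omega) (Or.inl (by omega))
      (by rw [e]; exact hK.cat.ne0) h1.symm h1.symm (by rw [e]; exact h2.symm)
      (by rw [e]; exact h2.symm)
    rw [e] at this
    exact this
  · intro h1 h2
    have e : mte m m = m + 1 := mte_m hm
    have := fork_fine hH h hf hK.cat hK.hm hoth hg (i := m) (by omega) (Or.inr le_rfl)
      (by rw [e]; exact hK.cat.nem) h1.symm h1.symm (by rw [e]; exact h2.symm)
      (by rw [e]; exact h2.symm)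
    rw [e] at this
    exact this

/-- A third component. -/
lemma pair_others (hH : ClassC H R) (h : Chn H R k x y)
    (hloc : LocH H R k x y) (hone : OneH H R k x y)
    {m : ℕ} {z c : ℕ → V} (hK : Cat H R m z c) {m' : ℕ} {z' c' : ℕ → V} (hK' : Cat H R m' z' c')
    (hne : cSupp m z ≠ cSupp m' z') {a a' b b' : ℕ} (ha : a ≤ m + 1) (ha' : a' ≤ m' + 1)
    (hb : b ≤ m + 1) (hb' : b' ≤ m' + 1) (ea : c a = x 1) (ea' : c' a' = x 1) (eb : c b = y k)
    (eb' : c' b' = y k) {m1 : ℕ} {z1 c1 : ℕ → V} (hc1 : Cat H R m1 z1 c1)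
    (n0 : cSupp m1 z1 ≠ cSupp m z) (n1 : cSupp m1 z1 ≠ cSupp m' z') :
    (m1 = 1 → ∀ i j, i ≤ 2 → j ≤ 2 → InC k x y (c1 i) → InC k x y (c1 j) → i = j) ∧
    (2 ≤ m1 → ¬ NCp m1 (JC k x y c1)) := by
  have hx : ∀ j ≤ m1 + 1, c1 j ≠ x 1 := fun j hj he =>
    no_three hH hc1 hK hK' n0 n1 hne hj ha ha' he ea ea'
  have hy : ∀ j ≤ m1 + 1, c1 j ≠ y k := fun j hj he =>
    no_three hH hc1 hK hK' n0 n1 hne hj hb hb' he eb eb'
  constructor
  · rintro rfl
    rcases hone _ _ hc1 with h5 | h5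
    · exfalso
      obtain ⟨j, hj, hcj⟩ := h5.px 1 le_rfl le_rfl
      exact hx j hj hcj
    · exact h5
  · intro hm1 hN1
    rcases hloc _ _ _ hc1 hm1 hN1 with ⟨a1, b1, h5⟩ | ⟨h5, h6⟩ | ⟨h5, h6⟩
    · obtain ⟨j, hj, hcj⟩ := h5.px 1 le_rfl h5.a1
      exact hx j hj hcj
    · obtain ⟨a1, b1, h7, h8, -⟩ := h6
      exact hx a1 (by omega) h8
    · obtain ⟨a1, b1, h7, h8, -⟩ := h6
      exact hy a1 (by omega) h8

/-- The situation of two components. -/
structure PC (H : SimpleGraph V) (R : V → Bool) (k : ℕ) (x y : ℕ → V) (m : ℕ) (z c : ℕ → V) (q : ℕ)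
    (m' : ℕ) (z' c' : ℕ → V) (a b : ℕ) : Prop where
  lc : LC H R k x y m z c q
  cat' : Cat H R m' z' c'
  hm' : 2 ≤ m'
  ne : cSupp m z ≠ cSupp m' z'
  sp : Sp k x y m c a 1
  sp' : Sp k x y m' c' 1 b
  a2 : 2 ≤ a
  b2 : 2 ≤ b
  ak : a + 2 ≤ k

/-- **The end.** -/
theorem late_fin (hR : Opt G R) (hG : ClassC G R) (hle : H ≤ G) (hc : Crit H R)
    (h : Chn H R k x y) (hk : 4 ≤ k) (hends : (∀ w, ¬ Lk H R (x 1) w) ∧ ∀ w, ¬ Lk H R (y k) w)
    (hloc : LocH H R k x y) {m : ℕ} {z c : ℕ → V} {q : ℕ} {m' : ℕ} {z' c' : ℕ → V} {a b : ℕ}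
    (hP : PC H R k x y m z c q m' z' c' a b) {f : V → Q} (hf : OffC H R k x y f)
    {zy zk : V} (hzy : zy ∈ prt H R (y (k - 1))) (hzyE : zy ∈ cSupp m' z') (hzk : zk ∈ prt H R (y k))
    (hzkE : zk ∈ cSupp m' z') {φ : V → V → (ℕ → Q) → Finset Q}
    (hφ : EKill H R k x y f (cSupp m' z') (if InnerPt H R zy then 4 else 3) φ)
    {z₀ : V} (hz₀ : (prt H R (x k)).card = 0 ∨ z₀ ∈ prt H R (x k))
    {Φ : V → V → (ℕ → Q) → Finset Q} (hΦ : OForb H R k x y f (cSupp m' z' ∪ cSupp m z) (x k) z₀ Φ)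
    {D : Finset Q} (hD : D.card ≤ 2) {g g' : ℕ → Q}
    (hg : PW H R x y (ovr (cSupp m' z') φ (ovr (cSupp m z) (phK k x y f m q z c) Φ)) (k - 2) g)
    (hg' : PW H R x y (ovr (cSupp m' z') φ (ovr (cSupp m z) (phK k x y f m q z c) Φ)) (k - 2) g')
    (hne : g (k - 2) ≠ g' (k - 2))
    (hb : (bad1 m q (fun j => lbl k x y g f (c j))).image (tau k) ⊆ D)
    (hb' : (bad1 m q (fun j => lbl k x y g' f (c j))).image (tau k) ⊆ D) : False := by
  have hH := hG.mono hle
  have hkp := h.pos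
  have hLC := hP.lc
  obtain ⟨w0, w0'⟩ := prt_of hLC.cat hLC.hq hLC.cq
  have hdis : ∀ w, w ∈ cSupp m z → w ∉ cSupp m' z' := fun w h1 h2 =>
    hP.ne (cSupp_eq hLC.cat hP.cat' h1 h2)
  have hnc : ¬ chg k x y m q q c q := fun hh => hh.2.1 rfl
  obtain ⟨mu, hmu, hsame, hmD, hfit⟩ := end_walk hR hG hle hc h (by omega) hP.cat' hzy hzyE hzk hzkE hφ
    hz₀ (oset_phK h hLC (f := f) hΦ.toOSet) (D := D) (Or.inr ⟨hD, _, w0, hdis _ w0', fun g => by
      rw [ovr_in w0', ← hLC.cq]
      exact phK_no hLC.cat hLC.hm hLC.hq hnc g⟩) hg hg' hne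
  -- the late component
  have key : ∀ g : ℕ → Q, (bad1 m q (fun j => lbl k x y g f (c j))).image (tau k) ⊆ D →
      Same (k - 1) g mu → CExt m (fun j => lbl k x y mu f (c j)) := by
    intro g hb hs
    by_contra hcon
    apply hmD
    apply hb
    rw [mem_image]
    refine ⟨tau k (mu k), ?_, tau_tau k _⟩
    rw [mem_bad1]
    intro hE
    apply hcon
    refine cext_congr (by have := hLC.hm; omega) (fun j hj => ?_) hE
    by_cases hjq : j = q
    · rw [hjq, fl1_q, hLC.cq, lbl_yt h hkp le_rfl]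
    · rw [fl1_o hjq]
      by_cases hin : InC k x y (c j)
      · refine lbl_congr h hin (hs _ (idx_spec hin).1 ?_)
        have := hLC.low j hj hjq hin
        omega
      · rw [lbl_out hin, lbl_out hin]
  have hext : CExt m (fun j => lbl k x y mu f (c j)) := by
    rcases hsame with hs | hs
    · exact key g hb hs
    · exact key g' hb' hs
  obtain ⟨ja, hja, hcja⟩ := hP.sp.px 1 le_rfl (by have := hP.a2; omega)
  obtain ⟨ja', hja', hcja'⟩ := hP.sp'.px 1 le_rfl le_rfl
  obtain ⟨jb', hjb', hcjb'⟩ := hP.sp'.py k le_rfl (by have := hP.b2; omega)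
  refine end_contra hH hc h hends hf hΦ ?_ ?_ hmu ?_
  · rintro v (⟨j, j1, j2, rfl⟩ | ⟨j, j1, j2, rfl⟩) a b hT
    · exact isTwo_not_cat hP.cat' j1 j2 hT
    · exact isTwo_not_cat hLC.cat j1 j2 hT
  · intro v w g hw
    rw [ovr_out (fun hw' => hw (Or.inl hw')), ovr_out (fun hw' => hw (Or.inr hw'))]
  · intro m1 z1 c1 hc1 hex
    by_cases hS : cSupp m1 z1 = cSupp m' z'
    · right
      rw [cext_iff_fits hc1, hS]
      exact hfit
    · by_cases hS0 : cSupp m1 z1 = cSupp m z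
      · right
        rw [cext_iff_fits hc1, hS0, ← cext_iff_fits hLC.cat]
        exact hext
      · left
        obtain ⟨o1, o2⟩ := pair_others hH h hloc (oneH hH h (by omega)) hLC.cat hP.cat' hP.ne hja hja'
          hLC.hq hjb' hcja hcja' hLC.cq hcjb' hc1 hS0 hS
        refine ⟨okill_of_not_nc hH h hf hc1 hex o1 o2 ?_, fun i i1 i2 hi => ?_⟩
        · intro p' _ _ h5 _ h6
          exact (badH hH hc h (by omega) m1 z1 c1 hc1 p' h6).1 h5
        · rcases hi with hi | hi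
          · exact hS (cSupp_eq hc1 hP.cat' (mem_cSupp i1 i2) hi)
          · exact hS0 (cSupp_eq hc1 hLC.cat (mem_cSupp i1 i2) hi)

end CLB.H91
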