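import Pool.Agent.Helper91_DA.EKill

/-!
One open port: the bad labels.
-/

set_option autoImplicit false

namespace CLB.H91

open Finset
open H3DA (Q neg nr)
open CLB.H95
open CLB.H3 (CExt)

/-- Fill one label. -/
def fl1 (s : ℕ → Q) (q : ℕ) (t : Q) : ℕ → Q := fun j => if j = q then t else s j

lemma fl1_q (s : ℕ → Q) (q : ℕ) (t : Q) : fl1 s q t q = t := by unfold fl1; simp

lemma fl1_o {s : ℕ → Q} {q j : ℕ} (h1 : j ≠ q) (t : Q) : fl1 s q t j = s j := by
  unfold fl1; rw [if_neg h1]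

/-- The label in a tight labelling is determined by the others. -/
theorem tight_unique {m : ℕ} (hm : 2 ≤ m) {q : ℕ} (hq : q ≤ m + 1) {s : ℕ → Q} {t t' : Q} {D D' : Ty}
    (h : Tight D (fl1 s q t) m) (h' : Tight D' (fl1 s q t') m) : t = t' := by
  by_cases hl : q ≤ 1
  · -- the right fork gives the type
    have e := h.2.2
    have e' := h'.2.2
    rw [fl1_o (by omega), fl1_o (by omega)] at e e'
    have hD := altT_inj (frk_unique _ _ _ _ e e')
    subst hD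
    have g := h.1
    have g' := h'.1
    have : q = 0 ∨ q = 1 := by omega
    rcases this with rfl | rfl
    · rw [fl1_q, fl1_o (by omega)] at g g'
      rw [frk_iff'.1 g, frk_iff'.1 g']
    · rw [fl1_q, fl1_o (by omega)] at g g'
      rw [frk_iff.1 g, frk_iff.1 g']
  · have e := h.1
    have e' := h'.1
    rw [fl1_o (by omega), fl1_o (by omega)] at e e'
    have hD := frk_unique _ _ _ _ e e'
    subst hD
    by_cases hr : m ≤ q
    · have g := h.2.2
      have g' := h'.2.2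
      have : q = m ∨ q = m + 1 := by omega
      rcases this with rfl | rfl
      · rw [fl1_q, fl1_o (by omega)] at g g'
        rw [frk_iff'.1 g, frk_iff'.1 g']
      · rw [fl1_q, fl1_o (by omega)] at g g'
        rw [frk_iff.1 g, frk_iff.1 g']
    · have g := mem_inn h (j := q) (by omega) (by omega)
      have g' := mem_inn h' (j := q) (by omega) (by omega)
      rw [fl1_q, fl1_o (by omega), fl1_o (by omega)] at g g'
      exact Finset.card_le_one.1 (inn_card D _ _ (by omega)) _ g _ g'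

/-- The bad labels. -/
noncomputable def bad1 (m q : ℕ) (s : ℕ → Q) : Finset Q := by
  classical exact univ.filter (fun t => ¬ CExt m (fl1 s q t))

lemma mem_bad1 {m q : ℕ} {s : ℕ → Q} {t : Q} : t ∈ bad1 m q s ↔ ¬ CExt m (fl1 s q t) := by
  classical
  unfold bad1
  simp

/-- A leaf: what is bad. -/
lemma bad1_leaf_cases {m : ℕ} (hm : 2 ≤ m) {q q' : ℕ} {s : ℕ → Q}
    (hqq : (q = 0 ∧ q' = 1) ∨ (q = 1 ∧ q' = 0) ∨ (q = m ∧ q' = m + 1) ∨ (q = m + 1 ∧ q' = m))
    (hL : q ≠ 0 → q ≠ 1 → s 0 ≠ neg (s 1)) (hR : q ≠ m → q ≠ m + 1 → s m ≠ neg (s (m + 1)))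
    {t : Q} (ht : t ∈ bad1 m q s) : t = neg (s q') ∨ ∃ D, Tight D (fl1 s q t) m := by
  rw [mem_bad1] at ht
  rcases notext (by omega) ht with h1 | h1 | h1
  · left
    rcases hqq with ⟨rfl, rfl⟩ | ⟨rfl, rfl⟩ | ⟨rfl, rfl⟩ | ⟨rfl, rfl⟩
    · rw [fl1_q, fl1_o (by omega)] at h1; exact h1
    · rw [fl1_q, fl1_o (by omega)] at h1; exact H3DA.eq_neg_symm h1
    · rw [fl1_o (by omega), fl1_o (by omega)] at h1
      exact absurd h1 (hL (by omega) (by omega))
    · rw [fl1_o (by omega), fl1_o (by omega)] at h1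
      exact absurd h1 (hL (by omega) (by omega))
  · left
    rcases hqq with ⟨rfl, rfl⟩ | ⟨rfl, rfl⟩ | ⟨rfl, rfl⟩ | ⟨rfl, rfl⟩
    · rw [fl1_o (by omega), fl1_o (by omega)] at h1
      exact absurd h1 (hR (by omega) (by omega))
    · rw [fl1_o (by omega), fl1_o (by omega)] at h1
      exact absurd h1 (hR (by omega) (by omega))
    · rw [fl1_q, fl1_o (by omega)] at h1; exact h1
    · rw [fl1_q, fl1_o (by omega)] at h1; exact H3DA.eq_neg_symm h1
  · exact Or.inr h1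

/-- A leaf: at most two bad labels. -/
lemma bad1_leaf {m : ℕ} (hm : 2 ≤ m) {q q' : ℕ} {s : ℕ → Q}
    (hqq : (q = 0 ∧ q' = 1) ∨ (q = 1 ∧ q' = 0) ∨ (q = m ∧ q' = m + 1) ∨ (q = m + 1 ∧ q' = m))
    (hL : q ≠ 0 → q ≠ 1 → s 0 ≠ neg (s 1)) (hR : q ≠ m → q ≠ m + 1 → s m ≠ neg (s (m + 1))) :
    ∃ T : Q, bad1 m q s ⊆ {neg (s q'), T} := by
  by_cases hex : ∃ t D, Tight D (fl1 s q t) m
  · obtain ⟨t0, D0, h0⟩ := hex
    refine ⟨t0, fun t ht => ?_⟩
    rw [mem_insert, mem_singleton]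
    rcases bad1_leaf_cases hm hqq hL hR ht with h1 | ⟨D, h1⟩
    · exact Or.inl h1
    · exact Or.inr (tight_unique hm (by omega) h1 h0)
  · refine ⟨neg (s q'), fun t ht => ?_⟩
    rw [mem_insert, mem_singleton]
    rcases bad1_leaf_cases hm hqq hL hR ht with h1 | ⟨D, h1⟩
    · exact Or.inl h1
    · exact absurd ⟨t, D, h1⟩ hex

/-- A leaf and no tight labelling. -/
lemma bad1_dead {m : ℕ} (hm : 2 ≤ m) {q q' : ℕ} {s : ℕ → Q}
    (hqq : (q = 0 ∧ q' = 1) ∨ (q = 1 ∧ q' = 0) ∨ (q = m ∧ q' = m + 1) ∨ (q = m + 1 ∧ q' = m))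
    (hL : q ≠ 0 → q ≠ 1 → s 0 ≠ neg (s 1)) (hR : q ≠ m → q ≠ m + 1 → s m ≠ neg (s (m + 1)))
    (hd : ∀ t D, ¬ Tight D (fl1 s q t) m) : bad1 m q s ⊆ {neg (s q')} := by
  intro t ht
  rw [mem_singleton]
  rcases bad1_leaf_cases hm hqq hL hR ht with h1 | ⟨D, h1⟩
  · exact h1
  · exact absurd h1 (hd t D)

/-- An inner port. -/
lemma bad1_inner {m : ℕ} (hm : 2 ≤ m) {q : ℕ} {s : ℕ → Q} (h2 : 2 ≤ q) (hqm : q + 1 ≤ m)
    (hL : s 0 ≠ neg (s 1)) (hR : s m ≠ neg (s (m + 1))) : (bad1 m q s).card ≤ 1 := by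
  rw [Finset.card_le_one]
  have key : ∀ t ∈ bad1 m q s, ∃ D, Tight D (fl1 s q t) m := by
    intro t ht
    rw [mem_bad1] at ht
    rcases notext (by omega) ht with h1 | h1 | h1
    · rw [fl1_o (by omega), fl1_o (by omega)] at h1
      exact absurd h1 hL
    · rw [fl1_o (by omega), fl1_o (by omega)] at h1
      exact absurd h1 hR
    · exact h1
  intro t ht t' ht'
  obtain ⟨D, hD⟩ := key t ht
  obtain ⟨D', hD'⟩ := key t' ht'
  exact tight_unique hm (by omega) hD hD'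

lemma frk_self : ∀ (D : Ty) (a : Q), frk D a a = false := by decide

/-- Equal labels in a fork. -/
lemma dead_left {m q : ℕ} {s : ℕ → Q} (h0 : q ≠ 0) (h1 : q ≠ 1) (he : s 0 = s 1) (t : Q) (D : Ty) :
    ¬ Tight D (fl1 s q t) m := by
  intro h
  have e := h.1
  rw [fl1_o h0.symm, fl1_o h1.symm, he, frk_self] at e
  exact Bool.noConfusion e

lemma dead_right {m q : ℕ} {s : ℕ → Q} (h0 : q ≠ m) (h1 : q ≠ m + 1) (he : s m = s (m + 1)) (t : Q)
    (D : Ty) : ¬ Tight D (fl1 s q t) m := by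
  intro h
  have e := h.2.2
  rw [fl1_o h0.symm, fl1_o h1.symm, he, frk_self] at e
  exact Bool.noConfusion e

end CLB.H91
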