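import Pool.Agent.Helper91_DA.Late

/-!
Inequalities of maximum cuts for two caterpillars and a chain.
-/

set_option autoImplicit false
set_option linter.unusedSectionVars false

namespace CLB.H91

open Finset Classical
open H3DA (Q neg nr)
open CLB.H95
open CLB.H3 (CExt Cat IsTwo Fits UPath he_of_unc cat_structure chn_side pos chs mem_chs chs_sum x_mem_chs
  y_mem_chs mmS llS uuS eU eS rlaw_sets zs mem_zs zs_card zs_unc uuS_cat eU_sum_ge eS_sum_ge sX sO mem_sX
  mem_sO NoFull one_le_pos pos_le pos_eq_cl allP mem_allP cat_adj_pos)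

variable {V : Type*} {H : SimpleGraph V} {R : V → Bool} [Fintype V] {k : ℕ} {x y : ℕ → V}

lemma chs_card (h : Chn H R k x y) {X Y : Finset ℕ} {O : Finset V} (hX : ∀ i ∈ X, 1 ≤ i ∧ i ≤ k)
    (hY : ∀ i ∈ Y, 1 ≤ i ∧ i ≤ k) (hO : ∀ w ∈ O, ¬ InC k x y w) :
    (chs x y X Y O).card = X.card + Y.card + O.card := by
  have := chs_sum h hX hY hO (fun _ => 1)
  simpa using this

lemma chs_cov (h : Chn H R k x y) {X Y : Finset ℕ} {O : Finset V} (hX : ∀ i ∈ X, 1 ≤ i ∧ i ≤ k)
    (hY : ∀ i ∈ Y, 1 ≤ i ∧ i ≤ k) (hO : ∀ w ∈ O, Cov H R w) : ∀ w ∈ chs x y X Y O, Cov H R w := by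
  intro w hw
  rw [mem_chs] at hw
  rcases hw with ⟨i, hi, rfl⟩ | ⟨i, hi, rfl⟩ | hw
  · exact h.cov (InC.x (hX i hi).1 (hX i hi).2)
  · exact h.cov (InC.y (hY i hi).1 (hY i hi).2)
  · exact hO w hw

lemma chs_mm (hG : ClassC H R) (h : Chn H R k x y) {X Y : Finset ℕ} {O : Finset V}
    (hX : ∀ i ∈ X, 1 ≤ i ∧ i ≤ k) (hY : ∀ i ∈ Y, 1 ≤ i ∧ i ≤ k) (hO' : ∀ w ∈ O, ¬ InC k x y w) :
    mmS H R (chs x y X Y O) ≤ 2 * (X ∩ Y).card + mmS H R O := by
  unfold mmS
  rw [chs_sum h hX hY hO' (fun w => (filter (fun v => Me H R w v) (chs x y X Y O)).card)]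
  have a1 : ∑ i ∈ X, (filter (fun v => Me H R (x i) v) (chs x y X Y O)).card ≤ (X ∩ Y).card := by
    have : (X ∩ Y).card = ∑ i ∈ X, if i ∈ Y then 1 else 0 := by
      rw [Finset.sum_boole]
      simp [Finset.filter_mem_eq_inter]
    rw [this]
    refine Finset.sum_le_sum fun i hi => ?_
    have hi' := hX i hi
    by_cases hiY : i ∈ Y
    · rw [if_pos hiY]
      refine Finset.card_le_one.2 fun u hu v hv => ?_
      rw [mem_filter] at hu hv
      exact hG.matching hu.2 hv.2
    · rw [if_neg hiY, Nat.le_zero, Finset.card_eq_zero, Finset.filter_eq_empty_iff]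
      intro v hv hmv
      have : v = y i := hG.matching hmv (h.me i hi'.1 hi'.2)
      rw [this] at hv
      exact hiY (y_mem_chs h hX hY hO' hi'.1 hi'.2 hv)
  have a2 : ∑ i ∈ Y, (filter (fun v => Me H R (y i) v) (chs x y X Y O)).card ≤ (X ∩ Y).card := by
    have : (X ∩ Y).card = ∑ i ∈ Y, if i ∈ X then 1 else 0 := by
      rw [Finset.sum_boole, Finset.inter_comm]
      simp [Finset.filter_mem_eq_inter]
    rw [this]
    refine Finset.sum_le_sum fun i hi => ?_
    have hi' := hY i hi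
    by_cases hiX : i ∈ X
    · rw [if_pos hiX]
      refine Finset.card_le_one.2 fun u hu v hv => ?_
      rw [mem_filter] at hu hv
      exact hG.matching hu.2 hv.2
    · rw [if_neg hiX, Nat.le_zero, Finset.card_eq_zero, Finset.filter_eq_empty_iff]
      intro v hv hmv
      have : v = x i := hG.matching hmv (h.me i hi'.1 hi'.2).symm
      rw [this] at hv
      exact hiX (x_mem_chs h hX hY hO' hi'.1 hi'.2 hv)
  have a3 : ∑ w ∈ O, (filter (fun v => Me H R w v) (chs x y X Y O)).card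
      ≤ ∑ w ∈ O, (filter (fun v => Me H R w v) O).card := by
    refine Finset.sum_le_sum fun w hw => Finset.card_le_card fun v hv => ?_
    rw [mem_filter] at hv ⊢
    refine ⟨?_, hv.2⟩
    have hv1 := hv.1
    rw [mem_chs] at hv1
    rcases hv1 with ⟨i, hi, rfl⟩ | ⟨i, hi, rfl⟩ | hv1
    · exact absurd (h.mate hG (InC.x (hX i hi).1 (hX i hi).2) hv.2.symm) (hO' w hw)
    · exact absurd (h.mate hG (InC.y (hY i hi).1 (hY i hi).2) hv.2.symm) (hO' w hw)
    · exact hv1
  omega

lemma chs_ll (h : Chn H R k x y) {X Y : Finset ℕ} {O : Finset V}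
    (hX : ∀ i ∈ X, 1 ≤ i ∧ i ≤ k) (hY : ∀ i ∈ Y, 1 ≤ i ∧ i ≤ k) (hO' : ∀ w ∈ O, ¬ InC k x y w) :
    2 * (Y.filter (fun i => i < k ∧ i + 1 ∈ X)).card ≤ llS H R (chs x y X Y O) := by
  unfold llS
  rw [chs_sum h hX hY hO' (fun w => (filter (fun v => He H R w v) (chs x y X Y O)).card)]
  have b1 : (Y.filter (fun i => i < k ∧ i + 1 ∈ X)).card
      ≤ ∑ i ∈ Y, (filter (fun v => He H R (y i) v) (chs x y X Y O)).card := by
    have t : (Y.filter (fun i => i < k ∧ i + 1 ∈ X)).card
        ≤ ∑ i ∈ Y, if (i < k ∧ i + 1 ∈ X) then 1 else 0 := by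
      rw [Finset.sum_boole]
      simp
    refine t.trans (Finset.sum_le_sum fun i hi => ?_)
    split_ifs with hc
    · obtain ⟨h1, h2⟩ := hc
      exact Finset.card_pos.2 ⟨x (i + 1), by
        rw [mem_filter, mem_chs]
        exact ⟨Or.inl ⟨i + 1, h2, rfl⟩, (h.lk i (hY i hi).1 h1).1⟩⟩
    · exact Nat.zero_le _
  have b2 : (Y.filter (fun i => i < k ∧ i + 1 ∈ X)).card
      ≤ ∑ i ∈ X, (filter (fun v => He H R (x i) v) (chs x y X Y O)).card := by
    have t : (Y.filter (fun i => i < k ∧ i + 1 ∈ X)).card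
        ≤ ∑ i ∈ X, if (2 ≤ i ∧ i - 1 ∈ Y) then 1 else 0 := by
      rw [Finset.sum_boole]
      simp only [Nat.cast_id]
      have hcard : (Y.filter (fun i => i < k ∧ i + 1 ∈ X)).card
          = ((Y.filter (fun i => i < k ∧ i + 1 ∈ X)).image (fun i => i + 1)).card :=
        (Finset.card_image_of_injective _ (fun a b hab => by simpa using hab)).symm
      rw [hcard]
      refine Finset.card_le_card fun i hi => ?_
      rw [mem_image] at hi
      obtain ⟨j, hj, rfl⟩ := hi
      rw [mem_filter] at hj ⊢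
      have := (hY j hj.1).1
      exact ⟨hj.2.2, by omega, by simpa using hj.1⟩
    refine t.trans (Finset.sum_le_sum fun i hi => ?_)
    split_ifs with hc
    · obtain ⟨h1, h2⟩ := hc
      have hlk := h.lk (i - 1) (hY _ h2).1 (by have := (hX i hi).2; omega)
      rw [show i - 1 + 1 = i by omega] at hlk
      exact Finset.card_pos.2 ⟨y (i - 1), by
        rw [mem_filter, mem_chs]
        exact ⟨Or.inr (Or.inl ⟨i - 1, h2, rfl⟩), hlk.symm.1⟩⟩
    · exact Nat.zero_le _
  omega

/-- **Two caterpillars and a chain.** -/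
theorem two_law (hG : ClassC H R) (h : Chn H R k x y) {m : ℕ} {z c : ℕ → V} (hcat : Cat H R m z c)
    {m' : ℕ} {z' c' : ℕ → V} (hcat' : Cat H R m' z' c') (hne : cSupp m z ≠ cSupp m' z')
    {X Y : Finset ℕ} {O : Finset V}
    (hX : ∀ i ∈ X, 1 ≤ i ∧ i ≤ k) (hY : ∀ i ∈ Y, 1 ≤ i ∧ i ≤ k)
    (hO : ∀ w ∈ O, Cov H R w ∧ ¬ InC k x y w) {J J' : Finset ℕ}
    (hJ : ∀ j ∈ J, j ≤ m + 1) (hJS : ∀ j ∈ J, c j ∈ chs x y X Y O)
    (hJ' : ∀ j ∈ J', j ≤ m' + 1) (hJS' : ∀ j ∈ J', c' j ∈ chs x y X Y O) :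
    2 * (Y.filter (fun i => i < k ∧ i + 1 ∈ X)).card + 2 * (J.card + J'.card)
      ≤ m + m' + 4 + (X.card + Y.card + O.card) + (2 * (X ∩ Y).card + mmS H R O) := by
  have hO' : ∀ w ∈ O, ¬ InC k x y w := fun w hw => (hO w hw).2
  have hdis : Disjoint (zs m z) (zs m' z') := by
    rw [Finset.disjoint_left]
    intro u hu hu'
    obtain ⟨i, i1, i2, rfl⟩ := mem_zs.1 hu
    obtain ⟨j, j1, j2, hj⟩ := mem_zs.1 hu'
    exact hne (cSupp_eq hcat hcat' (mem_cSupp i1 i2) (by rw [← hj]; exact mem_cSupp j1 j2))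
  have key := CLB.H3.rlaw_two hG hcat hcat' hdis (S := chs x y X Y O) (J := J) (J' := J')
    (chs_cov h hX hY (fun w hw => (hO w hw).1)) hJ hJS hJ' hJS'
  have e1 := chs_card h hX hY hO'
  have e2 := chs_mm hG h hX hY hO'
  have e3 := chs_ll h hX hY hO'
  omega

/-- **A segment of a caterpillar, one more uncovered vertex and a chain.** -/
theorem law_plus (hG : ClassC H R) (h : Chn H R k x y) {m : ℕ} {z c : ℕ → V} (hcat : Cat H R m z c)
    {p q : ℕ} (hp : 1 ≤ p) (hpq : p ≤ q) (hq : q ≤ m) {w : V} (hw : ¬ Cov H R w)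
    (hwn : ∀ i, 1 ≤ i → i ≤ m → z i ≠ w)
    {X Y : Finset ℕ} {O : Finset V}
    (hX : ∀ i ∈ X, 1 ≤ i ∧ i ≤ k) (hY : ∀ i ∈ Y, 1 ≤ i ∧ i ≤ k)
    (hO : ∀ w ∈ O, Cov H R w ∧ ¬ InC k x y w) {J : Finset ℕ}
    (hJ : ∀ j ∈ J, j ≤ m + 1 ∧ p ≤ pos m j ∧ pos m j ≤ q)
    (hJS : ∀ j ∈ J, c j ∈ chs x y X Y O)
    {W : Finset V} (hW : ∀ v ∈ W, v ∈ chs x y X Y O ∧ H.Adj v w) :
    2 * (Y.filter (fun i => i < k ∧ i + 1 ∈ X)).card + 2 * (J.card + W.card)
      ≤ (q - p) + 6 + (X.card + Y.card + O.card) + (2 * (X ∩ Y).card + mmS H R O) := by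
  have hO' : ∀ w ∈ O, ¬ InC k x y w := fun w hw => (hO w hw).2
  set S := chs x y X Y O with hS
  set A : Finset V := (Icc p q).image z with hA
  have hinj : Set.InjOn z (Icc p q : Finset ℕ) := by
    intro i hi j hj hij
    simp only [coe_Icc, Set.mem_Icc] at hi hj
    exact hcat.inj i j (by omega) (by omega) (by omega) (by omega) hij
  have hAc : A.card = q + 1 - p := by
    rw [hA, Finset.card_image_of_injOn hinj, Nat.card_Icc]
  have hdA : Disjoint A {w} := by
    rw [Finset.disjoint_singleton_right, hA, mem_image]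
    rintro ⟨i, hi, he⟩
    rw [mem_Icc] at hi
    exact hwn i (by omega) (by omega) he
  have key := rlaw_sets hG (A ∪ {w}) S (fun u hu => by
    rw [mem_union, mem_singleton, hA, mem_image] at hu
    rcases hu with ⟨i, hi, rfl⟩ | rfl
    · rw [mem_Icc] at hi
      exact hcat.unc i (by omega) (by omega)
    · exact hw) (chs_cov h hX hY (fun w hw => (hO w hw).1))
  rw [Finset.card_union_of_disjoint hdA, hAc, Finset.card_singleton] at key
  have e0 : 2 * (q - p) ≤ uuS H (A ∪ {w}) := by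
    unfold uuS
    have h2 : ∑ i ∈ Icc p q, ((if p < i then 1 else 0) + (if i < q then 1 else 0))
        ≤ ∑ u ∈ A, ((A ∪ {w}).filter (fun v => H.Adj u v)).card := by
      rw [hA, Finset.sum_image hinj, ← hA]
      refine Finset.sum_le_sum fun i hi => ?_
      rw [mem_Icc] at hi
      have hin : ∀ j, p ≤ j → j ≤ q → z j ∈ A ∪ {w} := fun j hj hj' => by
        rw [mem_union, hA, mem_image]
        exact Or.inl ⟨j, mem_Icc.2 ⟨hj, hj'⟩, rfl⟩
      by_cases h3 : p < i
      · have ha : H.Adj (z i) (z (i - 1)) := by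
          have := hcat.adjz (i - 1) (by omega) (by omega)
          rw [show i - 1 + 1 = i by omega] at this
          exact this.symm
        by_cases h4 : i < q
        · rw [if_pos h3, if_pos h4]
          refine Finset.one_lt_card.2 ⟨z (i - 1), ?_, z (i + 1), ?_, ?_⟩
          · rw [mem_filter]; exact ⟨hin _ (by omega) (by omega), ha⟩
          · rw [mem_filter]; exact ⟨hin _ (by omega) (by omega), hcat.adjz i (by omega) (by omega)⟩
          · intro h'
            have := hcat.inj _ _ (by omega) (by omega) (by omega) (by omega) h'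
            omega
        · rw [if_pos h3, if_neg h4]
          exact Finset.card_pos.2 ⟨z (i - 1), by
            rw [mem_filter]; exact ⟨hin _ (by omega) (by omega), ha⟩⟩
      · by_cases h4 : i < q
        · rw [if_neg h3, if_pos h4]
          exact Finset.card_pos.2 ⟨z (i + 1), by
            rw [mem_filter]; exact ⟨hin _ (by omega) (by omega), hcat.adjz i (by omega) (by omega)⟩⟩
        · rw [if_neg h3, if_neg h4]
          exact Nat.zero_le _
    have h3 : ∑ u ∈ A, ((A ∪ {w}).filter (fun v => H.Adj u v)).card ≤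
        ∑ u ∈ A ∪ {w}, ((A ∪ {w}).filter (fun v => H.Adj u v)).card :=
      Finset.sum_le_sum_of_subset Finset.subset_union_left
    refine le_trans (le_of_eq ?_) (h2.trans h3)
    rw [Finset.sum_add_distrib]
    have e1 : ∑ i ∈ Icc p q, (if p < i then 1 else 0) = q - p := by
      rw [Finset.sum_boole]
      simp only [Nat.cast_id]
      have : (Icc p q).filter (fun i => p < i) = Icc (p + 1) q := by
        ext i; rw [mem_filter, mem_Icc, mem_Icc]; omega
      rw [this, Nat.card_Icc]; omega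
    have e2 : ∑ i ∈ Icc p q, (if i < q then 1 else 0) = q - p := by
      rw [Finset.sum_boole]
      simp only [Nat.cast_id]
      have : (Icc p q).filter (fun i => i < q) = Icc p (q - 1) := by
        ext i; rw [mem_filter, mem_Icc, mem_Icc]; omega
      rw [this, Nat.card_Icc]; omega
    rw [e1, e2]; omega
  have e1 : J.card + W.card ≤ ∑ v ∈ S, eU H (A ∪ {w}) v := by
    have f1 := eS_sum_ge hcat (S := S) hJ hJS
    have f2 : W.card = ∑ v ∈ S, if v ∈ W then 1 else 0 := by
      rw [Finset.sum_boole, Finset.filter_mem_eq_inter]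
      simp only [Nat.cast_id]
      congr 1
      exact (Finset.inter_eq_right.2 (fun v hv => (hW v hv).1)).symm
    rw [f2]
    refine le_trans (Nat.add_le_add_right f1 _) ?_
    rw [← Finset.sum_add_distrib]
    refine Finset.sum_le_sum fun v hv => ?_
    unfold eU
    rw [Finset.filter_union, Finset.card_union_of_disjoint (Finset.disjoint_filter_filter hdA)]
    refine Nat.add_le_add (le_of_eq ?_) ?_
    · unfold eS
      rw [hA, Finset.filter_image, Finset.card_image_of_injOn]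
      exact hinj.mono (by
        intro i hi
        simp only [coe_filter, Set.mem_setOf_eq] at hi
        exact Finset.mem_coe.2 hi.1)
    · split_ifs with hvW
      · exact Finset.card_pos.2 ⟨w, by rw [mem_filter, mem_singleton]; exact ⟨rfl, (hW v hvW).2⟩⟩
      · exact Nat.zero_le _
  have e2 := chs_card h hX hY hO'
  have e3 := chs_mm hG h hX hY hO'
  have e4 := chs_ll h hX hY hO'
  rw [← hS] at e2 e3 e4
  omega

end CLB.H91
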