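import Pool.Agent.Helper91_DA.Strat

/-!
Two nearly closed components: strategies for a late leaf.
-/

set_option autoImplicit false
set_option linter.unusedSectionVars false

namespace CLB.H91

open Finset Classical
open H3DA (Q neg nr)
open CLB.H95
open CLB.H3 (CExt Cat IsTwo Fits UPath he_of_unc cat_structure chn_side pos)

variable {V : Type*} {G H : SimpleGraph V} {R : V → Bool} [Fintype V] {k : ℕ} {x y : ℕ → V}

/-- A late leaf and the other fork. -/
structure OF (m q q' o o' : ℕ) : Prop where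
  lq : LM m q q'
  lo : LM m o o'
  n1 : o ≠ q
  n2 : o ≠ q'

lemma OF.symm {m q q' o o' : ℕ} (hm : 2 ≤ m) (h : OF m q q' o o') : OF m q q' o' o := by
  obtain ⟨h1, h2, h3, h4⟩ := h
  refine ⟨h1, h2.symm, ?_, ?_⟩
  · unfold LM at h1 h2; omega
  · unfold LM at h1 h2; omega

/-- Charged ports are in the other fork. -/
lemma OF.chg {m q q' o o' : ℕ} (hm : 2 ≤ m) (h : OF m q q' o o') {c : ℕ → V} {j : ℕ} (hj : j ≤ m + 1)
    (hc : chg k x y m q q c j) : j = o ∨ j = o' := by
  obtain ⟨h1, h2, h3, h4⟩ := h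
  obtain ⟨c1, c2, -, c4, -⟩ := hc
  have hjq' : j ≠ q' := fun he => c4 (by rw [he]; exact (h1.mte hm).2)
  unfold lfp at c1
  unfold LM at h1 h2
  omega

/-- The port `o` of the other fork is charged if its mate is outside. -/
lemma OF.chg_out {m q q' o o' : ℕ} (hm : 2 ≤ m) (h : OF m q q' o o') {c : ℕ → V}
    (ho : ¬ InC k x y (c o')) : H91.chg k x y m q q c o := by
  have e := (h.lo.mte hm).1
  have h' := h.symm hm
  refine ⟨h.lo.lfp, h.n1, h.n1, by rw [e]; exact h'.n1, by rw [e]; exact h'.n1, fun hin => ?_⟩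
  rw [e] at hin
  exact absurd hin ho

/-- Both ports in the chain: the later one is charged. -/
lemma OF.chg_in {m q q' o o' : ℕ} (hm : 2 ≤ m) (h : OF m q q' o o') {c : ℕ → V}
    (ho : idx k x y (c o') < idx k x y (c o)) : H91.chg k x y m q q c o := by
  have e := (h.lo.mte hm).1
  have h' := h.symm hm
  exact ⟨h.lo.lfp, h.n1, h.n1, by rw [e]; exact h'.n1, by rw [e]; exact h'.n1, fun _ => by
    rw [e]; exact ho⟩

lemma OF.not_chg {m q q' o o' : ℕ} (hm : 2 ≤ m) (h : OF m q q' o o') {c : ℕ → V}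
    (hin : InC k x y (c o')) (ho : idx k x y (c o) ≤ idx k x y (c o')) :
    ¬ H91.chg k x y m q q c o := by
  intro hh
  have e := (h.lo.mte hm).1
  have := hh.2.2.2.2.2 (by rw [e]; exact hin)
  rw [e] at this
  omega

lemma mem_ball_inter {A L : Finset Q} {n : ℕ} (hA : 4 ≤ A.card) (hL : n + 4 ≤ L.card) :
    n ≤ (A ∩ L).card := by
  have := card_inter_ge A L
  omega

/-- The label at unit one avoids the conflict with the mate outside. -/
lemma first_ne (h : Chn H R k x y) {m : ℕ} {z c : ℕ → V} {q : ℕ} {m' : ℕ} {z' c' : ℕ → V} {a b : ℕ}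
    (hP : PC H R k x y m z c q m' z' c' a b) {f : V → Q} {Φ : V → V → (ℕ → Q) → Finset Q}
    (hF : PF H R k x y m z c q m' z' c' f Φ) {q' o o' : ℕ} (hO : OF m q q' o o') (ho : c o = x 1)
    (ho' : ¬ InC k x y (c o')) (g : ℕ → Q) : f (c o') ∉ olst H R x y Φ g 1 := by
  intro hm
  have hom := (hO.lo.le hP.lc.hm).1
  obtain ⟨u, u'⟩ := prt_of hP.lc.cat hom ho
  unfold olst at hm
  rw [mem_lst] at hm
  have h1 := hm.1 _ u
  rw [sg_odd (by omega), hF.phk _ _ _ u', ← ho, phK_yes hP.lc.cat hom (hO.chg_out hP.lc.hm ho'),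
    (hO.lo.mte hP.lc.hm).1, lbl_out ho', mem_singleton] at h1
  exact h1 rfl

/-- Dead by equal labels in the other fork. -/
lemma dead_eq {m q q' o o' : ℕ} (hm : 2 ≤ m) (hO : OF m q q' o o') {s : ℕ → Q} (he : s o = s o')
    (t : Q) (D : Ty) : ¬ Tight D (fl1 s q t) m := by
  obtain ⟨h1, h2, h3, h4⟩ := hO
  by_cases hq : q ≤ 1
  · refine dead_right (by omega) (by omega) ?_ t D
    have : (o = m ∧ o' = m + 1) ∨ (o = m + 1 ∧ o' = m) := by unfold LM at h1 h2; omega
    rcases this with ⟨rfl, rfl⟩ | ⟨rfl, rfl⟩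
    · exact he
    · exact he.symm
  · refine dead_left (by omega) (by omega) ?_ t D
    have : (o = 0 ∧ o' = 1) ∨ (o = 1 ∧ o' = 0) := by unfold LM at h1 h2; omega
    rcases this with ⟨rfl, rfl⟩ | ⟨rfl, rfl⟩
    · exact he
    · exact he.symm

/-- The index of `x 2`. -/
lemma x2_port (h : Chn H R k x y) {m : ℕ} {z c : ℕ → V} {q : ℕ} {m' : ℕ} {z' c' : ℕ → V} {a b : ℕ}
    (hP : PC H R k x y m z c q m' z' c' a b) {q' o o' : ℕ} (hO : OF m q q' o o') (ho : c o = x 1)
    (ho' : ¬ InC k x y (c o')) {i : ℕ} (i1 : 2 ≤ i) (i2 : i ≤ a) :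
    ∃ j ≤ m + 1, c j = x i ∧ ¬ chg k x y m q q c j := by
  obtain ⟨j, hj, hcj⟩ := hP.sp.px i (by omega) i2
  refine ⟨j, hj, hcj, fun hh => ?_⟩
  have hak := hP.ak
  rcases hO.chg hP.lc.hm hj hh with rfl | rfl
  · have := h.injx 1 i le_rfl h.pos (by omega) (by omega) (ho.symm.trans hcj)
    omega
  · exact ho' (by rw [hcj]; exact InC.x (by omega) (by omega))

/-- The list of a unit whose port is not charged. -/
lemma list_free (hH : ClassC H R) (h : Chn H R k x y) {m : ℕ} {z c : ℕ → V} {q : ℕ}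
    {m' : ℕ} {z' c' : ℕ → V} {a b : ℕ} (hP : PC H R k x y m z c q m' z' c' a b) {f : V → Q}
    {Φ : V → V → (ℕ → Q) → Finset Q} (hF : PF H R k x y m z c q m' z' c' f Φ) {i j : ℕ}
    (i1 : 2 ≤ i) (i2 : i < k) (hj : j ≤ m + 1) (hcj : c j = x i) (hn : ¬ chg k x y m q q c j)
    (g g' : ℕ → Q) : 6 ≤ (lst H R x y (uni Φ g g') i).card := by
  have h1 := list_mid hH h hP hF i1 i2 hj hcj g g'
  rw [← hcj, phK_no hP.lc.cat hP.lc.hm hj hn, phK_no hP.lc.cat hP.lc.hm hj hn] at h1
  simpa using h1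

/-- Two successors of one start. -/
lemma two_succ {Φ : V → V → (ℕ → Q) → Finset Q} (hd : Dep k x y Φ) (hk : 2 ≤ k) {g0 : ℕ → Q} {s : Q}
    (hs : s ∈ olst H R x y Φ g0 1)
    (hl : 6 ≤ (lst H R x y (uni Φ (fun i => if i ≤ 0 then g0 i else s)
      (fun i => if i ≤ 0 then g0 i else s)) 2).card) :
    ∃ w w', PW H R x y Φ 2 w ∧ PW H R x y Φ 2 w' ∧ w 2 ≠ w' 2 ∧ w 1 = s ∧ w' 1 = s := by
  have h1 := pw_one hd (by omega) hs
  have h2 : 2 ≤ (ball s ∩ lst H R x y (uni Φ (fun i => if i ≤ 0 then g0 i else s)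
      (fun i => if i ≤ 0 then g0 i else s)) 2).card :=
    mem_ball_inter (by rw [ball_card]) hl
  obtain ⟨b, hb, b', hb', hne⟩ := Finset.one_lt_card.1 (show 1 < _ from h2)
  rw [mem_inter, mem_ball] at hb hb'
  obtain ⟨w, w', p1, p2, p3, p4, p5, -, -⟩ := same_ext hd (n := 1) (by omega) h1
    (uni_left _ _ _ _ hb.2) (uni_left _ _ _ _ hb'.2) (fun _ => by simpa using hb.1)
    (fun _ => by simpa using hb'.1) hne
  refine ⟨w, w', p1, p2, p3, ?_, ?_⟩
  · rw [← p4 1 le_rfl (by omega)]; simp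
  · rw [← p5 1 le_rfl (by omega)]; simp

/-- The conflict start with the mate outside: dead. -/
theorem alpha_dead (hR : Opt G R) (hG : ClassC G R) (hle : H ≤ G) (hc : Crit H R)
    (h : Chn H R k x y) (hk : 4 ≤ k) (hends : (∀ w, ¬ Lk H R (x 1) w) ∧ ∀ w, ¬ Lk H R (y k) w)
    (hloc : LocH H R k x y) {m : ℕ} {z c : ℕ → V} {q q' o o' : ℕ} {m' : ℕ} {z' c' : ℕ → V} {a b : ℕ}
    (hP : PC H R k x y m z c q m' z' c' a b) (hO : OF m q q' o o') (ho : c o = x 1)
    (ho' : ¬ InC k x y (c o'))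
    (hS : ∀ f, OffC H R k x y f → ∀ Φ, PF H R k x y m z c q m' z' c' f Φ → ∀ g0 b,
      b ∈ olst H R x y Φ g0 1 → neg b ∈ olst H R x y Φ g0 1 → neg (f (c o')) ∉ olst H R x y Φ g0 1 →
      ∃ (D : Finset Q) (g g' : ℕ → Q), D.card ≤ 2 ∧ PW H R x y Φ (k - 2) g ∧ PW H R x y Φ (k - 2) g' ∧
        g (k - 2) ≠ g' (k - 2) ∧ (bad1 m q (fun j => lbl k x y g f (c j))).image (tau k) ⊆ D ∧
        (bad1 m q (fun j => lbl k x y g' f (c j))).image (tau k) ⊆ D) : False := by
  have hH := hG.mono hle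
  refine pair_setup hR hG hle hc h hk hends hloc hP (fun f hf Φ hF => ?_)
  have g0 : ℕ → Q := fun _ => (false, false, false)
  have hak := hP.ak
  have ha2 := hP.a2
  have hom := (hO.lo.le hP.lc.hm).1
  by_cases hn : neg (f (c o')) ∈ olst H R x y Φ g0 1
  · obtain ⟨j, hj, hcj, hnc⟩ := x2_port h hP hO ho ho' (i := 2) le_rfl (by omega)
    obtain ⟨w, w', p1, p2, p3, p4, p5⟩ := two_succ hF.dep (by omega) hn
      (list_free hH h hP hF le_rfl (by omega) hj hcj hnc _ _)
    obtain ⟨v, v', q1, q2, q3, q4, q5⟩ := walks_from hH h hF.two hF.dep (n0 := 2) (by omega)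
      (P := fun u => u 1 = neg (f (c o'))) (fun u v huv hu => by
        rw [← huv 1 le_rfl (by omega)]; exact hu) p1 p2 p3 p4 p5 (n := k - 2) (by omega) (by omega)
    obtain ⟨e1, e2⟩ := fna_of hH h hP hf hF q1
    obtain ⟨e1', e2'⟩ := fna_of hH h hP hf hF q2
    have hdd : ∀ u : ℕ → Q, u 1 = neg (f (c o')) → lbl k x y u f (c o) = lbl k x y u f (c o') := by
      intro u hu
      rw [ho, lbl_x h le_rfl h.pos, sg_odd (by omega), hu, H3DA.neg_neg, lbl_out ho']
    have d1 := bad1_dead (s := fun j => lbl k x y v f (c j)) hP.lc.hm hO.lq e1 e2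
      (fun t D => dead_eq hP.lc.hm hO (hdd v q4) t D)
    have d2 := bad1_dead (s := fun j => lbl k x y v' f (c j)) hP.lc.hm hO.lq e1' e2'
      (fun t D => dead_eq hP.lc.hm hO (hdd v' q5) t D)
    refine ⟨_ ∪ _, v, v', ?_, q1, q2, q3, Finset.subset_union_left, Finset.subset_union_right⟩
    have a1 := (Finset.card_image_le (f := tau k)).trans (Finset.card_le_card d1)
    have a2 := (Finset.card_image_le (f := tau k)).trans (Finset.card_le_card d2)
    rw [Finset.card_singleton] at a1 a2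
    exact (Finset.card_union_le _ _).trans (by omega)
  · have l1 := list_one hH h hk hP hF hom ho g0
    have l2 := phK_card (k := k) (x := x) (y := y) (q := q) hP.lc.cat f (x 1) (z (cl m o)) g0
    obtain ⟨b, hb, hb'⟩ := exists_anti4 (p := f (c o')) (L := olst H R x y Φ g0 1) (by omega)
      (first_ne h hP hF hO ho ho' g0) hn
    exact hS f hf Φ hF g0 b hb hb' hn

/-- The end of a strategy with equal labels up to `x a`. -/
lemma same_end (hH : ClassC H R) (h : Chn H R k x y) {m : ℕ} {z c : ℕ → V} {q : ℕ}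
    {m' : ℕ} {z' c' : ℕ → V} {a b : ℕ} (hP : PC H R k x y m z c q m' z' c' a b) {f : V → Q}
    (hf : OffC H R k x y f) {Φ : V → V → (ℕ → Q) → Finset Q}
    (hF : PF H R k x y m z c q m' z' c' f Φ) {q' : ℕ} (hq : LM m q q')
    (hex : ∃ (n : ℕ) (g g' : ℕ → Q), a < n ∧ n ≤ k - 2 ∧ PW H R x y Φ n g ∧ PW H R x y Φ n g' ∧
        g n ≠ g' n ∧ Same (a + 1) g g') :
    ∃ (D : Finset Q) (g g' : ℕ → Q), D.card ≤ 2 ∧ PW H R x y Φ (k - 2) g ∧ PW H R x y Φ (k - 2) g' ∧
        g (k - 2) ≠ g' (k - 2) ∧ (bad1 m q (fun j => lbl k x y g f (c j))).image (tau k) ⊆ D ∧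
        (bad1 m q (fun j => lbl k x y g' f (c j))).image (tau k) ⊆ D := by
  obtain ⟨n, g, g', n1, n2, hg, hg', hne, hs⟩ := hex
  obtain ⟨w, w', hw, hw', hne', hsw, hsw'⟩ := walks_from hH h hF.two hF.dep (n0 := n) (by omega)
    (P := fun u => Same (a + 1) g u) (fun u v huv hu => hu.trans (huv.mono (by omega))) hg hg' hne
    (fun _ _ _ => rfl) hs (n := k - 2) n2 (by omega)
  obtain ⟨e1, e2⟩ := fna_of hH h hP hf hF hw
  obtain ⟨T, hT⟩ := bad1_leaf (s := fun j => lbl k x y w f (c j)) hP.lc.hm hq e1 e2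
  have he : bad1 m q (fun j => lbl k x y w' f (c j)) = bad1 m q (fun j => lbl k x y w f (c j)) :=
    bad1_congr (by have := hP.lc.hm; omega) (fun j hj hjq =>
      lbl_low h hP (hsw'.symm.trans hsw) hj hjq)
  refine ⟨(bad1 m q (fun j => lbl k x y w f (c j))).image (tau k), w, w', ?_, hw, hw', hne',
    Finset.Subset.refl _, by rw [he]⟩
  refine Finset.card_image_le.trans ((Finset.card_le_card hT).trans Finset.card_le_two)

/-- **The other fork is `{x 1, f}`.** -/
theorem strat_alpha (hR : Opt G R) (hG : ClassC G R) (hle : H ≤ G) (hc : Crit H R)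
    (h : Chn H R k x y) (hk : 4 ≤ k) (hends : (∀ w, ¬ Lk H R (x 1) w) ∧ ∀ w, ¬ Lk H R (y k) w)
    (hloc : LocH H R k x y) {m : ℕ} {z c : ℕ → V} {q q' o o' : ℕ} {m' : ℕ} {z' c' : ℕ → V} {a b : ℕ}
    (hP : PC H R k x y m z c q m' z' c' a b) (hO : OF m q q' o o') (ho : c o = x 1)
    (ho' : ¬ InC k x y (c o')) (hak3 : a + 3 ≤ k) : False := by
  have hH := hG.mono hle
  refine alpha_dead hR hG hle hc h hk hends hloc hP hO ho ho' (fun f hf Φ hF g0 b hb hb' hn => ?_)
  refine same_end hH h hP hf hF hO.lq ?_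
  refine same_of_anti hH h hF.two hF.dep (C := fun _ => True) (fun _ _ _ _ => trivial) hak3 ?_ le_rfl
    (by have := hP.a2; omega) (pw_one hF.dep h.pos hb) (pw_one hF.dep h.pos hb') (by simp) trivial trivial
  intro g g' _ _ i i1 i2
  obtain ⟨j, hj, hcj, hnc⟩ := x2_port h hP hO ho ho' (i := i) i1 i2
  have := list_free hH h hP hF i1 (by omega) hj hcj hnc g g'
  omega

/-- **The other fork is `{x 1, f}`, and `x 2` is at a neighbouring position.** -/
theorem strat_adj (hR : Opt G R) (hG : ClassC G R) (hle : H ≤ G) (hc : Crit H R)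
    (h : Chn H R k x y) (hk : 4 ≤ k) (hends : (∀ w, ¬ Lk H R (x 1) w) ∧ ∀ w, ¬ Lk H R (y k) w)
    (hloc : LocH H R k x y) {m : ℕ} {z c : ℕ → V} {q q' o o' : ℕ} {m' : ℕ} {z' c' : ℕ → V} {a b : ℕ}
    (hP : PC H R k x y m z c q m' z' c' a b) (hO : OF m q q' o o') (ho : c o = x 1)
    (ho' : ¬ InC k x y (c o')) {j2 : ℕ} (hj2 : j2 ≤ m + 1) (hcj2 : c j2 = x 2)
    (hadj : pos m j2 = pos m o' + 1 ∨ pos m o' = pos m j2 + 1) : False := by
  have hH := hG.mono hle
  have hak := hP.ak
  have ha2 := hP.a2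
  have hm := hP.lc.hm
  refine alpha_dead hR hG hle hc h hk hends hloc hP hO ho ho' (fun f hf Φ hF g0 b hb hb' hn => ?_)
  set F := f (c o') with hFdef
  have hnc : ¬ chg k x y m q q c j2 := by
    intro hh
    rcases hO.chg hm hj2 hh with rfl | rfl
    · have := h.injx 1 2 le_rfl h.pos (by omega) (by omega) (ho.symm.trans hcj2)
      omega
    · exact ho' (by rw [hcj2]; exact InC.x (by omega) (by omega))
  have hU := list_free hH h hP hF (i := 2) le_rfl (by omega) hj2 hcj2 hnc
    (fun i => if i ≤ 0 then g0 i else b) (fun i => if i ≤ 0 then g0 i else neg b)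
  have h2 := mem_ball_inter (A := ball F) (n := 2) (by rw [ball_card]) hU
  obtain ⟨t, ht, t', ht', hne⟩ := Finset.one_lt_card.1 (show 1 < _ from h2)
  rw [mem_inter, mem_ball] at ht ht'
  have key : ∀ t, nr F t = true → t ∈ lst H R x y (uni Φ (fun i => if i ≤ 0 then g0 i else b)
      (fun i => if i ≤ 0 then g0 i else neg b)) 2 → ∃ w, PW H R x y Φ 2 w ∧ w 2 = t := by
    intro t _ ht
    rcases nr_or_neg b t with h1 | h1
    · exact ⟨_, (pw_one hF.dep h.pos hb).snoc hF.dep (n := 1) (by omega) (uni_left _ _ _ _ ht)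
        (fun _ => by simpa using h1), by simp⟩
    · exact ⟨_, (pw_one hF.dep h.pos hb').snoc hF.dep (n := 1) (by omega) (uni_right _ _ _ _ ht)
        (fun _ => by simpa using h1), by simp⟩
  obtain ⟨w, p1, p2⟩ := key t ht.1 ht.2
  obtain ⟨w', p1', p2'⟩ := key t' ht'.1 ht'.2
  obtain ⟨v, v', q1, q2, q3, q4, q5⟩ := walks_from hH h hF.two hF.dep (n0 := 2) (by omega)
    (P := fun u => nr F (u 2) = true) (fun u v huv hu => by
      rw [← huv 2 (by omega) (by omega)]; exact hu) p1 p1' (by rw [p2, p2']; exact hne)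
      (by rw [p2]; exact ht.1) (by rw [p2']; exact ht'.1) (n := k - 2) (by omega) (by omega)
  obtain ⟨e1, e2⟩ := fna_of hH h hP hf hF q1
  obtain ⟨e1', e2'⟩ := fna_of hH h hP hf hF q2
  have hj2q : j2 ≠ q := by
    rintro rfl
    exact h.xy 2 k (by omega) (by omega) h.pos le_rfl (hcj2.symm.trans hP.lc.cq)
  have hO' := hO.symm hm
  have hdd : ∀ u : ℕ → Q, nr F (u 2) = true → ∀ t D, ¬ Tight D (fl1 (fun j => lbl k x y u f (c j)) q t) m := by
    intro u hu t D hT
    have s1 : fl1 (fun j => lbl k x y u f (c j)) q t o' = F := by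
      rw [fl1_o hO'.n1, hFdef]
      exact lbl_out ho'
    have s2 : fl1 (fun j => lbl k x y u f (c j)) q t j2 = u 2 := by
      rw [fl1_o hj2q]
      show lbl k x y u f (c j2) = u 2
      rw [hcj2, lbl_x h (by omega) (by omega), sg_even (by omega)]
    have h3 : nr (neg F) (u 2) = true := by
      rcases hadj with h4 | h4
      · have := tight_adj hm hT (hO'.lo.le hm).1 hj2 h4
        rw [s1, s2] at this
        exact this
      · have := tight_adj hm hT hj2 (hO'.lo.le hm).1 h4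
        rw [s1, s2] at this
        exact nr_neg_swap _ _ this
    rw [nr_neg_false _ _ hu] at h3
    exact Bool.noConfusion h3
  have d1 := bad1_dead (s := fun j => lbl k x y v f (c j)) hP.lc.hm hO.lq e1 e2 (hdd v q4)
  have d2 := bad1_dead (s := fun j => lbl k x y v' f (c j)) hP.lc.hm hO.lq e1' e2' (hdd v' q5)
  refine ⟨_ ∪ _, v, v', ?_, q1, q2, q3, Finset.subset_union_left, Finset.subset_union_right⟩
  have a1 := (Finset.card_image_le (f := tau k)).trans (Finset.card_le_card d1)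
  have a2 := (Finset.card_image_le (f := tau k)).trans (Finset.card_le_card d2)
  rw [Finset.card_singleton] at a1 a2
  exact (Finset.card_union_le _ _).trans (by omega)

/-- **The other fork is `{x u, f}`, `2 ≤ u`.** -/
theorem strat_beta (hR : Opt G R) (hG : ClassC G R) (hle : H ≤ G) (hc : Crit H R)
    (h : Chn H R k x y) (hk : 4 ≤ k) (hends : (∀ w, ¬ Lk H R (x 1) w) ∧ ∀ w, ¬ Lk H R (y k) w)
    (hloc : LocH H R k x y) {m : ℕ} {z c : ℕ → V} {q q' o o' : ℕ} {m' : ℕ} {z' c' : ℕ → V} {a b : ℕ}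
    (hP : PC H R k x y m z c q m' z' c' a b) (hO : OF m q q' o o') {u : ℕ} (hu : 2 ≤ u) (hua : u ≤ a)
    (ho : c o = x u) (ho' : ¬ InC k x y (c o')) (hak3 : a + 3 ≤ k) : False := by
  have hH := hG.mono hle
  have hm := hP.lc.hm
  have ha2 := hP.a2
  have hom := (hO.lo.le hm).1
  refine pair_setup hR hG hle hc h hk hends hloc hP (fun f hf Φ hF => ?_)
  have g0 : ℕ → Q := fun _ => (false, false, false)
  refine same_end hH h hP hf hF hO.lq ?_
  obtain ⟨j1, hj1, hcj1⟩ := hP.sp.px 1 le_rfl (by omega)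
  have hn1 : ¬ chg k x y m q q c j1 := by
    intro hh
    rcases hO.chg hm hj1 hh with rfl | rfl
    · have := h.injx 1 u le_rfl h.pos (by omega) (by omega) (hcj1.symm.trans ho)
      omega
    · exact ho' (by rw [hcj1]; exact InC.x le_rfl h.pos)
  have l1 := list_one hH h hk hP hF hj1 hcj1 g0
  rw [← hcj1, phK_no hP.lc.cat hm hj1 hn1, Finset.card_empty] at l1
  obtain ⟨b, hb, hb'⟩ := exists_anti (show 5 ≤ (olst H R x y Φ g0 1).card by omega)
  refine same_of_anti hH h hF.two hF.dep (C := fun _ => True) (fun _ _ _ _ => trivial) hak3 ?_ le_rfl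
    (by omega) (pw_one hF.dep h.pos hb) (pw_one hF.dep h.pos hb') (by simp) trivial trivial
  intro g g' _ _ i i1 i2
  obtain ⟨j, hj, hcj⟩ := hP.sp.px i (by omega) i2
  have l2 := list_mid hH h hP hF i1 (by omega) hj hcj g g'
  have : (phK k x y f m q z c (x i) (z (cl m j)) g ∪ phK k x y f m q z c (x i) (z (cl m j)) g').card
      ≤ 1 := by
    rw [← hcj]
    by_cases hh : chg k x y m q q c j
    · rw [phK_yes hP.lc.cat hj hh, phK_yes hP.lc.cat hj hh]
      rcases hO.chg hm hj hh with rfl | rfl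
      · rw [(hO.lo.mte hm).1, lbl_out ho', lbl_out ho', Finset.union_self, Finset.card_singleton]
      · exact absurd (by rw [hcj]; exact InC.x (by omega) (by omega)) ho'
    · rw [phK_no hP.lc.cat hm hj hh, phK_no hP.lc.cat hm hj hh]; simp
  omega

/-- Three successors cover everything but the antipode. -/
lemma cover_three {B : Finset Q} {s t : Q} (hB : 3 ≤ (ball s ∩ B).card) (ht : t ≠ neg s) :
    ∃ b ∈ B, nr s b = true ∧ nr b t = true := by
  have h1 : 2 ≤ (ball s ∩ ball t).card := by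
    by_cases hst : s = t
    · rw [hst, Finset.inter_self, ball_card]; omega
    · exact ball_inter_two hst (fun he => ht (by rw [he, H3DA.neg_neg]))
  have h2 : ((ball s ∩ B) ∪ (ball s ∩ ball t)).card ≤ (ball s).card :=
    Finset.card_le_card (Finset.union_subset Finset.inter_subset_left Finset.inter_subset_left)
  have h3 := Finset.card_union_add_card_inter (ball s ∩ B) (ball s ∩ ball t)
  rw [ball_card] at h2
  obtain ⟨b, hb⟩ := Finset.card_pos.1 (show 0 < ((ball s ∩ B) ∩ (ball s ∩ ball t)).card by omega)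
  rw [mem_inter, mem_inter, mem_inter, mem_ball, mem_ball] at hb
  exact ⟨b, hb.1.2, hb.1.1, nr_symm hb.2.2⟩

/-- **The other fork is `{x 1, x u}`, `3 ≤ u`.** -/
theorem strat_gamma (hR : Opt G R) (hG : ClassC G R) (hle : H ≤ G) (hc : Crit H R)
    (h : Chn H R k x y) (hk : 4 ≤ k) (hends : (∀ w, ¬ Lk H R (x 1) w) ∧ ∀ w, ¬ Lk H R (y k) w)
    (hloc : LocH H R k x y) {m : ℕ} {z c : ℕ → V} {q q' o o' : ℕ} {m' : ℕ} {z' c' : ℕ → V} {a b : ℕ}
    (hP : PC H R k x y m z c q m' z' c' a b) (hO : OF m q q' o o') {u : ℕ} (hu : 3 ≤ u) (hua : u ≤ a)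
    (ho : c o = x u) (ho' : c o' = x 1) (hak3 : a + 3 ≤ k) : False := by
  have hH := hG.mono hle
  have hm := hP.lc.hm
  have ha2 := hP.a2
  have hkp := h.pos
  have hom := hO.lo.le hm
  refine pair_setup hR hG hle hc h hk hends hloc hP (fun f hf Φ hF => ?_)
  have g0 : ℕ → Q := fun _ => (false, false, false)
  refine same_end hH h hP hf hF hO.lq ?_
  have io : idx k x y (c o) = u := by rw [ho]; exact idx_x h (by omega) (by omega)
  have io' : idx k x y (c o') = 1 := by rw [ho']; exact idx_x h le_rfl hkp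
  -- the charges
  have hchg : ∀ j ≤ m + 1, chg k x y m q q c j → j = o := by
    intro j hj hh
    rcases hO.chg hm hj hh with e | e
    · exact e
    · exfalso
      subst e
      refine (hO.symm hm).not_chg hm (c := c) (k := k) (x := x) (y := y) ?_ ?_ hh
      · rw [ho]; exact InC.x (by omega) (by omega)
      · rw [io, io']; omega
  have hval : ∀ j ≤ m + 1, ∀ g g' : ℕ → Q, g 1 = g' 1 →
      (phK k x y f m q z c (c j) (z (cl m j)) g ∪ phK k x y f m q z c (c j) (z (cl m j)) g').card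
        ≤ 1 := by
    intro j hj g g' hs
    by_cases hh : chg k x y m q q c j
    · rw [phK_yes hP.lc.cat hj hh, phK_yes hP.lc.cat hj hh]
      have := hchg j hj hh
      subst this
      rw [(hO.lo.mte hm).1, ho', lbl_x h le_rfl hkp, lbl_x h le_rfl hkp, hs, Finset.union_self,
        Finset.card_singleton]
    · rw [phK_no hP.lc.cat hm hj hh, phK_no hP.lc.cat hm hj hh]; simp
  -- unit one
  obtain ⟨j2, hj2, hcj2⟩ := hP.sp.px 2 (by omega) (by omega)
  have hn1 : ¬ chg k x y m q q c o' := fun hh => hom.2.2 (hchg o' hom.2.1 hh).symm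
  have hn2 : ¬ chg k x y m q q c j2 := fun hh => by
    have := hchg j2 hj2 hh
    subst this
    have := h.injx 2 u (by omega) (by omega) (by omega) (by omega) (hcj2.symm.trans ho)
    omega
  have l1 := list_one hH h hk hP hF hom.2.1 ho' g0
  rw [← ho', phK_no hP.lc.cat hm hom.2.1 hn1, Finset.card_empty] at l1
  obtain ⟨b, hb, hb'⟩ := exists_anti (show 5 ≤ (olst H R x y Φ g0 1).card by omega)
  -- three successors of one of them
  have hU := list_free hH h hP hF (i := 2) le_rfl (by omega) hj2 hcj2 hn2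
    (fun i => if i ≤ 0 then g0 i else b) (fun i => if i ≤ 0 then g0 i else neg b)
  obtain ⟨s, hs, hs3⟩ : ∃ s, s ∈ olst H R x y Φ g0 1 ∧
      3 ≤ (ball s ∩ olst H R x y Φ (fun i => if i ≤ 0 then g0 i else s) 2).card := by
    have h1 : (lst H R x y (uni Φ (fun i => if i ≤ 0 then g0 i else b)
        (fun i => if i ≤ 0 then g0 i else neg b)) 2).card ≤
        (ball b ∩ lst H R x y (uni Φ (fun i => if i ≤ 0 then g0 i else b)
          (fun i => if i ≤ 0 then g0 i else neg b)) 2).card +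
        (ball (neg b) ∩ lst H R x y (uni Φ (fun i => if i ≤ 0 then g0 i else b)
          (fun i => if i ≤ 0 then g0 i else neg b)) 2).card := by
      refine le_trans (Finset.card_le_card ?_) (Finset.card_union_le _ _)
      intro t ht
      rw [mem_union, mem_inter, mem_inter, mem_ball, mem_ball]
      rcases nr_or_neg b t with h2 | h2
      · exact Or.inl ⟨h2, ht⟩
      · exact Or.inr ⟨h2, ht⟩
    rcases Nat.lt_or_ge (ball b ∩ lst H R x y (uni Φ (fun i => if i ≤ 0 then g0 i else b)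
          (fun i => if i ≤ 0 then g0 i else neg b)) 2).card 3 with h2 | h2
    · have h3 : 3 ≤ (ball (neg b) ∩ lst H R x y (uni Φ (fun i => if i ≤ 0 then g0 i else b)
          (fun i => if i ≤ 0 then g0 i else neg b)) 2).card := by omega
      exact ⟨neg b, hb', h3.trans (Finset.card_le_card
        (Finset.inter_subset_inter_left (uni_right _ _ _ _)))⟩
    · exact ⟨b, hb, h2.trans (Finset.card_le_card (Finset.inter_subset_inter_left (uni_left _ _ _ _)))⟩
  -- unit three
  obtain ⟨j3, hj3, hcj3⟩ := hP.sp.px 3 (by omega) (by omega)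
  set hs1 : ℕ → Q := fun _ => s with hs1def
  have l3 := list_mid hH h hP hF (i := 3) (by omega) (by omega) hj3 hcj3 hs1 hs1
  have e3 : lst H R x y (uni Φ hs1 hs1) 3 = olst H R x y Φ hs1 3 :=
    lst_congr' (fun z => ⟨Finset.union_self _, Finset.union_self _⟩)
  rw [e3] at l3
  have L3 : 5 ≤ ((olst H R x y Φ hs1 3).erase (neg s)).card := by
    by_cases hu3 : u = 3
    · -- the conflict label is `neg s`
      subst hu3
      have hjo : j3 = o := hP.sp.inj _ _ hj3 hom.1 (by rw [hcj3]; exact InC.x (by omega) (by omega))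
        (hcj3.trans ho.symm)
      have h1 := hval j3 hj3 hs1 hs1 rfl
      rw [hcj3] at h1
      have hnot : neg s ∉ olst H R x y Φ hs1 3 := by
        intro hmm
        obtain ⟨v, v'⟩ := prt_of hP.lc.cat hj3 hcj3
        unfold olst at hmm
        rw [mem_lst] at hmm
        have h5 := hmm.1 _ v
        have hch : chg k x y m q q c o := hO.chg_in hm (by rw [io, io']; omega)
        rw [hF.phk _ _ _ v', ← hcj3, phK_yes hP.lc.cat hj3 (by rw [hjo]; exact hch), hjo,
          (hO.lo.mte hm).1, ho', lbl_x h le_rfl hkp, sg_odd (by omega), sg_odd (by omega),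
          mem_singleton] at h5
        exact h5 rfl
      rw [Finset.erase_eq_of_notMem hnot]
      omega
    · have hn3 : ¬ chg k x y m q q c j3 := fun hh => by
        have := hchg j3 hj3 hh
        subst this
        have := h.injx 3 u (by omega) (by omega) (by omega) (by omega) (hcj3.symm.trans ho)
        omega
      rw [← hcj3, phK_no hP.lc.cat hm hj3 hn3] at l3
      simp only [Finset.union_self, Finset.card_empty, Nat.add_zero] at l3
      have := Finset.pred_card_le_card_erase (s := olst H R x y Φ hs1 3) (a := neg s)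
      omega
  obtain ⟨t, ht, ht'⟩ := exists_anti L3
  -- the two walks
  have key : ∀ t, t ∈ (olst H R x y Φ hs1 3).erase (neg s) → ∃ w, PW H R x y Φ 3 w ∧ w 3 = t ∧ w 1 = s := by
    intro t ht
    rw [mem_erase] at ht
    obtain ⟨b, hb, hsb, hbt⟩ := cover_three hs3 ht.1
    have p2 := (pw_one hF.dep hkp hs).snoc hF.dep (n := 1) (by omega) hb (fun _ => by simpa using hsb)
    have e4 : olst H R x y Φ (fun i => if i ≤ 1 then (fun i => if i ≤ 0 then g0 i else s) i else b)
        (2 + 1) = olst H R x y Φ hs1 3 := by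
      refine lst_congr' (fun z => hF.st 3 (by omega) (by omega) z _ _ (fun j j1 j2 => ?_))
      have : j = 1 := by omega
      subst this
      simp [hs1def]
    refine ⟨_, p2.snoc hF.dep (n := 2) (by omega) (by rw [e4]; exact ht.2) (fun _ => by simpa using hbt),
      by simp, by simp⟩
  obtain ⟨w, p1, p2, p3⟩ := key t ht
  obtain ⟨w', p1', p2', p3'⟩ := key _ ht'
  refine same_of_anti hH h hF.two hF.dep (C := fun g => g 1 = s) (fun g w hs hg => by
    rw [← hs 1 le_rfl (by omega)]; exact hg) hak3 ?_ (n := 3) (by omega) (by omega) p1 p1'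
    (by rw [p2, p2']) p3 p3'
  intro g g' hg hg' i i1 i2
  obtain ⟨j, hj, hcj⟩ := hP.sp.px i (by omega) i2
  have l4 := list_mid hH h hP hF i1 (by omega) hj hcj g g'
  have l5 := hval j hj g g' (by rw [hg, hg'])
  rw [hcj] at l5
  omega

end CLB.H91
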