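import Pool.Agent.Helper91_DA.Laws
import Pool.Agent.Helper91_DA.Strat2

/-!
Two nearly closed components: consequences of the inequalities.
-/

set_option autoImplicit false
set_option linter.unusedSectionVars false

namespace CLB.H91

open Finset Classical
open H3DA (Q neg nr)
open CLB.H95
open CLB.H3 (CExt Cat IsTwo Fits UPath he_of_unc cat_structure chn_side pos chs mem_chs chs_sum x_mem_chs
  y_mem_chs mmS llS uuS eU eS rlaw_sets zs mem_zs zs_card zs_unc uuS_cat eU_sum_ge eS_sum_ge sX sO mem_sX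
  mem_sO NoFull one_le_pos pos_le pos_eq_cl allP mem_allP cat_adj_pos)

variable {V : Type*} {H : SimpleGraph V} {R : V → Bool} [Fintype V] {k : ℕ} {x y : ℕ → V}

/-! ### Patterns -/

lemma ncp_cases {m : ℕ} {J : ℕ → Prop} (hm : 2 ≤ m) (hN : NCp m J) :
    m = 2 ∨ (∃ e ≤ m + 1, ∀ j ≤ m + 1, j ≠ e → J j) ∨
    (m = 3 ∧ ((J 0 ∧ J 1 ∧ (J 3 ∨ J 4)) ∨ (J 3 ∧ J 4 ∧ (J 0 ∨ J 1)))) ∨
    (m = 4 ∧ J 0 ∧ J 1 ∧ J 4 ∧ J 5) := by
  rcases hN with h | ⟨h0, h1, -, h2, h3⟩ | ⟨h0, h1, -, h2, h3⟩ | ⟨h0, h1, h2, h3, h4⟩ | ⟨rfl, h⟩ | ⟨rfl, h⟩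
  · exact Or.inl h.1
  · right; left
    rcases h2 with h2 | h2
    · refine ⟨m + 1, le_rfl, fun j hj hne => ?_⟩
      by_cases e0 : j = 0
      · rw [e0]; exact h0
      · by_cases e1 : j = 1
        · rw [e1]; exact h1
        · by_cases em : j = m
          · rw [em]; exact h2
          · exact h3 j (by omega) (by omega)
    · refine ⟨m, by omega, fun j hj hne => ?_⟩
      by_cases e0 : j = 0
      · rw [e0]; exact h0
      · by_cases e1 : j = 1
        · rw [e1]; exact h1
        · by_cases em : j = m + 1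
          · rw [em]; exact h2
          · exact h3 j (by omega) (by omega)
  · right; left
    rcases h2 with h2 | h2
    · refine ⟨1, by omega, fun j hj hne => ?_⟩
      by_cases e0 : j = m
      · rw [e0]; exact h0
      · by_cases e1 : j = m + 1
        · rw [e1]; exact h1
        · by_cases em : j = 0
          · rw [em]; exact h2
          · exact h3 j (by omega) (by omega)
    · refine ⟨0, by omega, fun j hj hne => ?_⟩
      by_cases e0 : j = m
      · rw [e0]; exact h0
      · by_cases e1 : j = m + 1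
        · rw [e1]; exact h1
        · by_cases em : j = 1
          · rw [em]; exact h2
          · exact h3 j (by omega) (by omega)
  · right; left
    by_cases hex : ∃ e, 2 ≤ e ∧ e + 1 ≤ m ∧ ¬ J e
    · obtain ⟨e, e1, e2, e3⟩ := hex
      refine ⟨e, by omega, fun j hj hne => ?_⟩
      by_cases j0 : j = 0
      · rw [j0]; exact h0
      · by_cases j1 : j = 1
        · rw [j1]; exact h1
        · by_cases jm : j = m
          · rw [jm]; exact h2
          · by_cases jm1 : j = m + 1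
            · rw [jm1]; exact h3
            · rcases Nat.lt_or_gt_of_ne hne with hlt | hlt
              · rcases h4 j e (by omega) hlt (by omega) with h | h
                · exact h
                · exact absurd h e3
              · rcases h4 e j (by omega) hlt (by omega) with h | h
                · exact absurd h e3
                · exact h
    · refine ⟨0, by omega, fun j hj hne => ?_⟩
      by_cases j1 : j = 1
      · rw [j1]; exact h1
      · by_cases jm : j = m
        · rw [jm]; exact h2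
        · by_cases jm1 : j = m + 1
          · rw [jm1]; exact h3
          · by_contra hJ
            exact hex ⟨j, by omega, by omega, hJ⟩
  · exact Or.inr (Or.inr (Or.inl ⟨rfl, h⟩))
  · exact Or.inr (Or.inr (Or.inr ⟨rfl, h⟩))

lemma ncp_forks {m : ℕ} {J : ℕ → Prop} (hN : NCp m J) :
    (J 0 ∨ J 1) ∧ (J m ∨ J (m + 1)) := by
  rcases hN with ⟨rfl, h⟩ | ⟨h0, h1, -, h2, h3⟩ | ⟨h0, h1, -, h2, h3⟩ | ⟨h0, h1, h2, h3, h4⟩ |
    ⟨rfl, h | h⟩ | ⟨rfl, h⟩
  · exact h
  · exact ⟨Or.inl h0, h2⟩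
  · exact ⟨h2, Or.inl h0⟩
  · exact ⟨Or.inl h0, Or.inl h2⟩
  · exact ⟨Or.inl h.1, h.2.2⟩
  · exact ⟨h.2.2, Or.inl h.1⟩
  · exact ⟨Or.inl h.1, Or.inl h.2.2.1⟩

/-! ### The number of ports in the chain -/

/-- The ports in the chain. -/
noncomputable def ins (k : ℕ) (x y : ℕ → V) (m : ℕ) (c : ℕ → V) : Finset ℕ :=
  (allP m).filter (fun j => InC k x y (c j))

lemma mem_ins {m : ℕ} {c : ℕ → V} {j : ℕ} : j ∈ ins k x y m c ↔ j ≤ m + 1 ∧ InC k x y (c j) := by
  unfold ins; rw [mem_filter, mem_allP]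

lemma sp_card (h : Chn H R k x y) {m : ℕ} {c : ℕ → V} {a b : ℕ} (hs : Sp k x y m c a b) :
    (ins k x y m c).card = a + b := by
  have hab := hs.ab
  have hinj : Set.InjOn c (ins k x y m c : Finset ℕ) := by
    intro i hi j hj hij
    rw [Finset.mem_coe, mem_ins] at hi hj
    exact hs.inj i j hi.1 hj.1 hi.2 hij
  rw [← Finset.card_image_of_injOn hinj]
  have e : (ins k x y m c).image c = (Icc 1 a).image x ∪ (Icc (k + 1 - b) k).image y := by
    ext v
    rw [mem_image, mem_union, mem_image, mem_image]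
    constructor
    · rintro ⟨j, hj, rfl⟩
      rw [mem_ins] at hj
      rcases hs.all j hj.1 hj.2 with ⟨i, i1, i2, i3⟩ | ⟨i, i1, i2, i3⟩
      · exact Or.inl ⟨i, mem_Icc.2 ⟨i1, i2⟩, i3.symm⟩
      · exact Or.inr ⟨i, mem_Icc.2 ⟨by omega, i1⟩, i3.symm⟩
    · rintro (⟨i, hi, rfl⟩ | ⟨i, hi, rfl⟩)
      · rw [mem_Icc] at hi
        obtain ⟨j, hj, hcj⟩ := hs.px i hi.1 hi.2
        exact ⟨j, mem_ins.2 ⟨hj, by rw [hcj]; exact InC.x hi.1 (by omega)⟩, hcj⟩
      · rw [mem_Icc] at hi
        obtain ⟨j, hj, hcj⟩ := hs.py i hi.2 (by omega)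
        exact ⟨j, mem_ins.2 ⟨hj, by rw [hcj]; exact InC.y (by omega) hi.2⟩, hcj⟩
  rw [e, Finset.card_union_of_disjoint, Finset.card_image_of_injOn, Finset.card_image_of_injOn,
    Nat.card_Icc, Nat.card_Icc]
  · have := hs.b1
    omega
  · intro i hi j hj hij
    rw [Finset.mem_coe, mem_Icc] at hi hj
    exact h.injy i j (by omega) hi.2 (by omega) hj.2 hij
  · intro i hi j hj hij
    rw [Finset.mem_coe, mem_Icc] at hi hj
    exact h.injx i j hi.1 (by omega) hj.1 (by omega) hij
  · rw [Finset.disjoint_left]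
    intro u hu hu'
    rw [mem_image] at hu hu'
    obtain ⟨i, hi, rfl⟩ := hu
    obtain ⟨j, hj, hji⟩ := hu'
    rw [mem_Icc] at hi hj
    exact h.xy i j hi.1 (by omega) (by omega) hj.2 hji.symm

lemma sO_card (h : Chn H R k x y) {m : ℕ} {c : ℕ → V} {a b : ℕ} (hs : Sp k x y m c a b) :
    (sO x y c k (allP m)).card + (a + b) ≤ m + 2 := by
  rw [← sp_card h hs]
  have h1 : sO x y c k (allP m) ⊆ ((allP m).filter (fun j => ¬ InC k x y (c j))).image c := by
    intro w hw
    obtain ⟨⟨j, hj, rfl⟩, hn⟩ := mem_sO.1 hw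
    exact mem_image.2 ⟨j, mem_filter.2 ⟨hj, hn⟩, rfl⟩
  have h2 := (Finset.card_le_card h1).trans Finset.card_image_le
  have h3 := Finset.card_filter_add_card_filter_not (s := allP m) (fun j => InC k x y (c j))
  have h4 : (allP m).card = m + 2 := by unfold allP; rw [card_range]
  unfold ins
  omega

/-- No matching edge is seen. -/
lemma sp_noFull (hG : ClassC H R) (hc : Crit H R) (h : Chn H R k x y) {m : ℕ} {z c : ℕ → V}
    (hK : Cat H R m z c) (hm : 2 ≤ m) {a b : ℕ} (hs : Sp k x y m c a b) (hN : NCp m (JC k x y c)) :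
    NoFull H R m c := by
  intro i j hi hj hme
  have hab := hs.ab
  have hadj := hme.1
  by_cases hin : InC k x y (c i)
  · have hin' : InC k x y (c j) := h.mate hG hin hme
    rcases hs.all i hi hin with ⟨s, s1, s2, s3⟩ | ⟨s, s1, s2, s3⟩ <;>
      rcases hs.all j hj hin' with ⟨t, t1, t2, t3⟩ | ⟨t, t1, t2, t3⟩
    · rw [s3, t3] at hme
      exact h.xy t s t1 (by omega) s1 (by omega) (hG.matching hme (h.me s s1 (by omega)))
    · rw [s3, t3] at hme
      have := h.injy t s (by omega) t1 s1 (by omega) (hG.matching hme (h.me s s1 (by omega)))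
      omega
    · rw [s3, t3] at hme
      have := h.injx t s t1 (by omega) (by omega) s1 (hG.matching hme (h.me s (by omega) s1).symm)
      omega
    · rw [s3, t3] at hme
      exact h.xy s t (by omega) s1 (by omega) t1 (hG.matching hme (h.me s (by omega) s1).symm).symm
  · have hin' : ¬ InC k x y (c j) := fun hh => hin (h.mate hG hh hme.symm)
    have hp := mate_pos hG hc hK hm hi hj hme
    have p1 := pos_le (m := m) (j := i) hK.pos hi
    have p2 := pos_le (m := m) (j := j) hK.pos hj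
    have p3 := one_le_pos (m := m) (j := i) hK.pos
    have p4 := one_le_pos (m := m) (j := j) hK.pos
    rcases ncp_cases hm hN with e | ⟨e, -, h1⟩ | ⟨e, -⟩ | ⟨e, -⟩
    · omega
    · have e1 : i = e := by
        by_contra hne
        exact hin (h1 i hi hne)
      have e2 : j = e := by
        by_contra hne
        exact hin' (h1 j hj hne)
      rw [e1, e2] at hadj
      exact hadj.ne rfl
    · omega
    · omega

/-! ### No fork with two ports on the left -/

lemma LM.pos_eq {m o o' : ℕ} (hm : 2 ≤ m) (ho : LM m o o') : pos m o = pos m o' := by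
  unfold LM at ho
  unfold pos
  split_ifs <;> omega

/-- A fork sees at most one of the vertices `x 2, x 3, ...`. -/
theorem no_fork_xx (hG : ClassC H R) (h : Chn H R k x y) {m : ℕ} {z c : ℕ → V} (hK : Cat H R m z c)
    (hm : 2 ≤ m) {o o' : ℕ} (ho : LM m o o') {u v : ℕ} (hv : 2 ≤ v) (hvu : v < u) (hu : u ≤ k)
    (e : c o = x u) (e' : c o' = x v) : False := by
  have hle := ho.le hm
  have hpp : pos m o = pos m o' := ho.pos_eq hm
  have hpar := port_par h hK hle.1 hle.2.1 (u := u) (v := v) ⟨by omega, hu⟩ ⟨by omega, by omega⟩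
    (Or.inl e) (Or.inl e')
  rw [hpp] at hpar
  have p1 := pos_le (m := m) (j := o) hK.pos hle.1
  have p3 := one_le_pos (m := m) (j := o) hK.pos
  have key := CLB.H3.rstar hG h hK (p := pos m o) (q := pos m o) p3 le_rfl p1 (X := {u, v}) (Y := ∅)
    (Ux := ∅) (Uy := {u - 1, v - 1}) (O := ∅) (J := {o, o'}) ?_ ?_ ?_ ?_ ?_ ?_ ?_ ?_
  · have c1 : ({u, v} : Finset ℕ).card = 2 := Finset.card_pair (by omega)
    have c2 : ({u - 1, v - 1} : Finset ℕ).card = 2 := Finset.card_pair (by omega)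
    have c3 : ({o, o'} : Finset ℕ).card = 2 := Finset.card_pair hle.2.2
    rw [c1, c2, c3] at key
    simp [mmS] at key
  · intro i hi
    rw [mem_insert, mem_singleton] at hi
    omega
  · intro i hi; simp at hi
  · intro w hw; simp at hw
  · intro i hi; simp at hi
  · intro i hi
    rw [mem_insert, mem_singleton] at hi
    rw [mem_insert, mem_singleton, mem_insert, mem_singleton]
    refine ⟨by omega, by omega, by simp, by omega⟩
  · simp
  · intro j hj
    rw [mem_insert, mem_singleton] at hj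
    rcases hj with rfl | rfl
    · exact ⟨hle.1, le_rfl, le_rfl⟩
    · exact ⟨hle.2.1, by rw [hpp], by rw [hpp]⟩
  · intro j hj
    rw [mem_insert, mem_singleton] at hj
    rw [mem_chs]
    rcases hj with rfl | rfl
    · exact Or.inl ⟨u, by simp, e.symm⟩
    · exact Or.inl ⟨v, by simp, e'.symm⟩

/-! ### No fork with both ends next to another component -/

/-- A vertex adjacent to `x 1` and `y k`, next to a component. -/
theorem no_end_fork (hG : ClassC H R) (hc : Crit H R) (h : Chn H R k x y) {m' : ℕ} {z' c' : ℕ → V}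
    (hK' : Cat H R m' z' c') (hm' : 2 ≤ m') {a b : ℕ} (hs' : Sp k x y m' c' a b)
    (hN' : NCp m' (JC k x y c')) {w : V} (hw : ¬ Cov H R w) (hwn : ∀ i, 1 ≤ i → i ≤ m' → z' i ≠ w)
    (h1 : H.Adj (x 1) w) (h2 : H.Adj (y k) w) : False := by
  have hF := sp_noFull hG hc h hK' hm' hs' hN'
  have hkp := h.pos
  have hab := hs'.ab
  have ha1 := hs'.a1
  have hb1 := hs'.b1
  have key := law_plus hG h hK' (p := 1) (q := m') le_rfl hK'.pos le_rfl hw hwn
    (X := Icc 1 a) (Y := Icc (k + 1 - b) k) (O := sO x y c' k (allP m')) (J := allP m')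
    (W := {x 1, y k}) ?_ ?_ ?_ ?_ ?_ ?_
  · rw [Finset.card_pair (h.xy 1 k le_rfl hkp hkp le_rfl), Nat.card_Icc, Nat.card_Icc,
      hF.mm (fun j hj => mem_allP.1 hj)] at key
    have e1 : (Icc 1 a ∩ Icc (k + 1 - b) k).card = 0 := by
      rw [Finset.card_eq_zero, Finset.eq_empty_iff_forall_notMem]
      intro i hi
      rw [mem_inter, mem_Icc, mem_Icc] at hi
      omega
    have e2 := sO_card h hs'
    have e3 : (allP m').card = m' + 2 := by unfold allP; rw [card_range]
    rw [e1, e3] at key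
    omega
  · intro i hi
    rw [mem_Icc] at hi
    omega
  · intro i hi
    rw [mem_Icc] at hi
    omega
  · intro w hw
    obtain ⟨⟨j, hj, rfl⟩, hn⟩ := mem_sO.1 hw
    exact ⟨hK'.cov j (mem_allP.1 hj), hn⟩
  · intro j hj
    exact ⟨mem_allP.1 hj, one_le_pos hK'.pos, pos_le hK'.pos (mem_allP.1 hj)⟩
  · intro j hj
    rw [mem_chs]
    by_cases hin : InC k x y (c' j)
    · rcases hs'.all j (mem_allP.1 hj) hin with ⟨i, i1, i2, i3⟩ | ⟨i, i1, i2, i3⟩
      · exact Or.inl ⟨i, mem_Icc.2 ⟨i1, i2⟩, i3.symm⟩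
      · exact Or.inr (Or.inl ⟨i, mem_Icc.2 ⟨by omega, i1⟩, i3.symm⟩)
    · exact Or.inr (Or.inr (mem_sO.2 ⟨⟨j, hj, rfl⟩, hin⟩))
  · intro v hv
    rw [mem_insert, mem_singleton] at hv
    rw [mem_chs]
    rcases hv with rfl | rfl
    · exact ⟨Or.inl ⟨1, mem_Icc.2 ⟨le_rfl, ha1⟩, rfl⟩, h1⟩
    · exact ⟨Or.inr (Or.inl ⟨k, mem_Icc.2 ⟨by omega, le_rfl⟩, rfl⟩), h2⟩

/-! ### The overlap -/

/-- Many units seen from both sides force ports outside. -/
theorem overlap_out (hG : ClassC H R) (hc : Crit H R) (h : Chn H R k x y) {m : ℕ} {z c : ℕ → V}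
    (hK : Cat H R m z c) (hm : 2 ≤ m) {m' : ℕ} {z' c' : ℕ → V} (hK' : Cat H R m' z' c')
    (hne : cSupp m z ≠ cSupp m' z') {a b : ℕ} (hs : Sp k x y m c a 1) (hN : NCp m (JC k x y c))
    (hs' : Sp k x y m' c' 1 b) (hab : k + 2 ≤ a + b) : b + 1 ≤ m' := by
  have hF := sp_noFull hG hc h hK hm hs hN
  have hkp := h.pos
  have h1 := hs.ab
  have h2 := hs'.ab
  obtain ⟨g, hg⟩ : ∃ g, g = k + 1 - b := ⟨_, rfl⟩
  obtain ⟨j0, hj0, hcj0⟩ := hs.px g (by omega) (by omega)
  obtain ⟨j1, hj1, hcj1⟩ := hs'.py a (by omega) (by omega)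
  have key := two_law hG h hK hK' hne (X := (Icc 1 a).erase g) (Y := (Icc g k).erase a)
    (O := sO x y c k (allP m)) (J := (allP m).erase j0) (J' := (ins k x y m' c').erase j1)
    ?_ ?_ ?_ ?_ ?_ ?_ ?_
  · rw [Finset.card_erase_of_mem (mem_allP.2 hj0), Finset.card_erase_of_mem (mem_ins.2 ⟨hj1, by
      rw [hcj1]; exact InC.y (by omega) (by omega)⟩), Finset.card_erase_of_mem (mem_Icc.2 ⟨by omega,
      by omega⟩), Finset.card_erase_of_mem (mem_Icc.2 ⟨by omega, by omega⟩), Nat.card_Icc, Nat.card_Icc,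
      sp_card h hs', hF.mm (fun j hj => mem_allP.1 hj)] at key
    have e2 := sO_card h hs
    have e3 : (allP m).card = m + 2 := by unfold allP; rw [card_range]
    have e4 : ((Icc 1 a).erase g ∩ (Icc g k).erase a).card ≤ a - g - 1 := by
      have : (Icc 1 a).erase g ∩ (Icc g k).erase a ⊆ Icc (g + 1) (a - 1) := by
        intro i hi
        rw [mem_inter, mem_erase, mem_erase, mem_Icc, mem_Icc] at hi
        rw [mem_Icc]
        omega
      have := Finset.card_le_card this
      rw [Nat.card_Icc] at this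
      omega
    have e5 : a - g ≤ (((Icc g k).erase a).filter (fun i => i < k ∧ i + 1 ∈ (Icc 1 a).erase g)).card := by
      have : Icc g (a - 1) ⊆ ((Icc g k).erase a).filter (fun i => i < k ∧ i + 1 ∈ (Icc 1 a).erase g) := by
        intro i hi
        rw [mem_Icc] at hi
        rw [mem_filter, mem_erase, mem_erase, mem_Icc, mem_Icc]
        omega
      have := Finset.card_le_card this
      rw [Nat.card_Icc] at this
      omega
    rw [e3] at key
    omega
  · intro i hi
    rw [mem_erase, mem_Icc] at hi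
    omega
  · intro i hi
    rw [mem_erase, mem_Icc] at hi
    omega
  · intro w hw
    obtain ⟨⟨j, hj, rfl⟩, hn⟩ := mem_sO.1 hw
    exact ⟨hK.cov j (mem_allP.1 hj), hn⟩
  · intro j hj
    exact mem_allP.1 (Finset.mem_of_mem_erase hj)
  · intro j hj
    rw [mem_erase] at hj
    have hjm := mem_allP.1 hj.2
    rw [mem_chs]
    by_cases hin : InC k x y (c j)
    · rcases hs.all j hjm hin with ⟨i, i1, i2, i3⟩ | ⟨i, i1, i2, i3⟩
      · refine Or.inl ⟨i, ?_, i3.symm⟩
        rw [mem_erase, mem_Icc]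
        refine ⟨?_, i1, i2⟩
        rintro rfl
        exact hj.1 (hs.inj _ _ hjm hj0 hin (i3.trans hcj0.symm))
      · refine Or.inr (Or.inl ⟨i, ?_, i3.symm⟩)
        rw [mem_erase, mem_Icc]
        omega
    · exact Or.inr (Or.inr (mem_sO.2 ⟨⟨j, hj.2, rfl⟩, hin⟩))
  · intro j hj
    exact (mem_ins.1 (Finset.mem_of_mem_erase hj)).1
  · intro j hj
    rw [mem_erase] at hj
    obtain ⟨hjm, hin⟩ := mem_ins.1 hj.2
    rw [mem_chs]
    rcases hs'.all j hjm hin with ⟨i, i1, i2, i3⟩ | ⟨i, i1, i2, i3⟩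
    · refine Or.inl ⟨i, ?_, i3.symm⟩
      rw [mem_erase, mem_Icc]
      omega
    · refine Or.inr (Or.inl ⟨i, ?_, i3.symm⟩)
      rw [mem_erase, mem_Icc]
      refine ⟨?_, by omega, i1⟩
      rintro rfl
      exact hj.1 (hs'.inj _ _ hjm hj1 hin (i3.trans hcj1.symm))

end CLB.H91
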