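import Pool.Agent.Helper91_DA.Laws2

/-!
Two nearly closed components: the small patterns.
-/

set_option autoImplicit false
set_option linter.unusedSectionVars false

namespace CLB.H91

open Finset Classical
open H3DA (Q neg nr)
open CLB.H95
open CLB.H3 (CExt Cat IsTwo Fits UPath he_of_unc cat_structure chn_side pos chs mem_chs chs_sum x_mem_chs
  y_mem_chs mmS llS uuS eU eS rlaw_sets zs mem_zs zs_card zs_unc uuS_cat eU_sum_ge eS_sum_ge sX sO mem_sX
  mem_sO NoFull one_le_pos pos_le pos_eq_cl allP mem_allP cat_adj_pos)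

variable {V : Type*} {H : SimpleGraph V} {R : V → Bool} [Fintype V] {k : ℕ} {x y : ℕ → V}

lemma ins_ge {m : ℕ} {c : ℕ → V} {A : Finset ℕ} (hA : ∀ j ∈ A, j ≤ m + 1 ∧ InC k x y (c j)) :
    A.card ≤ (ins k x y m c).card :=
  Finset.card_le_card (fun j hj => mem_ins.2 (hA j hj))

lemma pos3 {j : ℕ} (hj : j ≤ 4) : pos 3 j % 2 = if j = 2 then 0 else 1 := by
  unfold pos; split_ifs <;> omega

/-- Two ports outside. -/
theorem sp_four (h : Chn H R k x y) {m : ℕ} {z c : ℕ → V} (hK : Cat H R m z c) (hm : 2 ≤ m) {a : ℕ}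
    (ha : 2 ≤ a) (hs : Sp k x y m c a 1) (hN : NCp m (JC k x y c)) (ham : a + 1 ≤ m) :
    m = 4 ∧ a = 3 ∧ ∀ j ≤ 5, (InC k x y (c j) ↔ j ≤ 1 ∨ 4 ≤ j) := by
  have hcard := sp_card h hs
  have hab := hs.ab
  rcases ncp_cases hm hN with e | ⟨e, e1, e2⟩ | ⟨rfl, e⟩ | ⟨rfl, e⟩
  · omega
  · exfalso
    have h1 := ins_ge (k := k) (x := x) (y := y) (m := m) (c := c) (A := (allP m).erase e)
      (fun j hj => by
        rw [mem_erase, mem_allP] at hj
        exact ⟨hj.2, e2 j hj.2 hj.1⟩)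
    have h2 : (allP m).card = m + 2 := by unfold allP; rw [card_range]
    rw [Finset.card_erase_of_mem (mem_allP.2 e1)] at h1
    omega
  · exfalso
    have ha2 : a = 2 := by omega
    subst ha2
    obtain ⟨j1, hj1, hc1⟩ := hs.px 1 le_rfl (by omega)
    obtain ⟨j2, hj2, hc2⟩ := hs.px 2 (by omega) le_rfl
    have hpar := port_par h hK hj1 hj2 (u := 1) (v := 2) ⟨le_rfl, h.pos⟩ ⟨by omega, by omega⟩
      (Or.inl hc1) (Or.inl hc2)
    have p1 := pos3 hj1
    have p2 := pos3 hj2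
    have hJ2 : InC k x y (c 2) := by
      by_cases h1 : j1 = 2
      · rw [← h1, hc1]; exact InC.x le_rfl h.pos
      · by_cases h2 : j2 = 2
        · rw [← h2, hc2]; exact InC.x (by omega) (by omega)
        · rw [if_neg h1] at p1
          rw [if_neg h2] at p2
          omega
    have key : ∃ A : Finset ℕ, A.card = 4 ∧ ∀ j ∈ A, j ≤ 3 + 1 ∧ InC k x y (c j) := by
      rcases e with ⟨h0, h1, h3 | h4⟩ | ⟨h3, h4, h0 | h1⟩
      · refine ⟨{0, 1, 2, 3}, by decide, ?_⟩
        intro j hj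
        simp only [mem_insert, mem_singleton] at hj
        rcases hj with rfl | rfl | rfl | rfl
        exacts [⟨by omega, h0⟩, ⟨by omega, h1⟩, ⟨by omega, hJ2⟩, ⟨by omega, h3⟩]
      · refine ⟨{0, 1, 2, 4}, by decide, ?_⟩
        intro j hj
        simp only [mem_insert, mem_singleton] at hj
        rcases hj with rfl | rfl | rfl | rfl
        exacts [⟨by omega, h0⟩, ⟨by omega, h1⟩, ⟨by omega, hJ2⟩, ⟨by omega, h4⟩]
      · refine ⟨{0, 2, 3, 4}, by decide, ?_⟩
        intro j hj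
        simp only [mem_insert, mem_singleton] at hj
        rcases hj with rfl | rfl | rfl | rfl
        exacts [⟨by omega, h0⟩, ⟨by omega, hJ2⟩, ⟨by omega, h3⟩, ⟨by omega, h4⟩]
      · refine ⟨{1, 2, 3, 4}, by decide, ?_⟩
        intro j hj
        simp only [mem_insert, mem_singleton] at hj
        rcases hj with rfl | rfl | rfl | rfl
        exacts [⟨by omega, h1⟩, ⟨by omega, hJ2⟩, ⟨by omega, h3⟩, ⟨by omega, h4⟩]
    obtain ⟨A, hA, hA'⟩ := key
    have := ins_ge hA'
    omega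
  · obtain ⟨h0, h1, h4, h5⟩ := e
    have key : ∀ j ≤ 5, InC k x y (c j) → j ≤ 1 ∨ 4 ≤ j := by
      intro j hj hin
      by_contra hcon
      have := ins_ge (k := k) (x := x) (y := y) (m := 4) (c := c) (A := {0, 1, 4, 5, j})
        (fun i hi => by
          simp only [mem_insert, mem_singleton] at hi
          rcases hi with rfl | rfl | rfl | rfl | rfl
          exacts [⟨by omega, h0⟩, ⟨by omega, h1⟩, ⟨by omega, h4⟩, ⟨by omega, h5⟩, ⟨by omega, hin⟩])
      have hc5 : ({0, 1, 4, 5, j} : Finset ℕ).card = 5 := by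
        have : j = 2 ∨ j = 3 := by omega
        rcases this with rfl | rfl <;> decide
      omega
    have h44 := ins_ge (k := k) (x := x) (y := y) (m := 4) (c := c) (A := {0, 1, 4, 5})
        (fun i hi => by
          simp only [mem_insert, mem_singleton] at hi
          rcases hi with rfl | rfl | rfl | rfl
          exacts [⟨by omega, h0⟩, ⟨by omega, h1⟩, ⟨by omega, h4⟩, ⟨by omega, h5⟩])
    have hc4 : ({0, 1, 4, 5} : Finset ℕ).card = 4 := by decide
    refine ⟨rfl, by omega, fun j hj => ⟨key j hj, ?_⟩⟩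
    intro hh
    have : j = 0 ∨ j = 1 ∨ j = 4 ∨ j = 5 := by omega
    rcases this with rfl | rfl | rfl | rfl
    exacts [h0, h1, h4, h5]

/-- The two components overlap in at most one unit. -/
theorem overlap (hG : ClassC H R) (hc : Crit H R) (h : Chn H R k x y) (hk : 4 ≤ k) {m : ℕ}
    {z c : ℕ → V}
    (hK : Cat H R m z c) (hm : 2 ≤ m) {m' : ℕ} {z' c' : ℕ → V} (hK' : Cat H R m' z' c') (hm' : 2 ≤ m')
    (hne : cSupp m z ≠ cSupp m' z') {a b : ℕ} (ha : 2 ≤ a) (hb : 2 ≤ b)
    (hs : Sp k x y m c a 1) (hN : NCp m (JC k x y c))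
    (hs' : Sp k x y m' c' 1 b) (hN' : NCp m' (JC k x y c')) : a + b ≤ k + 1 := by
  by_contra hcon
  have o1 := overlap_out hG hc h hK hm hK' hne hs hN hs' (by omega)
  have o2 := overlap_out hG hc h.rev hK' hm' hK hne.symm hs'.rev (by rw [jc_rev]; exact hN') hs.rev
    (by omega)
  obtain ⟨rfl, rfl, h1⟩ := sp_four h hK hm ha hs hN o2
  obtain ⟨rfl, rfl, h2⟩ := sp_four h.rev hK' hm' hb hs'.rev (by rw [jc_rev]; exact hN') o1
  have hk4 : k = 4 := by omega
  subst hk4
  have hF := sp_noFull hG hc h hK hm hs hN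
  obtain ⟨jx, hjx, hcx⟩ := hs.px 2 (by omega) (by omega)
  obtain ⟨j4, hj4, hc4⟩ := hs'.py 4 (by omega) (by omega)
  obtain ⟨j2, hj2, hc2⟩ := hs'.py 2 (by omega) (by omega)
  have i4 : j4 ≤ 1 ∨ 4 ≤ j4 := (h2 j4 hj4).1 (inC_rev.2 (by rw [hc4]; exact InC.y (by omega) le_rfl))
  have i2 : j2 ≤ 1 ∨ 4 ≤ j2 := (h2 j2 hj2).1 (inC_rev.2 (by rw [hc2]; exact InC.y (by omega) (by omega)))
  have hpar := port_par h hK' hj4 hj2 (u := 4) (v := 2) ⟨by omega, le_rfl⟩ ⟨by omega, by omega⟩
    (Or.inr hc4) (Or.inr hc2)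
  have hpos : ∀ j ≤ 5, (j ≤ 1 ∨ 4 ≤ j) → pos 4 j = 1 ∨ pos 4 j = 4 := by
    intro j hj hh
    unfold pos; split_ifs <;> omega
  have hpp : pos 4 j4 = pos 4 j2 := by
    have p1 := hpos j4 hj4 i4
    have p2 := hpos j2 hj2 i2
    omega
  have hcl := cl_mem hK'.pos hj4
  have key := law_plus hG h hK (p := 1) (q := 4) le_rfl (by omega) le_rfl (w := z' (cl 4 j4))
    (hK'.unc _ hcl.1 hcl.2) (fun i i1 i2 he => hne (cSupp_eq hK hK' (mem_cSupp i1 i2)
      (by rw [he]; exact mem_cSupp hcl.1 hcl.2)))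
    (X := {1, 3}) (Y := {2, 4}) (O := sO x y c 4 (allP 4)) (J := (allP 4).erase jx)
    (W := {y 4, y 2}) ?_ ?_ ?_ ?_ ?_ ?_
  · rw [Finset.card_pair (fun he => by
      have := h.injy 4 2 (by omega) le_rfl (by omega) (by omega) he
      omega), Finset.card_erase_of_mem (mem_allP.2 hjx), hF.mm (fun j hj => mem_allP.1 hj)] at key
    have e2 := sO_card h hs
    have e3 : (allP 4).card = 6 := by unfold allP; rw [card_range]
    have e4 : (({2, 4} : Finset ℕ).filter (fun i => i < 4 ∧ i + 1 ∈ ({1, 3} : Finset ℕ))).card = 1 := by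
      decide
    have e5 : (({1, 3} : Finset ℕ) ∩ {2, 4}).card = 0 := by decide
    have e6 : ({1, 3} : Finset ℕ).card = 2 := by decide
    have e7 : ({2, 4} : Finset ℕ).card = 2 := by decide
    rw [e3, e4, e5, e6, e7] at key
    omega
  · intro i hi
    simp only [mem_insert, mem_singleton] at hi
    omega
  · intro i hi
    simp only [mem_insert, mem_singleton] at hi
    omega
  · intro w hw
    obtain ⟨⟨j, hj, rfl⟩, hn⟩ := mem_sO.1 hw
    exact ⟨hK.cov j (mem_allP.1 hj), hn⟩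
  · intro j hj
    have hj' := mem_allP.1 (Finset.mem_of_mem_erase hj)
    exact ⟨hj', one_le_pos hK.pos, pos_le hK.pos hj'⟩
  · intro j hj
    rw [mem_erase] at hj
    have hjm := mem_allP.1 hj.2
    rw [mem_chs]
    by_cases hin : InC 4 x y (c j)
    · rcases hs.all j hjm hin with ⟨i, i1, i2, i3⟩ | ⟨i, i1, i2, i3⟩
      · refine Or.inl ⟨i, ?_, i3.symm⟩
        simp only [mem_insert, mem_singleton]
        have : i ≠ 2 := by
          rintro rfl
          exact hj.1 (hs.inj _ _ hjm hjx hin (i3.trans hcx.symm))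
        omega
      · refine Or.inr (Or.inl ⟨i, ?_, i3.symm⟩)
        simp only [mem_insert, mem_singleton]
        omega
    · exact Or.inr (Or.inr (mem_sO.2 ⟨⟨j, hj.2, rfl⟩, hin⟩))
  · intro v hv
    rw [mem_insert, mem_singleton] at hv
    rw [mem_chs]
    rcases hv with rfl | rfl
    · refine ⟨Or.inr (Or.inl ⟨4, by simp, rfl⟩), ?_⟩
      have := cat_adj_pos hK' hj4
      rwa [hc4] at this
    · refine ⟨Or.inr (Or.inl ⟨2, by simp, rfl⟩), ?_⟩
      have := cat_adj_pos hK' hj2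
      rw [hc2, ← hpp] at this
      exact this

/-- Five units, three of them seen from the left. -/
theorem sp_five (h : Chn H R 5 x y) {m : ℕ} {z c : ℕ → V} (hK : Cat H R m z c) (hm : 2 ≤ m)
    (hs : Sp 5 x y m c 3 1) (hN : NCp m (JC 5 x y c)) :
    m = 3 ∧ c 2 = x 2 ∧ ∃ q q' o o', OF 3 q q' o o' ∧ c q = y 5 ∧
      (c q' = x 1 ∨ (c q' = x 3 ∧ c o = x 1 ∧ ¬ InC 5 x y (c o')) ∨
        (¬ InC 5 x y (c q') ∧ c o = x 1 ∧ c o' = x 3)) := by
  have hcard := sp_card h hs
  obtain ⟨a1, ha1, hc1⟩ := hs.px 1 le_rfl (by omega)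
  obtain ⟨a2, ha2, hc2⟩ := hs.px 2 (by omega) (by omega)
  obtain ⟨a3, ha3, hc3⟩ := hs.px 3 (by omega) le_rfl
  obtain ⟨a5, ha5, hc5⟩ := hs.py 5 le_rfl (by omega)
  have n12 : a1 ≠ a2 := by
    rintro rfl
    have := h.injx 1 2 (by omega) (by omega) (by omega) (by omega) (hc1.symm.trans hc2)
    omega
  have n13 : a1 ≠ a3 := by
    rintro rfl
    have := h.injx 1 3 (by omega) (by omega) (by omega) (by omega) (hc1.symm.trans hc3)
    omega
  have n23 : a2 ≠ a3 := by
    rintro rfl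
    have := h.injx 2 3 (by omega) (by omega) (by omega) (by omega) (hc2.symm.trans hc3)
    omega
  have n15 : a1 ≠ a5 := by
    rintro rfl
    exact h.xy 1 5 (by omega) (by omega) (by omega) (by omega) (hc1.symm.trans hc5)
  have n25 : a2 ≠ a5 := by
    rintro rfl
    exact h.xy 2 5 (by omega) (by omega) (by omega) (by omega) (hc2.symm.trans hc5)
  have n35 : a3 ≠ a5 := by
    rintro rfl
    exact h.xy 3 5 (by omega) (by omega) (by omega) (by omega) (hc3.symm.trans hc5)
  have r12 := port_par h hK ha1 ha2 (u := 1) (v := 2) ⟨by omega, by omega⟩ ⟨by omega, by omega⟩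
    (Or.inl hc1) (Or.inl hc2)
  have r13 := port_par h hK ha1 ha3 (u := 1) (v := 3) ⟨by omega, by omega⟩ ⟨by omega, by omega⟩
    (Or.inl hc1) (Or.inl hc3)
  have r15 := port_par h hK ha1 ha5 (u := 1) (v := 5) ⟨by omega, by omega⟩ ⟨by omega, by omega⟩
    (Or.inl hc1) (Or.inr hc5)
  have hm3 : m = 3 := by
    rcases ncp_cases hm hN with rfl | ⟨e, e1, e2⟩ | ⟨e, -⟩ | ⟨rfl, e⟩
    · exfalso
      unfold pos at r12 r13 r15
      split_ifs at r12 r13 r15 <;> omega
    · have h1 := ins_ge (k := 5) (x := x) (y := y) (m := m) (c := c) (A := (allP m).erase e)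
        (fun j hj => by
          rw [mem_erase, mem_allP] at hj
          exact ⟨hj.2, e2 j hj.2 hj.1⟩)
      have h2 : (allP m).card = m + 2 := by unfold allP; rw [card_range]
      rw [Finset.card_erase_of_mem (mem_allP.2 e1)] at h1
      have hm23 : m = 2 ∨ m = 3 := by omega
      rcases hm23 with rfl | rfl
      · exfalso
        unfold pos at r12 r13 r15
        split_ifs at r12 r13 r15 <;> omega
      · rfl
    · exact e
    · exfalso
      obtain ⟨h0, h1, h4, h5⟩ := e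
      have key : ∀ j ≤ 5, InC 5 x y (c j) → j ≤ 1 ∨ 4 ≤ j := by
        intro j hj hin
        by_contra hcon
        have := ins_ge (k := 5) (x := x) (y := y) (m := 4) (c := c) (A := {0, 1, 4, 5, j})
          (fun i hi => by
            simp only [mem_insert, mem_singleton] at hi
            rcases hi with rfl | rfl | rfl | rfl | rfl
            exacts [⟨by omega, h0⟩, ⟨by omega, h1⟩, ⟨by omega, h4⟩, ⟨by omega, h5⟩, ⟨by omega, hin⟩])
        have hc5 : ({0, 1, 4, 5, j} : Finset ℕ).card = 5 := by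
          have : j = 2 ∨ j = 3 := by omega
          rcases this with rfl | rfl <;> decide
        omega
      have k1 := key a1 ha1 (by rw [hc1]; exact InC.x (by omega) (by omega))
      have k3 := key a3 ha3 (by rw [hc3]; exact InC.x (by omega) (by omega))
      have k5 := key a5 ha5 (by rw [hc5]; exact InC.y (by omega) (by omega))
      have hpos : ∀ j ≤ 5, (j ≤ 1 ∨ 4 ≤ j) → (pos 4 j = 1 ∧ j ≤ 1) ∨ (pos 4 j = 4 ∧ 4 ≤ j) := by
        intro j hj hh
        unfold pos; split_ifs <;> omega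
      have p1 := hpos a1 ha1 k1
      have p3 := hpos a3 ha3 k3
      have p5 := hpos a5 ha5 k5
      omega
  subst hm3
  have q1 := pos3 ha1
  have q2 := pos3 ha2
  have q3 := pos3 ha3
  have q5 := pos3 ha5
  have e2 : a2 = 2 := by
    by_contra hne
    rw [if_neg hne] at q2
    have f1 : a1 = 2 := by
      by_contra h1; rw [if_neg h1] at q1; omega
    have f3 : a3 = 2 := by
      by_contra h1; rw [if_neg h1] at q3; omega
    omega
  subst e2
  refine ⟨rfl, hc2, ?_⟩
  have hq' : ∃ q', LM 3 a5 q' := by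
    have : a5 = 0 ∨ a5 = 1 ∨ a5 = 3 ∨ a5 = 4 := by omega
    rcases this with rfl | rfl | rfl | rfl
    · exact ⟨1, Or.inl ⟨rfl, rfl⟩⟩
    · exact ⟨0, Or.inr (Or.inl ⟨rfl, rfl⟩)⟩
    · exact ⟨4, Or.inr (Or.inr (Or.inl ⟨rfl, rfl⟩))⟩
    · exact ⟨3, Or.inr (Or.inr (Or.inr ⟨rfl, rfl⟩))⟩
  obtain ⟨q', hq'⟩ := hq'
  have hle := hq'.le hm
  have hall : ∀ j ≤ 4, InC 5 x y (c j) → j = a1 ∨ j = 2 ∨ j = a3 ∨ j = a5 := by
    intro j hj hin
    rcases hs.all j hj hin with ⟨i, i1, i2, i3⟩ | ⟨i, i1, i2, i3⟩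
    · have : i = 1 ∨ i = 2 ∨ i = 3 := by omega
      rcases this with rfl | rfl | rfl
      · exact Or.inl (hs.inj _ _ hj ha1 hin (i3.trans hc1.symm))
      · exact Or.inr (Or.inl (hs.inj _ _ hj (by omega) hin (i3.trans hc2.symm)))
      · exact Or.inr (Or.inr (Or.inl (hs.inj _ _ hj ha3 hin (i3.trans hc3.symm))))
    · have : i = 5 := by omega
      subst this
      exact Or.inr (Or.inr (Or.inr (hs.inj _ _ hj ha5 hin (i3.trans hc5.symm))))
  by_cases c1 : q' = a1
  · -- the fork `{x 1, y 5}`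
    obtain ⟨o, o', ho⟩ : ∃ o o', OF 3 a5 q' o o' := by
      by_cases h1 : a5 ≤ 1
      · exact ⟨3, 4, hq', Or.inr (Or.inr (Or.inl ⟨rfl, rfl⟩)), by omega, by unfold LM at hq'; omega⟩
      · exact ⟨0, 1, hq', Or.inl ⟨rfl, rfl⟩, by omega, by unfold LM at hq'; omega⟩
    exact ⟨a5, q', o, o', ho, hc5, Or.inl (by rw [c1]; exact hc1)⟩
  · by_cases c3 : q' = a3
    · obtain ⟨o', ho⟩ : ∃ o', LM 3 a1 o' := by
        have : a1 = 0 ∨ a1 = 1 ∨ a1 = 3 ∨ a1 = 4 := by omega
        rcases this with e | e | e | e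
        · exact ⟨1, Or.inl ⟨e, rfl⟩⟩
        · exact ⟨0, Or.inr (Or.inl ⟨e, rfl⟩)⟩
        · exact ⟨4, Or.inr (Or.inr (Or.inl ⟨e, rfl⟩))⟩
        · exact ⟨3, Or.inr (Or.inr (Or.inr ⟨e, rfl⟩))⟩
      have hle' := ho.le hm
      refine ⟨a5, q', a1, o', ⟨hq', ho, n15, fun he => c1 he.symm⟩, hc5, Or.inr (Or.inl ⟨by
        rw [c3]; exact hc3, hc1, fun hin => ?_⟩)⟩
      have h9 := hall o' hle'.2.1 hin
      unfold LM at hq' ho
      omega
    · refine ⟨a5, q', a1, a3, ⟨hq', ?_, n15, fun he => c1 he.symm⟩, hc5, Or.inr (Or.inr ⟨fun hin => ?_,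
        hc1, hc3⟩)⟩
      · unfold LM at hq' ⊢
        have d1 : a1 ≠ 2 := n12
        have d3 : a3 ≠ 2 := n23.symm
        omega
      · have h9 := hall q' hle.2.1 hin
        unfold LM at hq'
        omega

/-- The two patterns with a port outside in the late forks exclude each other. -/
theorem no_a3b3 (hG : ClassC H R) (h : Chn H R 5 x y) {z c : ℕ → V} (hK : Cat H R 3 z c)
    {z' c' : ℕ → V} (hK' : Cat H R 3 z' c') (hne : cSupp 3 z ≠ cSupp 3 z') {q q' o o' : ℕ}
    (hq : LM 3 q q') (hcq : c q = y 5) (hcq' : ¬ InC 5 x y (c q')) (hc2 : c 2 = x 2)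
    (ho : LM 3 o o') (hco : c' o = y 5) (hco' : c' o' = y 3) : False := by
  have hle := hq.le (by omega)
  have hle' := ho.le (by omega)
  have hcl := cl_mem hK'.pos hle'.1
  have hpp := hq.pos_eq (by omega)
  have hpp' := ho.pos_eq (by omega)
  have q2 : q ≠ 2 ∧ q' ≠ 2 := by unfold LM at hq; omega
  have hm0 : mmS H R {c q'} = 0 := by
    unfold mmS
    rw [Finset.sum_singleton, Finset.card_eq_zero, Finset.filter_eq_empty_iff]
    intro v hv hme
    rw [mem_singleton] at hv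
    rw [hv] at hme
    exact hme.1.ne rfl
  obtain ⟨p, r, hp1, hpr, hr, hp2, hp3⟩ : ∃ p r, 1 ≤ p ∧ p + 1 = r ∧ r ≤ 3 ∧
      (p ≤ pos 3 q ∧ pos 3 q ≤ r) ∧ (p ≤ pos 3 2 ∧ pos 3 2 ≤ r) := by
    have e2 : pos 3 2 = 2 := by decide
    rw [e2]
    have : pos 3 q = 1 ∨ pos 3 q = 3 := by
      unfold LM at hq
      unfold pos; split_ifs <;> omega
    rcases this with e | e
    · exact ⟨1, 2, by omega, by omega, by omega, by omega, by omega⟩
    · exact ⟨2, 3, by omega, by omega, by omega, by omega, by omega⟩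
  have key := law_plus hG h hK (p := p) (q := r) hp1 (by omega) hr (w := z' (cl 3 o))
    (hK'.unc _ hcl.1 hcl.2) (fun i i1 i2 he => hne (cSupp_eq hK hK' (mem_cSupp i1 i2)
      (by rw [he]; exact mem_cSupp hcl.1 hcl.2)))
    (X := {2, 4}) (Y := {1, 3, 5}) (O := {c q'}) (J := {q, q', 2})
    (W := {y 5, y 3}) ?_ ?_ ?_ ?_ ?_ ?_
  · have e1 : (({1, 3, 5} : Finset ℕ).filter (fun i => i < 5 ∧ i + 1 ∈ ({2, 4} : Finset ℕ))).card = 2 := by
      decide
    have e2 : (({2, 4} : Finset ℕ) ∩ {1, 3, 5}).card = 0 := by decide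
    have e3 : ({2, 4} : Finset ℕ).card = 2 := by decide
    have e4 : ({1, 3, 5} : Finset ℕ).card = 3 := by decide
    have e5 : ({y 5, y 3} : Finset V).card = 2 := Finset.card_pair (fun he => by
      have := h.injy 5 3 (by omega) le_rfl (by omega) (by omega) he
      omega)
    have e6 : ({q, q', 2} : Finset ℕ).card = 3 := by
      rw [Finset.card_insert_of_notMem, Finset.card_pair q2.2]
      rw [mem_insert, mem_singleton]
      omega
    rw [e1, e2, e3, e4, e5, e6, Finset.card_singleton, hm0] at key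
    omega
  · intro i hi
    simp only [mem_insert, mem_singleton] at hi
    omega
  · intro i hi
    simp only [mem_insert, mem_singleton] at hi
    omega
  · intro w hw
    rw [mem_singleton] at hw
    rw [hw]
    exact ⟨hK.cov q' hle.2.1, hcq'⟩
  · intro j hj
    simp only [mem_insert, mem_singleton] at hj
    rcases hj with rfl | rfl | rfl
    · exact ⟨hle.1, hp2⟩
    · exact ⟨hle.2.1, by rw [← hpp]; exact hp2⟩
    · exact ⟨by omega, hp3⟩
  · intro j hj
    simp only [mem_insert, mem_singleton] at hj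
    rw [mem_chs]
    rcases hj with rfl | rfl | rfl
    · exact Or.inr (Or.inl ⟨5, by simp, hcq.symm⟩)
    · exact Or.inr (Or.inr (mem_singleton_self _))
    · exact Or.inl ⟨2, by simp, hc2.symm⟩
  · intro v hv
    rw [mem_insert, mem_singleton] at hv
    rw [mem_chs]
    rcases hv with rfl | rfl
    · refine ⟨Or.inr (Or.inl ⟨5, by simp, rfl⟩), ?_⟩
      have := cat_adj_pos hK' hle'.1
      rwa [hco] at this
    · refine ⟨Or.inr (Or.inl ⟨3, by simp, rfl⟩), ?_⟩
      have := cat_adj_pos hK' hle'.2.1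
      rw [hco', ← hpp'] at this
      exact this

end CLB.H91
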