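import Mathlib

/-!
Arithmetic of the classification of the components with five vertices: a port in the vertex `x u` has the
code `2 u`, a port in `y u` the code `2 u + 1`, a port outside the code `0`.
-/

set_option autoImplicit false
set_option linter.unusedSectionVars false

namespace CLB.H91.M5

/-- The unit `u` is faced, but not seen. -/
def OpnA (k : ℕ) (n : ℕ → ℕ) (J : List ℕ) (u : ℕ) : Prop :=
  1 ≤ u ∧ u ≤ k ∧ (∀ l ∈ J, n l / 2 ≠ u) ∧ ∃ i ∈ J, n i = 2 * u + 2 ∨ (n i + 1 = 2 * u ∧ 3 ≤ n i)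

/-- At most one open unit, no link. -/
structure FewA (k : ℕ) (n : ℕ → ℕ) (J : List ℕ) : Prop where
  lnk : ∀ i ∈ J, ∀ j ∈ J, n i % 2 = 1 → n j ≠ n i + 1
  opn : ∀ u w, OpnA k n J u → OpnA k n J w → u = w

/-- The position of a port. -/
def po (j : ℕ) : ℕ := if j ≤ 1 then 1 else if 5 ≤ j then 5 else j

variable {k v : ℕ} {n : ℕ → ℕ}

/-- Either closed or the open unit. -/
lemma FewA.step {J : List ℕ} (F : FewA k n J) {u : ℕ} (ho : OpnA k n J u) {i : ℕ} (hi : i ∈ J)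
    (hr : n i = 0 ∨ (2 ≤ n i ∧ n i ≤ 2 * k + 1)) :
    n i = 0 ∨ n i = 2 ∨ n i = 2 * k + 1 ∨ (n i % 2 = 0 ∧ ∃ j ∈ J, n j + 2 = n i ∧ 2 ≤ n j) ∨
      (n i % 2 = 1 ∧ ∃ j ∈ J, n j = n i + 2) ∨ n i = 2 * u + 2 ∨ n i + 1 = 2 * u := by
  rcases hr with hr | ⟨h1, h2⟩
  · exact Or.inl hr
  by_cases e1 : n i = 2
  · exact Or.inr (Or.inl e1)
  by_cases e2 : n i = 2 * k + 1
  · exact Or.inr (Or.inr (Or.inl e2))
  rcases Nat.mod_two_eq_zero_or_one (n i) with hp | hp
  · by_cases hs : ∃ l ∈ J, n l / 2 = n i / 2 - 1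
    · obtain ⟨l, hl, e⟩ := hs
      rcases Nat.mod_two_eq_zero_or_one (n l) with hq | hq
      · exact Or.inr (Or.inr (Or.inr (Or.inl ⟨hp, l, hl, by omega, by omega⟩)))
      · exact absurd (show n i = n l + 1 by omega) (F.lnk l hl i hi hq)
    · push Not at hs
      have := F.opn (n i / 2 - 1) u ⟨by omega, by omega, hs, i, hi, Or.inl (by omega)⟩ ho
      right; right; right; right; right; left; omega
  · by_cases hs : ∃ l ∈ J, n l / 2 = n i / 2 + 1
    · obtain ⟨l, hl, e⟩ := hs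
      rcases Nat.mod_two_eq_zero_or_one (n l) with hq | hq
      · exact absurd (show n l = n i + 1 by omega) (F.lnk i hi l hl hp)
      · exact Or.inr (Or.inr (Or.inr (Or.inr (Or.inl ⟨hp, l, hl, by omega⟩))))
    · push Not at hs
      have := F.opn (n i / 2 + 1) u ⟨by omega, by omega, hs, i, hi, Or.inr (by omega)⟩ ho
      right; right; right; right; right; right; omega

/-- The codes of the ports of a component with five vertices and the full unit `v`. -/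
structure A5 (k v : ℕ) (n : ℕ → ℕ) : Prop where
  hk : 3 ≤ k
  v1 : 1 ≤ v
  vk : v ≤ k
  n1 : n 1 = 2 * v
  n5 : n 5 = 2 * v + 1
  rng : ∀ j ≤ 6, n j = 0 ∨ (2 ≤ n j ∧ n j ≤ 2 * k + 1)
  par : ∀ j ≤ 6, n j ≠ 0 → (po j + n j / 2 + v) % 2 = 1
  inj : ∀ i j, i < j → j ≤ 6 → n i = n j → n i ≠ 0 → (n i = 2 ∨ n i = 2 * k + 1) ∧ i ≤ 1 ∧ 5 ≤ j
  full : ∀ i j, i < j → j ≤ 6 → n i ≠ 0 → n i / 2 = n j / 2 → n i ≠ n j → i = 1 ∧ j = 5
  adx : ∀ i j, i ≤ 6 → j ≤ 6 → (po i + 1 = po j ∨ po j + 1 = po i) → n i % 2 = 0 → n i ≠ 0 →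
    n j ≠ n i + 3
  ady : ∀ i j, i ≤ 6 → j ≤ 6 → (po i + 1 = po j ∨ po j + 1 = po i) → n i % 2 = 1 → n j ≠ n i + 1
  out : ∀ i j, i < j → j ≤ 6 → n i = 0 → n j ≠ 0
  p1 : FewA k n [0, 1]
  p2 : FewA k n [0, 1, 2]
  p3 : FewA k n [0, 1, 2, 3]
  p4 : FewA k n [0, 1, 2, 3, 4]
  s2 : FewA k n [2, 3, 4, 5, 6]
  s3 : FewA k n [3, 4, 5, 6]
  s4 : FewA k n [4, 5, 6]
  s5 : FewA k n [5, 6]
  wx : FewA k n [0, 1, 2, 3, 4, 6]
  wy : FewA k n [0, 2, 3, 4, 5, 6]
  dx : n 0 = n 6 → n 0 ≠ 0 → ∀ u, ¬ OpnA k n [0, 1, 2, 3, 4, 6] u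
  dy : n 0 = n 6 → n 0 ≠ 0 → ∀ u, ¬ OpnA k n [0, 2, 3, 4, 5, 6] u

/-- The mirror image: the chain is reversed, and the component is reversed. -/
def mir (k : ℕ) (n : ℕ → ℕ) (j : ℕ) : ℕ := if n (6 - j) = 0 then 0 else 2 * k + 3 - n (6 - j)

lemma mir_zero {j : ℕ} (h : n (6 - j) = 0) : mir k n j = 0 := by unfold mir; rw [if_pos h]

lemma mir_ne {j : ℕ} (h : n (6 - j) ≠ 0) : mir k n j = 2 * k + 3 - n (6 - j) := by
  unfold mir; rw [if_neg h]

/-- The codes are small. -/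
def Rg (k : ℕ) (n : ℕ → ℕ) : Prop := ∀ j ≤ 6, n j = 0 ∨ (2 ≤ n j ∧ n j ≤ 2 * k + 1)

lemma mir_cases (h : Rg k n) {j : ℕ} (hj : j ≤ 6) :
    (n (6 - j) = 0 ∧ mir k n j = 0) ∨
      (2 ≤ n (6 - j) ∧ n (6 - j) ≤ 2 * k + 1 ∧ mir k n j + n (6 - j) = 2 * k + 3) := by
  rcases h (6 - j) (by omega) with h1 | h1
  · exact Or.inl ⟨h1, mir_zero h1⟩
  · right
    refine ⟨h1.1, h1.2, ?_⟩
    rw [mir_ne (by omega)]
    omega

lemma OpnA.mir {J J' : List ℕ} (hr : Rg k n) (hJ : ∀ j, j ∈ J ↔ j ≤ 6 ∧ 6 - j ∈ J')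
    (hJ' : ∀ j ∈ J', j ≤ 6) {u : ℕ} (h : OpnA k (mir k n) J u) : OpnA k n J' (k + 1 - u) := by
  obtain ⟨h1, h2, h3, i, hi, h4⟩ := h
  have hiJ := (hJ i).1 hi
  refine ⟨by omega, by omega, fun l hl he => ?_, 6 - i, hiJ.2, ?_⟩
  · have hl6 := hJ' l hl
    have := h3 (6 - l) ((hJ _).2 ⟨by omega, by rwa [show 6 - (6 - l) = l by omega]⟩)
    rcases mir_cases (k := k) hr (j := 6 - l) (by omega) with h5 | h5 <;>
      rw [show 6 - (6 - l) = l by omega] at h5 <;> omega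
  · rcases mir_cases (k := k) hr (j := i) hiJ.1 with h5 | h5 <;> omega

lemma FewA.mir {J J' : List ℕ} (hr : Rg k n) (hJ : ∀ j, j ∈ J ↔ j ≤ 6 ∧ 6 - j ∈ J')
    (hJ' : ∀ j ∈ J', j ≤ 6) (F : FewA k n J') : FewA k (mir k n) J where
  lnk i hi j hj h1 h2 := by
    have a1 := (hJ i).1 hi
    have a2 := (hJ j).1 hj
    rcases mir_cases (k := k) hr (j := i) a1.1 with b1 | b1 <;>
      rcases mir_cases (k := k) hr (j := j) a2.1 with b2 | b2
    · omega
    · omega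
    · omega
    · exact F.lnk _ a2.2 _ a1.2 (by omega) (by omega)
  opn u w h1 h2 := by
    have e := F.opn _ _ (h1.mir hr hJ hJ') (h2.mir hr hJ hJ')
    have := h1.1
    have := h1.2.1
    have := h2.1
    have := h2.2.1
    omega

lemma po_mir {j : ℕ} (hj : j ≤ 6) : po (6 - j) + po j = 6 := by
  unfold po; split_ifs <;> omega

lemma A5.rg (h : A5 k v n) : Rg k n := h.rng

/-- The mirror image of the data. -/
theorem A5.mirror (h : A5 k v n) : A5 k (k + 1 - v) (mir k n) := by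
  have hr := h.rg
  have hk := h.hk
  have hv1 := h.v1
  have hvk := h.vk
  have mc := fun (j : ℕ) (hj : j ≤ 6) => mir_cases (k := k) hr hj
  have mem : ∀ (J J' : List ℕ), (∀ j ∈ J, j ≤ 6) → J = J'.map (fun j => 6 - j) → (∀ j ∈ J', j ≤ 6) →
      ∀ j, j ∈ J ↔ j ≤ 6 ∧ 6 - j ∈ J' := by
    intro J J' a b c j
    constructor
    · intro hj
      refine ⟨a j hj, ?_⟩
      rw [b, List.mem_map] at hj
      obtain ⟨l, hl, rfl⟩ := hj
      have := c l hl
      rwa [show 6 - (6 - l) = l by omega]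
    · rintro ⟨h1, h2⟩
      rw [b, List.mem_map]
      exact ⟨6 - j, h2, by omega⟩
  have mem' : ∀ (J J' : List ℕ), (∀ j ∈ J, j ≤ 6) → (∀ j, j ∈ J ↔ j ∈ J'.map (fun j => 6 - j)) →
      (∀ j ∈ J', j ≤ 6) → ∀ j, j ∈ J ↔ j ≤ 6 ∧ 6 - j ∈ J' := by
    intro J J' a b c j
    constructor
    · intro hj
      refine ⟨a j hj, ?_⟩
      rw [b, List.mem_map] at hj
      obtain ⟨l, hl, rfl⟩ := hj
      have := c l hl
      rwa [show 6 - (6 - l) = l by omega]
    · rintro ⟨h1, h2⟩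
      rw [b, List.mem_map]
      exact ⟨6 - j, h2, by omega⟩
  have few : ∀ (J J' : List ℕ), (∀ j ∈ J, j ≤ 6) → (∀ j, j ∈ J ↔ j ∈ J'.map (fun j => 6 - j)) →
      (∀ j ∈ J', j ≤ 6) → FewA k n J' → FewA k (mir k n) J := fun J J' a b c F =>
    F.mir hr (mem' J J' a b c) c
  refine ⟨hk, by omega, by omega, ?_, ?_, ?_, ?_, ?_, ?_, ?_, ?_, ?_, ?_, ?_, ?_, ?_, ?_, ?_, ?_, ?_,
    ?_, ?_, ?_, ?_⟩
  · rcases mc 1 (by omega) with h1 | h1 <;> norm_num at h1 <;> have := h.n5 <;> omega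
  · rcases mc 5 (by omega) with h1 | h1 <;> norm_num at h1 <;> have := h.n1 <;> omega
  · intro j hj
    rcases mc j hj with h1 | h1 <;> omega
  · intro j hj hne
    have h2 := h.par (6 - j) (by omega)
    have h3 := po_mir hj
    rcases mc j hj with h1 | h1
    · omega
    · have := h2 (by omega); omega
  · intro i j hij hj he hne
    have h2 := h.inj (6 - j) (6 - i) (by omega) (by omega)
    rcases mc i (by omega) with h1 | h1 <;> rcases mc j hj with h3 | h3 <;> omega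
  · intro i j hij hj hne he hne'
    have h2 := h.full (6 - j) (6 - i) (by omega) (by omega)
    rcases mc i (by omega) with h1 | h1 <;> rcases mc j hj with h3 | h3 <;> omega
  · intro i j hi hj hp h1 h2 h3
    have p1 := po_mir hi
    have p2 := po_mir hj
    have h4 := h.adx (6 - j) (6 - i) (by omega) (by omega) (by omega)
    rcases mc i hi with h5 | h5 <;> rcases mc j hj with h6 | h6 <;> omega
  · intro i j hi hj hp h1 h3
    have p1 := po_mir hi
    have p2 := po_mir hj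
    have h4 := h.ady (6 - j) (6 - i) (by omega) (by omega) (by omega)
    rcases mc i hi with h5 | h5 <;> rcases mc j hj with h6 | h6 <;> omega
  · intro i j hij hj h1 h2
    have h4 := h.out (6 - j) (6 - i) (by omega) (by omega)
    rcases mc i (by omega) with h5 | h5 <;> rcases mc j hj with h6 | h6 <;> omega
  · exact few [0, 1] [5, 6] (by decide) (by intro j; simp; omega) (by decide) h.s5
  · exact few [0, 1, 2] [4, 5, 6] (by decide) (by intro j; simp; omega) (by decide) h.s4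
  · exact few [0, 1, 2, 3] [3, 4, 5, 6] (by decide) (by intro j; simp; omega) (by decide) h.s3
  · exact few [0, 1, 2, 3, 4] [2, 3, 4, 5, 6] (by decide) (by intro j; simp; omega) (by decide) h.s2
  · exact few [2, 3, 4, 5, 6] [0, 1, 2, 3, 4] (by decide) (by intro j; simp; omega) (by decide) h.p4
  · exact few [3, 4, 5, 6] [0, 1, 2, 3] (by decide) (by intro j; simp; omega) (by decide) h.p3
  · exact few [4, 5, 6] [0, 1, 2] (by decide) (by intro j; simp; omega) (by decide) h.p2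
  · exact few [5, 6] [0, 1] (by decide) (by intro j; simp; omega) (by decide) h.p1
  · exact few [0, 1, 2, 3, 4, 6] [0, 2, 3, 4, 5, 6] (by decide) (by intro j; simp; omega) (by decide)
      h.wy
  · exact few [0, 2, 3, 4, 5, 6] [0, 1, 2, 3, 4, 6] (by decide) (by intro j; simp; omega) (by decide)
      h.wx
  · intro he hne u hu
    have h1 := hu.mir hr (mem' [0, 1, 2, 3, 4, 6] [0, 2, 3, 4, 5, 6] (by decide)
      (by intro j; simp; omega) (by decide)) (by decide)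
    refine h.dy ?_ ?_ _ h1 <;> rcases mc 0 (by omega) with h5 | h5 <;>
      rcases mc 6 (by omega) with h6 | h6 <;> norm_num at h5 h6 <;> omega
  · intro he hne u hu
    have h1 := hu.mir hr (mem' [0, 2, 3, 4, 5, 6] [0, 1, 2, 3, 4, 6] (by decide)
      (by intro j; simp; omega) (by decide)) (by decide)
    refine h.dx ?_ ?_ _ h1 <;> rcases mc 0 (by omega) with h5 | h5 <;>
      rcases mc 6 (by omega) with h6 | h6 <;> norm_num at h5 h6 <;> omega

end CLB.H91.M5
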