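import Pool.Agent.Helper91_DA.M5A

/-!
Arithmetic of the classification: the full unit is the first one.
-/

set_option autoImplicit false
set_option linter.unusedSectionVars false

namespace CLB.H91.M5

variable {k v : ℕ} {n : ℕ → ℕ}

/-- The patterns. -/
def Pat (k v : ℕ) (n : ℕ → ℕ) : Prop :=
  (v = 1 ∧ n 4 = 5) ∨
  (v = 1 ∧ n 6 = 6 ∧ n 4 = 8 ∧ (7 ≤ k ∨ (k = 6 ∧ n 2 = 12 ∧ n 3 = 10) ∨ (k = 6 ∧ n 0 = 11) ∨
    (k = 6 ∧ n 0 = 10))) ∨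
  (v = 1 ∧ n 2 = 8 ∧ n 3 = 6 ∧ (7 ≤ k ∨ (k = 6 ∧ n 0 = 10 ∧ n 4 = 13))) ∨
  (v = 1 ∧ 5 ≤ k ∧ n 0 = 10 ∧ n 6 = 6 ∧ n 2 = 8) ∨
  (v = 1 ∧ k % 2 = 1 ∧ 7 ≤ k ∧ n 0 + 3 = 2 * k ∧ n 2 + 1 = 2 * k ∧ n 3 = 2 * k + 1 ∧ n 4 = 0 ∧ n 6 = 6) ∨
  (v = 2 ∧ 3 ≤ k ∧ n 2 = 2) ∨
  (v = 3 ∧ 4 ≤ k ∧ n 2 = 4 ∧ n 3 = 2) ∨
  (v = 3 ∧ k = 5 ∧ n 0 = 2 ∧ n 2 = 4 ∧ n 3 = 0 ∧ n 4 = 9 ∧ n 6 = 11) ∨
  (v = 3 ∧ k = 5 ∧ n 0 = 11 ∧ n 2 = 4 ∧ n 3 = 0 ∧ n 4 = 9 ∧ n 6 = 2) ∨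
  (v = 4 ∧ 5 ≤ k ∧ n 4 = 2 ∧ n 3 = 4 ∧ n 2 = 6) ∨
  (v = 5 ∧ 6 ≤ k ∧ n 6 = 2 ∧ n 4 = 4 ∧ n 3 = 6) ∨
  (v = k ∧ 6 ≤ k ∧ n 2 = 2 ∧ n 3 = 4 ∧ n 4 = 6) ∨
  (v = k ∧ 7 ≤ k ∧ n 0 = 2 ∧ n 2 = 4 ∧ n 3 = 6)

/-- The possible codes of a port at an odd position, `v = 1`. -/
lemma A5.odd1 (h : A5 k 1 n) (hu2 : ∀ l ≤ 6, n l / 2 ≠ 2) {j : ℕ} (hj : j = 0 ∨ j = 3 ∨ j = 6) :
    n j = 0 ∨ (n j / 2 % 2 = 1 ∧ 6 ≤ n j ∧ n j ≤ 2 * k + 1) ∨ (j = 6 ∧ n j = 2 ∧ False) := by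
  have r := h.rng j (by omega)
  have q := h.par j (by omega)
  have u := hu2 j (by omega)
  have hp : po j % 2 = 1 := by rcases hj with rfl | rfl | rfl <;> rfl
  have n1 := h.n1
  have n5 := h.n5
  rcases hj with rfl | rfl | rfl
  · have i1 := h.inj 0 1 (by omega) (by omega)
    have f1 := h.full 0 1 (by omega) (by omega)
    have i5 := h.inj 0 5 (by omega) (by omega)
    omega
  · have i1 := h.inj 1 3 (by omega) (by omega)
    have f1 := h.full 1 3 (by omega) (by omega)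
    omega
  · have i1 := h.inj 5 6 (by omega) (by omega)
    have f1 := h.full 5 6 (by omega) (by omega)
    omega

/-- The possible codes of a port at an even position, `v = 1`. -/
lemma A5.even1 (h : A5 k 1 n) (hu2 : ∀ l ≤ 6, n l / 2 ≠ 2) {j : ℕ} (hj : j = 2 ∨ j = 4) :
    n j = 0 ∨ (n j / 2 % 2 = 0 ∧ 8 ≤ n j ∧ n j ≤ 2 * k + 1) := by
  have r := h.rng j (by omega)
  have q := h.par j (by omega)
  have u := hu2 j (by omega)
  have hp : po j % 2 = 0 := by rcases hj with rfl | rfl <;> rfl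
  omega

/-- The second unit is not seen, except through the port 4. -/
lemma A5.unit2 (h : A5 k 1 n) (hW4 : n 4 ≠ 5) : ∀ l ≤ 6, n l / 2 ≠ 2 := by
  intro l hl he
  have n1 := h.n1
  have n5 := h.n5
  have hp := h.par l hl (by omega)
  have h4 : n l ≠ 4 := by
    intro h4
    have hl1 : l ≠ 1 := by rintro rfl; omega
    refine h.wy.lnk 5 (by simp) l ?_ (by omega) (by omega)
    have : l = 0 ∨ l = 2 ∨ l = 3 ∨ l = 4 ∨ l = 5 ∨ l = 6 := by omega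
    simp only [List.mem_cons, List.not_mem_nil, or_false]
    exact this
  have h5 : n l = 5 := by omega
  have hl2 : l = 2 ∨ l = 4 := by
    unfold po at hp
    split_ifs at hp <;> omega
  rcases hl2 with rfl | rfl
  · exact h.adx 1 2 (by omega) (by omega) (by decide) (by omega) (by omega) (by omega)
  · exact hW4 h5

/-- Two different ports (not both leaves) have different units. -/
lemma A5.dif (h : A5 k v n) {i j : ℕ} (hij : i < j) (hj : j ≤ 6) (h1 : 2 ≤ i ∨ j ≤ 4) :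
    n i = 0 ∨ n i / 2 ≠ n j / 2 := by
  have a1 := h.inj i j hij hj
  have a2 := h.full i j hij hj
  omega

/-- The second unit is open. -/
lemma A5.open2 (h : A5 k 1 n) (hu2 : ∀ l ≤ 6, n l / 2 ≠ 2) (J : List ℕ) (hJ : ∀ j ∈ J, j ≤ 6)
    (h5 : 5 ∈ J) : OpnA k n J 2 :=
  ⟨by omega, by have := h.hk; omega, fun l hl => hu2 l (hJ l hl), 5, h5, Or.inr (by
    have := h.n5; omega)⟩

lemma A5.B6 (h : A5 k 1 n) (hu2 : ∀ l ≤ 6, n l / 2 ≠ 2) :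
    n 6 = 0 ∨ n 6 = 6 ∨ (n 6 = 2 * k + 1 ∧ k % 2 = 1) := by
  have a := h.odd1 hu2 (j := 6) (by omega)
  have n5 := h.n5
  have hk := h.hk
  have s := h.s5.step (h.open2 hu2 [5, 6] (by decide) (by simp)) (i := 6) (by simp) (h.rng 6 (by omega))
  simp only [List.mem_cons, List.not_mem_nil, or_false, exists_eq_or_imp, exists_eq_left] at s
  rcases a with a | a | a
  · exact Or.inl a
  · rcases s with s | s | s | s | s | s | s <;> omega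
  · exact a.2.2.elim

lemma A5.B4 (h : A5 k 1 n) (hu2 : ∀ l ≤ 6, n l / 2 ≠ 2) :
    n 4 = 0 ∨ (n 4 = 8 ∧ n 6 = 6) ∨ (n 4 = 2 * k + 1 ∧ k % 2 = 0) ∨
      (n 4 + 1 = 2 * k ∧ n 6 = 2 * k + 1 ∧ k % 2 = 1) := by
  have a := h.even1 hu2 (j := 4) (by omega)
  have b := h.B6 hu2
  have n5 := h.n5
  have hk := h.hk
  have s := h.s4.step (h.open2 hu2 [4, 5, 6] (by decide) (by simp)) (i := 4) (by simp)
    (h.rng 4 (by omega))
  simp only [List.mem_cons, List.not_mem_nil, or_false, exists_eq_or_imp, exists_eq_left] at s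
  rcases a with a | a
  · exact Or.inl a
  · rcases b with b | b | b <;>
    rcases s with s | s | s | ⟨s, s' | s' | s'⟩ | ⟨s, s' | s' | s'⟩ | s | s <;> omega

/-- The port 3, if `x_3, x_4` are not the last two ports. -/
lemma A5.B3 (h : A5 k 1 n) (hu2 : ∀ l ≤ 6, n l / 2 ≠ 2) (h1 : ¬ (n 6 = 6 ∧ n 4 = 8)) :
    n 3 = 0 ∨ (n 3 = 6 ∧ n 6 ≠ 6) ∨ (n 3 = 2 * k + 1 ∧ k % 2 = 1 ∧ n 6 ≠ 2 * k + 1 ∧ n 4 = 0) ∨
      (n 3 + 1 = 2 * k ∧ n 4 = 2 * k + 1 ∧ k % 2 = 0) ∨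
      (n 3 + 3 = 2 * k ∧ n 4 + 1 = 2 * k ∧ k % 2 = 1) := by
  have a := h.odd1 hu2 (j := 3) (by omega)
  have b := h.B6 hu2
  have b4 := h.B4 hu2
  have d := h.dif (i := 3) (j := 6) (by omega) (by omega) (by omega)
  have n5 := h.n5
  have hk := h.hk
  have s := h.s3.step (h.open2 hu2 [3, 4, 5, 6] (by decide) (by simp)) (i := 3) (by simp)
    (h.rng 3 (by omega))
  simp only [List.mem_cons, List.not_mem_nil, or_false, exists_eq_or_imp, exists_eq_left] at s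
  rcases a with a | a | a
  · exact Or.inl a
  · rcases b4 with b4 | b4 | b4 | b4
    · rcases b with b | b | b <;>
      rcases s with s | s | s | ⟨s, s' | s' | s' | s'⟩ | ⟨s, s' | s' | s' | s'⟩ | s | s <;> omega
    · exact absurd ⟨b4.2, b4.1⟩ h1
    · rcases b with b | b | b <;>
      rcases s with s | s | s | ⟨s, s' | s' | s' | s'⟩ | ⟨s, s' | s' | s' | s'⟩ | s | s <;> omega
    · rcases s with s | s | s | ⟨s, s' | s' | s' | s'⟩ | ⟨s, s' | s' | s' | s'⟩ | s | s <;> omega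
  · omega

/-- The port 2. -/
lemma A5.B2 (h : A5 k 1 n) (hu2 : ∀ l ≤ 6, n l / 2 ≠ 2) (h1 : ¬ (n 6 = 6 ∧ n 4 = 8)) :
    n 2 = 0 ∨ (n 2 = 8 ∧ (n 3 = 6 ∨ n 6 = 6)) ∨
      (n 2 + 1 = 2 * k ∧ (n 3 = 2 * k + 1 ∨ n 6 = 2 * k + 1) ∧ n 4 ≠ n 2) ∨
      (n 2 = 2 * k + 1 ∧ n 4 ≠ 2 * k + 1) ∨
      (n 2 + 3 = 2 * k ∧ n 3 + 1 = 2 * k ∧ n 4 = 2 * k + 1) ∨
      (n 2 + 5 = 2 * k ∧ n 3 + 3 = 2 * k ∧ n 4 + 1 = 2 * k) := by
  have a := h.even1 hu2 (j := 2) (by omega)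
  have b := h.B6 hu2
  have b4 := h.B4 hu2
  have b3 := h.B3 hu2 h1
  have d := h.dif (i := 2) (j := 4) (by omega) (by omega) (by omega)
  have n5 := h.n5
  have hk := h.hk
  have s := h.s2.step (h.open2 hu2 [2, 3, 4, 5, 6] (by decide) (by simp)) (i := 2) (by simp)
    (h.rng 2 (by omega))
  simp only [List.mem_cons, List.not_mem_nil, or_false, exists_eq_or_imp, exists_eq_left] at s
  rcases a with a | a
  · exact Or.inl a
  · rcases b4 with b4 | b4 | b4 | b4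
    · rcases b3 with b3 | b3 | b3 | b3 | b3
      · rcases b with b | b | b <;>
        rcases s with s | s | s | ⟨s, s' | s' | s' | s' | s'⟩ | ⟨s, s' | s' | s' | s' | s'⟩ | s | s <;>
          omega
      · rcases b with b | b | b <;>
        rcases s with s | s | s | ⟨s, s' | s' | s' | s' | s'⟩ | ⟨s, s' | s' | s' | s' | s'⟩ | s | s <;>
          omega
      · rcases b with b | b | b <;>
        rcases s with s | s | s | ⟨s, s' | s' | s' | s' | s'⟩ | ⟨s, s' | s' | s' | s' | s'⟩ | s | s <;>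
          omega
      · omega
      · omega
    · exact absurd ⟨b4.2, b4.1⟩ h1
    · rcases b3 with b3 | b3 | b3 | b3 | b3
      · rcases b with b | b | b <;>
        rcases s with s | s | s | ⟨s, s' | s' | s' | s' | s'⟩ | ⟨s, s' | s' | s' | s' | s'⟩ | s | s <;>
          omega
      · rcases b with b | b | b <;>
        rcases s with s | s | s | ⟨s, s' | s' | s' | s' | s'⟩ | ⟨s, s' | s' | s' | s' | s'⟩ | s | s <;>
          omega
      · omega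
      · rcases b with b | b | b <;>
        rcases s with s | s | s | ⟨s, s' | s' | s' | s' | s'⟩ | ⟨s, s' | s' | s' | s' | s'⟩ | s | s <;>
          omega
      · omega
    · rcases b3 with b3 | b3 | b3 | b3 | b3
      · rcases s with s | s | s | ⟨s, s' | s' | s' | s' | s'⟩ | ⟨s, s' | s' | s' | s' | s'⟩ | s | s <;>
          omega
      · rcases s with s | s | s | ⟨s, s' | s' | s' | s' | s'⟩ | ⟨s, s' | s' | s' | s' | s'⟩ | s | s <;>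
          omega
      · omega
      · omega
      · rcases s with s | s | s | ⟨s, s' | s' | s' | s' | s'⟩ | ⟨s, s' | s' | s' | s' | s'⟩ | s | s <;>
          omega

end CLB.H91.M5
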