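import Pool.Agent.Helper91_DA.M5B

/-!
Arithmetic of the classification: the full unit is the first one, final case distinction.
-/

set_option autoImplicit false
set_option linter.unusedSectionVars false

namespace CLB.H91.M5

variable {k v : ℕ} {n : ℕ → ℕ}

lemma mir_n {j c : ℕ} (_ : j ≤ 6) (h0 : n (6 - j) ≠ 0) (h : n (6 - j) + c = 2 * k + 3) :
    mir k n j = c := by
  rw [mir_ne h0]; omega

/-- The first port. -/
lemma A5.B0 (h : A5 k 1 n) (hu2 : ∀ l ≤ 6, n l / 2 ≠ 2) :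
    n 0 = 0 ∨ (n 0 = 6 ∧ n 3 ≠ 6 ∧ n 6 ≠ 6) ∨ (n 0 = 2 * k + 1 ∧ n 3 ≠ 2 * k + 1 ∧ k % 2 = 1) ∨
      (n 0 % 2 = 0 ∧ n 2 + 2 = n 0 ∧ 6 ≤ n 0) ∨ (n 0 % 2 = 0 ∧ n 4 + 2 = n 0 ∧ 6 ≤ n 0) ∨
      (n 0 % 2 = 1 ∧ n 2 = n 0 + 2 ∧ 6 ≤ n 0) ∨ (n 0 % 2 = 1 ∧ n 4 = n 0 + 2 ∧ 6 ≤ n 0) := by
  have a := h.odd1 hu2 (j := 0) (by omega)
  have a3 := h.odd1 hu2 (j := 3) (by omega)
  have a6 := h.odd1 hu2 (j := 6) (by omega)
  have n5 := h.n5
  have hk := h.hk
  have d := h.dif (i := 0) (j := 3) (by omega) (by omega) (by omega)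
  have i := h.inj 0 6 (by omega) (by omega)
  have s := h.wy.step (h.open2 hu2 [0, 2, 3, 4, 5, 6] (by decide) (by simp)) (i := 0) (by simp)
    (h.rng 0 (by omega))
  simp only [List.mem_cons, List.not_mem_nil, or_false, exists_eq_or_imp, exists_eq_left] at s
  rcases a with a | a | a
  · exact Or.inl a
  · rcases s with s | s | s | ⟨s, s' | s' | s' | s' | s' | s'⟩ | ⟨s, s' | s' | s' | s' | s' | s'⟩ | s | s
    all_goals omega
  · omega

/-- At most one port is outside. -/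
lemma A5.zeros (h : A5 k v n) :
    (n 0 ≠ 0 ∧ n 2 ≠ 0 ∧ n 3 ≠ 0 ∧ n 4 ≠ 0 ∧ n 6 ≠ 0) ∨
    (n 0 = 0 ∧ n 2 ≠ 0 ∧ n 3 ≠ 0 ∧ n 4 ≠ 0 ∧ n 6 ≠ 0) ∨
    (n 0 ≠ 0 ∧ n 2 = 0 ∧ n 3 ≠ 0 ∧ n 4 ≠ 0 ∧ n 6 ≠ 0) ∨
    (n 0 ≠ 0 ∧ n 2 ≠ 0 ∧ n 3 = 0 ∧ n 4 ≠ 0 ∧ n 6 ≠ 0) ∨
    (n 0 ≠ 0 ∧ n 2 ≠ 0 ∧ n 3 ≠ 0 ∧ n 4 = 0 ∧ n 6 ≠ 0) ∨
    (n 0 ≠ 0 ∧ n 2 ≠ 0 ∧ n 3 ≠ 0 ∧ n 4 ≠ 0 ∧ n 6 = 0) := by
  have o02 := h.out 0 2 (by omega) (by omega)
  have o03 := h.out 0 3 (by omega) (by omega)
  have o04 := h.out 0 4 (by omega) (by omega)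
  have o06 := h.out 0 6 (by omega) (by omega)
  have o23 := h.out 2 3 (by omega) (by omega)
  have o24 := h.out 2 4 (by omega) (by omega)
  have o26 := h.out 2 6 (by omega) (by omega)
  have o34 := h.out 3 4 (by omega) (by omega)
  have o36 := h.out 3 6 (by omega) (by omega)
  have o46 := h.out 4 6 (by omega) (by omega)
  by_cases h0 : n 0 = 0
  · exact Or.inr (Or.inl ⟨h0, o02 h0, o03 h0, o04 h0, o06 h0⟩)
  by_cases h2 : n 2 = 0
  · exact Or.inr (Or.inr (Or.inl ⟨h0, h2, o23 h2, o24 h2, o26 h2⟩))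
  by_cases h3 : n 3 = 0
  · exact Or.inr (Or.inr (Or.inr (Or.inl ⟨h0, h2, h3, o34 h3, o36 h3⟩)))
  by_cases h4 : n 4 = 0
  · exact Or.inr (Or.inr (Or.inr (Or.inr (Or.inl ⟨h0, h2, h3, h4, o46 h4⟩))))
  by_cases h6 : n 6 = 0
  · exact Or.inr (Or.inr (Or.inr (Or.inr (Or.inr ⟨h0, h2, h3, h4, h6⟩))))
  exact Or.inl ⟨h0, h2, h3, h4, h6⟩

/-- `x_4` without `x_3` and `y_(k-1)` without `y_k`, at the ports `0, 2`. -/
lemma A5.bad1 (h : A5 k v n) (hv : v = 1) (h2 : n 2 = 8) (h0 : n 0 + 1 = 2 * k) (hk : 6 ≤ k)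
    (he : k % 2 = 0) : False := by
  have n1 := h.n1
  have := h.p2.opn 3 k ⟨by omega, by omega, by
    intro l hl
    simp only [List.mem_cons, List.not_mem_nil, or_false] at hl
    rcases hl with rfl | rfl | rfl <;> omega, 2, by simp, Or.inl (by omega)⟩ ⟨by omega, le_rfl, by
    intro l hl
    simp only [List.mem_cons, List.not_mem_nil, or_false] at hl
    rcases hl with rfl | rfl | rfl <;> omega, 0, by simp, Or.inr (by omega)⟩
  omega

/-- `x_4` without `x_3` and `y_(k-1)` without `y_k`, at the ports `2, 3`. -/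
lemma A5.bad2 (h : A5 k v n) (hv : v = 1) (h2 : n 2 = 8) (h3 : n 3 + 1 = 2 * k) (hk : 6 ≤ k)
    (he : k % 2 = 0) (h6 : n 0 / 2 ≠ 3) (h7 : n 0 / 2 ≠ k) : False := by
  have n1 := h.n1
  have := h.p3.opn 3 k ⟨by omega, by omega, by
    intro l hl
    simp only [List.mem_cons, List.not_mem_nil, or_false] at hl
    rcases hl with rfl | rfl | rfl | rfl <;> omega, 2, by simp, Or.inl (by omega)⟩ ⟨by omega,
    le_rfl, by
    intro l hl
    simp only [List.mem_cons, List.not_mem_nil, or_false] at hl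
    rcases hl with rfl | rfl | rfl | rfl <;> omega, 3, by simp, Or.inr (by omega)⟩
  omega

/-- `x_3` without `x_2` and `y_(k-1)` without `y_k`, at the ports `3, 2`. -/
lemma A5.bad3 (h : A5 k v n) (hv : v = 1) (hu2 : ∀ l ≤ 6, n l / 2 ≠ 2) (h3 : n 3 = 6)
    (h2 : n 2 + 1 = 2 * k) (hk : 4 ≤ k) (h7 : n 0 / 2 ≠ k) : False := by
  have n1 := h.n1
  have := h.p3.opn 2 k (⟨by omega, by omega, by
    intro l hl
    exact hu2 l (by simp at hl; omega), 3, by simp, Or.inl (by omega)⟩) ⟨by omega,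
    le_rfl, by
    intro l hl
    simp only [List.mem_cons, List.not_mem_nil, or_false] at hl
    rcases hl with rfl | rfl | rfl | rfl <;> omega, 2, by simp, Or.inr (by omega)⟩
  omega

/-- `x_3` without `x_2` and `y_(k-1)` without `y_k`, at the ports `3, 4`. -/
lemma A5.bad4 (h : A5 k v n) (hv : v = 1) (hu2 : ∀ l ≤ 6, n l / 2 ≠ 2) (h3 : n 3 = 6)
    (h4 : n 4 + 1 = 2 * k) (hk : 4 ≤ k) (h7 : n 0 / 2 ≠ k) (h8 : n 2 / 2 ≠ k) : False := by
  have n1 := h.n1
  have := h.p4.opn 2 k (⟨by omega, by omega, by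
    intro l hl
    exact hu2 l (by simp at hl; omega), 3, by simp, Or.inl (by omega)⟩) ⟨by omega,
    le_rfl, by
    intro l hl
    simp only [List.mem_cons, List.not_mem_nil, or_false] at hl
    rcases hl with rfl | rfl | rfl | rfl | rfl <;> omega, 4, by simp, Or.inr (by omega)⟩
  omega

/-- The double end. -/
lemma A5.dbl (h : A5 k 1 n) (hu2 : ∀ l ≤ 6, n l / 2 ≠ 2) (h6 : n 6 ≠ 0) : n 0 ≠ n 6 := fun e =>
  h.dy e (by omega) 2 (h.open2 hu2 _ (by decide) (by simp))

lemma A5.W1k (h : A5 k 1 n) (hu2 : ∀ l ≤ 6, n l / 2 ≠ 2) (h6 : n 6 = 6) (h4 : n 4 = 8) :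
    7 ≤ k ∨ (k = 6 ∧ n 2 = 12 ∧ n 3 = 10) ∨ (k = 6 ∧ n 0 = 11) ∨ (k = 6 ∧ n 0 = 10) := by
  by_cases hk7 : 7 ≤ k
  · exact Or.inl hk7
  right
  have hk := h.hk
  have n5 := h.n5
  have a2 := h.even1 hu2 (j := 2) (by omega)
  have d24 := h.dif (i := 2) (j := 4) (by omega) (by omega) (by omega)
  have e2 : n 2 = 0 ∨ n 2 = 12 ∨ n 2 = 13 := by omega
  clear a2 d24
  have e0 : n 0 = 0 ∨ n 0 / 2 = 5 := by
    have a := h.odd1 hu2 (j := 0) (by omega)
    have i := h.inj 0 6 (by omega) (by omega)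
    have f := h.full 0 6 (by omega) (by omega)
    omega
  have e3 : n 3 = 0 ∨ n 3 / 2 = 5 := by
    have a := h.odd1 hu2 (j := 3) (by omega)
    have i := h.dif (i := 3) (j := 6) (by omega) (by omega) (by omega)
    omega
  have d := h.dif (i := 0) (j := 3) (by omega) (by omega) (by omega)
  have z := h.zeros
  have k6 : k = 6 := by
    rcases e2 with e2 | e2 | e2
    · rcases z with z | z | z | z | z | z <;> omega
    · have := h.rng 2 (by omega); omega
    · have := h.rng 2 (by omega); omega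
  by_cases h0 : n 0 = 0
  · left
    have z3 : n 3 ≠ 0 := by rcases z with z | z | z | z | z | z <;> omega
    have z2 : n 2 ≠ 0 := by rcases z with z | z | z | z | z | z <;> omega
    clear z d e0
    have s := h.s3.step (h.open2 hu2 [3, 4, 5, 6] (by decide) (by simp)) (i := 3) (by simp)
      (h.rng 3 (by omega))
    simp only [List.mem_cons, List.not_mem_nil, or_false, exists_eq_or_imp, exists_eq_left] at s
    have c3 : n 3 = 10 := by
      rcases s with s | s | s | ⟨s, s' | s' | s' | s'⟩ | ⟨s, s' | s' | s' | s'⟩ | s | s <;> omega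
    have := h.adx 3 2 (by omega) (by omega) (by decide) (by omega) (by omega)
    exact ⟨k6, by omega, c3⟩
  · right
    clear z d
    omega

/-- Both `x_4, x_3` at the ports `2, 3`, six units. -/
lemma A5.W5k (h : A5 k 1 n) (hu2 : ∀ l ≤ 6, n l / 2 ≠ 2) (h2 : n 2 = 8) (h3 : n 3 = 6) (hk6 : k = 6) :
    n 0 = 10 ∧ n 4 = 13 := by
  subst hk6
  have n1 := h.n1
  have n5 := h.n5
  have b4 := h.B4 hu2
  have b0 := h.B0 hu2
  have d := h.dif (i := 3) (j := 6) (by omega) (by omega) (by omega)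
  have d2 := h.dif (i := 0) (j := 3) (by omega) (by omega) (by omega)
  have d24 := h.dif (i := 2) (j := 4) (by omega) (by omega) (by omega)
  have b6 := h.B6 hu2
  have c6 : n 6 = 0 := by
    rcases b6 with b6 | b6 | b6 <;> omega
  have z := h.zeros
  have z' : n 0 ≠ 0 ∧ n 4 ≠ 0 := by rcases z with z | z | z | z | z | z <;> omega
  clear z
  have c4 : n 4 = 13 := by rcases b4 with b4 | b4 | b4 | b4 <;> omega
  refine ⟨?_, c4⟩
  clear b4 b6
  have c0 : n 0 = 10 ∨ n 0 = 11 := by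
    rcases b0 with b0 | b0 | b0 | b0 | b0 | b0 | b0 <;> omega
  rcases c0 with c0 | c0
  · exact c0
  · exfalso
    clear b0
    have := h.p3.opn 2 6 (⟨by omega, by omega, by
      intro l hl
      exact hu2 l (by simp at hl; omega), 3, by simp, Or.inl (by omega)⟩) ⟨by omega,
      le_rfl, by
      intro l hl
      simp only [List.mem_cons, List.not_mem_nil, or_false] at hl
      rcases hl with rfl | rfl | rfl | rfl <;> omega, 0, by simp, Or.inr (by omega)⟩
    omega

/-- The full unit is the first one. -/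
theorem caseB (h : A5 k 1 n) : Pat k 1 n ∨ Pat k k (mir k n) := by
  by_cases hW4 : n 4 = 5
  · exact Or.inl (Or.inl ⟨rfl, hW4⟩)
  have hu2 := h.unit2 hW4
  have hk := h.hk
  have n1 := h.n1
  have n5 := h.n5
  by_cases hW1 : n 6 = 6 ∧ n 4 = 8
  · exact Or.inl (Or.inr (Or.inl ⟨rfl, hW1.1, hW1.2, h.W1k hu2 hW1.1 hW1.2⟩))
  by_cases hW5 : n 2 = 8 ∧ n 3 = 6
  · left
    refine Or.inr (Or.inr (Or.inl ⟨rfl, hW5.1, hW5.2, ?_⟩))
    by_cases h7 : 7 ≤ k
    · exact Or.inl h7
    · right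
      have k6 : k = 6 := by
        have b4 := h.B4 hu2
        have b6 := h.B6 hu2
        have z := h.zeros
        have r := h.rng 2 (by omega)
        have a0 := h.odd1 hu2 (j := 0) (by omega)
        have d2 := h.dif (i := 0) (j := 3) (by omega) (by omega) (by omega)
        have d24 := h.dif (i := 2) (j := 4) (by omega) (by omega) (by omega)
        have f06 := h.full 0 6 (by omega) (by omega)
        have db : n 6 ≠ 0 → n 0 ≠ n 6 := h.dbl hu2
        have d36 := h.dif (i := 3) (j := 6) (by omega) (by omega) (by omega)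
        rcases z with z | z | z | z | z | z <;> rcases b6 with b6 | b6 | b6 <;>
          rcases b4 with b4 | b4 | b4 | b4 <;> omega
      exact ⟨k6, h.W5k hu2 hW5.1 hW5.2 k6⟩
  have z := h.zeros
  have b6 := h.B6 hu2
  have goal5 : ∀ (_ : n 0 = 10) (_ : n 6 = 6) (_ : n 2 = 8), Pat k 1 n ∨ Pat k k (mir k n) := by
    intro e0 e6 e2
    have r := h.rng 0 (by omega)
    exact Or.inl (Or.inr (Or.inr (Or.inr (Or.inl ⟨rfl, by omega, e0, e6, e2⟩))))
  have goal2 : ∀ (_ : 6 ≤ k) (_ : n 4 = 2 * k + 1) (_ : n 3 + 1 = 2 * k) (_ : n 2 + 3 = 2 * k),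
      Pat k 1 n ∨ Pat k k (mir k n) := by
    intro e0 e4 e3 e2
    right
    refine Or.inr (Or.inr (Or.inr (Or.inr (Or.inr (Or.inr (Or.inr (Or.inr (Or.inr (Or.inr (Or.inr
        (Or.inl ⟨rfl, e0, ?_, ?_, ?_⟩)))))))))))
    · exact mir_n (j := 2) (by omega) (by norm_num; omega) (by norm_num; omega)
    · exact mir_n (j := 3) (by omega) (by norm_num; omega) (by norm_num; omega)
    · exact mir_n (j := 4) (by omega) (by norm_num; omega) (by norm_num; omega)
  have i06 := h.inj 0 6 (by omega) (by omega)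
  have f06 := h.full 0 6 (by omega) (by omega)
  rcases b6 with c6 | c6 | ⟨c6, hko⟩
  · -- port 6 outside
    have z' : n 0 ≠ 0 ∧ n 2 ≠ 0 ∧ n 3 ≠ 0 ∧ n 4 ≠ 0 := by
      rcases z with z | z | z | z | z | z <;> omega
    clear z i06 f06
    have b4 := h.B4 hu2
    have d4 : n 4 = 2 * k + 1 ∧ k % 2 = 0 := by rcases b4 with b4 | b4 | b4 | b4 <;> omega
    clear b4
    have b3 := h.B3 hu2 hW1
    have b2 := h.B2 hu2 hW1
    have a2 := h.even1 hu2 (j := 2) (by omega)
    have : 6 ≤ k ∧ n 3 + 1 = 2 * k ∧ n 2 + 3 = 2 * k := by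
      rcases b3 with b3 | b3 | b3 | b3 | b3 <;> rcases b2 with b2 | b2 | b2 | b2 | b2 | b2 <;>
        omega
    exact goal2 this.1 d4.1 this.2.1 this.2.2
  · -- `x_3` is the last port
    have b4 := h.B4 hu2
    have d4 : n 4 = 0 ∨ (n 4 = 2 * k + 1 ∧ k % 2 = 0) := by
      rcases b4 with b4 | b4 | b4 | b4 <;> omega
    clear b4
    rcases d4 with d4 | ⟨d4, hke⟩
    · have z' : n 0 ≠ 0 ∧ n 2 ≠ 0 ∧ n 3 ≠ 0 := by
        rcases z with z | z | z | z | z | z <;> omega
      clear z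
      have b3 := h.B3 hu2 hW1
      have d3 : n 3 = 2 * k + 1 ∧ k % 2 = 1 := by
        rcases b3 with b3 | b3 | b3 | b3 | b3 <;> omega
      clear b3
      have b2 := h.B2 hu2 hW1
      have a2 := h.even1 hu2 (j := 2) (by omega)
      have d2 : n 2 = 8 ∨ n 2 + 1 = 2 * k := by
        rcases b2 with b2 | b2 | b2 | b2 | b2 | b2 <;> omega
      clear b2
      have b0 := h.B0 hu2
      rcases d2 with d2 | d2
      · have d0 : n 0 = 10 := by
          rcases b0 with b0 | b0 | b0 | b0 | b0 | b0 | b0 <;> omega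
        exact goal5 d0 c6 d2
      · have d0 : n 0 + 3 = 2 * k := by
          rcases b0 with b0 | b0 | b0 | b0 | b0 | b0 | b0 <;> omega
        clear b0
        left
        refine Or.inr (Or.inr (Or.inr (Or.inr (Or.inl ⟨rfl, d3.2, ?_, d0, d2, d3.1, d4, c6⟩))))
        omega
    · have b3 := h.B3 hu2 hW1
      have d3 : n 3 = 0 ∨ n 3 + 1 = 2 * k := by
        rcases b3 with b3 | b3 | b3 | b3 | b3 <;> omega
      clear b3
      have b2 := h.B2 hu2 hW1
      have b0 := h.B0 hu2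
      have i24 := h.dif (i := 2) (j := 4) (by omega) (by omega) (by omega)
      rcases d3 with d3 | d3
      · have z' : n 0 ≠ 0 ∧ n 2 ≠ 0 := by
          rcases z with z | z | z | z | z | z <;> omega
        clear z
        have d2 : n 2 = 8 := by
          rcases b2 with b2 | b2 | b2 | b2 | b2 | b2 <;> omega
        clear b2
        have d0 : n 0 = 10 ∨ n 0 + 1 = 2 * k := by
          rcases b0 with b0 | b0 | b0 | b0 | b0 | b0 | b0 <;> omega
        clear b0
        rcases d0 with d0 | d0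
        · exact goal5 d0 c6 d2
        · exact (h.bad1 rfl d2 d0 (by omega) hke).elim
      · have i36 := h.dif (i := 3) (j := 6) (by omega) (by omega) (by omega)
        have a2 := h.even1 hu2 (j := 2) (by omega)
        have d2 : n 2 = 0 ∨ n 2 = 8 ∨ n 2 + 3 = 2 * k := by
          rcases b2 with b2 | b2 | b2 | b2 | b2 | b2 <;> omega
        clear b2
        rcases d2 with d2 | d2 | d2
        · exfalso
          have z' : n 0 ≠ 0 := by
            rcases z with z | z | z | z | z | z <;> omega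
          clear z
          have i03 := h.dif (i := 0) (j := 3) (by omega) (by omega) (by omega)
          have a0 := h.odd1 hu2 (j := 0) (by omega)
          rcases b0 with b0 | b0 | b0 | b0 | b0 | b0 | b0 <;> omega
        · exfalso
          clear z b0
          have a0 := h.odd1 hu2 (j := 0) (by omega)
          exact h.bad2 rfl d2 d3 (by omega) hke (by omega) (by omega)
        · clear z b0
          exact goal2 (by omega) d4 d3 d2
  · -- `y_k` is the last port
    have hdb := h.dbl hu2 (by omega)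
    have b4 := h.B4 hu2
    have d4 : n 4 = 0 ∨ n 4 + 1 = 2 * k := by rcases b4 with b4 | b4 | b4 | b4 <;> omega
    clear b4
    have b3 := h.B3 hu2 hW1
    have b2 := h.B2 hu2 hW1
    have a0 := h.odd1 hu2 (j := 0) (by omega)
    have a2 := h.even1 hu2 (j := 2) (by omega)
    rcases d4 with d4 | d4
    · have z' : n 0 ≠ 0 ∧ n 2 ≠ 0 ∧ n 3 ≠ 0 := by
        rcases z with z | z | z | z | z | z <;> omega
      clear z
      have d3 : n 3 = 6 := by
        rcases b3 with b3 | b3 | b3 | b3 | b3 <;> omega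
      clear b3
      have d2 : n 2 + 1 = 2 * k := by
        rcases b2 with b2 | b2 | b2 | b2 | b2 | b2 <;> omega
      clear b2
      exact (h.bad3 rfl hu2 d3 d2 (by omega) (by omega)).elim
    · have d3 : n 3 = 0 ∨ n 3 = 6 ∨ n 3 + 3 = 2 * k := by
        rcases b3 with b3 | b3 | b3 | b3 | b3 <;> omega
      clear b3
      rcases d3 with d3 | d3 | d3
      · exfalso
        have z' : n 2 ≠ 0 := by
          rcases z with z | z | z | z | z | z <;> omega
        clear z
        rcases b2 with b2 | b2 | b2 | b2 | b2 | b2 <;> omega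
      · exfalso
        clear z b2
        exact h.bad4 rfl hu2 d3 d4 (by omega) (by omega) (by omega)
      · right
        refine Or.inr (Or.inr (Or.inr (Or.inr (Or.inr (Or.inr (Or.inr (Or.inr (Or.inr (Or.inr (Or.inr
          (Or.inr ⟨rfl, ?_, ?_, ?_, ?_⟩)))))))))))
        · by_contra hk7
          have d2 : n 2 = 0 := by
            rcases b2 with b2 | b2 | b2 | b2 | b2 | b2 <;> omega
          clear b2
          have z' : n 0 ≠ 0 := by
            rcases z with z | z | z | z | z | z <;> omega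
          clear z
          have i03 := h.dif (i := 0) (j := 3) (by omega) (by omega) (by omega)
          omega
        · exact mir_n (j := 0) (by omega) (by norm_num; omega) (by norm_num; omega)
        · exact mir_n (j := 2) (by omega) (by norm_num; omega) (by norm_num; omega)
        · exact mir_n (j := 3) (by omega) (by norm_num; omega) (by norm_num; omega)

end CLB.H91.M5
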