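import Pool.Agent.Helper91_DA.M5C

/-!
Arithmetic of the classification: the full unit is an inner one.
-/

set_option autoImplicit false
set_option linter.unusedSectionVars false

namespace CLB.H91.M5

variable {k v : ℕ} {n : ℕ → ℕ}

lemma mir_mir (hr : Rg k n) {j : ℕ} (hj : j ≤ 6) : mir k (mir k n) j = n j := by
  have h1 := mir_cases (k := k) hr (j := 6 - j) (by omega)
  rw [show 6 - (6 - j) = j by omega] at h1
  rcases h1 with h1 | h1
  · rw [mir_zero h1.2, h1.1]
  · rw [mir_ne (by omega)]; omega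

lemma Pat.congr {n n' : ℕ → ℕ} (h : ∀ j ≤ 6, n j = n' j) (hp : Pat k v n) : Pat k v n' := by
  unfold Pat at hp ⊢
  rw [← h 0 (by omega), ← h 2 (by omega), ← h 3 (by omega), ← h 4 (by omega), ← h 6 (by omega)]
  exact hp

/-- The unit on the left is seen through the port 2, or not at all. -/
lemma A5.left (h : A5 k v n) (hv : 2 ≤ v) : n 2 + 2 = 2 * v ∨ ∀ l ≤ 6, n l / 2 ≠ v - 1 := by
  by_cases hu : ∀ l ≤ 6, n l / 2 ≠ v - 1
  · exact Or.inr hu
  left
  push Not at hu
  obtain ⟨l, hl, he⟩ := hu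
  have n1 := h.n1
  have n5 := h.n5
  have hp := h.par l hl (by omega)
  have h1 : n l + 1 ≠ 2 * v := by
    intro h4
    have hl5 : l ≠ 5 := by rintro rfl; omega
    refine h.wx.lnk l ?_ 1 (by simp) (by omega) (by omega)
    have : l = 0 ∨ l = 1 ∨ l = 2 ∨ l = 3 ∨ l = 4 ∨ l = 6 := by omega
    simp only [List.mem_cons, List.not_mem_nil, or_false]
    exact this
  have h5 : n l + 2 = 2 * v := by omega
  have hl2 : l = 2 ∨ l = 4 := by
    unfold po at hp
    split_ifs at hp <;> omega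
  rcases hl2 with rfl | rfl
  · exact h5
  · exact absurd (show n 5 = n 4 + 3 by omega) (h.adx 4 5 (by omega) (by omega) (by decide) (by omega)
      (by omega))

/-- The unit on the right is seen through the port 4, or not at all. -/
lemma A5.right (h : A5 k v n) : n 4 = 2 * v + 3 ∨ ∀ l ≤ 6, n l / 2 ≠ v + 1 := by
  by_cases hu : ∀ l ≤ 6, n l / 2 ≠ v + 1
  · exact Or.inr hu
  left
  push Not at hu
  obtain ⟨l, hl, he⟩ := hu
  have n1 := h.n1
  have n5 := h.n5
  have hp := h.par l hl (by omega)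
  have h1 : n l ≠ 2 * v + 2 := by
    intro h4
    have hl5 : l ≠ 1 := by rintro rfl; omega
    refine h.wy.lnk 5 (by simp) l ?_ (by omega) (by omega)
    have : l = 0 ∨ l = 2 ∨ l = 3 ∨ l = 4 ∨ l = 5 ∨ l = 6 := by omega
    simp only [List.mem_cons, List.not_mem_nil, or_false]
    exact this
  have h5 : n l = 2 * v + 3 := by omega
  have hl2 : l = 2 ∨ l = 4 := by
    unfold po at hp
    split_ifs at hp <;> omega
  rcases hl2 with rfl | rfl
  · have v1 := h.v1
    exact absurd (show n 2 = n 1 + 3 by omega) (h.adx 1 2 (by omega) (by omega) (by decide) (by omega)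
      (by omega))
  · exact h5

lemma A5.opL (h : A5 k v n) (hv : 2 ≤ v) (hu : ∀ l ≤ 6, n l / 2 ≠ v - 1) (J : List ℕ)
    (hJ : ∀ j ∈ J, j ≤ 6) (h5 : 1 ∈ J) : OpnA k n J (v - 1) :=
  ⟨by omega, by have := h.vk; omega, fun l hl => hu l (hJ l hl), 1, h5, Or.inl (by
    have := h.n1; omega)⟩

lemma A5.opR (h : A5 k v n) (hv : v < k) (hu : ∀ l ≤ 6, n l / 2 ≠ v + 1) (J : List ℕ)
    (hJ : ∀ j ∈ J, j ≤ 6) (h5 : 5 ∈ J) : OpnA k n J (v + 1) :=
  ⟨by omega, by omega, fun l hl => hu l (hJ l hl), 5, h5, Or.inr (by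
    have := h.n5; have := h.v1; omega)⟩

/-- The parity at the odd positions. -/
lemma A5.podd (h : A5 k v n) {j : ℕ} (hj : j = 0 ∨ j = 1 ∨ j = 3 ∨ j = 5 ∨ j = 6) (h0 : n j ≠ 0) :
    (n j / 2 + v) % 2 = 0 := by
  have q := h.par j (by omega) h0
  have hp : po j % 2 = 1 := by rcases hj with rfl | rfl | rfl | rfl | rfl <;> rfl
  omega

/-- The parity at the even positions. -/
lemma A5.peven (h : A5 k v n) {j : ℕ} (hj : j = 2 ∨ j = 4) (h0 : n j ≠ 0) :
    (n j / 2 + v) % 2 = 1 := by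
  have q := h.par j (by omega) h0
  have hp : po j % 2 = 0 := by rcases hj with rfl | rfl <;> rfl
  omega

/-! ### Isolated -/

/-- Both neighbouring units unseen: the ports 0, 2. -/
lemma A5.iso0 (h : A5 k v n) (hv : 2 ≤ v) (hvk : v < k) (uL : ∀ l ≤ 6, n l / 2 ≠ v - 1)
    (uR : ∀ l ≤ 6, n l / 2 ≠ v + 1) : n 0 = 0 ∨ n 0 = 2 ∨ n 0 = 2 * k + 1 := by
  have n1 := h.n1
  have i01 := h.inj 0 1 (by omega) (by omega)
  have u := uR 0 (by omega)
  have q := h.podd (j := 0) (by omega)
  have r0 := h.rng 0 (by omega)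
  have s := h.p1.step (h.opL hv uL [0, 1] (by decide) (by simp)) (i := 0) (by simp) (h.rng 0 (by omega))
  simp only [List.mem_cons, List.not_mem_nil, or_false, exists_eq_or_imp, exists_eq_left] at s
  have key : ¬ (n 0 + 1 = 2 * (v - 1) ∧ 3 ≤ n 0) := by
    intro e
    have := h.wy.opn (v - 1) (v + 1) ⟨by omega, by omega, fun l hl => uL l (by simp at hl; omega),
      0, by simp, Or.inr e⟩ (h.opR hvk uR _ (by decide) (by simp))
    omega
  rcases s with s | s | s | ⟨s, s' | s'⟩ | ⟨s, s' | s'⟩ | s | s <;> omega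

lemma A5.iso2 (h : A5 k v n) (hv : 2 ≤ v) (hvk : v < k) (uL : ∀ l ≤ 6, n l / 2 ≠ v - 1)
    (uR : ∀ l ≤ 6, n l / 2 ≠ v + 1) : n 2 = 0 ∨ n 2 = 2 ∨ n 2 = 2 * k + 1 := by
  have n1 := h.n1
  have n5 := h.n5
  have b0 := h.iso0 hv hvk uL uR
  have u := uR 2 (by omega)
  have u0 := uR 0 (by omega)
  have q := h.peven (j := 2) (by omega)
  have s := h.p2.step (h.opL hv uL [0, 1, 2] (by decide) (by simp)) (i := 2) (by simp)
    (h.rng 2 (by omega))
  simp only [List.mem_cons, List.not_mem_nil, or_false, exists_eq_or_imp, exists_eq_left] at s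
  have key : ¬ (n 2 + 1 = 2 * (v - 1) ∧ 3 ≤ n 2) := by
    intro e
    have := h.wy.opn (v - 1) (v + 1) ⟨by omega, by omega, fun l hl => uL l (by simp at hl; omega),
      2, by simp, Or.inr e⟩ (h.opR hvk uR _ (by decide) (by simp))
    omega
  have r2 := h.rng 2 (by omega)
  have c2 : n 2 = 0 ∨ n 2 = 2 ∨ n 2 = 2 * k + 1 ∨ (n 2 = 4 ∧ n 0 = 2) ∨
      (n 2 + 1 = 2 * k ∧ n 0 = 2 * k + 1) := by
    rcases b0 with b0 | b0 | b0 <;>
    rcases s with s | s | s | ⟨s, s' | s' | s'⟩ | ⟨s, s' | s' | s'⟩ | s | s <;> omega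
  clear s key
  have s := h.s2.step (h.opR hvk uR [2, 3, 4, 5, 6] (by decide) (by simp)) (i := 2) (by simp) r2
  simp only [List.mem_cons, List.not_mem_nil, or_false, exists_eq_or_imp, exists_eq_left] at s
  have hd : n 0 ≠ 0 → n 0 ≠ n 6 := fun h0 he => h.dx he h0 _ (h.opL hv uL _ (by decide) (by simp))
  have i03 := h.inj 0 3 (by omega) (by omega)
  have i04 := h.inj 0 4 (by omega) (by omega)
  rcases c2 with c2 | c2 | c2 | ⟨c2, c2'⟩ | ⟨c2, c2'⟩
  · omega
  · omega
  · omega
  · have hd' := hd (by omega)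
    clear hd
    rcases s with s | s | s | ⟨s, s' | s' | s' | s' | s'⟩ | ⟨s, s' | s' | s' | s' | s'⟩ | s | s <;> omega
  · have hd' := hd (by omega)
    clear hd
    rcases s with s | s | s | ⟨s, s' | s' | s' | s' | s'⟩ | ⟨s, s' | s' | s' | s' | s'⟩ | s | s <;> omega

/-- The full unit is not isolated. -/
theorem A5.not_iso (h : A5 k v n) (hv : 2 ≤ v) (hvk : v < k) (uL : ∀ l ≤ 6, n l / 2 ≠ v - 1)
    (uR : ∀ l ≤ 6, n l / 2 ≠ v + 1) : False := by
  have b0 := h.iso0 hv hvk uL uR
  have b2 := h.iso2 hv hvk uL uR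
  have hm := h.mirror
  have v1 := h.v1
  have uL' : ∀ l ≤ 6, mir k n l / 2 ≠ k + 1 - v - 1 := by
    intro l hl he
    have := uR (6 - l) (by omega)
    rcases mir_cases (k := k) h.rg (j := l) hl with h1 | h1 <;> omega
  have uR' : ∀ l ≤ 6, mir k n l / 2 ≠ k + 1 - v + 1 := by
    intro l hl he
    have := uL (6 - l) (by omega)
    rcases mir_cases (k := k) h.rg (j := l) hl with h1 | h1 <;> omega
  have b6 := hm.iso0 (by omega) (by omega) uL' uR'
  have b4 := hm.iso2 (by omega) (by omega) uL' uR'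
  have m0 := mir_cases (k := k) h.rg (j := 0) (by omega)
  have m2 := mir_cases (k := k) h.rg (j := 2) (by omega)
  norm_num at m0 m2
  have c6 : n 6 = 0 ∨ n 6 = 2 ∨ n 6 = 2 * k + 1 := by
    rcases m0 with m | m <;> rcases b6 with b | b | b <;> omega
  have c4 : n 4 = 0 ∨ n 4 = 2 ∨ n 4 = 2 * k + 1 := by
    rcases m2 with m | m <;> rcases b4 with b | b | b <;> omega
  clear m0 m2 b6 b4
  have hd : n 0 ≠ 0 → n 0 ≠ n 6 := fun h0 he => h.dx he h0 _ (h.opL hv uL _ (by decide) (by simp))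
  have i02 := h.inj 0 2 (by omega) (by omega)
  have i04 := h.inj 0 4 (by omega) (by omega)
  have i24 := h.inj 2 4 (by omega) (by omega)
  have i26 := h.inj 2 6 (by omega) (by omega)
  have i46 := h.inj 4 6 (by omega) (by omega)
  have z := h.zeros
  rcases z with z | z | z | z | z | z <;> rcases b0 with b0 | b0 | b0 <;>
    rcases b2 with b2 | b2 | b2 <;> rcases c4 with c4 | c4 | c4 <;> omega

/-! ### The left neighbour is seen, the right one is not -/

/-- A special case which does not occur. -/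
lemma A5.no_six (h : A5 k 3 n) (hvk : 3 < k) (uR : ∀ l ≤ 6, n l / 2 ≠ 4) (h2 : n 2 = 4)
    (h6 : n 6 = 2) : False := by
  have n1 := h.n1
  have n5 := h.n5
  have opR := h.opR hvk uR
  have hd : n 0 ≠ n 6 := fun he => h.dy he (by omega) _ (opR _ (by decide) (by simp))
  have f06 := h.full 0 6 (by omega) (by omega)
  have f36 := h.full 3 6 (by omega) (by omega)
  have i36 := h.inj 3 6 (by omega) (by omega)
  have i13 := h.inj 1 3 (by omega) (by omega)
  have i03 := h.inj 0 3 (by omega) (by omega)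
  have i01 := h.inj 0 1 (by omega) (by omega)
  have r0 := h.rng 0 (by omega)
  have r3 := h.rng 3 (by omega)
  have r4 := h.rng 4 (by omega)
  have u0 : n 0 / 2 ≠ 1 := by omega
  have u3 : n 3 / 2 ≠ 1 := by omega
  have q0 := h.podd (j := 0) (by omega)
  have q3 := h.podd (j := 3) (by omega)
  have q4 := h.peven (j := 4) (by omega)
  have o2 : OpnA k n [0, 1, 2] 1 := ⟨by omega, by omega, by
    intro l hl
    simp only [List.mem_cons, List.not_mem_nil, or_false] at hl
    rcases hl with rfl | rfl | rfl <;> omega, 2, by simp, Or.inl (by omega)⟩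
  have o3 : OpnA k n [0, 1, 2, 3] 1 := ⟨by omega, by omega, by
    intro l hl
    simp only [List.mem_cons, List.not_mem_nil, or_false] at hl
    rcases hl with rfl | rfl | rfl | rfl <;> omega, 2, by simp, Or.inl (by omega)⟩
  have o4 : OpnA k n [0, 1, 2, 3, 4] 1 := ⟨by omega, by omega, by
    intro l hl
    simp only [List.mem_cons, List.not_mem_nil, or_false] at hl
    rcases hl with rfl | rfl | rfl | rfl | rfl <;> omega, 2, by simp, Or.inl (by omega)⟩
  have s3 := h.p3.step o3 (i := 3) (by simp) r3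
  simp only [List.mem_cons, List.not_mem_nil, or_false, exists_eq_or_imp, exists_eq_left] at s3
  have s0 := h.p2.step o2 (i := 0) (by simp) r0
  simp only [List.mem_cons, List.not_mem_nil, or_false, exists_eq_or_imp, exists_eq_left] at s0
  clear f06 f36 i36 hd
  have c3 : n 3 = 0 ∨ n 3 = 2 * k + 1 := by
    rcases s3 with s | s | s | ⟨s, s' | s' | s' | s'⟩ | ⟨s, s' | s' | s' | s'⟩ | s | s <;> omega
  clear s3
  have c0 : n 0 = 0 ∨ n 0 = 2 * k + 1 := by
    rcases s0 with s | s | s | ⟨s, s' | s' | s'⟩ | ⟨s, s' | s' | s'⟩ | s | s <;> omega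
  clear s0
  have z := h.zeros
  have c : (n 0 = 0 ∧ n 3 = 2 * k + 1 ∧ n 4 ≠ 0 ∧ k % 2 = 1) ∨
      (n 3 = 0 ∧ n 0 = 2 * k + 1 ∧ n 4 ≠ 0 ∧ k % 2 = 1) := by
    rcases z with z | z | z | z | z | z <;> rcases c3 with c3 | c3 <;> rcases c0 with c0 | c0 <;> omega
  clear z c3 c0
  have s4 := h.p4.step o4 (i := 4) (by simp) r4
  simp only [List.mem_cons, List.not_mem_nil, or_false, exists_eq_or_imp, exists_eq_left] at s4
  have u4 := uR 4 (by omega)
  have i24 := h.inj 2 4 (by omega) (by omega)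
  have c4 : n 4 + 1 = 2 * k := by
    rcases c with c | c <;>
    rcases s4 with s | s | s | ⟨s, s' | s' | s' | s' | s'⟩ | ⟨s, s' | s' | s' | s' | s'⟩ | s | s <;> omega
  clear s4
  have t4 := h.s4.step (opR [4, 5, 6] (by decide) (by simp)) (i := 4) (by simp) r4
  simp only [List.mem_cons, List.not_mem_nil, or_false, exists_eq_or_imp, exists_eq_left] at t4
  rcases c with c | c <;>
  rcases t4 with s | s | s | ⟨s, s' | s' | s'⟩ | ⟨s, s' | s' | s'⟩ | s | s <;> omega

/-- The left neighbour is seen, the right one is not. -/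
theorem A5.caseL (h : A5 k v n) (hv : 2 ≤ v) (hvk : v < k) (h2 : n 2 + 2 = 2 * v)
    (uR : ∀ l ≤ 6, n l / 2 ≠ v + 1) : Pat k v n := by
  have n1 := h.n1
  have n5 := h.n5
  have hk := h.hk
  by_cases hv2 : v = 2
  · exact Or.inr (Or.inr (Or.inr (Or.inr (Or.inr (Or.inl ⟨hv2, hk, by omega⟩)))))
  have opR := h.opR hvk uR
  have s2 := h.s2.step (opR [2, 3, 4, 5, 6] (by decide) (by simp)) (i := 2) (by simp)
    (h.rng 2 (by omega))
  simp only [List.mem_cons, List.not_mem_nil, or_false, exists_eq_or_imp, exists_eq_left] at s2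
  have q4 := h.peven (j := 4) (by omega)
  have c : n 3 + 4 = 2 * v ∨ n 6 + 4 = 2 * v := by
    rcases s2 with s | s | s | ⟨s, s' | s' | s' | s' | s'⟩ | ⟨s, s' | s' | s' | s' | s'⟩ | s | s <;> omega
  clear s2
  rcases c with c | c
  · -- the middle port
    by_cases hv3 : v = 3
    · exact Or.inr (Or.inr (Or.inr (Or.inr (Or.inr (Or.inr (Or.inl ⟨hv3, by omega, by omega,
        by omega⟩))))))
    have s3 := h.s3.step (opR [3, 4, 5, 6] (by decide) (by simp)) (i := 3) (by simp)
      (h.rng 3 (by omega))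
    simp only [List.mem_cons, List.not_mem_nil, or_false, exists_eq_or_imp, exists_eq_left] at s3
    have q6 := h.podd (j := 6) (by omega)
    have c4 : n 4 + 6 = 2 * v := by
      rcases s3 with s | s | s | ⟨s, s' | s' | s' | s'⟩ | ⟨s, s' | s' | s' | s'⟩ | s | s <;> omega
    clear s3
    by_cases hv4 : v = 4
    · exact Or.inr (Or.inr (Or.inr (Or.inr (Or.inr (Or.inr (Or.inr (Or.inr (Or.inr (Or.inl ⟨hv4,
        by omega, by omega, by omega, by omega⟩)))))))))
    have s4 := h.s4.step (opR [4, 5, 6] (by decide) (by simp)) (i := 4) (by simp)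
      (h.rng 4 (by omega))
    simp only [List.mem_cons, List.not_mem_nil, or_false, exists_eq_or_imp, exists_eq_left] at s4
    have c6 : n 6 + 8 = 2 * v := by
      rcases s4 with s | s | s | ⟨s, s' | s' | s'⟩ | ⟨s, s' | s' | s'⟩ | s | s <;> omega
    clear s4
    have s5 := h.s5.step (opR [5, 6] (by decide) (by simp)) (i := 6) (by simp)
      (h.rng 6 (by omega))
    simp only [List.mem_cons, List.not_mem_nil, or_false, exists_eq_or_imp, exists_eq_left] at s5
    have hv5 : v = 5 := by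
      rcases s5 with s | s | s | ⟨s, s' | s'⟩ | ⟨s, s' | s'⟩ | s | s <;> omega
    exact Or.inr (Or.inr (Or.inr (Or.inr (Or.inr (Or.inr (Or.inr (Or.inr (Or.inr (Or.inr (Or.inl
      ⟨hv5, by omega, by omega, by omega, by omega⟩))))))))))
  · -- the last port
    exfalso
    have s5 := h.s5.step (opR [5, 6] (by decide) (by simp)) (i := 6) (by simp)
      (h.rng 6 (by omega))
    simp only [List.mem_cons, List.not_mem_nil, or_false, exists_eq_or_imp, exists_eq_left] at s5
    have hv3 : v = 3 := by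
      rcases s5 with s | s | s | ⟨s, s' | s'⟩ | ⟨s, s' | s'⟩ | s | s <;> omega
    subst hv3
    exact h.no_six hvk uR (by omega) (by omega)

end CLB.H91.M5
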