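import Pool.Agent.Helper91_DA.M5D

/-!
Arithmetic of the classification: the main theorem.
-/

set_option autoImplicit false
set_option linter.unusedSectionVars false

namespace CLB.H91.M5

variable {k v : ℕ} {n : ℕ → ℕ}

lemma pat7 (hv : v = 3) (hk : 4 ≤ k) (h2 : n 2 = 4) (h3 : n 3 = 2) : Pat k v n :=
  Or.inr (Or.inr (Or.inr (Or.inr (Or.inr (Or.inr (Or.inl ⟨hv, hk, h2, h3⟩))))))

lemma patE1 (hv : v = 3) (hk : k = 5) (h0 : n 0 = 2) (h2 : n 2 = 4) (h3 : n 3 = 0) (h4 : n 4 = 9)
    (h6 : n 6 = 11) : Pat k v n :=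
  Or.inr (Or.inr (Or.inr (Or.inr (Or.inr (Or.inr (Or.inr (Or.inl ⟨hv, hk, h0, h2, h3, h4, h6⟩)))))))

lemma patE2 (hv : v = 3) (hk : k = 5) (h0 : n 0 = 11) (h2 : n 2 = 4) (h3 : n 3 = 0) (h4 : n 4 = 9)
    (h6 : n 6 = 2) : Pat k v n :=
  Or.inr (Or.inr (Or.inr (Or.inr (Or.inr (Or.inr (Or.inr (Or.inr (Or.inl
    ⟨hv, hk, h0, h2, h3, h4, h6⟩))))))))

/-- Both neighbours seen, `x_(v-2)` is the middle port and `4 ≤ v`. -/
lemma A5.no_mid (h : A5 k v n) (hv : 4 ≤ v) (hvk : v + 2 ≤ k) (h2 : n 2 + 2 = 2 * v)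
    (h4 : n 4 = 2 * v + 3) (h3 : n 3 + 4 = 2 * v) : False := by
  have n1 := h.n1
  have n5 := h.n5
  have hu : ∀ l ≤ 6, n l / 2 ≠ v - 3 := by
    intro l hl he
    by_cases h0 : n l = 0
    · omega
    have hp := h.par l hl h0
    unfold po at hp
    split_ifs at hp
    · omega
    · omega
    · have : l = 2 ∨ l = 3 ∨ l = 4 := by omega
      rcases this with rfl | rfl | rfl <;> omega
  have op : ∀ (J : List ℕ), (∀ j ∈ J, j ≤ 6) → 3 ∈ J → OpnA k n J (v - 3) := fun J hJ h3' =>
    ⟨by omega, by omega, fun l hl => hu l (hJ l hl), 3, h3', Or.inl (by omega)⟩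
  have s := h.p4.step (op [0, 1, 2, 3, 4] (by decide) (by simp)) (i := 4) (by simp)
    (h.rng 4 (by omega))
  simp only [List.mem_cons, List.not_mem_nil, or_false, exists_eq_or_imp, exists_eq_left] at s
  have c0 : n 0 = 2 * v + 5 := by
    rcases s with s | s | s | ⟨s, s' | s' | s' | s' | s'⟩ | ⟨s, s' | s' | s' | s' | s'⟩ | s | s <;> omega
  clear s
  have s := h.s3.step (op [3, 4, 5, 6] (by decide) (by simp)) (i := 4) (by simp)
    (h.rng 4 (by omega))
  simp only [List.mem_cons, List.not_mem_nil, or_false, exists_eq_or_imp, exists_eq_left] at s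
  have c6 : n 6 = 2 * v + 5 := by
    rcases s with s | s | s | ⟨s, s' | s' | s' | s'⟩ | ⟨s, s' | s' | s' | s'⟩ | s | s <;> omega
  exact h.dx (by omega) (by omega) _ (op _ (by decide) (by simp))

/-- `x_1` is the mate of `y_3` in the last fork. -/
lemma A5.case6 (h : A5 k 3 n) (hk : 5 ≤ k) (h2 : n 2 = 4) (h4 : n 4 = 9) (h3 : n 3 ≠ 2)
    (h6 : n 6 = 2) (h0 : n 0 ≠ 2) : Pat k 3 n ∨ Pat k (k - 2) (mir k n) := by
  have n1 := h.n1
  have n5 := h.n5
  have f06 := h.full 0 6 (by omega) (by omega)
  have f36 := h.full 3 6 (by omega) (by omega)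
  have i13 := h.inj 1 3 (by omega) (by omega)
  have i03 := h.inj 0 3 (by omega) (by omega)
  have i01 := h.inj 0 1 (by omega) (by omega)
  have r0 := h.rng 0 (by omega)
  have r3 := h.rng 3 (by omega)
  have r4 := h.rng 4 (by omega)
  have u0 : n 0 / 2 ≠ 1 := by omega
  have u3 : n 3 / 2 ≠ 1 := by omega
  have q0 := h.podd (j := 0) (by omega)
  have q3 := h.podd (j := 3) (by omega)
  have o2 : OpnA k n [0, 1, 2] 1 := ⟨by omega, by omega, by
    intro l hl
    simp only [List.mem_cons, List.not_mem_nil, or_false] at hl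
    rcases hl with rfl | rfl | rfl <;> omega, 2, by simp, Or.inl (by omega)⟩
  have o3 : OpnA k n [0, 1, 2, 3] 1 := ⟨by omega, by omega, by
    intro l hl
    simp only [List.mem_cons, List.not_mem_nil, or_false] at hl
    rcases hl with rfl | rfl | rfl | rfl <;> omega, 2, by simp, Or.inl (by omega)⟩
  have o4 : OpnA k n [0, 1, 2, 3, 4] 1 := ⟨by omega, by omega, by
    intro l hl
    simp only [List.mem_cons, List.not_mem_nil, or_false] at hl
    rcases hl with rfl | rfl | rfl | rfl | rfl <;> omega, 2, by simp, Or.inl (by omega)⟩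
  have s3 := h.p3.step o3 (i := 3) (by simp) r3
  simp only [List.mem_cons, List.not_mem_nil, or_false, exists_eq_or_imp, exists_eq_left] at s3
  have s0 := h.p2.step o2 (i := 0) (by simp) r0
  simp only [List.mem_cons, List.not_mem_nil, or_false, exists_eq_or_imp, exists_eq_left] at s0
  clear f06 f36
  have c3 : n 3 = 0 ∨ n 3 = 2 * k + 1 := by
    rcases s3 with s | s | s | ⟨s, s' | s' | s' | s'⟩ | ⟨s, s' | s' | s' | s'⟩ | s | s <;> omega
  clear s3
  have c0 : n 0 = 0 ∨ n 0 = 2 * k + 1 := by
    rcases s0 with s | s | s | ⟨s, s' | s' | s'⟩ | ⟨s, s' | s' | s'⟩ | s | s <;> omega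
  clear s0
  have z := h.zeros
  have c : (n 0 = 0 ∧ n 3 = 2 * k + 1 ∧ k % 2 = 1) ∨ (n 3 = 0 ∧ n 0 = 2 * k + 1 ∧ k % 2 = 1) := by
    rcases z with z | z | z | z | z | z <;> rcases c3 with c3 | c3 <;> rcases c0 with c0 | c0 <;> omega
  clear z c3 c0
  have s4 := h.p4.step o4 (i := 4) (by simp) r4
  simp only [List.mem_cons, List.not_mem_nil, or_false, exists_eq_or_imp, exists_eq_left] at s4
  have hk5 : k = 5 := by
    rcases c with c | c <;>
    rcases s4 with s | s | s | ⟨s, s' | s' | s' | s' | s'⟩ | ⟨s, s' | s' | s' | s' | s'⟩ | s | s <;> omega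
  clear s4
  subst hk5
  rcases c with c | c
  · right
    refine pat7 rfl (by norm_num) ?_ ?_
    · exact mir_n (j := 2) (by omega) (by norm_num; omega) (by norm_num; omega)
    · exact mir_n (j := 3) (by omega) (by norm_num; omega) (by norm_num; omega)
  · left
    exact patE2 rfl rfl c.2.1 h2 c.1 h4 h6

/-- `x_1` is the mate of `x_3` in the first fork. -/
lemma A5.case0 (h : A5 k 3 n) (hk : 5 ≤ k) (h2 : n 2 = 4) (h4 : n 4 = 9) (h3 : n 3 ≠ 2)
    (h0 : n 0 = 2) : Pat k 3 n ∨ Pat k (k - 2) (mir k n) := by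
  have n1 := h.n1
  have n5 := h.n5
  have f03 := h.full 0 3 (by omega) (by omega)
  have i13 := h.inj 1 3 (by omega) (by omega)
  have i03 := h.inj 0 3 (by omega) (by omega)
  have r6 := h.rng 6 (by omega)
  have r3 := h.rng 3 (by omega)
  have r4 := h.rng 4 (by omega)
  have u3 : n 3 / 2 ≠ 1 := by omega
  have q6 := h.podd (j := 6) (by omega)
  have q3 := h.podd (j := 3) (by omega)
  have fin3 : n 3 = 11 → k = 5 → Pat k 3 n ∨ Pat k (k - 2) (mir k n) := by
    intro e3 e5
    subst e5
    right
    refine pat7 rfl (by norm_num) ?_ ?_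
    · exact mir_n (j := 2) (by omega) (by norm_num; omega) (by norm_num; omega)
    · exact mir_n (j := 3) (by omega) (by norm_num; omega) (by norm_num; omega)
  by_cases h6 : n 6 = 2
  · have dx := h.dx (by omega) (by omega)
    have c3 : n 3 = 11 := by
      by_contra h11
      refine dx 5 ⟨by omega, hk, ?_, 4, by simp, Or.inr (by omega)⟩
      intro l hl
      simp only [List.mem_cons, List.not_mem_nil, or_false] at hl
      have lk := h.wx.lnk 4 (by simp) 3 (by simp)
      rcases hl with rfl | rfl | rfl | rfl | rfl | rfl <;> omega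
    refine fin3 c3 ?_
    by_contra hk5
    refine dx 6 ⟨by omega, by omega, ?_, 3, by simp, Or.inr (by omega)⟩
    intro l hl
    simp only [List.mem_cons, List.not_mem_nil, or_false] at hl
    rcases hl with rfl | rfl | rfl | rfl | rfl | rfl <;> omega
  · have f06 := h.full 0 6 (by omega) (by omega)
    have u6 : n 6 / 2 ≠ 1 := by omega
    have o2 : OpnA k n [2, 3, 4, 5, 6] 1 := ⟨by omega, by omega, by
      intro l hl
      simp only [List.mem_cons, List.not_mem_nil, or_false] at hl
      rcases hl with rfl | rfl | rfl | rfl | rfl <;> omega, 2, by simp, Or.inl (by omega)⟩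
    have s4 := h.s2.step o2 (i := 4) (by simp) r4
    simp only [List.mem_cons, List.not_mem_nil, or_false, exists_eq_or_imp, exists_eq_left] at s4
    have c : n 3 = 11 ∨ n 6 = 11 := by
      rcases s4 with s | s | s | ⟨s, s' | s' | s' | s' | s'⟩ | ⟨s, s' | s' | s' | s' | s'⟩ | s | s <;> omega
    clear s4 f03 f06
    rcases c with c | c
    · have s3 := h.s2.step o2 (i := 3) (by simp) r3
      simp only [List.mem_cons, List.not_mem_nil, or_false, exists_eq_or_imp, exists_eq_left] at s3
      refine fin3 c ?_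
      rcases s3 with s | s | s | ⟨s, s' | s' | s' | s' | s'⟩ | ⟨s, s' | s' | s' | s' | s'⟩ | s | s <;> omega
    · have s6 := h.s2.step o2 (i := 6) (by simp) r6
      simp only [List.mem_cons, List.not_mem_nil, or_false, exists_eq_or_imp, exists_eq_left] at s6
      have hk5 : k = 5 := by
        rcases s6 with s | s | s | ⟨s, s' | s' | s' | s' | s'⟩ | ⟨s, s' | s' | s' | s' | s'⟩ | s | s <;>
          omega
      clear s6
      have c3 : n 3 = 0 := by
        have i36 := h.dif (i := 3) (j := 6) (by omega) (by omega) (by omega)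
        have i35 := h.inj 3 5 (by omega) (by omega)
        omega
      left
      exact patE1 rfl hk5 h0 h2 c3 h4 c

/-- Both neighbours seen, the left run is complete. -/
theorem A5.caseM (h : A5 k v n) (hv : 3 ≤ v) (hvk : v + 2 ≤ k) (h2 : n 2 + 2 = 2 * v)
    (h4 : n 4 = 2 * v + 3) (hc : n 0 + 4 = 2 * v ∨ n 3 + 4 = 2 * v ∨ n 6 + 4 = 2 * v) :
    Pat k v n ∨ Pat k (k + 1 - v) (mir k n) := by
  have n1 := h.n1
  have n5 := h.n5
  by_cases h3 : n 3 + 4 = 2 * v
  · by_cases hv3 : v = 3
    · exact Or.inl (pat7 hv3 (by omega) (by omega) (by omega))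
    · exact (h.no_mid (by omega) hvk h2 h4 h3).elim
  have hv3 : v = 3 := by
    by_contra hv3
    rcases hc with c | c | c
    · have := h.p1.opn (v - 1) (v - 3) ⟨by omega, by omega, by
        intro l hl
        simp only [List.mem_cons, List.not_mem_nil, or_false] at hl
        rcases hl with rfl | rfl <;> omega, 1, by simp, Or.inl (by omega)⟩ ⟨by omega, by omega, by
        intro l hl
        simp only [List.mem_cons, List.not_mem_nil, or_false] at hl
        rcases hl with rfl | rfl <;> omega, 0, by simp, Or.inl (by omega)⟩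
      omega
    · omega
    · have := h.s5.opn (v + 1) (v - 3) ⟨by omega, by omega, by
        intro l hl
        simp only [List.mem_cons, List.not_mem_nil, or_false] at hl
        rcases hl with rfl | rfl <;> omega, 5, by simp, Or.inr (by omega)⟩ ⟨by omega, by omega, by
        intro l hl
        simp only [List.mem_cons, List.not_mem_nil, or_false] at hl
        rcases hl with rfl | rfl <;> omega, 6, by simp, Or.inl (by omega)⟩
      omega
  subst hv3
  by_cases h0 : n 0 = 2
  · exact h.case0 hvk (by omega) (by omega) (by omega) h0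
  · exact h.case6 hvk (by omega) (by omega) (by omega) (by omega) h0

/-- The left run is not complete. -/
lemma A5.runL (h : A5 k v n) (hv : 3 ≤ v) (h2 : n 2 + 2 = 2 * v) (h4 : n 4 = 2 * v + 3)
    (a0 : n 0 + 4 ≠ 2 * v) (a3 : n 3 + 4 ≠ 2 * v) (a6 : n 6 + 4 ≠ 2 * v) :
    OpnA k n [0, 1, 2, 3, 4, 6] (v - 2) := by
  have n1 := h.n1
  have vk := h.vk
  have key : ∀ l ∈ [0, 1, 2, 3, 4, 6], n l + 4 ≠ 2 * v → n l / 2 ≠ v - 2 := by
    intro l hl hn he
    exact h.wx.lnk l hl 2 (by simp) (by omega) (by omega)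
  refine ⟨by omega, by omega, fun l hl => key l hl ?_, 2, by simp, Or.inl (by omega)⟩
  simp only [List.mem_cons, List.not_mem_nil, or_false] at hl
  rcases hl with rfl | rfl | rfl | rfl | rfl | rfl
  · exact a0
  · omega
  · omega
  · exact a3
  · omega
  · exact a6

/-- The right run is not complete. -/
lemma A5.runR (h : A5 k v n) (hv : 1 ≤ v) (hvk : v + 2 ≤ k) (h2 : n 2 + 2 = 2 * v)
    (h4 : n 4 = 2 * v + 3) (a0 : n 0 ≠ 2 * v + 5) (a3 : n 3 ≠ 2 * v + 5) (a6 : n 6 ≠ 2 * v + 5) :
    OpnA k n [0, 1, 2, 3, 4, 6] (v + 2) := by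
  have n1 := h.n1
  have key : ∀ l ∈ [0, 1, 2, 3, 4, 6], n l ≠ 2 * v + 5 → n l / 2 ≠ v + 2 := by
    intro l hl hn he
    exact h.wx.lnk 4 (by simp) l hl (by omega) (by omega)
  refine ⟨by omega, by omega, fun l hl => key l hl ?_, 4, by simp, Or.inr (by omega)⟩
  simp only [List.mem_cons, List.not_mem_nil, or_false] at hl
  rcases hl with rfl | rfl | rfl | rfl | rfl | rfl
  · exact a0
  · omega
  · omega
  · exact a3
  · omega
  · exact a6

/-- **The classification of the codes.** -/
theorem pat_main (h : A5 k v n) : Pat k v n ∨ Pat k (k + 1 - v) (mir k n) := by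
  have hk := h.hk
  have v1 := h.v1
  have vk := h.vk
  have hm := h.mirror
  have mm : ∀ j ≤ 6, mir k (mir k n) j = n j := fun j hj => mir_mir h.rg hj
  by_cases hv1 : v = 1
  · subst hv1
    have := caseB h
    rwa [show k + 1 - 1 = k by omega]
  by_cases hvk : v = k
  · subst hvk
    rw [show v + 1 - v = 1 by omega] at hm ⊢
    rcases caseB hm with h1 | h1
    · exact Or.inr h1
    · exact Or.inl (h1.congr mm)
  rcases h.left (by omega) with h2 | uL
  · rcases h.right with h4 | uR
    · by_cases hv2 : v = 2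
      · left
        exact Or.inr (Or.inr (Or.inr (Or.inr (Or.inr (Or.inl ⟨hv2, hk, by omega⟩)))))
      by_cases hvk2 : v + 1 = k
      · right
        refine Or.inr (Or.inr (Or.inr (Or.inr (Or.inr (Or.inl ⟨by omega, hk, ?_⟩)))))
        exact mir_n (j := 2) (by omega) (by norm_num; omega) (by norm_num; omega)
      -- one of the two runs is complete
      have key : (n 0 + 4 = 2 * v ∨ n 3 + 4 = 2 * v ∨ n 6 + 4 = 2 * v) ∨
          (n 0 = 2 * v + 5 ∨ n 3 = 2 * v + 5 ∨ n 6 = 2 * v + 5) := by
        by_contra hcon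
        push Not at hcon
        obtain ⟨⟨a0, a3, a6⟩, b0, b3, b6⟩ := hcon
        have := h.wx.opn _ _ (h.runL (by omega) h2 h4 a0 a3 a6)
          (h.runR (by omega) (by omega) h2 h4 b0 b3 b6)
        omega
      rcases key with key | key
      · exact h.caseM (by omega) (by omega) h2 h4 key
      · have e0 := mir_cases (k := k) h.rg (j := 6) (by omega)
        have e2 := mir_cases (k := k) h.rg (j := 2) (by omega)
        have e3 := mir_cases (k := k) h.rg (j := 3) (by omega)
        have e4 := mir_cases (k := k) h.rg (j := 4) (by omega)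
        have e6 := mir_cases (k := k) h.rg (j := 0) (by omega)
        norm_num at e0 e2 e3 e4 e6
        have hc : mir k n 0 + 4 = 2 * (k + 1 - v) ∨ mir k n 3 + 4 = 2 * (k + 1 - v) ∨
            mir k n 6 + 4 = 2 * (k + 1 - v) := by
          clear e2 e4
          rcases key with key | key | key
          · right; right; clear e3 e6; omega
          · right; left; clear e0 e6; omega
          · left; clear e0 e3; omega
        rcases hm.caseM (by omega) (by omega) (by clear e0 e4 e3 e6 hc; omega)
          (by clear e0 e3 e2 e6 hc; omega) hc with h1 | h1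
        · exact Or.inr h1
        · rw [show k + 1 - (k + 1 - v) = v by omega] at h1
          exact Or.inl (h1.congr mm)
    · exact Or.inl (h.caseL (by omega) (by omega) h2 uR)
  · rcases h.right with h4 | uR
    · right
      refine hm.caseL (by omega) (by omega) ?_ ?_
      · have e4 := mir_cases (k := k) h.rg (j := 2) (by omega)
        norm_num at e4
        omega
      · intro l hl he
        have := uL (6 - l) (by omega)
        rcases mir_cases (k := k) h.rg (j := l) hl with h1 | h1 <;> omega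
    · exact (h.not_iso (by omega) (by omega) uL uR).elim

end CLB.H91.M5
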