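import Pool.Agent.Helper91_DA.M5E
import Pool.Agent.Helper91_DA.M5Defs2
import Pool.Agent.Helper95_CLB.Three

/-!
The codes of the ports of a component with five vertices satisfy the arithmetical conditions.
-/

set_option autoImplicit false
set_option linter.unusedSectionVars false

namespace CLB.H91

open Finset Classical
open H3DA (Q neg nr)
open CLB.H95
open CLB.H3 (CExt Cat IsTwo Fits UPath he_of_unc cat_structure chn_side pos KTight exists_ktight twice_dist
  ll5' one_le_pos pos_le)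
open CLB.H91.M5

variable {V : Type*} {H : SimpleGraph V} {R : V → Bool} [Fintype V] {k v : ℕ} {x y z c : ℕ → V}

/-- The code of a vertex. -/
noncomputable def kap (k : ℕ) (x y : ℕ → V) (w : V) : ℕ :=
  if h : ∃ i, 1 ≤ i ∧ i ≤ k ∧ w = x i then 2 * h.choose
  else if h : ∃ i, 1 ≤ i ∧ i ≤ k ∧ w = y i then 2 * h.choose + 1 else 0

lemma kap_x (h : Chn H R k x y) {i : ℕ} (h1 : 1 ≤ i) (h2 : i ≤ k) : kap k x y (x i) = 2 * i := by
  have he : ∃ j, 1 ≤ j ∧ j ≤ k ∧ x i = x j := ⟨i, h1, h2, rfl⟩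
  unfold kap
  rw [dif_pos he]
  have := he.choose_spec
  rw [← h.injx _ _ h1 h2 this.1 this.2.1 this.2.2]

lemma kap_y (h : Chn H R k x y) {i : ℕ} (h1 : 1 ≤ i) (h2 : i ≤ k) :
    kap k x y (y i) = 2 * i + 1 := by
  have hn : ¬ ∃ j, 1 ≤ j ∧ j ≤ k ∧ y i = x j := by
    rintro ⟨j, j1, j2, e⟩
    exact h.xy _ _ j1 j2 h1 h2 e.symm
  have he : ∃ j, 1 ≤ j ∧ j ≤ k ∧ y i = y j := ⟨i, h1, h2, rfl⟩
  unfold kap
  rw [dif_neg hn, dif_pos he]
  have := he.choose_spec
  rw [← h.injy _ _ h1 h2 this.1 this.2.1 this.2.2]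

lemma kap_out {w : V} (h : ¬ InC k x y w) : kap k x y w = 0 := by
  have h1 : ¬ ∃ i, 1 ≤ i ∧ i ≤ k ∧ w = x i := fun ⟨i, a, b, e⟩ => h ⟨i, a, b, Or.inl e⟩
  have h2 : ¬ ∃ i, 1 ≤ i ∧ i ≤ k ∧ w = y i := fun ⟨i, a, b, e⟩ => h ⟨i, a, b, Or.inr e⟩
  unfold kap
  rw [dif_neg h1, dif_neg h2]

/-- The three cases. -/
lemma kap_cases (h : Chn H R k x y) (w : V) : (¬ InC k x y w ∧ kap k x y w = 0) ∨
    (∃ u, 1 ≤ u ∧ u ≤ k ∧ w = x u ∧ kap k x y w = 2 * u) ∨
    ∃ u, 1 ≤ u ∧ u ≤ k ∧ w = y u ∧ kap k x y w = 2 * u + 1 := by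
  by_cases hw : InC k x y w
  · right
    obtain ⟨i, h1, h2, rfl | rfl⟩ := hw
    · exact Or.inl ⟨i, h1, h2, rfl, kap_x h h1 h2⟩
    · exact Or.inr ⟨i, h1, h2, rfl, kap_y h h1 h2⟩
  · exact Or.inl ⟨hw, kap_out hw⟩

lemma kap_even (h : Chn H R k x y) {w : V} {u : ℕ} (hu : 1 ≤ u) (e : kap k x y w = 2 * u) :
    w = x u ∧ u ≤ k := by
  rcases kap_cases h w with ⟨-, e'⟩ | ⟨t, t1, t2, t3, e'⟩ | ⟨t, t1, t2, t3, e'⟩
  · omega
  · have : t = u := by omega
    subst this
    exact ⟨t3, t2⟩
  · omega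

lemma kap_odd (h : Chn H R k x y) {w : V} {u : ℕ} (e : kap k x y w = 2 * u + 1) :
    w = y u ∧ u ≤ k ∧ 1 ≤ u := by
  rcases kap_cases h w with ⟨-, e'⟩ | ⟨t, t1, t2, t3, e'⟩ | ⟨t, t1, t2, t3, e'⟩
  · omega
  · omega
  · have : t = u := by omega
    subst this
    exact ⟨t3, t2, t1⟩

lemma kap_zero (h : Chn H R k x y) {w : V} (e : kap k x y w = 0) : ¬ InC k x y w := by
  rcases kap_cases h w with ⟨e', -⟩ | ⟨t, t1, t2, t3, e'⟩ | ⟨t, t1, t2, t3, e'⟩
  · exact e'
  · omega
  · omega

lemma kap_pos (h : Chn H R k x y) {w : V} (e : kap k x y w ≠ 0) : InC k x y w := by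
  by_contra hcon
  exact e (kap_out hcon)

/-- Equal nonzero codes. -/
lemma kap_eq (h : Chn H R k x y) {w w' : V} (e : kap k x y w = kap k x y w')
    (h0 : kap k x y w ≠ 0) : w = w' := by
  rcases kap_cases h w with ⟨-, e'⟩ | ⟨t, t1, t2, t3, e'⟩ | ⟨t, t1, t2, t3, e'⟩
  · omega
  · rw [t3, (kap_even h t1 (e.symm.trans e')).1]
  · rw [t3, (kap_odd h (e.symm.trans e')).1]

lemma pos_po {j : ℕ} (hj : j ≤ 6) : pos 5 j = po j := by
  unfold pos po; split_ifs <;> omega

/-- A vertex is not its own negative. -/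
lemma neg_ne : ∀ a : Q, neg a ≠ a := by decide

/-- The hypotheses of the classification: the ports 1 and 5 are the full unit `v`, at most one port is
outside of the chain. -/
structure F5 (H : SimpleGraph V) (R : V → Bool) (k : ℕ) (x y : ℕ → V) (z c : ℕ → V) (v : ℕ) : Prop where
  b : Base H R k x y
  K : K5 H R k x y z c v
  hk : 3 ≤ k
  out : ∀ i j, i < j → j ≤ 6 → ¬ InC k x y (c i) → InC k x y (c j)

namespace F5

variable (F : F5 H R k x y z c v)
include F

lemma me15 : Me H R (c 1) (c 5) := by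
  rw [F.K.c1, F.K.c5]
  exact F.b.ch.me v F.K.v1 F.K.vk

/-- Mates are at the two ends. -/
lemma mate {i j : ℕ} (hi : i ≤ 6) (hj : j ≤ 6) (hme : Me H R (c i) (c j)) :
    (i ≤ 1 ∧ 5 ≤ j) ∨ (j ≤ 1 ∧ 5 ≤ i) := by
  have h1 := mate_pos F.b.hG F.b.hc F.K.cat (by omega) (i := i) (j := j) (by omega) (by omega) hme
  rw [pos_po hi, pos_po hj] at h1
  unfold po at h1
  split_ifs at h1 <;> omega

/-- The two forks are not both full pairs. -/
lemma no06 : ¬ Me H R (c 0) (c 6) := by
  intro h6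
  obtain ⟨f, D, hK⟩ := exists_ktight F.b.hG F.b.hc F.K.cat (by omega)
  have me : ∀ v w, Me H R v w → f w = neg (f v) := fun v w hm' =>
    (hK.ok v w hm'.1 (fun h' => by
      obtain ⟨l, l1, l2, l3⟩ := h'.1
      exact F.K.cat.unc l l1 l2 (by rw [l3]; exact ⟨w, hm'⟩))).1 hm'.2
  have e1 := (ll5' (e := 1) (e' := 5) (Or.inr rfl) (Or.inl rfl) hK.tight (me _ _ F.me15)).1
  have e2 := me _ _ h6
  norm_num at e1
  rw [← e1] at e2
  exact neg_ne _ e2.symm

/-- There is only one pair of mates. -/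
lemma mates {i j : ℕ} (hi : i ≤ 6) (hj : j ≤ 6) (hij : i < j) (hme : Me H R (c i) (c j)) :
    i = 1 ∧ j = 5 := by
  have hG := F.b.hG
  have h1 : i ≤ 1 ∧ 5 ≤ j := by
    rcases F.mate hi hj hme with h | h
    · exact h
    · omega
  have n0 := F.K.cat.ne0
  have n5 : c 5 ≠ c 6 := F.K.cat.nem
  have hi1 : i = 1 := by
    by_contra hne
    have hi0 : i = 0 := by omega
    subst hi0
    have : j = 5 ∨ j = 6 := by omega
    rcases this with rfl | rfl
    · exact n0 (hG.matching hme.symm F.me15.symm)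
    · exact F.no06 hme
  subst hi1
  refine ⟨rfl, ?_⟩
  by_contra hne
  have : j = 6 := by omega
  subst this
  exact n5 (hG.matching F.me15 hme)

lemma nmates {J : Finset ℕ} (hJ : ∀ j ∈ J, j ≤ 6) (h15 : 1 ∉ J ∨ 5 ∉ J) :
    ∀ i ∈ J, ∀ j ∈ J, ¬ Me H R (c i) (c j) := by
  intro i hi j hj hme
  rcases Nat.lt_trichotomy i j with h1 | h1 | h1
  · obtain ⟨rfl, rfl⟩ := F.mates (hJ _ hi) (hJ _ hj) h1 hme
    rcases h15 with h | h
    · exact h hi
    · exact h hj
  · subst h1
    exact hme.1.ne rfl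
  · obtain ⟨rfl, rfl⟩ := F.mates (hJ _ hj) (hJ _ hi) h1 hme.symm
    rcases h15 with h | h
    · exact h hj
    · exact h hi

lemma opn_of {J : List ℕ} {S : Finset ℕ} (hJ : ∀ j, j ∈ J ↔ j ∈ S) {u : ℕ}
    (h : OpnA k (fun j => kap k x y (c j)) J u) : Opn k x y c S u := by
  obtain ⟨h1, h2, h3, i, hi, h4⟩ := h
  have hch := F.b.ch
  refine ⟨h1, h2, fun j hj => ⟨fun he => ?_, fun he => ?_⟩, ?_⟩
  · refine h3 j ((hJ j).2 hj) ?_
    show kap k x y (c j) / 2 = u
    rw [he, kap_x hch h1 h2]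
    omega
  · refine h3 j ((hJ j).2 hj) ?_
    show kap k x y (c j) / 2 = u
    rw [he, kap_y hch h1 h2]
    omega
  · rcases h4 with h4 | ⟨h4, h5⟩
    · have h6 := kap_even hch (u := u + 1) (by omega) (show kap k x y (c i) = 2 * (u + 1) from by
        have : kap k x y (c i) = 2 * u + 2 := h4
        omega)
      exact Or.inr ⟨i, (hJ i).1 hi, by omega, h6.1⟩
    · have h4' : kap k x y (c i) + 1 = 2 * u := h4
      have h5' : 3 ≤ kap k x y (c i) := h5
      have h6 := kap_odd hch (u := u - 1) (show kap k x y (c i) = 2 * (u - 1) + 1 by omega)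
      exact Or.inl ⟨i, (hJ i).1 hi, by omega, h6.1⟩

lemma few_few {J : List ℕ} {S : Finset ℕ} (hJ : ∀ j, j ∈ J ↔ j ∈ S) (hF : Few H R k x y c S) :
    FewA k (fun j => kap k x y (c j)) J where
  lnk i hi j hj h1 h2 := by
    have hch := F.b.ch
    have h1' : kap k x y (c i) % 2 = 1 := h1
    have h2' : kap k x y (c j) = kap k x y (c i) + 1 := h2
    have a1 := kap_odd hch (u := kap k x y (c i) / 2) (show kap k x y (c i) = _ by omega)
    have a2 := kap_even hch (u := kap k x y (c i) / 2 + 1) (w := c j) (by omega) (by omega)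
    refine hF.lnk i ((hJ i).1 hi) j ((hJ j).1 hj) ?_
    rw [a2.1, a1.1, kap_y hch a1.2.2 a1.2.1]
    have := hch.lk (kap k x y (c i) / 2) a1.2.2 (by omega)
    rw [show (2 * (kap k x y (c i) / 2) + 1) / 2 = kap k x y (c i) / 2 by omega]
    exact this
  opn u w h1 h2 := hF.opn u w (F.opn_of hJ h1) (F.opn_of hJ h2)

lemma few {J : List ℕ} {S : Finset ℕ} (hJ : ∀ j, j ∈ J ↔ j ∈ S) {p q : ℕ} (hp : 1 ≤ p)
    (hpq : p ≤ q) (hq : q ≤ 5) (hS : ∀ j ∈ S, j ≤ 6 ∧ p ≤ po j ∧ po j ≤ q) (h15 : 1 ∉ S ∨ 5 ∉ S)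
    (hcard : (q - p) + 3 < S.card + 2) : FewA k (fun j => kap k x y (c j)) J := by
  refine F.few_few hJ (few_of F.b.hG F.b.ch F.K.cat hp hpq hq ?_
    (F.nmates (fun j hj => (hS j hj).1) h15) hcard)
  intro j hj
  have := hS j hj
  rw [pos_po this.1]
  exact ⟨by omega, this.2⟩

/-- **The arithmetical conditions.** -/
theorem a5 : A5 k v (fun j => kap k x y (c j)) := by
  have hG := F.b.hG
  have hc := F.b.hc
  have hch := F.b.ch
  have hcat := F.K.cat
  have hv1 := F.K.v1
  have hvk := F.K.vk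
  have n0 := hcat.ne0
  have n5 : c 5 ≠ c 6 := hcat.nem
  have hn1 : kap k x y (c 1) = 2 * v := by rw [F.K.c1, kap_x hch hv1 hvk]
  have hn5 : kap k x y (c 5) = 2 * v + 1 := by rw [F.K.c5, kap_y hch hv1 hvk]
  refine ⟨F.hk, hv1, hvk, hn1, hn5, ?_, ?_, ?_, ?_, ?_, ?_, ?_, ?_, ?_, ?_, ?_, ?_, ?_, ?_, ?_, ?_, ?_,
    ?_, ?_⟩
  · intro j _
    show kap k x y (c j) = 0 ∨ (2 ≤ kap k x y (c j) ∧ kap k x y (c j) ≤ 2 * k + 1)
    rcases kap_cases hch (c j) with ⟨-, e'⟩ | ⟨t, t1, t2, t3, e'⟩ | ⟨t, t1, t2, t3, e'⟩ <;> omega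
  · intro j hj hne
    have hne' : kap k x y (c j) ≠ 0 := hne
    show (po j + kap k x y (c j) / 2 + v) % 2 = 1
    obtain ⟨u, u1, u2, u3⟩ := kap_pos hch hne'
    have h1 := port_par hch hcat (i := 1) (j := j) (by omega) (by omega) ⟨hv1, hvk⟩ ⟨u1, u2⟩
      (Or.inl F.K.c1) u3
    rw [pos_po hj, show pos 5 1 = 1 from rfl] at h1
    rcases u3 with e | e
    · rw [e, kap_x hch u1 u2]; omega
    · rw [e, kap_y hch u1 u2]; omega
  · intro i j hij hj he hne
    have he' : kap k x y (c i) = kap k x y (c j) := he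
    have hne' : kap k x y (c i) ≠ 0 := hne
    have hcc := kap_eq hch he' hne'
    have h2 := twice_dist hG hc hcat (i := i) (j := j) (by omega) (by omega) (by omega) hcc
    rw [pos_po (by omega), pos_po hj] at h2
    refine ⟨?_, ?_⟩
    · show kap k x y (c i) = 2 ∨ kap k x y (c i) = 2 * k + 1
      by_contra hcon
      push Not at hcon
      have : ∃ w, Lk H R (c i) w := by
        rcases kap_cases hch (c i) with ⟨-, e'⟩ | ⟨t, t1, t2, t3, e'⟩ | ⟨t, t1, t2, t3, e'⟩
        · omega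
        · have := hch.lk (t - 1) (by omega) (by omega)
          rw [show t - 1 + 1 = t by omega] at this
          exact ⟨_, by rw [t3]; exact this.symm⟩
        · exact ⟨_, by rw [t3]; exact hch.lk t t1 (by omega)⟩
      obtain ⟨w, hw⟩ := this
      exact absurd (port_one hG hcat (i := i) (j := j) (by omega) (by omega) hw hcc) (by omega)
    · unfold po at h2
      split_ifs at h2 <;> omega
  · intro i j hij hj hne he hne2
    have hne' : kap k x y (c i) ≠ 0 := hne
    have he' : kap k x y (c i) / 2 = kap k x y (c j) / 2 := he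
    have hne2' : kap k x y (c i) ≠ kap k x y (c j) := hne2
    refine F.mates (by omega) hj hij ?_
    rcases kap_cases hch (c i) with ⟨-, e1⟩ | ⟨t, t1, t2, t3, e1⟩ | ⟨t, t1, t2, t3, e1⟩
    · omega
    · have := kap_odd hch (w := c j) (u := t) (by omega)
      rw [t3, this.1]
      exact hch.me t t1 t2
    · have := kap_even hch (w := c j) (u := t) (by omega) (by omega)
      rw [t3, this.1]
      exact (hch.me t t1 t2).symm
  · intro i j hi hj hp h1 h2 h3
    have h1' : kap k x y (c i) % 2 = 0 := h1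
    have h2' : kap k x y (c i) ≠ 0 := h2
    have h3' : kap k x y (c j) = kap k x y (c i) + 3 := h3
    have a1 := kap_even hch (w := c i) (u := kap k x y (c i) / 2) (by omega) (by omega)
    have a2 := kap_odd hch (w := c j) (u := kap k x y (c i) / 2 + 1) (by omega)
    refine no_xy hG hc hch hcat (by omega) (i := i) (j := j) (by omega) (by omega) (by omega)
      (by omega) a1.1 a2.1 ?_
    rw [pos_po hi, pos_po hj]
    omega
  · intro i j hi hj hp h1 h3
    have h1' : kap k x y (c i) % 2 = 1 := h1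
    have h3' : kap k x y (c j) = kap k x y (c i) + 1 := h3
    have a1 := kap_odd hch (w := c i) (u := kap k x y (c i) / 2) (by omega)
    have a2 := kap_even hch (w := c j) (u := kap k x y (c i) / 2 + 1) (by omega) (by omega)
    refine no_yx hG hc hch hcat (by omega) (i := i) (j := j) (by omega) (by omega) a1.2.2
      (by omega) a1.1 a2.1 ?_
    rw [pos_po hi, pos_po hj]
    omega
  · intro i j hij hj h1 h2
    exact F.out i j hij hj (kap_zero hch h1) |> fun h => by
      have h2' : kap k x y (c j) = 0 := h2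
      exact kap_zero hch h2' h
  · exact F.few (S := {0, 1}) (by intro j; simp) (p := 1) (q := 1) le_rfl le_rfl (by omega)
      (by decide) (by decide) (by decide)
  · exact F.few (S := {0, 1, 2}) (by intro j; simp) (p := 1) (q := 2) le_rfl (by omega) (by omega)
      (by decide) (by decide) (by decide)
  · exact F.few (S := {0, 1, 2, 3}) (by intro j; simp) (p := 1) (q := 3) le_rfl (by omega) (by omega)
      (by decide) (by decide) (by decide)
  · exact F.few (S := {0, 1, 2, 3, 4}) (by intro j; simp) (p := 1) (q := 4) le_rfl (by omega)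
      (by omega) (by decide) (by decide) (by decide)
  · exact F.few (S := {2, 3, 4, 5, 6}) (by intro j; simp) (p := 2) (q := 5) (by omega) (by omega)
      (by omega) (by decide) (by decide) (by decide)
  · exact F.few (S := {3, 4, 5, 6}) (by intro j; simp) (p := 3) (q := 5) (by omega) (by omega)
      (by omega) (by decide) (by decide) (by decide)
  · exact F.few (S := {4, 5, 6}) (by intro j; simp) (p := 4) (q := 5) (by omega) (by omega)
      (by omega) (by decide) (by decide) (by decide)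
  · exact F.few (S := {5, 6}) (by intro j; simp) (p := 5) (q := 5) (by omega) (by omega)
      (by omega) (by decide) (by decide) (by decide)
  · exact F.few (S := {0, 1, 2, 3, 4, 6}) (by intro j; simp) (p := 1) (q := 5) le_rfl (by omega)
      (by omega) (by decide) (by decide) (by decide)
  · exact F.few (S := {0, 2, 3, 4, 5, 6}) (by intro j; simp) (p := 1) (q := 5) le_rfl (by omega)
      (by omega) (by decide) (by decide) (by decide)
  · intro he hne u hu
    have he' : c 0 = c 6 := kap_eq hch he hne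
    have h1 := law1 hG hch hcat (p := 1) (q := 5) le_rfl (by omega) (by omega)
      (J := {0, 1, 2, 3, 4, 6}) (fun j hj => by
        have h6 : j ≤ 6 := by fin_cases hj <;> simp
        rw [pos_po h6]
        fin_cases hj <;> simp [po])
      (F.nmates (by decide) (by decide)) (F.opn_of (by intro j; simp) hu)
    have h2 : (({0, 1, 2, 3, 4, 6} : Finset ℕ).image c).card ≤ 5 := by
      have : ({0, 1, 2, 3, 4, 6} : Finset ℕ).image c ⊆ ({0, 1, 2, 3, 4} : Finset ℕ).image c := by
        intro w hw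
        obtain ⟨j, hj, rfl⟩ := mem_image.1 hw
        by_cases h6 : j = 6
        · rw [h6, ← he']
          exact mem_image_of_mem _ (by simp)
        · refine mem_image_of_mem _ ?_
          simp only [mem_insert, mem_singleton] at hj ⊢
          omega
      exact (card_le_card this).trans Finset.card_image_le
    have h3 : ({0, 1, 2, 3, 4, 6} : Finset ℕ).card = 6 := by decide
    omega
  · intro he hne u hu
    have he' : c 0 = c 6 := kap_eq hch he hne
    have h1 := law1 hG hch hcat (p := 1) (q := 5) le_rfl (by omega) (by omega)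
      (J := {0, 2, 3, 4, 5, 6}) (fun j hj => by
        have h6 : j ≤ 6 := by fin_cases hj <;> simp
        rw [pos_po h6]
        fin_cases hj <;> simp [po])
      (F.nmates (by decide) (by decide)) (F.opn_of (by intro j; simp) hu)
    have h2 : (({0, 2, 3, 4, 5, 6} : Finset ℕ).image c).card ≤ 5 := by
      have : ({0, 2, 3, 4, 5, 6} : Finset ℕ).image c ⊆ ({0, 2, 3, 4, 5} : Finset ℕ).image c := by
        intro w hw
        obtain ⟨j, hj, rfl⟩ := mem_image.1 hw
        by_cases h6 : j = 6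
        · rw [h6, ← he']
          exact mem_image_of_mem _ (by simp)
        · refine mem_image_of_mem _ ?_
          simp only [mem_insert, mem_singleton] at hj ⊢
          omega
      exact (card_le_card this).trans Finset.card_image_le
    have h3 : ({0, 2, 3, 4, 5, 6} : Finset ℕ).card = 6 := by decide
    omega

end F5

end CLB.H91
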