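import Pool.Agent.Helper91_DA.M5F

/-!
From the patterns to the windows.
-/

set_option autoImplicit false
set_option linter.unusedSectionVars false

namespace CLB.H91.M5

variable {k v : ℕ} {n : ℕ → ℕ}

/-- The port is outside of the first `t` units. -/
def Far (n : ℕ → ℕ) (t j : ℕ) : Prop := n j < 2 ∨ 2 * t + 2 ≤ n j

/-- Another port is not in the unit of a port (not both leaves of different forks). -/
lemma A5.ne (h : A5 k v n) {i j : ℕ} (hi : i ≤ 6) (hj : j ≤ 6) (hij : i ≠ j)
    (h1 : (2 ≤ i ∨ j ≤ 4) ∧ (2 ≤ j ∨ i ≤ 4)) : n i = 0 ∨ n j = 0 ∨ n i / 2 ≠ n j / 2 := by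
  rcases Nat.lt_or_gt_of_ne hij with h2 | h2
  · have := h.dif h2 hj (by omega); omega
  · have := h.dif h2 hi (by omega); omega

/-- The leaves `0` and `5`. -/
lemma A5.ne05 (h : A5 k v n) (hv : v < k) : n 0 / 2 ≠ v := by
  intro he
  have h1 := h.n1
  have h5 := h.n5
  have a := h.inj 0 1 (by omega) (by omega)
  have b := h.inj 0 5 (by omega) (by omega)
  have h0 := h.v1
  omega

lemma A5.ne05' (h : A5 k v n) : n 0 ≠ 2 * v := by
  intro he
  have h1 := h.n1
  have a := h.inj 0 1 (by omega) (by omega)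
  have h0 := h.v1
  omega

/-- The leaves `1` and `6`. -/
lemma A5.ne16 (h : A5 k v n) (hv : 1 < v) : n 6 / 2 ≠ v := by
  intro he
  have h1 := h.n1
  have h5 := h.n5
  have a := h.inj 5 6 (by omega) (by omega)
  have b := h.inj 1 6 (by omega) (by omega)
  omega

lemma A5.ne16' (h : A5 k v n) : n 6 ≠ 2 * v + 1 := by
  intro he
  have h5 := h.n5
  have a := h.inj 5 6 (by omega) (by omega)
  omega

/-- The leaves `0` and `6`. -/
lemma A5.ne06 (h : A5 k v n) : n 0 = 0 ∨ n 0 / 2 ≠ n 6 / 2 ∨ (n 0 = n 6 ∧ (n 0 = 2 ∨ n 0 = 2 * k + 1)) := by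
  have a := h.inj 0 6 (by omega) (by omega)
  have b := h.full 0 6 (by omega) (by omega)
  omega

lemma A5.n6_1 (h : A5 k 1 n) : n 6 / 2 ≠ 1 := by
  intro he
  have h1 := h.n1
  have h5 := h.n5
  have hk := h.hk
  have a := h.inj 5 6 (by omega) (by omega)
  have b := h.full 5 6 (by omega) (by omega)
  omega

lemma A5.n0_v (h : A5 k v n) : n 0 / 2 ≠ v := by
  intro he
  have h1 := h.n1
  have h0 := h.v1
  have a := h.inj 0 1 (by omega) (by omega)
  have b := h.full 0 1 (by omega) (by omega)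
  omega

lemma A5.n6_v (h : A5 k v n) : n 6 / 2 ≠ v := by
  intro he
  have h5 := h.n5
  have h0 := h.v1
  have a := h.inj 5 6 (by omega) (by omega)
  have b := h.full 5 6 (by omega) (by omega)
  omega

/-- The parity, in the form for concrete positions. -/
lemma A5.pr (h : A5 k v n) {j : ℕ} (hj : j ≤ 6) :
    n j = 0 ∨ (2 ≤ n j ∧ n j ≤ 2 * k + 1 ∧ (po j + n j / 2 + v) % 2 = 1) := by
  have a := h.rng j hj
  have b := h.par j hj
  omega

lemma far1 (h : A5 k v n) (hv : v = 1) (h4 : n 4 = 5) :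
    Far n 2 0 ∧ Far n 2 2 ∧ Far n 2 3 ∧ Far n 2 6 := by
  subst hv
  have n1 := h.n1
  have n5 := h.n5
  have p0 := h.pr (j := 0) (by omega)
  have p2 := h.pr (j := 2) (by omega)
  have p3 := h.pr (j := 3) (by omega)
  have p6 := h.pr (j := 6) (by omega)
  have a0 := h.n0_v
  have a6 := h.n6_v
  have a2 := h.ne (i := 2) (j := 4) (by omega) (by omega) (by omega) (by omega)
  have b2 := h.ne (i := 2) (j := 1) (by omega) (by omega) (by omega) (by omega)
  have a3 := h.ne (i := 3) (j := 1) (by omega) (by omega) (by omega) (by omega)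
  simp only [po] at p0 p2 p3 p6
  norm_num at p0 p2 p3 p6
  unfold Far
  refine ⟨?_, ?_, ?_, ?_⟩ <;> omega

lemma far2 (h : A5 k v n) (hv : v = 1) (h6 : n 6 = 6) (h4 : n 4 = 8) :
    Far n 4 0 ∧ Far n 4 2 ∧ Far n 4 3 := by
  subst hv
  have n1 := h.n1
  have n5 := h.n5
  have hu2 := h.unit2 (by omega)
  have u0 := hu2 0 (by omega)
  have u2 := hu2 2 (by omega)
  have u3 := hu2 3 (by omega)
  have hr := h.rng 6 (by omega)
  have p0 := h.pr (j := 0) (by omega)
  have p2 := h.pr (j := 2) (by omega)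
  have p3 := h.pr (j := 3) (by omega)
  have a0 := h.n0_v
  have b0 := h.ne06
  have a2 := h.ne (i := 2) (j := 4) (by omega) (by omega) (by omega) (by omega)
  have b2 := h.ne (i := 2) (j := 1) (by omega) (by omega) (by omega) (by omega)
  have a3 := h.ne (i := 3) (j := 1) (by omega) (by omega) (by omega) (by omega)
  have b3 := h.ne (i := 3) (j := 6) (by omega) (by omega) (by omega) (by omega)
  simp only [po] at p0 p2 p3
  norm_num at p0 p2 p3
  unfold Far
  have c6 := h.inj 0 6 (by omega) (by omega)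
  refine ⟨?_, ?_, ?_⟩ <;> omega

lemma far3 (h : A5 k v n) (hv : v = 1) (h2 : n 2 = 8) (h3 : n 3 = 6) (hn4 : n 4 ≠ 5) :
    Far n 4 0 ∧ Far n 4 4 ∧ Far n 4 6 := by
  subst hv
  have n1 := h.n1
  have n5 := h.n5
  have hu2 := h.unit2 hn4
  have u0 := hu2 0 (by omega)
  have u4 := hu2 4 (by omega)
  have u6 := hu2 6 (by omega)
  have p0 := h.pr (j := 0) (by omega)
  have p4 := h.pr (j := 4) (by omega)
  have p6 := h.pr (j := 6) (by omega)
  have a0 := h.n0_v
  have a6 := h.n6_v
  have a4 := h.ne (i := 4) (j := 2) (by omega) (by omega) (by omega) (by omega)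
  have b0 := h.ne (i := 0) (j := 3) (by omega) (by omega) (by omega) (by omega)
  have b6 := h.ne (i := 6) (j := 3) (by omega) (by omega) (by omega) (by omega)
  simp only [po] at p0 p4 p6
  norm_num at p0 p4 p6
  unfold Far
  refine ⟨?_, ?_, ?_⟩ <;> omega

lemma far6 (h : A5 k v n) (hv : v = 2) (h2 : n 2 = 2) :
    Far n 2 0 ∧ Far n 2 3 ∧ Far n 2 4 ∧ Far n 2 6 := by
  subst hv
  have n1 := h.n1
  have n5 := h.n5
  have p0 := h.pr (j := 0) (by omega)
  have p3 := h.pr (j := 3) (by omega)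
  have p4 := h.pr (j := 4) (by omega)
  have p6 := h.pr (j := 6) (by omega)
  have a0 := h.n0_v
  have a6 := h.n6_v
  have a3 := h.ne (i := 3) (j := 1) (by omega) (by omega) (by omega) (by omega)
  have a4 := h.ne (i := 4) (j := 2) (by omega) (by omega) (by omega) (by omega)
  simp only [po] at p0 p3 p4 p6
  norm_num at p0 p3 p4 p6
  unfold Far
  refine ⟨?_, ?_, ?_, ?_⟩ <;> omega

lemma far7 (h : A5 k v n) (hv : v = 3) (h2 : n 2 = 4) (h3 : n 3 = 2) :
    Far n 3 0 ∧ Far n 3 4 ∧ Far n 3 6 := by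
  subst hv
  have n1 := h.n1
  have n5 := h.n5
  have p0 := h.pr (j := 0) (by omega)
  have p4 := h.pr (j := 4) (by omega)
  have p6 := h.pr (j := 6) (by omega)
  have a0 := h.n0_v
  have a6 := h.n6_v
  have b0 := h.ne (i := 0) (j := 3) (by omega) (by omega) (by omega) (by omega)
  have b6 := h.ne (i := 6) (j := 3) (by omega) (by omega) (by omega) (by omega)
  have b4 := h.ne (i := 4) (j := 2) (by omega) (by omega) (by omega) (by omega)
  simp only [po] at p0 p4 p6
  norm_num at p0 p4 p6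
  unfold Far
  refine ⟨?_, ?_, ?_⟩ <;> omega

lemma far10 (h : A5 k v n) (hv : v % 2 = 0) (h3 : n 3 = 4) : Far n 3 0 ∧ Far n 3 6 := by
  have p0 := h.pr (j := 0) (by omega)
  have p6 := h.pr (j := 6) (by omega)
  have b0 := h.ne (i := 0) (j := 3) (by omega) (by omega) (by omega) (by omega)
  have b6 := h.ne (i := 6) (j := 3) (by omega) (by omega) (by omega) (by omega)
  simp only [po] at p0 p6
  norm_num at p0 p6
  unfold Far
  refine ⟨?_, ?_⟩ <;> omega

lemma far11 (h : A5 k v n) (hv : v = 5) (hk : 6 ≤ k) (h6 : n 6 = 2) (h4 : n 4 = 4) (h3 : n 3 = 6) :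
    Far n 3 0 ∧ Far n 3 2 := by
  subst hv
  have n1 := h.n1
  have n5 := h.n5
  have p0 := h.pr (j := 0) (by omega)
  have p2 := h.pr (j := 2) (by omega)
  have b0 := h.ne (i := 0) (j := 3) (by omega) (by omega) (by omega) (by omega)
  have b2 := h.ne (i := 2) (j := 4) (by omega) (by omega) (by omega) (by omega)
  have c06 := h.ne06
  have hd : n 0 ≠ 2 := by
    intro h0
    have hx := h.dx (by omega) (by omega)
    have hy := h.dy (by omega) (by omega)
    have l2 := h.wy.lnk 5 (by simp) 2 (by simp) (by omega)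
    have q2 := h.ady 2 1 (by omega) (by omega) (by decide)
    -- unit 4 is seen
    have s4 : n 2 = 8 := by
      by_contra hcon
      refine hx 4 ⟨by omega, by omega, ?_, 1, by simp, Or.inl (by omega)⟩
      intro l hl
      simp only [List.mem_cons, List.not_mem_nil, or_false] at hl
      rcases hl with rfl | rfl | rfl | rfl | rfl | rfl <;> omega
    refine hy 6 ⟨by omega, hk, ?_, 5, by simp, Or.inr (by omega)⟩
    intro l hl
    simp only [List.mem_cons, List.not_mem_nil, or_false] at hl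
    rcases hl with rfl | rfl | rfl | rfl | rfl | rfl <;> omega
  simp only [po] at p0 p2
  norm_num at p0 p2
  unfold Far
  refine ⟨?_, ?_⟩ <;> omega

lemma far13 (h : A5 k v n) (hv : v = k) (hk : 7 ≤ k) (h0 : n 0 = 2) (h2 : n 2 = 4) (h3 : n 3 = 6) :
    Far n 3 4 ∧ Far n 3 6 := by
  have n1 := h.n1
  have n5 := h.n5
  have p4 := h.pr (j := 4) (by omega)
  have p6 := h.pr (j := 6) (by omega)
  have p0 := h.pr (j := 0) (by omega)
  have b4 := h.ne (i := 4) (j := 2) (by omega) (by omega) (by omega) (by omega)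
  have b6 := h.ne (i := 6) (j := 3) (by omega) (by omega) (by omega) (by omega)
  have c06 := h.ne06
  simp only [po] at p0 p4 p6
  norm_num at p0 p4 p6
  have hd : n 6 ≠ 2 := by
    intro h6
    have hx := h.dx (by omega) (by omega)
    have l4 := h.wx.lnk 4 (by simp) 1 (by simp)
    have s4 : n 4 + 2 = 2 * k := by
      by_contra hcon
      refine hx (k - 1) ⟨by omega, by omega, ?_, 1, by simp, Or.inl (by omega)⟩
      intro l hl
      simp only [List.mem_cons, List.not_mem_nil, or_false] at hl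
      rcases hl with rfl | rfl | rfl | rfl | rfl | rfl <;> omega
    refine hx (k - 2) ⟨by omega, by omega, ?_, 4, by simp, Or.inl (by omega)⟩
    intro l hl
    simp only [List.mem_cons, List.not_mem_nil, or_false] at hl
    rcases hl with rfl | rfl | rfl | rfl | rfl | rfl <;> omega
  unfold Far
  refine ⟨?_, ?_⟩ <;> omega

/-- Unit 4 has only the port `p` (window 8). -/
lemma far8 (h : A5 k v n) (hv : v = 1) {p : ℕ} (hp : p = 2 ∨ p = 4) (h4 : n p = 8) {j : ℕ}
    (hj : j ≤ 6) (hjp : j ≠ p) : n j / 2 ≠ 4 := by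
  have n1 := h.n1
  have n5 := h.n5
  have a := h.ne (i := j) (j := p) hj (by omega) hjp (by omega)
  omega

end CLB.H91.M5
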