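import Pool.Agent.Helper91_DA.M5G
import Pool.Agent.Helper3_DA.M5W
import Pool.Agent.Helper80_DA.M5V
import Pool.Agent.Helper86_DA.M5X
import Pool.Agent.Helper95_CLB.TFive

/-!
Components with five vertices: every pattern is killed by a window, except the special type.
-/

set_option autoImplicit false
set_option linter.unusedSectionVars false

namespace CLB.H91.M5

open H3DA (Q neg nr)

/-- Labels along a chain. -/
lemma lab7 : ∀ a b d : Q, nr (neg a) b = true → nr (neg b) d = true → a = neg d → False := by decide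

end CLB.H91.M5

namespace CLB.H91

open Finset Classical
open H3DA (Q neg nr)
open CLB.H95
open CLB.H3 (CExt Cat IsTwo Fits UPath he_of_unc cat_structure chn_side pos KTight exists_ktight twice_dist
  ll5' one_le_pos pos_le)
open CLB.H91.M5

section one

variable {V : Type*} {H : SimpleGraph V} {R : V → Bool} [Fintype V] {k v : ℕ} {x y z c : ℕ → V}

/-- The labels at the full unit. -/
lemma F5.labels (F : F5 H R k x y z c v) : ∃ f : V → Q, f (c 0) = f (c 6) ∧
    (∀ i, 1 ≤ i → i ≤ k → f (y i) = neg (f (x i))) ∧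
    ∀ i, 1 ≤ i → i < k → nr (f (y i)) (f (x (i + 1))) = true := by
  obtain ⟨f, D, hK⟩ := exists_ktight F.b.hG F.b.hc F.K.cat (by omega)
  have hcov : ∀ v, Cov H R v → v ∉ cSupp 5 z := by
    rintro v hv ⟨l, l1, l2, rfl⟩
    exact F.K.cat.unc l l1 l2 hv
  have me : ∀ v w, Me H R v w → f w = neg (f v) := fun v w hm' =>
    (hK.ok v w hm'.1 (fun h' => hcov v ⟨w, hm'⟩ h'.1)).1 hm'.2
  have lk : ∀ v w, Lk H R v w → nr (f v) (f w) = true := fun v w hl =>
    (hK.ok v w hl.1.1 (fun h' => hcov v hl.2.1 h'.1)).2 hl.1.2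
  have e1 := (ll5' (e := 1) (e' := 5) (Or.inr rfl) (Or.inl rfl) hK.tight (me _ _ F.me15)).1
  norm_num at e1
  exact ⟨f, e1, fun i h1 h2 => me _ _ (F.b.ch.me i h1 h2), fun i h1 h2 => lk _ _ (F.b.ch.lk i h1 h2)⟩

/-- The special type needs nine units. -/
lemma F5.no57 (F : F5 H R k x y z c v) (hk : 5 ≤ k) (h0 : c 0 = y 5) (h6 : c 6 = x 3) : False := by
  obtain ⟨f, h1, h2, h3⟩ := F.labels
  have a1 := h3 3 (by omega) (by omega)
  have a2 := h3 4 (by omega) (by omega)
  norm_num at a1 a2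
  rw [h2 3 (by omega) (by omega)] at a1
  rw [h2 4 (by omega) (by omega)] at a2
  rw [h0, h6, h2 5 (by omega) (by omega)] at h1
  exact lab7 _ _ _ a1 a2 h1.symm

lemma F5.outU (F : F5 H R k x y z c v) {t j : ℕ} (ht : t ≤ k)
    (hf : Far (fun j => kap k x y (c j)) t j) : OutU x y t (c j) := by
  intro i i1 i2
  have hf' : kap k x y (c j) < 2 ∨ 2 * t + 2 ≤ kap k x y (c j) := hf
  constructor
  · intro he
    rw [he, kap_x F.b.ch i1 (by omega)] at hf'
    omega
  · intro he
    rw [he, kap_y F.b.ch i1 (by omega)] at hf'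
    omega

lemma F5.toX (F : F5 H R k x y z c v) {j u w : ℕ} (h : (fun j => kap k x y (c j)) j = w)
    (hw : w = 2 * u) (hu : 1 ≤ u) : c j = x u := (kap_even F.b.ch hu (h.trans hw)).1

lemma F5.toY (F : F5 H R k x y z c v) {j u w : ℕ} (h : (fun j => kap k x y (c j)) j = w)
    (hw : w = 2 * u + 1) : c j = y u := (kap_odd F.b.ch (h.trans hw)).1

end one

section two

variable {V : Type} {H : SimpleGraph V} {R : V → Bool} [Fintype V] {k v : ℕ} {x y z c : ℕ → V}

theorem F5.pat (F : F5 H R k x y z c v) (w7 : W7Stmt) (e2 : E2Stmt)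
    (hP : Pat k v (fun j => kap k x y (c j))) : T5 k x y 5 c := by
  have A := F.a5
  have hch := F.b.ch
  have hk := F.hk
  rcases hP with ⟨hv, h4⟩ | ⟨hv, h6, h4, hk'⟩ | ⟨hv, h2, h3, hk'⟩ | ⟨hv, k5, h0, h6, h2⟩ |
    ⟨hv, kodd, k7, h0, h2, h3, h4, h6⟩ | ⟨hv, k3, h2⟩ | ⟨hv, k4, h2, h3⟩ |
    ⟨hv, k5, h0, h2, h3, h4, h6⟩ | ⟨hv, k5, h0, h2, h3, h4, h6⟩ | ⟨hv, k5, h4, h3, h2⟩ |
    ⟨hv, k6, h6, h4, h3⟩ | ⟨hv, k6, h2, h3, h4⟩ | ⟨hv, k7, h0, h2, h3⟩
  · exfalso
    obtain ⟨f0, f2, f3, f6⟩ := far1 A hv h4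
    subst hv
    exact CLB.H86.w4 V H R k x y z c F.b F.K hk (F.toY h4 (u := 2) rfl) (F.outU (by omega) f0)
      (F.outU (by omega) f2) (F.outU (by omega) f3) (F.outU (by omega) f6)
  · exfalso
    obtain ⟨f0, f2, f3⟩ := far2 A hv h6 h4
    subst hv
    exact CLB.H80.w1 V H R k x y z c F.b F.K (by omega) (F.toX h6 (u := 3) rfl (by omega))
      (F.toX h4 (u := 4) rfl (by omega)) (F.outU (by omega) f0)
      (F.outU (by omega) f2) (F.outU (by omega) f3)
  · exfalso
    by_cases h45 : (fun j => kap k x y (c j)) 4 = 5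
    · obtain ⟨f0, f2, f3, f6⟩ := far1 A hv h45
      subst hv
      exact CLB.H86.w4 V H R k x y z c F.b F.K hk (F.toY h45 (u := 2) rfl) (F.outU (by omega) f0)
        (F.outU (by omega) f2) (F.outU (by omega) f3) (F.outU (by omega) f6)
    · obtain ⟨f0, f4, f6⟩ := far3 A hv h2 h3 h45
      subst hv
      exact CLB.H80.w5 V H R k x y z c F.b F.K (by omega) (F.toX h2 (u := 4) rfl (by omega))
        (F.toX h3 (u := 3) rfl (by omega)) (F.outU (by omega) f0)
        (F.outU (by omega) f4) (F.outU (by omega) f6)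
  · exfalso
    have hf := fun (j : ℕ) (hj : j ≤ 6) (hj2 : j ≠ 2) =>
      far8 A hv (p := 2) (Or.inl rfl) h2 hj hj2
    subst hv
    refine CLB.H86.w8 V H R k x y z c F.b F.K k5 (F.toX h0 (u := 5) rfl (by omega))
      (F.toX h6 (u := 3) rfl (by omega)) ⟨2, Or.inl rfl, F.toX h2 (u := 4) rfl (by omega),
        fun j hj hj2 => ?_⟩
    have h := hf j hj hj2
    constructor
    · intro he
      refine h ?_
      show kap k x y (c j) / 2 = 4
      rw [he, kap_x hch (by omega) (by omega)]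
    · intro he
      refine h ?_
      show kap k x y (c j) / 2 = 4
      rw [he, kap_y hch (by omega) (by omega)]
  · -- the special type
    have h0' : kap k x y (c 0) + 3 = 2 * k := h0
    have h2' : kap k x y (c 2) + 1 = 2 * k := h2
    have h3' : kap k x y (c 3) = 2 * k + 1 := h3
    have h4' : kap k x y (c 4) = 0 := h4
    have h6' : kap k x y (c 6) = 6 := h6
    have c0 : c 0 = y (k - 2) := (kap_odd hch (show kap k x y (c 0) = 2 * (k - 2) + 1 by omega)).1
    have c2 : c 2 = y (k - 1) := (kap_odd hch (show kap k x y (c 2) = 2 * (k - 1) + 1 by omega)).1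
    have c3 : c 3 = y k := (kap_odd hch h3').1
    have c6 : c 6 = x 3 := (kap_even hch (u := 3) (by omega) h6').1
    have hk7 : k ≠ 7 := by
      intro h7
      refine F.no57 (by omega) ?_ c6
      rw [c0, h7]
    subst hv
    exact ⟨rfl, by omega, 1, 0, 6, 5, 2, Or.inl ⟨Or.inr ⟨rfl, rfl⟩, Or.inr ⟨rfl, rfl⟩⟩,
      Or.inl ⟨by omega, rfl⟩, F.K.c1, c0, c2, c3, kap_zero hch h4', c6, F.K.c5⟩
  · exfalso
    obtain ⟨f0, f3, f4, f6⟩ := far6 A hv h2
    subst hv
    exact CLB.H3.w3 V H R k x y z c F.b F.K k3 (F.toX h2 (u := 1) rfl (by omega))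
      (F.outU (by omega) f0) (F.outU (by omega) f3) (F.outU (by omega) f4) (F.outU (by omega) f6)
  · exfalso
    obtain ⟨f0, f4, f6⟩ := far7 A hv h2 h3
    subst hv
    exact w7 V H R k x y z c F.b F.K k4 (F.toX h2 (u := 2) rfl (by omega))
      (F.toX h3 (u := 1) rfl (by omega)) (F.outU (by omega) f0) (F.outU (by omega) f4)
      (F.outU (by omega) f6)
  · exfalso
    subst hv
    subst k5
    exact CLB.H3.e1 V H R x y z c F.b F.K (F.toX h0 (u := 1) rfl (by omega))
      (F.toX h2 (u := 2) rfl (by omega)) (kap_zero hch h3) (F.toY h4 (u := 4) rfl)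
      (F.toY h6 (u := 5) rfl)
  · exfalso
    subst hv
    subst k5
    exact e2 V H R x y z c F.b F.K (F.toY h0 (u := 5) rfl)
      (F.toX h2 (u := 2) rfl (by omega)) (kap_zero hch h3) (F.toY h4 (u := 4) rfl)
      (F.toX h6 (u := 1) rfl (by omega))
  · exfalso
    obtain ⟨f0, f6⟩ := far10 A (by omega) h3
    exact CLB.H3.w2 V H R k x y z c v F.b F.K (by omega) (by omega)
      (Or.inl ⟨F.toX h4 (u := 1) rfl (by omega), F.toX h3 (u := 2) rfl (by omega),
        F.toX h2 (u := 3) rfl (by omega)⟩) (F.outU (by omega) f0) (F.outU (by omega) f6)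
  · exfalso
    obtain ⟨f0, f2⟩ := far11 A hv k6 h6 h4 h3
    exact CLB.H3.w6 V H R k x y z c v F.b F.K (by omega) (by omega)
      (Or.inl ⟨F.toX h6 (u := 1) rfl (by omega), F.toX h4 (u := 2) rfl (by omega),
        F.toX h3 (u := 3) rfl (by omega), F.outU (by omega) f0, F.outU (by omega) f2⟩)
  · exfalso
    have hv2 : v % 2 = 0 := by
      have h2' : kap k x y (c 2) = 2 := h2
      have := A.par 2 (by omega) (show kap k x y (c 2) ≠ 0 by omega)
      have e : kap k x y (c 2) / 2 = 1 := by omega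
      change (po 2 + kap k x y (c 2) / 2 + v) % 2 = 1 at this
      rw [e] at this
      simp only [po] at this
      norm_num at this
      omega
    obtain ⟨f0, f6⟩ := far10 A hv2 h3
    exact CLB.H3.w2 V H R k x y z c v F.b F.K (by omega) (by omega)
      (Or.inr ⟨F.toX h2 (u := 1) rfl (by omega), F.toX h3 (u := 2) rfl (by omega),
        F.toX h4 (u := 3) rfl (by omega)⟩) (F.outU (by omega) f0) (F.outU (by omega) f6)
  · exfalso
    obtain ⟨f4, f6⟩ := far13 A hv k7 h0 h2 h3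
    exact CLB.H3.w6 V H R k x y z c v F.b F.K (by omega) (by omega)
      (Or.inr ⟨F.toX h0 (u := 1) rfl (by omega), F.toX h2 (u := 2) rfl (by omega),
        F.toX h3 (u := 3) rfl (by omega), F.outU (by omega) f4, F.outU (by omega) f6⟩)

end two

end CLB.H91
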