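import Pool.Agent.Helper91_DA.M5F
import Pool.Agent.Helper80_DA.Le4A
import Pool.Agent.Helper95_CLB.TFive

/-!
Components with five vertices: symmetries, and the components without full unit.
-/

set_option autoImplicit false
set_option linter.unusedSectionVars false

namespace CLB.H91

open Finset Classical
open H3DA (Q neg nr)
open CLB.H95
open CLB.H3 (CExt Cat IsTwo Fits UPath he_of_unc cat_structure chn_side pos KTight exists_ktight twice_dist
  ll5' one_le_pos pos_le NoFull)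
open CLB.H91.M5
open CLB.H80 (OneX shape_cases)

variable {V : Type*} {H : SimpleGraph V} {R : V → Bool} [Fintype V] {k v m : ℕ} {x y z c : ℕ → V}

/-! ### Symmetries of caterpillars -/

lemma cat_swL (hm : 2 ≤ m) (h : Cat H R m z c) : Cat H R m z (fun j => c (swL j)) where
  pos := h.pos
  inj := h.inj
  unc := h.unc
  cov j hj := h.cov _ (CLB.H3.swL_le (by omega) hj)
  adjz := h.adjz
  adjc i h1 h2 := by
    show H.Adj (z i) (c (swL i))
    by_cases hi : i = 1
    · subst hi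
      exact h.adj0
    · rw [swL_of (by omega)]
      exact h.adjc i h1 h2
  adj0 := h.adjc 1 le_rfl h.pos
  adjm := by
    show H.Adj (z m) (c (swL (m + 1)))
    rw [swL_of (by omega)]
    exact h.adjm
  ne0 := h.ne0.symm
  nem := by
    show c (swL m) ≠ c (swL (m + 1))
    rw [swL_of hm, swL_of (by omega)]
    exact h.nem
  ne1 hm1 := by omega
  nbr i h1 h2 w hw := by
    show w = c (swL i) ∨ (i = 1 ∧ w = c (swL 0)) ∨ (i = m ∧ w = c (swL (m + 1))) ∨
      (1 < i ∧ w = z (i - 1)) ∨ (i < m ∧ w = z (i + 1))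
    rw [swL_of (j := m + 1) (by omega)]
    by_cases hi : i = 1
    · subst hi
      rcases h.nbr 1 h1 h2 w hw with e | ⟨e1, e2⟩ | h'
      · exact Or.inr (Or.inl ⟨rfl, e⟩)
      · exact Or.inl e2
      · exact Or.inr (Or.inr h')
    · rw [swL_of (j := i) (by omega)]
      rcases h.nbr i h1 h2 w hw with e | ⟨e1, e2⟩ | h'
      · exact Or.inl e
      · exact absurd e1 hi
      · exact Or.inr (Or.inr h')

lemma cat_swR (hm : 2 ≤ m) (h : Cat H R m z c) : Cat H R m z (fun j => c (swR m j)) where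
  pos := h.pos
  inj := h.inj
  unc := h.unc
  cov j hj := h.cov _ (CLB.H3.swR_le hj)
  adjz := h.adjz
  adjc i h1 h2 := by
    show H.Adj (z i) (c (swR m i))
    by_cases hi : i = m
    · rw [hi, CLB.H3.swR_mid]
      exact h.adjm
    · rw [swR_of (by omega)]
      exact h.adjc i h1 h2
  adj0 := by
    show H.Adj (z 1) (c (swR m 0))
    rw [swR_of (by omega)]
    exact h.adj0
  adjm := by
    show H.Adj (z m) (c (swR m (m + 1)))
    rw [CLB.H3.swR_last]
    exact h.adjc m h.pos le_rfl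
  ne0 := by
    show c (swR m 0) ≠ c (swR m 1)
    rw [swR_of (by omega), swR_of (by omega)]
    exact h.ne0
  nem := by
    show c (swR m m) ≠ c (swR m (m + 1))
    rw [CLB.H3.swR_mid, CLB.H3.swR_last]
    exact h.nem.symm
  ne1 hm1 := by omega
  nbr i h1 h2 w hw := by
    show w = c (swR m i) ∨ (i = 1 ∧ w = c (swR m 0)) ∨ (i = m ∧ w = c (swR m (m + 1))) ∨
      (1 < i ∧ w = z (i - 1)) ∨ (i < m ∧ w = z (i + 1))
    rw [swR_of (j := 0) (by omega), CLB.H3.swR_last]
    by_cases hi : i = m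
    · subst hi
      rw [CLB.H3.swR_mid]
      rcases h.nbr i h1 le_rfl w hw with e | ⟨e1, e2⟩ | ⟨e1, e2⟩ | h'
      · exact Or.inr (Or.inr (Or.inl ⟨rfl, e⟩))
      · exact Or.inr (Or.inl ⟨e1, e2⟩)
      · exact Or.inl e2
      · exact Or.inr (Or.inr (Or.inr h'))
    · rw [swR_of (j := i) (by omega)]
      rcases h.nbr i h1 h2 w hw with e | ⟨e1, e2⟩ | ⟨e1, e2⟩ | h'
      · exact Or.inl e
      · exact Or.inr (Or.inl ⟨e1, e2⟩)
      · exact absurd e1 hi
      · exact Or.inr (Or.inr (Or.inr h'))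

/-! ### Symmetries of the special type -/

lemma t5_swL (h : T5 k x y 5 (fun j => c (swL j))) : T5 k x y 5 c := by
  obtain ⟨-, hk, a, b, d, e, p, hf, hp, h1, h2, h3, h4, h5, h6, h7⟩ := h
  refine ⟨rfl, hk, swL a, swL b, swL d, swL e, p, ?_, ?_, h1, h2, ?_, h4, ?_, h6, h7⟩
  · unfold Fk5 at hf ⊢
    unfold swL
    rcases hf with ⟨⟨rfl, rfl⟩ | ⟨rfl, rfl⟩, ⟨rfl, rfl⟩ | ⟨rfl, rfl⟩⟩ |
      ⟨⟨rfl, rfl⟩ | ⟨rfl, rfl⟩, ⟨rfl, rfl⟩ | ⟨rfl, rfl⟩⟩ <;> simp
  · rcases hp with ⟨ha, rfl⟩ | ⟨ha, rfl⟩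
    · left
      refine ⟨?_, rfl⟩
      unfold swL; split_ifs <;> omega
    · right
      rw [swL_of (by omega)]
      exact ⟨ha, rfl⟩
  · have h3' : c (swL p) = y (k - 1) := h3
    rwa [swL_of (by omega)] at h3'
  · have h5' : ¬ InC k x y (c (swL (6 - p))) := h5
    rwa [swL_of (by omega)] at h5'

lemma t5_swR (h : T5 k x y 5 (fun j => c (swR 5 j))) : T5 k x y 5 c := by
  obtain ⟨-, hk, a, b, d, e, p, hf, hp, h1, h2, h3, h4, h5, h6, h7⟩ := h
  refine ⟨rfl, hk, swR 5 a, swR 5 b, swR 5 d, swR 5 e, p, ?_, ?_, h1, h2, ?_, h4, ?_, h6, h7⟩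
  · unfold Fk5 at hf ⊢
    unfold swR
    rcases hf with ⟨⟨rfl, rfl⟩ | ⟨rfl, rfl⟩, ⟨rfl, rfl⟩ | ⟨rfl, rfl⟩⟩ |
      ⟨⟨rfl, rfl⟩ | ⟨rfl, rfl⟩, ⟨rfl, rfl⟩ | ⟨rfl, rfl⟩⟩ <;> simp
  · rcases hp with ⟨ha, rfl⟩ | ⟨ha, rfl⟩
    · left
      rw [swR_of (by omega)]
      exact ⟨ha, rfl⟩
    · right
      refine ⟨?_, rfl⟩
      unfold swR; split_ifs <;> omega
  · have h3' : c (swR 5 p) = y (k - 1) := h3
    rwa [swR_of (by omega)] at h3'
  · have h5' : ¬ InC k x y (c (swR 5 (6 - p))) := h5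
    rwa [swR_of (by omega)] at h5'

lemma t5_rev (h : T5 k x y 5 (fun j => c (6 - j))) : T5 k x y 5 c := by
  obtain ⟨-, hk, a, b, d, e, p, hf, hp, h1, h2, h3, h4, h5, h6, h7⟩ := h
  refine ⟨rfl, hk, 6 - a, 6 - b, 6 - d, 6 - e, 6 - p, ?_, ?_, h1, h2, h3, h4, ?_, h6, h7⟩
  · unfold Fk5 at hf ⊢
    rcases hf with ⟨⟨rfl, rfl⟩ | ⟨rfl, rfl⟩, ⟨rfl, rfl⟩ | ⟨rfl, rfl⟩⟩ |
      ⟨⟨rfl, rfl⟩ | ⟨rfl, rfl⟩, ⟨rfl, rfl⟩ | ⟨rfl, rfl⟩⟩ <;> simp
  · rcases hp with ⟨ha, rfl⟩ | ⟨ha, rfl⟩
    · right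
      omega
    · left
      refine ⟨?_, rfl⟩
      unfold Fk5 at hf
      omega
  · exact h5

/-- The set of ports without exception. -/
def Out1 (k : ℕ) (x y : ℕ → V) (c : ℕ → V) : Prop := ∃ e, ∀ j ≤ 6, j ≠ e → InC k x y (c j)

lemma out1_of (hN : NCp 5 (JC k x y c)) : Out1 k x y c := by
  rcases ncp_cases (by omega) hN with h | ⟨e, he, h⟩ | h | h
  · omega
  · exact ⟨e, fun j hj hje => h j hj hje⟩
  · omega
  · omega

lemma Out1.two (h : Out1 k x y c) {i j : ℕ} (hi : i ≤ 6) (hj : j ≤ 6) (hij : i ≠ j) :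
    InC k x y (c i) ∨ InC k x y (c j) := by
  obtain ⟨e, he⟩ := h
  by_cases h1 : i = e
  · right
    exact he j hj (by omega)
  · exact Or.inl (he i hi h1)

lemma Out1.perm (h : Out1 k x y c) (σ : ℕ → ℕ) (hσ : ∀ j ≤ 6, σ j ≤ 6) (hi : ∀ j ≤ 6, σ (σ j) = j) :
    Out1 k x y (fun j => c (σ j)) := by
  obtain ⟨e, he⟩ := h
  by_cases h6 : e ≤ 6
  · refine ⟨σ e, fun j hj hje => he _ (hσ j hj) (fun h' => hje ?_)⟩
    rw [← h', hi j hj]
  · exact ⟨7, fun j hj _ => he _ (hσ j hj) (by have := hσ j hj; omega)⟩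

/-! ### The reversed chain -/

lemma F5.mirror (F : F5 H R k x y z c v) : F5 H R k (fun i => y (k + 1 - i)) (fun i => x (k + 1 - i))
    (fun i => z (6 - i)) (fun j => c (6 - j)) (k + 1 - v) where
  b := {
    hG := F.b.hG
    hc := F.b.hc
    ch := Chn.rev F.b.ch
    e1 := by
      intro w
      show ¬ Lk H R (y (k + 1 - 1)) w
      rw [show k + 1 - 1 = k by omega]
      exact F.b.ek w
    ek := by
      intro w
      show ¬ Lk H R (x (k + 1 - k)) w
      rw [show k + 1 - k = 1 by omega]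
      exact F.b.e1 w }
  K := {
    cat := cat_rev F.K.cat
    v1 := by have := F.K.vk; omega
    vk := by have := F.K.v1; omega
    c1 := by
      have := F.K.vk
      show c (6 - 1) = y (k + 1 - (k + 1 - v))
      rw [show k + 1 - (k + 1 - v) = v by omega]
      exact F.K.c5
    c5 := by
      have := F.K.vk
      show c (6 - 5) = x (k + 1 - (k + 1 - v))
      rw [show k + 1 - (k + 1 - v) = v by omega]
      exact F.K.c1 }
  hk := F.hk
  out i j hij hj h1 := by
    rw [inC_rev] at h1 ⊢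
    by_contra hcon
    exact h1 (F.out (6 - j) (6 - i) (by omega) (by omega) hcon)

lemma kap_rev (h : Chn H R k x y) (w : V) :
    kap k (fun i => y (k + 1 - i)) (fun i => x (k + 1 - i)) w =
      if kap k x y w = 0 then 0 else 2 * k + 3 - kap k x y w := by
  have h' := Chn.rev h
  rcases kap_cases h w with ⟨e1, e2⟩ | ⟨t, t1, t2, t3, e⟩ | ⟨t, t1, t2, t3, e⟩
  · rw [if_pos e2]
    exact kap_out (fun hin => e1 (inC_rev.1 hin))
  · rw [if_neg (by omega), e]
    have := kap_y h' (i := k + 1 - t) (by omega) (by omega)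
    have e' : x (k + 1 - (k + 1 - t)) = w := by
      rw [show k + 1 - (k + 1 - t) = t by omega, t3]
    rw [e'] at this
    rw [this]
    omega
  · rw [if_neg (by omega), e]
    have := kap_x h' (i := k + 1 - t) (by omega) (by omega)
    have e' : y (k + 1 - (k + 1 - t)) = w := by
      rw [show k + 1 - (k + 1 - t) = t by omega, t3]
    rw [e'] at this
    rw [this]
    omega

lemma kap_mir (h : Chn H R k x y) : (fun j => kap k (fun i => y (k + 1 - i)) (fun i => x (k + 1 - i))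
    (c (6 - j))) = mir k (fun j => kap k x y (c j)) := by
  funext j
  rw [kap_rev h]
  rfl

/-! ### No full unit -/

/-- A component with five vertices does not see six consecutive units on one side only. -/
lemma no_oneX (h : Chn H R k x y) (hcat : Cat H R 5 z c) (hO : Out1 k x y c) {a : ℕ}
    (hX : OneX k x y 5 c a) : False := by
  have hak := hX.ak
  have par : ∀ i j u v, i ≤ 5 + 1 → j ≤ 5 + 1 → 1 ≤ u → u ≤ a → 1 ≤ v → v ≤ a → c i = x u → c j = x v →
      (pos 5 i + u) % 2 = (pos 5 j + v) % 2 := fun i j u v hi hj u1 u2 v1 v2 e1 e2 =>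
    port_par h hcat hi hj ⟨u1, by omega⟩ ⟨v1, by omega⟩ (Or.inl e1) (Or.inl e2)
  -- at least six units
  have ha6 : 6 ≤ a := by
    obtain ⟨e, he⟩ := hO
    have h1 : (((range 7).erase e).image c).card = ((range 7).erase e).card := by
      refine card_image_of_injOn ?_
      intro i hi j hj hij
      rw [Finset.mem_coe, mem_erase, mem_range] at hi hj
      exact hX.inj i j (by omega) (by omega) hij
    have h2 : ((range 7).erase e).image c ⊆ (Icc 1 a).image x := by
      intro w hw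
      obtain ⟨j, hj, rfl⟩ := mem_image.1 hw
      rw [mem_erase, mem_range] at hj
      obtain ⟨i, i1, i2, i3⟩ := hX.all j (by omega) (he j (by omega) hj.1)
      exact mem_image.2 ⟨i, mem_Icc.2 ⟨i1, i2⟩, i3.symm⟩
    have h3 := (card_le_card h2).trans card_image_le
    have h4 : 6 ≤ ((range 7).erase e).card := by
      have := Finset.pred_card_le_card_erase (s := range 7) (a := e)
      rw [card_range] at this
      omega
    rw [Nat.card_Icc] at h3
    omega
  choose! g hg1 hg2 using hX.see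
  have P : ∀ j ≤ 6, pos 5 j = po j := fun j hj => pos_po hj
  have hev : ∀ j ≤ 6, po j % 2 = 0 → j = 2 ∨ j = 4 := by
    intro j hj h1
    unfold po at h1
    split_ifs at h1 <;> omega
  have q : ∀ u, 1 ≤ u → u ≤ 6 → (po (g u) + u) % 2 = (po (g 1) + 1) % 2 := by
    intro u u1 u2
    have := par (g u) (g 1) u 1 (hg1 u u1 (by omega)) (hg1 1 le_rfl (by omega)) u1 (by omega) le_rfl
      (by omega) (hg2 u u1 (by omega)) (hg2 1 le_rfl (by omega))
    rwa [P _ (hg1 u u1 (by omega)), P _ (hg1 1 le_rfl (by omega))] at this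
  have d : ∀ u w, 1 ≤ u → u ≤ 6 → 1 ≤ w → w ≤ 6 → u ≠ w → g u ≠ g w := by
    intro u w u1 u2 w1 w2 huw he
    have e1 := hg2 u u1 (by omega)
    have e2 := hg2 w w1 (by omega)
    rw [he] at e1
    exact huw (h.injx _ _ u1 (by omega) w1 (by omega) (e1.symm.trans e2))
  rcases Nat.mod_two_eq_zero_or_one (po (g 1)) with hp | hp
  · have a1 := hev (g 1) (hg1 1 (by omega) (by omega)) hp
    have a3 := hev (g 3) (hg1 3 (by omega) (by omega)) (by have := q 3 (by omega) (by omega); omega)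
    have a5 := hev (g 5) (hg1 5 (by omega) (by omega)) (by have := q 5 (by omega) (by omega); omega)
    have d13 := d 1 3 (by omega) (by omega) (by omega) (by omega) (by omega)
    have d15 := d 1 5 (by omega) (by omega) (by omega) (by omega) (by omega)
    have d35 := d 3 5 (by omega) (by omega) (by omega) (by omega) (by omega)
    omega
  · have a1 := hev (g 2) (hg1 2 (by omega) (by omega)) (by have := q 2 (by omega) (by omega); omega)
    have a3 := hev (g 4) (hg1 4 (by omega) (by omega)) (by have := q 4 (by omega) (by omega); omega)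
    have a5 := hev (g 6) (hg1 6 (by omega) (by omega)) (by have := q 6 (by omega) (by omega); omega)
    have d13 := d 2 4 (by omega) (by omega) (by omega) (by omega) (by omega)
    have d15 := d 2 6 (by omega) (by omega) (by omega) (by omega) (by omega)
    have d35 := d 4 6 (by omega) (by omega) (by omega) (by omega) (by omega)
    omega

/-- No full unit. -/
lemma noFull_five (hG : ClassC H R) (h : Chn H R k x y) (hcat : Cat H R 5 z c) (hO : Out1 k x y c)
    (hF : NoFull H R 5 c) : ∃ a b, Sp k x y 5 c a b := by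
  rcases shape_cases hG h hcat hF with h1 | ⟨a, h1⟩ | ⟨a, h1⟩
  · exact h1
  · exact (no_oneX h hcat hO h1).elim
  · refine (no_oneX (Chn.rev h) hcat ?_ h1).elim
    obtain ⟨e, he⟩ := hO
    exact ⟨e, fun j hj hje => inC_rev.2 (he j hj hje)⟩

/-! ### Normalisation -/

lemma unit_of (hG : ClassC H R) (h : Chn H R k x y) {v w : V} (hv : InC k x y v) (hm : Me H R v w) :
    ∃ u, 1 ≤ u ∧ u ≤ k ∧ ((v = x u ∧ w = y u) ∨ (v = y u ∧ w = x u)) := by
  obtain ⟨i, i1, i2, rfl | rfl⟩ := hv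
  · exact ⟨i, i1, i2, Or.inl ⟨rfl, hG.matching hm (h.me i i1 i2)⟩⟩
  · exact ⟨i, i1, i2, Or.inr ⟨rfl, hG.matching hm (h.me i i1 i2).symm⟩⟩

end CLB.H91
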