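import Pool.Agent.Helper91_DA.M5H
import Pool.Agent.Helper91_DA.M5J
import Pool.Agent.Helper3_DA.LocAsm
import Pool.Agent.Helper80_DA.M5X

/-!
Components with five vertices: the classification.
-/

set_option autoImplicit false
set_option linter.unusedSectionVars false

namespace CLB.H91

open Finset Classical
open H3DA (Q neg nr)
open CLB.H95
open CLB.H3 (CExt Cat IsTwo Fits UPath he_of_unc cat_structure chn_side pos KTight exists_ktight twice_dist
  ll5' one_le_pos pos_le NoFull)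
open CLB.H91.M5

variable {V : Type} {H : SimpleGraph V} {R : V → Bool} [Fintype V] {k v : ℕ} {x y z c : ℕ → V}

/-- The two conclusions. -/
def TT (k : ℕ) (x y : ℕ → V) (c : ℕ → V) : Prop :=
  T5 k x y 5 c ∨ T5 k (fun i => y (k + 1 - i)) (fun i => x (k + 1 - i)) 5 c

theorem F5.tt (F : F5 H R k x y z c v) (w7 : W7Stmt) (e2 : E2Stmt) : TT k x y c := by
  rcases pat_main F.a5 with hP | hP
  · exact Or.inl (F.pat w7 e2 hP)
  · right
    rw [← kap_mir F.b.ch] at hP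
    exact t5_rev (F.mirror.pat w7 e2 hP)

lemma TT.of_swL (h : TT k x y (fun j => c (swL j))) : TT k x y c := by
  rcases h with h | h
  · exact Or.inl (t5_swL h)
  · exact Or.inr (t5_swL h)

lemma TT.of_swR (h : TT k x y (fun j => c (swR 5 j))) : TT k x y c := by
  rcases h with h | h
  · exact Or.inl (t5_swR h)
  · exact Or.inr (t5_swR h)

lemma TT.of_rev (h : TT k x y (fun j => c (6 - j))) : TT k x y c := by
  rcases h with h | h
  · exact Or.inl (t5_rev h)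
  · exact Or.inr (t5_rev h)

lemma tt1 (w7 : W7Stmt) (e2 : E2Stmt) (hB : Base H R k x y) (hk : 3 ≤ k) (hcat : Cat H R 5 z c)
    (hO : Out1 k x y c) {u : ℕ} (u1 : 1 ≤ u) (u2 : u ≤ k) (c1 : c 1 = x u) (c5 : c 5 = y u) :
    TT k x y c :=
  F5.tt (v := u) ⟨hB, ⟨hcat, u1, u2, c1, c5⟩, hk, fun i j hij hj h1 => by
    rcases hO.two (i := i) (j := j) (by omega) hj (by omega) with h2 | h2
    · exact absurd h2 h1
    · exact h2⟩ w7 e2

lemma tt2 (w7 : W7Stmt) (e2 : E2Stmt) (hB : Base H R k x y) (hk : 3 ≤ k) (hcat : Cat H R 5 z c)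
    (hO : Out1 k x y c) {u i : ℕ} (u1 : 1 ≤ u) (u2 : u ≤ k) (hi : i ≤ 1) (c1 : c i = x u)
    (c5 : c 5 = y u) : TT k x y c := by
  by_cases h0 : i = 0
  · subst h0
    refine TT.of_swL (tt1 w7 e2 hB hk (cat_swL (by omega) hcat) (hO.perm swL ?_ ?_) u1 u2 c1 ?_)
    · intro j hj; exact CLB.H3.swL_le (m := 5) (by omega) hj
    · intro j _; exact swL_swL j
    · exact c5
  · have : i = 1 := by omega
    subst this
    exact tt1 w7 e2 hB hk hcat hO u1 u2 c1 c5

lemma tt3 (w7 : W7Stmt) (e2 : E2Stmt) (hB : Base H R k x y) (hk : 3 ≤ k) (hcat : Cat H R 5 z c)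
    (hO : Out1 k x y c) {u i j : ℕ} (u1 : 1 ≤ u) (u2 : u ≤ k) (hi : i ≤ 1) (hj : 5 ≤ j) (hj6 : j ≤ 6)
    (c1 : c i = x u) (c5 : c j = y u) : TT k x y c := by
  by_cases h0 : j = 6
  · subst h0
    refine TT.of_swR (tt2 w7 e2 hB hk (cat_swR (by omega) hcat) (hO.perm (swR 5) ?_ ?_) u1 u2 hi ?_ ?_)
    · intro j hj; exact CLB.H3.swR_le (m := 5) hj
    · intro j _; exact swR_swR 5 j
    · show c (swR 5 i) = x u
      rw [swR_of (by omega)]
      exact c1
    · exact c5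
  · have : j = 5 := by omega
    subst this
    exact tt2 w7 e2 hB hk hcat hO u1 u2 hi c1 c5

lemma tt4 (w7 : W7Stmt) (e2 : E2Stmt) (hB : Base H R k x y) (hk : 3 ≤ k) (hcat : Cat H R 5 z c)
    (hO : Out1 k x y c) {i j : ℕ} (hi : i ≤ 1) (hj : 5 ≤ j) (hj6 : j ≤ 6) (hme : Me H R (c i) (c j)) :
    TT k x y c := by
  have key : ∃ u, 1 ≤ u ∧ u ≤ k ∧ ((c i = x u ∧ c j = y u) ∨ (c i = y u ∧ c j = x u)) := by
    rcases hO.two (i := i) (j := j) (by omega) hj6 (by omega) with h1 | h1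
    · exact unit_of hB.hG hB.ch h1 hme
    · obtain ⟨u, u1, u2, h | h⟩ := unit_of hB.hG hB.ch h1 hme.symm
      · exact ⟨u, u1, u2, Or.inr ⟨h.2, h.1⟩⟩
      · exact ⟨u, u1, u2, Or.inl ⟨h.2, h.1⟩⟩
  obtain ⟨u, u1, u2, ⟨h1, h2⟩ | ⟨h1, h2⟩⟩ := key
  · exact tt3 w7 e2 hB hk hcat hO u1 u2 hi hj hj6 h1 h2
  · refine TT.of_rev (tt3 w7 e2 hB hk (cat_rev hcat) (hO.perm (fun l => 6 - l) ?_ ?_)
      (i := 6 - j) (j := 6 - i) u1 u2 (by omega) (by omega) (by omega) ?_ ?_)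
    · intro l _; show 6 - l ≤ 6; omega
    · intro l hl; show 6 - (6 - l) = l; omega
    · show c (6 - (6 - j)) = x u
      rw [show 6 - (6 - j) = j by omega]
      exact h2
    · show c (6 - (6 - i)) = y u
      rw [show 6 - (6 - i) = i by omega]
      exact h1

theorem five_all_of (w7 : W7Stmt) (e2 : E2Stmt) : CLB.H3.FiveAll := by
  intro V _ H R k x y z c hG hc h hk e1 ek hcat hN
  have hO := out1_of hN
  by_cases hF : NoFull H R 5 c
  · exact Or.inl (noFull_five hG h hcat hO hF)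
  right
  have hB : Base H R k x y := ⟨hG, hc, h, e1, ek⟩
  unfold NoFull at hF
  push Not at hF
  obtain ⟨i, j, hi, hj, hme⟩ := hF
  have h1 := mate_pos hG hc hcat (by omega) hi hj hme
  rw [pos_po hi, pos_po hj] at h1
  have h2 : (i ≤ 1 ∧ 5 ≤ j) ∨ (j ≤ 1 ∧ 5 ≤ i) := by
    unfold po at h1
    split_ifs at h1 <;> omega
  rcases h2 with ⟨a1, a2⟩ | ⟨a1, a2⟩
  · exact tt4 w7 e2 hB hk hcat hO a1 a2 hj hme
  · exact tt4 w7 e2 hB hk hcat hO a1 a2 hi hme.symm

/-- **The classification of the nearly closed components with five vertices.** -/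
theorem five_all : CLB.H3.FiveAll := five_all_of CLB.H80.w7 CLB.H80.e2

end CLB.H91
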