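import Pool.Agent.Helper91_DA.Late

/-!
Two nearly closed components: the forbidden sets.
-/

set_option autoImplicit false
set_option linter.unusedSectionVars false

namespace CLB.H91

open Finset Classical
open H3DA (Q neg nr)
open CLB.H95
open CLB.H3 (CExt Cat IsTwo Fits UPath he_of_unc cat_structure chn_side pos)

variable {V : Type*} {G H : SimpleGraph V} {R : V → Bool} [Fintype V] {k : ℕ} {x y : ℕ → V}

/-- The forbidden sets. -/
structure PF (H : SimpleGraph V) (R : V → Bool) (k : ℕ) (x y : ℕ → V) (m : ℕ) (z c : ℕ → V) (q : ℕ)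
    (m' : ℕ) (z' c' : ℕ → V) (f : V → Q) (Φ : V → V → (ℕ → Q) → Finset Q) : Prop where
  two : ∀ v w g g', (Φ v w g ∪ Φ v w g').card ≤ 2
  dep : Dep k x y Φ
  phk : ∀ v w g, w ∈ cSupp m z → Φ v w g = phK k x y f m q z c v w g
  one : ∀ v w g, w ∈ cSupp m' z' → (Φ v w g).card ≤ 1
  no : m' % 4 ≠ 0 → ∀ j ≤ m' + 1, c' (mte m' j) = y k → ∀ g, Φ (c' j) (z' (cl m' j)) g = ∅
  st : ∀ i, 1 ≤ i → i + 3 ≤ k → ∀ w g g', Same (i - 1) g g' →
    Φ (x i) w g = Φ (x i) w g' ∧ Φ (y i) w g = Φ (y i) w g'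

/-- **The setup.** -/
theorem pair_setup (hR : Opt G R) (hG : ClassC G R) (hle : H ≤ G) (hc : Crit H R)
    (h : Chn H R k x y) (hk : 4 ≤ k) (hends : (∀ w, ¬ Lk H R (x 1) w) ∧ ∀ w, ¬ Lk H R (y k) w)
    (hloc : LocH H R k x y) {m : ℕ} {z c : ℕ → V} {q : ℕ} {m' : ℕ} {z' c' : ℕ → V} {a b : ℕ}
    (hP : PC H R k x y m z c q m' z' c' a b)
    (hS : ∀ f, OffC H R k x y f → ∀ Φ, PF H R k x y m z c q m' z' c' f Φ →
      ∃ (D : Finset Q) (g g' : ℕ → Q), D.card ≤ 2 ∧ PW H R x y Φ (k - 2) g ∧ PW H R x y Φ (k - 2) g' ∧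
        g (k - 2) ≠ g' (k - 2) ∧ (bad1 m q (fun j => lbl k x y g f (c j))).image (tau k) ⊆ D ∧
        (bad1 m q (fun j => lbl k x y g' f (c j))).image (tau k) ⊆ D) : False := by
  have hH := hG.mono hle
  have hkp := h.pos
  obtain ⟨p', q', -, hp', hq', hcp', hcq', h3, h4⟩ :=
    er_of_sp (H := H) (R := R) (z := z') h (by omega) hP.hm' hP.sp' hP.b2
  obtain ⟨b1, b1'⟩ := prt_of hP.cat' hp' hcp'
  obtain ⟨b2, b2'⟩ := prt_of hP.cat' hq' hcq'
  obtain ⟨f, hf⟩ := exists_off h hc
  obtain ⟨φ, hφ, -, hφ1, hφn, hφs, hφo⟩ := ekill_of_ports_full hH h (by omega) hf hP.cat' hP.hm' hp' hq'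
    hcp' hcq' h3 h4
  obtain ⟨z₀, hz₀⟩ : ∃ z₀, (prt H R (x k)).card = 0 ∨ z₀ ∈ prt H R (x k) := by
    by_cases h0 : (prt H R (x k)).card = 0
    · exact ⟨x k, Or.inl h0⟩
    · obtain ⟨v, hv⟩ := Finset.card_pos.1 (Nat.pos_of_ne_zero h0)
      exact ⟨v, Or.inr hv⟩
  obtain ⟨Φ, hΦ⟩ := exists_oforb hH h (f := f) (cSupp m' z' ∪ cSupp m z) (x k) z₀
  have hdis : ∀ w, w ∈ cSupp m z → w ∉ cSupp m' z' := fun w h1 h2 =>
    hP.ne (cSupp_eq hP.lc.cat hP.cat' h1 h2)
  have hO := oset_phK h hP.lc (f := f) hΦ.toOSet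
  have hPF : PF H R k x y m z c q m' z' c' f
      (ovr (cSupp m' z') φ (ovr (cSupp m z) (phK k x y f m q z c) Φ)) := by
    refine ⟨?_, ?_, ?_, ?_, ?_, ?_⟩
    · intro v w g g'
      by_cases hw : w ∈ cSupp m' z'
      · rw [ovr_in hw, ovr_in hw]; exact hφ.two v w g g'
      · rw [ovr_out hw, ovr_out hw]; exact hO.two v w g g'
    · intro i i1 i2 w g g' hs
      by_cases hw : w ∈ cSupp m' z'
      · rw [ovr_in hw, ovr_in hw, ovr_in hw, ovr_in hw]; exact hφ.dep i i1 i2 w g g' hs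
      · rw [ovr_out hw, ovr_out hw, ovr_out hw, ovr_out hw]
        exact hO.dep i i1 i2 w g g' (hs.mono (by omega))
    · intro v w g hw
      rw [ovr_out (hdis w hw), ovr_in hw]
    · intro v w g hw
      rw [ovr_in hw]; exact hφ1 v w g
    · intro h5 j hj hcj g
      have hcl := cl_mem hP.cat'.pos hj
      rw [ovr_in (mem_cSupp hcl.1 hcl.2)]
      refine hφn j hj ?_ h5 g
      intro hh
      have e : mte m' j = q' := hP.sp'.inj _ _ (mte_le hP.hm' hj) hq'
        (by rw [hcj]; exact InC.y hkp le_rfl) (hcj.trans hcq'.symm)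
      exact hh.2.2.2.2.1 e
    · intro i i1 i2 w g g' hs
      by_cases hw : w ∈ cSupp m' z'
      · rw [ovr_in hw, ovr_in hw, ovr_in hw, ovr_in hw]
        by_cases hi1 : i = 1
        · subst hi1
          exact hφ.dep 1 le_rfl hkp w g g' (fun j j1 j2 => by omega)
        · by_cases hb3 : 3 ≤ b
          · obtain ⟨j, hj, hcj⟩ := hP.sp'.py (k - 2) (by omega) (by omega)
            refine hφs i i1 (by omega) ⟨j, hj, ?_, ?_, by rw [hcj]; exact InC.y (by omega) (by omega),
              ?_⟩ w g g' hs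
            · rintro rfl
              have := h.injy (k - 2) (k - 1) (by omega) (by omega) (by omega) (by omega)
                (hcj.symm.trans hcp')
              omega
            · rintro rfl
              have := h.injy (k - 2) k (by omega) (by omega) (by omega) (by omega)
                (hcj.symm.trans hcq')
              omega
            · rw [hcj, idx_y h (by omega) (by omega)]; omega
          · have hno : ∀ v, (v = x i ∨ v = y i) → ∀ j ≤ m' + 1, c' j = v → z' (cl m' j) ≠ w := by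
              intro v hv j hj hcj _
              have hin : InC k x y (c' j) := by
                rw [hcj]
                rcases hv with rfl | rfl
                · exact InC.x i1 (by omega)
                · exact InC.y i1 (by omega)
              rcases hP.sp'.all j hj hin with ⟨l, l1, l2, l3⟩ | ⟨l, l1, l2, l3⟩
              · have e : l = 1 := by omega
                subst e
                rw [hcj] at l3
                rcases hv with rfl | rfl
                · have := h.injx i 1 i1 (by omega) le_rfl hkp l3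
                  omega
                · exact h.xy 1 i le_rfl hkp i1 (by omega) l3.symm
              · rw [hcj] at l3
                rcases hv with rfl | rfl
                · exact h.xy i l i1 (by omega) (by omega) l1 l3
                · have := h.injy i l i1 (by omega) (by omega) l1 l3
                  omega
            rw [hφo _ _ (hno _ (Or.inl rfl)), hφo _ _ (hno _ (Or.inl rfl)), hφo _ _ (hno _ (Or.inr rfl)),
              hφo _ _ (hno _ (Or.inr rfl))]
            exact ⟨rfl, rfl⟩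
      · rw [ovr_out hw, ovr_out hw, ovr_out hw, ovr_out hw]
        exact hO.dep i i1 (by omega) w g g' hs
  obtain ⟨D, g, g', hD, hg, hg', hne, hb, hb'⟩ := hS f hf _ hPF
  exact late_fin hR hG hle hc h hk hends hloc hP hf b1 b1' b2 b2' hφ hz₀ hΦ hD hg hg' hne hb hb'

/-! ### The lists -/

/-- The first list. -/
lemma list_one (hH : ClassC H R) (h : Chn H R k x y) (hk : 4 ≤ k) {m : ℕ} {z c : ℕ → V} {q : ℕ}
    {m' : ℕ} {z' c' : ℕ → V} {a b : ℕ} (hP : PC H R k x y m z c q m' z' c' a b) {f : V → Q}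
    {Φ : V → V → (ℕ → Q) → Finset Q} (hF : PF H R k x y m z c q m' z' c' f Φ) {j : ℕ}
    (hj : j ≤ m + 1) (hcj : c j = x 1) (g : ℕ → Q) :
    5 ≤ (olst H R x y Φ g 1).card + (phK k x y f m q z c (x 1) (z (cl m j)) g).card := by
  have hkp := h.pos
  obtain ⟨j', hj', hcj'⟩ := hP.sp'.px 1 le_rfl le_rfl
  obtain ⟨u, u'⟩ := prt_of hP.lc.cat hj hcj
  obtain ⟨w, w'⟩ := prt_of hP.cat' hj' hcj'
  have l := lst_card (G := H) (R := R) (x := x) (y := y) (fun v z => Φ v z g) 1
  have h2 : ∀ v z, (Φ v z g).card ≤ 2 := by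
    intro v z
    have := hF.two v z g g
    rwa [Finset.union_self] at this
  have e1 := cst_pair hH (h.cov (InC.x le_rfl hkp)) u w (fun he =>
    hP.ne (cSupp_eq hP.lc.cat hP.cat' u' (by rw [he]; exact w'))) (fun v z => Φ v z g)
  have e2 := cst_le h2 (prt_card_lk hH (h.lk 1 le_rfl (by omega)))
  have e3 := hF.one (x 1) (z' (cl m' j')) g w'
  have e4 := hF.phk (x 1) (z (cl m j)) g u'
  show 5 ≤ (lst H R x y (fun v z => Φ v z g) 1).card + _
  rw [← e4]
  have e1' : cst H R (fun v z => Φ v z g) (x 1) = (Φ (x 1) (z (cl m j)) g).card +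
      (Φ (x 1) (z' (cl m' j')) g).card := e1
  omega

/-- The other lists. -/
lemma list_mid (hH : ClassC H R) (h : Chn H R k x y) {m : ℕ} {z c : ℕ → V} {q : ℕ}
    {m' : ℕ} {z' c' : ℕ → V} {a b : ℕ} (hP : PC H R k x y m z c q m' z' c' a b) {f : V → Q}
    {Φ : V → V → (ℕ → Q) → Finset Q} (hF : PF H R k x y m z c q m' z' c' f Φ) {i j : ℕ}
    (i1 : 2 ≤ i) (i2 : i < k) (hj : j ≤ m + 1) (hcj : c j = x i) (g g' : ℕ → Q) :
    6 ≤ (lst H R x y (uni Φ g g') i).card + (phK k x y f m q z c (x i) (z (cl m j)) g ∪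
      phK k x y f m q z c (x i) (z (cl m j)) g').card := by
  obtain ⟨u, u'⟩ := prt_of hP.lc.cat hj hcj
  have l := lst_card (G := H) (R := R) (x := x) (y := y) (uni Φ g g') i
  have hlk : Lk H R (y (i - 1)) (x i) := by
    have := h.lk (i - 1) (by omega) (by omega)
    rwa [show i - 1 + 1 = i by omega] at this
  have e1 : cst H R (uni Φ g g') (x i) ≤ (uni Φ g g' (x i) (z (cl m j))).card := by
    have h1 := prt_card_lk hH hlk.symm
    have : prt H R (x i) = {z (cl m j)} := by
      apply Finset.eq_singleton_iff_unique_mem.2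
      exact ⟨u, fun w hw => Finset.card_le_one.1 h1 _ hw _ u⟩
    unfold cst
    rw [this, Finset.sum_singleton]
  have e2 := cst_le (Φ := uni Φ g g') (fun v z => hF.two v z g g') (prt_card_lk hH (h.lk i (by omega) i2))
  have e3 : uni Φ g g' (x i) (z (cl m j)) = phK k x y f m q z c (x i) (z (cl m j)) g ∪
      phK k x y f m q z c (x i) (z (cl m j)) g' := by
    unfold uni
    rw [hF.phk _ _ _ u', hF.phk _ _ _ u']
  rw [e3] at e1
  omega

/-- The labels of the ports. -/
lemma lbl_low (h : Chn H R k x y) {m : ℕ} {z c : ℕ → V} {q : ℕ} {m' : ℕ} {z' c' : ℕ → V} {a b : ℕ}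
    (hP : PC H R k x y m z c q m' z' c' a b) {f : V → Q} {g g' : ℕ → Q} (hs : Same (a + 1) g g') {j : ℕ}
    (hj : j ≤ m + 1) (hjq : j ≠ q) : lbl k x y g f (c j) = lbl k x y g' f (c j) := by
  by_cases hin : InC k x y (c j)
  · refine lbl_congr h hin (hs _ (idx_spec hin).1 ?_)
    rcases hP.sp.all j hj hin with ⟨i, i1, i2, i3⟩ | ⟨i, i1, i2, i3⟩
    · rw [i3, idx_x h i1 (by have := hP.ak; omega)]; omega
    · exfalso
      have e : i = k := by omega
      subst e
      exact hjq (hP.sp.inj _ _ hj hP.lc.hq hin (i3.trans hP.lc.cq.symm))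
  · rw [lbl_out hin, lbl_out hin]

lemma bad1_congr {m q : ℕ} (hm : 1 ≤ m) {s s' : ℕ → Q} (h : ∀ j ≤ m + 1, j ≠ q → s j = s' j) :
    bad1 m q s = bad1 m q s' := by
  ext t
  rw [mem_bad1, mem_bad1]
  have key : ∀ s s' : ℕ → Q, (∀ j ≤ m + 1, j ≠ q → s j = s' j) → CExt m (fl1 s q t) →
      CExt m (fl1 s' q t) := by
    intro s s' h hE
    refine cext_congr hm (fun j hj => ?_) hE
    by_cases hjq : j = q
    · rw [hjq, fl1_q, fl1_q]
    · rw [fl1_o hjq, fl1_o hjq]; exact h j hj hjq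
  constructor
  · intro h1 h2; exact h1 (key _ _ (fun j hj hjq => (h j hj hjq).symm) h2)
  · intro h1 h2; exact h1 (key _ _ h h2)

end CLB.H91
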