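import Pool.Agent.Helper91_DA.Setup

/-!
Two nearly closed components: strategies.
-/

set_option autoImplicit false
set_option linter.unusedSectionVars false

namespace CLB.H91

open Finset Classical
open H3DA (Q neg nr)
open CLB.H95
open CLB.H3 (CExt Cat IsTwo Fits UPath he_of_unc cat_structure chn_side pos)

variable {V : Type*} {G H : SimpleGraph V} {R : V → Bool} [Fintype V] {k : ℕ} {x y : ℕ → V}

/-- Conflict-free forks for a partial walk to the unit `k - 2`. -/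
lemma fna_of (hH : ClassC H R) (h : Chn H R k x y) {m : ℕ} {z c : ℕ → V} {q : ℕ}
    {m' : ℕ} {z' c' : ℕ → V} {a b : ℕ} (hP : PC H R k x y m z c q m' z' c' a b) {f : V → Q}
    (hf : OffC H R k x y f) {Φ : V → V → (ℕ → Q) → Finset Q}
    (hF : PF H R k x y m z c q m' z' c' f Φ) {g : ℕ → Q} (hg : PW H R x y Φ (k - 2) g) :
    (q ≠ 0 → q ≠ 1 → lbl k x y g f (c 0) ≠ neg (lbl k x y g f (c 1))) ∧
    (q ≠ m → q ≠ m + 1 → lbl k x y g f (c m) ≠ neg (lbl k x y g f (c (m + 1)))) :=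
  fna_late hH h hf hP.lc (pav_of h hP.lc.cat hF.phk hg)

/-- **The late port is inner.** -/
theorem strat_inner (hR : Opt G R) (hG : ClassC G R) (hle : H ≤ G) (hc : Crit H R)
    (h : Chn H R k x y) (hk : 4 ≤ k) (hends : (∀ w, ¬ Lk H R (x 1) w) ∧ ∀ w, ¬ Lk H R (y k) w)
    (hloc : LocH H R k x y) {m : ℕ} {z c : ℕ → V} {q : ℕ} {m' : ℕ} {z' c' : ℕ → V} {a b : ℕ}
    (hP : PC H R k x y m z c q m' z' c' a b) (hq : 2 ≤ q) (hqm : q + 1 ≤ m) : False := by
  have hH := hG.mono hle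
  refine pair_setup hR hG hle hc h hk hends hloc hP (fun f hf Φ hF => ?_)
  have h2 : ∀ g v z, (Φ v z g).card ≤ 2 := by
    intro g v z
    have := hF.two v z g g
    rwa [Finset.union_self] at this
  have g0 : ℕ → Q := fun _ => (false, false, false)
  have l1 := lst_first hH h (Φ := fun v z => Φ v z g0) (h2 g0) (by omega)
  obtain ⟨s, hs, s', hs', hss⟩ := Finset.one_lt_card.1
    (show 1 < (olst H R x y Φ g0 1).card from by
      show 1 < (lst H R x y (fun v z => Φ v z g0) 1).card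
      omega)
  obtain ⟨g, g', hg, hg', hne, -, -⟩ := walks_from hH h hF.two hF.dep (n0 := 1) le_rfl
    (P := fun _ => True) (fun _ _ _ _ => trivial) (pw_one hF.dep h.pos hs) (pw_one hF.dep h.pos hs')
    (by simpa using hss) trivial trivial (n := k - 2) (by omega) (by omega)
  have key : ∀ g : ℕ → Q, PW H R x y Φ (k - 2) g →
      ((bad1 m q (fun j => lbl k x y g f (c j))).image (tau k)).card ≤ 1 := by
    intro g hg
    obtain ⟨e1, e2⟩ := fna_of hH h hP hf hF hg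
    exact Finset.card_image_le.trans (bad1_inner hP.lc.hm hq hqm (e1 (by omega) (by omega))
      (e2 (by omega) (by omega)))
  refine ⟨_ ∪ _, g, g', ?_, hg, hg', hne, Finset.subset_union_left, Finset.subset_union_right⟩
  have a1 := key g hg
  have a2 := key g' hg'
  exact (Finset.card_union_le _ _).trans (by omega)

/-- The position of a leaf and its mate. -/
def LM (m q q' : ℕ) : Prop :=
  (q = 0 ∧ q' = 1) ∨ (q = 1 ∧ q' = 0) ∨ (q = m ∧ q' = m + 1) ∨ (q = m + 1 ∧ q' = m)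

lemma LM.mte {m q q' : ℕ} (hm : 2 ≤ m) (h : LM m q q') : mte m q = q' ∧ CLB.H91.mte m q' = q := by
  rcases h with ⟨rfl, rfl⟩ | ⟨rfl, rfl⟩ | ⟨rfl, rfl⟩ | ⟨rfl, rfl⟩
  · exact ⟨rfl, rfl⟩
  · exact ⟨rfl, rfl⟩
  · exact ⟨mte_m hm, mte_m1 hm⟩
  · exact ⟨mte_m1 hm, mte_m hm⟩

lemma LM.le {m q q' : ℕ} (hm : 2 ≤ m) (h : LM m q q') : q ≤ m + 1 ∧ q' ≤ m + 1 ∧ q ≠ q' := by
  unfold LM at h; omega

lemma LM.symm {m q q' : ℕ} (h : LM m q q') : LM m q' q := by
  unfold LM at h ⊢; omega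

lemma LM.lfp {m q q' : ℕ} (h : LM m q q') : lfp m q := by
  unfold LM at h; unfold CLB.H91.lfp; omega

/-- **The same labels at all ports up to `x a`.** -/
theorem strat_same (hR : Opt G R) (hG : ClassC G R) (hle : H ≤ G) (hc : Crit H R)
    (h : Chn H R k x y) (hk : 4 ≤ k) (hends : (∀ w, ¬ Lk H R (x 1) w) ∧ ∀ w, ¬ Lk H R (y k) w)
    (hloc : LocH H R k x y) {m : ℕ} {z c : ℕ → V} {q q' : ℕ} {m' : ℕ} {z' c' : ℕ → V} {a b : ℕ}
    (hP : PC H R k x y m z c q m' z' c' a b) (hq : LM m q q')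
    (hS : ∀ f, OffC H R k x y f → ∀ Φ, PF H R k x y m z c q m' z' c' f Φ →
      ∃ (n : ℕ) (g g' : ℕ → Q), a < n ∧ n ≤ k - 2 ∧ PW H R x y Φ n g ∧ PW H R x y Φ n g' ∧
        g n ≠ g' n ∧ Same (a + 1) g g') : False := by
  have hH := hG.mono hle
  refine pair_setup hR hG hle hc h hk hends hloc hP (fun f hf Φ hF => ?_)
  obtain ⟨n, g, g', n1, n2, hg, hg', hne, hs⟩ := hS f hf Φ hF
  obtain ⟨w, w', hw, hw', hne', hsw, hsw'⟩ := walks_from hH h hF.two hF.dep (n0 := n) (by omega)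
    (P := fun u => Same (a + 1) g u) (fun u v huv hu => hu.trans (huv.mono (by omega))) hg hg' hne
    (fun _ _ _ => rfl) hs (n := k - 2) n2 (by omega)
  obtain ⟨e1, e2⟩ := fna_of hH h hP hf hF hw
  obtain ⟨T, hT⟩ := bad1_leaf (s := fun j => lbl k x y w f (c j)) hP.lc.hm hq e1 e2
  have he : bad1 m q (fun j => lbl k x y w' f (c j)) = bad1 m q (fun j => lbl k x y w f (c j)) :=
    bad1_congr (by have := hP.lc.hm; omega) (fun j hj hjq =>
      lbl_low h hP (hsw'.symm.trans hsw) hj hjq)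
  refine ⟨(bad1 m q (fun j => lbl k x y w f (c j))).image (tau k), w, w', ?_, hw, hw', hne',
    Finset.Subset.refl _, by rw [he]⟩
  refine Finset.card_image_le.trans ((Finset.card_le_card hT).trans Finset.card_le_two)

/-- **The late component is dead.** -/
theorem strat_dead (hR : Opt G R) (hG : ClassC G R) (hle : H ≤ G) (hc : Crit H R)
    (h : Chn H R k x y) (hk : 4 ≤ k) (hends : (∀ w, ¬ Lk H R (x 1) w) ∧ ∀ w, ¬ Lk H R (y k) w)
    (hloc : LocH H R k x y) {m : ℕ} {z c : ℕ → V} {q q' : ℕ} {m' : ℕ} {z' c' : ℕ → V} {a b : ℕ}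
    (hP : PC H R k x y m z c q m' z' c' a b) (hq : LM m q q')
    (hS : ∀ f, OffC H R k x y f → ∀ Φ, PF H R k x y m z c q m' z' c' f Φ →
      ∃ (n : ℕ) (P : (ℕ → Q) → Prop) (g g' : ℕ → Q), 1 ≤ n ∧ n ≤ k - 2 ∧
        (∀ g w, Same (n + 1) g w → P g → P w) ∧
        (∀ g, P g → ∀ t D, ¬ Tight D (fl1 (fun j => lbl k x y g f (c j)) q t) m) ∧
        PW H R x y Φ n g ∧ PW H R x y Φ n g' ∧ g n ≠ g' n ∧ P g ∧ P g') : False := by
  have hH := hG.mono hle
  refine pair_setup hR hG hle hc h hk hends hloc hP (fun f hf Φ hF => ?_)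
  obtain ⟨n, P, g, g', n1, n2, hPs, hPd, hg, hg', hne, hPg, hPg'⟩ := hS f hf Φ hF
  obtain ⟨w, w', hw, hw', hne', hPw, hPw'⟩ := walks_from hH h hF.two hF.dep (n0 := n) n1
    (P := P) hPs hg hg' hne hPg hPg' (n := k - 2) n2 (by omega)
  obtain ⟨e1, e2⟩ := fna_of hH h hP hf hF hw
  obtain ⟨e1', e2'⟩ := fna_of hH h hP hf hF hw'
  have d1 := bad1_dead (s := fun j => lbl k x y w f (c j)) hP.lc.hm hq e1 e2 (hPd w hPw)
  have d2 := bad1_dead (s := fun j => lbl k x y w' f (c j)) hP.lc.hm hq e1' e2' (hPd w' hPw')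
  refine ⟨_ ∪ _, w, w', ?_, hw, hw', hne', Finset.subset_union_left, Finset.subset_union_right⟩
  have a1 := (Finset.card_image_le (f := tau k)).trans (Finset.card_le_card d1)
  have a2 := (Finset.card_image_le (f := tau k)).trans (Finset.card_le_card d2)
  rw [Finset.card_singleton] at a1 a2
  exact (Finset.card_union_le _ _).trans (by omega)

/-- Carrying an antipodal pair. -/
lemma carry {Φ : V → V → (ℕ → Q) → Finset Q} (hd : Dep k x y Φ) {C : (ℕ → Q) → Prop}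
    (hC : ∀ g w, Same 2 g w → C g → C w) {a : ℕ} (hak : a < k)
    (hl : ∀ g g', C g → C g' → ∀ i, 2 ≤ i → i ≤ a → 5 ≤ (lst H R x y (uni Φ g g') i).card) {n : ℕ}
    (h1 : 1 ≤ n) {g g' : ℕ → Q} (hg : PW H R x y Φ n g) (hg' : PW H R x y Φ n g')
    (ha : g' n = neg (g n)) (hCg : C g) (hCg' : C g') {n' : ℕ} (hn : n ≤ n') :
    n' ≤ a → ∃ w w', PW H R x y Φ n' w ∧ PW H R x y Φ n' w' ∧ w' n' = neg (w n') ∧ C w ∧ C w' := by
  induction n', hn using Nat.le_induction with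
  | base => intro _; exact ⟨g, g', hg, hg', ha, hCg, hCg'⟩
  | succ n' hn ih =>
    intro hle
    obtain ⟨w, w', p1, p2, p3, p4, p5⟩ := ih (by omega)
    obtain ⟨v, v', q1, q2, q3, q4, q5⟩ := anti_step hd (by omega) (by omega) p1 p2 p3
      (hl w w' p4 p5 (n' + 1) (by omega) hle)
    refine ⟨v, v', q1, q2, q3, ?_, ?_⟩
    · rcases q4 with q4 | q4
      · exact hC _ _ (q4.mono (by omega)) p4
      · exact hC _ _ (q4.mono (by omega)) p5
    · rcases q5 with q5 | q5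
      · exact hC _ _ (q5.mono (by omega)) p4
      · exact hC _ _ (q5.mono (by omega)) p5

/-- From an antipodal pair at some unit `≤ a` to walks with the same labels up to `a`. -/
lemma same_of_anti (hH : ClassC H R) (h : Chn H R k x y) {Φ : V → V → (ℕ → Q) → Finset Q}
    (h2 : ∀ v w g g', (Φ v w g ∪ Φ v w g').card ≤ 2) (hd : Dep k x y Φ) {C : (ℕ → Q) → Prop}
    (hC : ∀ g w, Same 2 g w → C g → C w) {a : ℕ} (hak : a + 3 ≤ k)
    (hl : ∀ g g', C g → C g' → ∀ i, 2 ≤ i → i ≤ a → 5 ≤ (lst H R x y (uni Φ g g') i).card) {n : ℕ}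
    (h1 : 1 ≤ n) (hna : n ≤ a) {g g' : ℕ → Q} (hg : PW H R x y Φ n g) (hg' : PW H R x y Φ n g')
    (ha : g' n = neg (g n)) (hCg : C g) (hCg' : C g') :
    ∃ (n : ℕ) (g g' : ℕ → Q), a < n ∧ n ≤ k - 2 ∧ PW H R x y Φ n g ∧ PW H R x y Φ n g' ∧
        g n ≠ g' n ∧ Same (a + 1) g g' := by
  obtain ⟨w, w', p1, p2, p3, -, -⟩ := carry hd hC (by omega) hl h1 hg hg' ha hCg hCg' hna le_rfl
  obtain ⟨v, v', q1, q2, q3, q4, -⟩ := anti_split hd (by omega) (by omega) p1 p2 p3 (by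
    have := lst_inner hH h (i := a + 1) (Φ := uni Φ w w') (fun v z => h2 v z w w') (by omega) (by omega)
    omega)
  exact ⟨a + 1, v, v', by omega, by omega, q1, q2, q3, q4⟩

end CLB.H91
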